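import Pool.Agent.H62.M4.Spec

/-!
MP_6c826d_gt (S13329), module B1: disjoint open sectors in the plane have total angle at most `2π`.
-/

set_option autoImplicit false

namespace Pool.Agent.H62.M4

open Finset

theorem sector_pos (a b : ℂ) (h : 0 < (b * (starRingEnd ℂ) a).im) :
    ∃ u : ℝ, ∀ r : ℝ,
      |r| < Real.arccos ((b * (starRingEnd ℂ) a).re / (‖b‖ * ‖a‖)) / 2 →
      ∃ x y : ℝ, 0 < x ∧ 0 < y ∧
        (x : ℂ) * a + (y : ℂ) * b = Complex.exp (((u + r : ℝ) : ℂ) * Complex.I) := by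
  have ha : a ≠ 0 := by
    rintro rfl; simp at h
  have hb : b ≠ 0 := by
    rintro rfl; simp at h
  have hna : 0 < ‖a‖ := norm_pos_iff.mpr ha
  have hnb : 0 < ‖b‖ := norm_pos_iff.mpr hb
  have hprod : 0 < ‖b‖ * ‖a‖ := mul_pos hnb hna
  set w : ℂ := b * (starRingEnd ℂ) a with hw
  have hwn : ‖w‖ = ‖b‖ * ‖a‖ := by
    rw [hw, norm_mul, Complex.norm_conj]
  set θ : ℝ := Real.arccos (w.re / (‖b‖ * ‖a‖)) with hθ
  have hsq : w.re ^ 2 + w.im ^ 2 = (‖b‖ * ‖a‖) ^ 2 := by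
    rw [← hwn, ← Complex.normSq_eq_norm_sq, Complex.normSq_apply]; ring
  have hle : |w.re / (‖b‖ * ‖a‖)| ≤ 1 := by
    rw [abs_div, abs_of_pos hprod, div_le_one hprod, ← hwn]
    exact Complex.abs_re_le_norm w
  have hcos : Real.cos θ = w.re / (‖b‖ * ‖a‖) :=
    Real.cos_arccos (abs_le.mp hle).1 (abs_le.mp hle).2
  have hsin : Real.sin θ = w.im / (‖b‖ * ‖a‖) := by
    rw [hθ, Real.sin_arccos]
    have : 1 - (w.re / (‖b‖ * ‖a‖)) ^ 2 = (w.im / (‖b‖ * ‖a‖)) ^ 2 := by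
      field_simp
      linarith
    rw [this]
    exact Real.sqrt_sq (div_nonneg h.le hprod.le)
  have hsin0 : 0 < Real.sin θ := by rw [hsin]; exact div_pos h hprod
  have hθ0 : 0 ≤ θ := Real.arccos_nonneg _
  have hθπ : θ ≤ Real.pi := Real.arccos_le_pi _
  -- polar form
  have hwe : w = ((‖b‖ * ‖a‖ : ℝ) : ℂ) * Complex.exp ((θ : ℂ) * Complex.I) := by
    rw [Complex.exp_mul_I, ← Complex.ofReal_cos, ← Complex.ofReal_sin, hcos, hsin]
    have hN : ((‖b‖ * ‖a‖ : ℝ) : ℂ) ≠ 0 := by exact_mod_cast hprod.ne'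
    conv_lhs => rw [← Complex.re_add_im w]
    rw [Complex.ofReal_div, Complex.ofReal_div]
    generalize ((‖b‖ * ‖a‖ : ℝ) : ℂ) = N at hN
    field_simp
  have hae : a = ((‖a‖ : ℝ) : ℂ) * Complex.exp ((Complex.arg a : ℂ) * Complex.I) :=
    (Complex.norm_mul_exp_arg_mul_I a).symm
  have hbe : b = ((‖b‖ : ℝ) : ℂ) * (Complex.exp ((Complex.arg a : ℂ) * Complex.I) *
      Complex.exp ((θ : ℂ) * Complex.I)) := by
    have h1 : b * (((‖a‖ ^ 2 : ℝ)) : ℂ) = a * w := by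
      rw [hw, ← Complex.normSq_eq_norm_sq, ← Complex.mul_conj]; ring
    have h2 : (((‖a‖ : ℝ)) : ℂ) ≠ 0 := by
      exact_mod_cast hna.ne'
    have h3 : b * (((‖a‖ : ℝ)) : ℂ) ^ 2 = (((‖b‖ : ℝ) : ℂ) *
        (Complex.exp ((Complex.arg a : ℂ) * Complex.I) *
        Complex.exp ((θ : ℂ) * Complex.I))) * (((‖a‖ : ℝ)) : ℂ) ^ 2 := by
      have h4 : b * (((‖a‖ : ℝ)) : ℂ) ^ 2 = a * w := by rw [← h1]; push_cast; ring
      rw [h4, hwe]
      generalize ((θ : ℂ) * Complex.I) = T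
      have h5 : a * (((‖b‖ * ‖a‖ : ℝ) : ℂ) * Complex.exp T) =
          a * (((‖a‖ : ℝ) : ℂ) * (((‖b‖ : ℝ) : ℂ) * Complex.exp T)) := by
        push_cast; ring
      rw [h5]
      conv_lhs => rw [show a * (((‖a‖ : ℝ) : ℂ) * (((‖b‖ : ℝ) : ℂ) * Complex.exp T)) =
        (((‖a‖ : ℝ) : ℂ) * Complex.exp ((Complex.arg a : ℂ) * Complex.I)) *
          (((‖a‖ : ℝ) : ℂ) * (((‖b‖ : ℝ) : ℂ) * Complex.exp T)) by rw [← hae]]
      ring
    exact mul_right_cancel₀ (pow_ne_zero 2 h2) h3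
  refine ⟨Complex.arg a + θ / 2, fun r hr => ?_⟩
  obtain ⟨hr1, hr2⟩ := abs_lt.mp hr
  have p1 : 0 < Real.sin (θ / 2 - r) :=
    Real.sin_pos_of_pos_of_lt_pi (by linarith) (by linarith)
  have p2 : 0 < Real.sin (θ / 2 + r) :=
    Real.sin_pos_of_pos_of_lt_pi (by linarith) (by linarith)
  refine ⟨Real.sin (θ / 2 - r) / (Real.sin θ * ‖a‖), Real.sin (θ / 2 + r) / (Real.sin θ * ‖b‖),
    div_pos p1 (mul_pos hsin0 hna), div_pos p2 (mul_pos hsin0 hnb), ?_⟩
  have key : (Real.sin (θ / 2 - r) : ℂ) + (Real.sin (θ / 2 + r) : ℂ) *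
      Complex.exp ((θ : ℂ) * Complex.I) =
      (Real.sin θ : ℂ) * Complex.exp (((θ / 2 + r : ℝ) : ℂ) * Complex.I) := by
    rw [Complex.exp_mul_I, Complex.exp_mul_I, ← Complex.ofReal_cos, ← Complex.ofReal_sin,
      ← Complex.ofReal_cos, ← Complex.ofReal_sin]
    have e1 : θ / 2 - r = θ - (θ / 2 + r) := by ring
    rw [e1, Real.sin_sub]
    apply Complex.ext
    · simp
      ring
    · simp
      ring
  have hA : (((‖a‖ : ℝ)) : ℂ) ≠ 0 := by exact_mod_cast hna.ne'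
  have hB : (((‖b‖ : ℝ)) : ℂ) ≠ 0 := by exact_mod_cast hnb.ne'
  have hS : ((Real.sin θ : ℝ) : ℂ) ≠ 0 := by exact_mod_cast hsin0.ne'
  have e2 : Complex.exp (((Complex.arg a + θ / 2 + r : ℝ) : ℂ) * Complex.I) =
      Complex.exp ((Complex.arg a : ℂ) * Complex.I) *
        Complex.exp (((θ / 2 + r : ℝ) : ℂ) * Complex.I) := by
    rw [← Complex.exp_add]
    congr 1
    push_cast
    ring
  rw [e2]
  set Ea := Complex.exp ((Complex.arg a : ℂ) * Complex.I)
  set Et := Complex.exp ((θ : ℂ) * Complex.I)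
  set Er := Complex.exp (((θ / 2 + r : ℝ) : ℂ) * Complex.I)
  rw [Complex.ofReal_div, Complex.ofReal_div, Complex.ofReal_mul, Complex.ofReal_mul]
  generalize ((Real.sin (θ / 2 - r) : ℝ) : ℂ) = s1 at key ⊢
  generalize ((Real.sin (θ / 2 + r) : ℝ) : ℂ) = s2 at key ⊢
  generalize ((Real.sin θ : ℝ) : ℂ) = s3 at key hS ⊢
  generalize ((‖a‖ : ℝ) : ℂ) = A at hA hae ⊢
  generalize ((‖b‖ : ℝ) : ℂ) = B' at hB hbe ⊢
  rw [hae, hbe]
  have : s1 / (s3 * A) * (A * Ea) + s2 / (s3 * B') * (B' * (Ea * Et)) =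
      Ea * ((s1 + s2 * Et) / s3) := by
    field_simp
  rw [this, key]
  field_simp

theorem sector_ex (a b : ℂ) (h : (a * (starRingEnd ℂ) b).im ≠ 0) :
    ∃ u : ℝ, ∀ r : ℝ,
      |r| < Real.arccos ((a * (starRingEnd ℂ) b).re / (‖a‖ * ‖b‖)) / 2 →
      ∃ x y : ℝ, 0 < x ∧ 0 < y ∧
        (x : ℂ) * a + (y : ℂ) * b = Complex.exp (((u + r : ℝ) : ℂ) * Complex.I) := by
  have hre : (b * (starRingEnd ℂ) a).re = (a * (starRingEnd ℂ) b).re := by
    simp [Complex.mul_re]; ring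
  have him : (b * (starRingEnd ℂ) a).im = -(a * (starRingEnd ℂ) b).im := by
    simp [Complex.mul_im]; ring
  rcases lt_or_gt_of_ne h with h' | h'
  · have := sector_pos a b (by rw [him]; linarith)
    rw [hre, mul_comm ‖b‖ ‖a‖] at this
    exact this
  · obtain ⟨u, hu⟩ := sector_pos b a h'
    refine ⟨u, fun r hr => ?_⟩
    obtain ⟨x, y, hx, hy, hxy⟩ := hu r hr
    exact ⟨y, x, hy, hx, by rw [← hxy]; ring⟩

theorem planar {ι : Type*} [Fintype ι] [DecidableEq ι] (a b : ι → ℂ)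
    (hind : ∀ t, ((a t) * (starRingEnd ℂ) (b t)).im ≠ 0)
    (hdisj : ∀ s t, s ≠ t → ∀ x y x' y' : ℝ, 0 < x → 0 < y → 0 < x' → 0 < y' →
      (x : ℂ) * a s + (y : ℂ) * b s ≠ (x' : ℂ) * a t + (y' : ℂ) * b t) :
    ∑ t, Real.arccos (((a t) * (starRingEnd ℂ) (b t)).re / (‖a t‖ * ‖b t‖)) ≤ 2 * Real.pi := by
  classical
  have hfact : Fact (0 < 2 * Real.pi) := ⟨by positivity⟩
  choose u hu using fun t => sector_ex (a t) (b t) (hind t)
  set θ : ι → ℝ := fun t =>
    Real.arccos (((a t) * (starRingEnd ℂ) (b t)).re / (‖a t‖ * ‖b t‖)) with hθ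
  have hθ0 : ∀ t, 0 ≤ θ t := fun t => Real.arccos_nonneg _
  have hθπ : ∀ t, θ t ≤ Real.pi := fun t => Real.arccos_le_pi _
  have hθpos : ∀ t, 0 < θ t := by
    intro t
    rcases (hθ0 t).lt_or_eq with h | h
    · exact h
    · exfalso
      have h1 : 1 ≤ (((a t) * (starRingEnd ℂ) (b t)).re / (‖a t‖ * ‖b t‖)) :=
        Real.arccos_eq_zero.mp h.symm
      have hne : (a t) * (starRingEnd ℂ) (b t) ≠ 0 := by
        intro h2
        apply hind t
        rw [h2]; rfl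
      have hn : ‖(a t) * (starRingEnd ℂ) (b t)‖ = ‖a t‖ * ‖b t‖ := by
        rw [norm_mul, Complex.norm_conj]
      have hpos : 0 < ‖a t‖ * ‖b t‖ := by rw [← hn]; exact norm_pos_iff.mpr hne
      rw [le_div_iff₀ hpos, one_mul] at h1
      have h3 : ((a t) * (starRingEnd ℂ) (b t)).re ^ 2 + ((a t) * (starRingEnd ℂ) (b t)).im ^ 2 =
          (‖a t‖ * ‖b t‖) ^ 2 := by
        rw [← hn, ← Complex.normSq_eq_norm_sq, Complex.normSq_apply]; ring
      have h4 : 0 < ((a t) * (starRingEnd ℂ) (b t)).im ^ 2 := by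
        have := hind t
        positivity
      nlinarith
  -- for every δ
  have main : ∀ δ : ℝ, 0 < δ → δ < 1 → (1 - δ) * ∑ t, θ t ≤ 2 * Real.pi := by
    intro δ hδ hδ1
    let S : ι → Set (AddCircle (2 * Real.pi)) := fun t =>
      Metric.closedBall ((u t : ℝ) : AddCircle (2 * Real.pi)) ((1 - δ) * θ t / 2)
    have hS : ∀ t, ∀ z ∈ S t, ∃ x y : ℝ, 0 < x ∧ 0 < y ∧
        (x : ℂ) * a t + (y : ℂ) * b t = ((AddCircle.toCircle z : Circle) : ℂ) := by
      intro t z hz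
      obtain ⟨r, hr⟩ : ∃ r : ℝ, z = (((u t + r : ℝ)) : AddCircle (2 * Real.pi)) ∧
          |r| ≤ (1 - δ) * θ t / 2 := by
        have hd : ‖z - ((u t : ℝ) : AddCircle (2 * Real.pi))‖ ≤ (1 - δ) * θ t / 2 := by
          have := Metric.mem_closedBall.mp hz
          rwa [dist_eq_norm] at this
        obtain ⟨v, hv⟩ : ∃ v : ℝ, (v : AddCircle (2 * Real.pi)) =
            z - ((u t : ℝ) : AddCircle (2 * Real.pi)) ∧ |v| ≤ Real.pi := by
          let w : Real.Angle := z - ((u t : ℝ) : AddCircle (2 * Real.pi))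
          refine ⟨w.toReal, Real.Angle.coe_toReal w, ?_⟩
          exact Real.Angle.abs_toReal_le_pi w
        refine ⟨v, ?_, ?_⟩
        · rw [AddCircle.coe_add, hv.1]; abel
        · have hpp : (0 : ℝ) < 2 * Real.pi := by positivity
          have hle : |v| ≤ |2 * Real.pi| / 2 := by
            rw [abs_of_pos hpp]; linarith [hv.2]
          rw [← hv.1, (AddCircle.norm_coe_eq_abs_iff (2 * Real.pi) hpp.ne').mpr hle] at hd
          exact hd
      obtain ⟨hz', hr'⟩ := hr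
      have hlt : |r| < θ t / 2 := by
        have : (1 - δ) * θ t / 2 < θ t / 2 := by nlinarith [hθpos t]
        linarith
      obtain ⟨x, y, hx, hy, hxy⟩ := hu t r hlt
      refine ⟨x, y, hx, hy, ?_⟩
      rw [hxy, hz', AddCircle.toCircle_apply_mk, Circle.coe_exp]
      congr 2
      have : 2 * Real.pi ≠ 0 := by positivity
      field_simp
    have hdis : Set.PairwiseDisjoint (Set.univ : Set ι) S := by
      intro s _ t _ hst
      rw [Function.onFun, Set.disjoint_left]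
      intro z h1 h2
      obtain ⟨x, y, hx, hy, hxy⟩ := hS s z h1
      obtain ⟨x', y', hx', hy', hxy'⟩ := hS t z h2
      exact hdisj s t hst x y x' y' hx hy hx' hy' (hxy.trans hxy'.symm)
    have hvol : ∑ t, MeasureTheory.volume (S t) ≤
        MeasureTheory.volume (Set.univ : Set (AddCircle (2 * Real.pi))) := by
      rw [← MeasureTheory.measure_biUnion_finset (s := univ)
        (fun s _ t _ hst => hdis (Set.mem_univ s) (Set.mem_univ t) hst)
        (fun t _ => measurableSet_closedBall)]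
      exact MeasureTheory.measure_mono (Set.subset_univ _)
    rw [AddCircle.measure_univ] at hvol
    have hball : ∀ t, MeasureTheory.volume (S t) = ENNReal.ofReal ((1 - δ) * θ t) := by
      intro t
      rw [AddCircle.volume_closedBall]
      congr 1
      rw [min_eq_right]
      · ring
      · nlinarith [hθ0 t, hθπ t, Real.pi_pos]
    simp only [hball] at hvol
    rw [← ENNReal.ofReal_sum_of_nonneg (fun t _ => mul_nonneg (by linarith) (hθ0 t)),
      ENNReal.ofReal_le_ofReal_iff (by positivity), ← Finset.mul_sum] at hvol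
    exact hvol
  by_contra hcon
  push Not at hcon
  set T := ∑ t, θ t with hT
  have hpos : 0 < T := lt_trans (by positivity) hcon
  have h1 : 2 * Real.pi / T < 1 := (div_lt_one hpos).mpr hcon
  have h0 : 0 < 2 * Real.pi / T := by positivity
  have := main ((1 - 2 * Real.pi / T) / 2) (by linarith) (by linarith)
  have h2 : (1 - (1 - 2 * Real.pi / T) / 2) * T = (T + 2 * Real.pi) / 2 := by
    field_simp
    ring
  rw [h2] at this
  linarith

end Pool.Agent.H62.M4
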