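import Pool.Agent.H62.M4.AngleBase
import Pool.Agent.H62.M4.Planar

/-!
MP_6c826d_gt (S13329), module B2 (helper95): the angles around a 2-face, `AngleSpec`.
-/

set_option autoImplicit false

namespace Pool.Agent.H62.M4

open Finset

variable {n : ℕ}

section

variable {e : Fin n → V5} (F : Facts e) {x : V5} (hx : B x x = -1) {i j : Fin n}
  (hij : Adj e i j)

include F hx hij

/-- the orthonormal basis `p, q` of the plane `{e_i, e_j, x'}^⊥` -/
theorem plane_form {k0 l0 : Fin n} (hQ0 : Q4 e i j k0 l0) :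
    ∃ p q : V5, ∀ g f : V5, B f (e i) = 0 → B f (e j) = 0 → B f (xp e x i j) = 0 →
      B g f = B g p * B f p + B g q * B f q := by
  have hQ := hQ0
  obtain ⟨_, hik, hil, hjk, hjl, hkl⟩ := hQ0
  obtain ⟨p, q, hpp, hqq, hpq, hpi, hpj, hpx, hqi, hqj, hqx⟩ :=
    exists_plane_basis (fv_i F hij hik) (fv_j F hij hjk) (fv_x F hx hij hik hjk)
      (fv_i F hij hil) (fv_j F hij hjl) (fv_x F hx hij hil hjl) (fv_norm_pos F hx hij hik hjk)
      (fv_det F hx hij hQ)
  refine ⟨p, q, ?_⟩
  intro g f hfi hfj hfx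
  have hN := NN_pos e x i j
  have s1 : √(NN e x i j) * √(NN e x i j) = NN e x i j := Real.mul_self_sqrt hN.le
  have s2 : 0 < √(NN e x i j) := Real.sqrt_pos.2 hN
  have hvv : B ((1 / √(NN e x i j)) • xp e x i j) ((1 / √(NN e x i j)) • xp e x i j) = -1 := by
    simp only [B_smul_left, B_smul_right, xp_self F hx hij]
    field_simp
    nlinarith [s1]
  have h := frame_form (a := e i) (b := e j) (c := p) (d := q)
    (v := (1 / √(NN e x i j)) • xp e x i j) (F.norm i) (F.norm j) hpp hqq hvv hij.2
    (by rw [B_comm]; exact hpi) (by rw [B_comm]; exact hqi) (by rw [B_comm]; exact hpj)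
    (by rw [B_comm]; exact hqj) hpq
    (by rw [B_smul_left, xp_i F hij, mul_zero]) (by rw [B_smul_left, xp_j F hij, mul_zero])
    (by rw [B_smul_left, B_comm, hpx, mul_zero]) (by rw [B_smul_left, B_comm, hqx, mul_zero]) g f
  rw [h, hfi, hfj, B_smul_right, B_smul_right, hfx]
  ring

end

theorem Q4.swap {e : Fin n → V5} {i j k l : Fin n} (h : Q4 e i j k l) : Q4 e i j l k :=
  ⟨h.1, h.2.2.1, h.2.1, h.2.2.2.2.1, h.2.2.2.1, h.2.2.2.2.2.symm⟩

theorem Q4.swap_iff {e : Fin n → V5} {i j k l : Fin n} : Q4 e i j k l ↔ Q4 e i j l k :=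
  ⟨Q4.swap, Q4.swap⟩

theorem angf_swap (a b c d : ℝ) : angf a b c d = angf a b d c := by
  unfold angf
  rw [mul_comm c d, mul_comm (1 + a ^ 2 + b ^ 2 + c ^ 2)]

/-- a symmetric function vanishing on the diagonal -/
theorem sum_sum_symm (G : Fin n → Fin n → ℝ) (hs : ∀ k l, G k l = G l k) (hd : ∀ k, G k k = 0) :
    ∑ k, ∑ l, G k l = 2 * ∑ p ∈ (univ : Finset (Fin n × Fin n)).filter (fun p => p.1 < p.2),
      G p.1 p.2 := by
  classical
  have h0 : ∑ k, ∑ l, G k l = ∑ p : Fin n × Fin n, G p.1 p.2 := by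
    rw [← univ_product_univ, sum_product]
  have h1 : ∑ p : Fin n × Fin n, G p.1 p.2
      = ∑ p ∈ (univ : Finset (Fin n × Fin n)).filter (fun p => p.1 < p.2), G p.1 p.2
        + ∑ p ∈ (univ : Finset (Fin n × Fin n)).filter (fun p => ¬ p.1 < p.2), G p.1 p.2 :=
    (sum_filter_add_sum_filter_not _ _ _).symm
  have h2 : ∑ p ∈ (univ : Finset (Fin n × Fin n)).filter (fun p => ¬ p.1 < p.2), G p.1 p.2
      = ∑ p ∈ (univ : Finset (Fin n × Fin n)).filter (fun p => p.2 < p.1), G p.1 p.2 := by
    symm
    apply sum_subset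
    · intro p hp
      simp only [mem_filter, mem_univ, true_and] at hp ⊢
      exact not_lt.2 hp.le
    · intro p hp hp'
      simp only [mem_filter, mem_univ, true_and, not_lt] at hp hp'
      have h3 : p.1 = p.2 := le_antisymm hp' hp
      rw [h3, hd]
  have h3 : ∑ p ∈ (univ : Finset (Fin n × Fin n)).filter (fun p => p.2 < p.1), G p.1 p.2
      = ∑ p ∈ (univ : Finset (Fin n × Fin n)).filter (fun p => p.1 < p.2), G p.1 p.2 := by
    apply sum_nbij' (fun p => (p.2, p.1)) (fun p => (p.2, p.1))
    · intro p hp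
      simp only [mem_filter, mem_univ, true_and] at hp ⊢
      exact hp
    · intro p hp
      simp only [mem_filter, mem_univ, true_and] at hp ⊢
      exact hp
    · intro p _; rfl
    · intro p _; rfl
    · intro p _; exact hs _ _
  rw [h0, h1, h2, h3]
  ring

theorem angle {e : Fin n → V5} (F : Facts e) : AngleSpec e := by
  classical
  intro x hx hx0 hxP i j hij
  obtain ⟨k0, l0, hQ0⟩ := F.ext2 i j hij
  obtain ⟨p, q, hpl⟩ := plane_form F hx hij hQ0
  have hsum := sum_sum_symm (fun k l => if Q4 e i j k l then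
      angf (uu e x i) (uu e x j) (uu e x k) (uu e x l) else 0)
    (fun k l => by
      by_cases h : Q4 e i j k l
      · rw [if_pos h, if_pos h.swap, angf_swap]
      · rw [if_neg h, if_neg (fun h' => h (Q4.swap h'))])
    (fun k => by
      rw [if_neg]
      intro h
      exact h.2.2.2.2.2.1 rfl)
  have hconv : (∑ k, ∑ l, if Q4 e i j k l then
      angf (uu e x i) (uu e x j) (uu e x k) (uu e x l) else 0)
      = 2 * ∑ p ∈ (univ : Finset (Fin n × Fin n)).filter (fun p => p.1 < p.2),
        (if Q4 e i j p.1 p.2 then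
          angf (uu e x i) (uu e x j) (uu e x p.1) (uu e x p.2) else 0) := hsum
  have hgoal : ∑ p ∈ (univ : Finset (Fin n × Fin n)).filter (fun p => p.1 < p.2),
        (if Q4 e i j p.1 p.2 then
          angf (uu e x i) (uu e x j) (uu e x p.1) (uu e x p.2) else 0) ≤ 2 * Real.pi := by
    rw [← sum_filter, filter_filter]
    set z : V5 → ℂ := fun y => ⟨B y p, B y q⟩ with hz
    have hsub : ∑ a ∈ (univ : Finset (Fin n × Fin n)).filter
          (fun a => a.1 < a.2 ∧ Q4 e i j a.1 a.2),
          angf (uu e x i) (uu e x j) (uu e x a.1) (uu e x a.2)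
        = ∑ t : {a : Fin n × Fin n // a.1 < a.2 ∧ Q4 e i j a.1 a.2},
          angf (uu e x i) (uu e x j) (uu e x t.1.1) (uu e x t.1.2) :=
      sum_subtype _ (fun a => by simp) _
    rw [hsub]
    have hre : ∀ t : {a : Fin n × Fin n // a.1 < a.2 ∧ Q4 e i j a.1 a.2},
        (z (fv e x i j t.1.1) * (starRingEnd ℂ) (z (fv e x i j t.1.2))).re
          = B (fv e x i j t.1.1) (fv e x i j t.1.2) := by
      intro t
      obtain ⟨⟨k, l⟩, hlt, _, hik, hil, hjk, hjl, hkl⟩ := t
      have h := hpl (fv e x i j k) (fv e x i j l) (fv_i F hij hil) (fv_j F hij hjl)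
        (fv_x F hx hij hil hjl)
      simp only [hz, Complex.mul_re, Complex.conj_re, Complex.conj_im]
      rw [h]
      ring
    have hnorm : ∀ k, Adj e i k → Adj e j k → ‖z (fv e x i j k)‖ ^ 2
        = B (fv e x i j k) (fv e x i j k) := by
      intro k hik hjk
      have h := hpl (fv e x i j k) (fv e x i j k) (fv_i F hij hik) (fv_j F hij hjk)
        (fv_x F hx hij hik hjk)
      rw [← Complex.normSq_eq_norm_sq, Complex.normSq_apply, h]
    have hmain := planar (ι := {a : Fin n × Fin n // a.1 < a.2 ∧ Q4 e i j a.1 a.2})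
      (fun t => z (fv e x i j t.1.1)) (fun t => z (fv e x i j t.1.2))
      (by
        intro t h0
        have h1 := hre t
        obtain ⟨⟨k, l⟩, hlt, hQ⟩ := t
        have hdet := fv_det F hx hij hQ
        obtain ⟨_, hik, hil, hjk, hjl, hkl⟩ := hQ
        simp only at h0 h1
        have h2 : ‖z (fv e x i j k) * (starRingEnd ℂ) (z (fv e x i j l))‖ ^ 2
            = B (fv e x i j k) (fv e x i j l) ^ 2 := by
          rw [← Complex.normSq_eq_norm_sq, Complex.normSq_apply, h0, h1]
          ring
        rw [norm_mul, mul_pow, RCLike.norm_conj, hnorm k hik hjk, hnorm l hil hjl] at h2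
        linarith)
      (by
        intro s t hst u w u' w' hu hw hu' hw' heq
        apply hst
        obtain ⟨⟨k, l⟩, hlt, hQ⟩ := s
        obtain ⟨⟨k', l'⟩, hlt', hQ'⟩ := t
        simp only at heq hlt hlt'
        have hr := congrArg Complex.re heq
        have hi := congrArg Complex.im heq
        simp only [hz, Complex.add_re, Complex.add_im, Complex.mul_re, Complex.mul_im,
          Complex.ofReal_re, Complex.ofReal_im, zero_mul, sub_zero, add_zero] at hr hi
        have hP := hQ
        have hP' := hQ'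
        obtain ⟨_, hik, hil, hjk, hjl, hkl⟩ := hP
        obtain ⟨_, hik', hil', hjk', hjl', hkl'⟩ := hP'
        have h3 := sector_eq F hx hij hx0 hQ hQ' hu hw hu' hw' (fun g => by
          rw [hpl g (fv e x i j k) (fv_i F hij hik) (fv_j F hij hjk) (fv_x F hx hij hik hjk),
            hpl g (fv e x i j l) (fv_i F hij hil) (fv_j F hij hjl) (fv_x F hx hij hil hjl),
            hpl g (fv e x i j k') (fv_i F hij hik') (fv_j F hij hjk') (fv_x F hx hij hik' hjk'),
            hpl g (fv e x i j l') (fv_i F hij hil') (fv_j F hij hjl') (fv_x F hx hij hil' hjl')]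
          linear_combination B g p * hr + B g q * hi)
        apply Subtype.ext
        simp only [Prod.mk.injEq]
        obtain ⟨h4, h5⟩ := h3
        rcases h4 with h4 | h4 <;> rcases h5 with h5 | h5
        · exact absurd (h4.trans h5.symm) hlt'.ne
        · exact ⟨h4.symm, h5.symm⟩
        · exfalso
          have h4' : k' = l := h4
          have h5' : l' = k := h5
          rw [h4', h5'] at hlt'
          exact absurd hlt' (not_lt.2 hlt.le)
        · exact absurd (h4.trans h5.symm) hlt'.ne)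
    refine le_trans (le_of_eq ?_) hmain
    apply sum_congr rfl
    intro t _
    have h1 := hre t
    obtain ⟨⟨k, l⟩, hlt, hQ⟩ := t
    obtain ⟨_, hik, hil, hjk, hjl, hkl⟩ := hQ
    simp only at h1 ⊢
    rw [h1]
    unfold angf
    congr 1
    have hN := NN_pos e x i j
    have n1 := hnorm k hik hjk
    have n2 := hnorm l hil hjl
    rw [fv_norm F hx hij hik hjk] at n1
    rw [fv_norm F hx hij hil hjl] at n2
    have m1 : ‖z (fv e x i j k)‖ * ‖z (fv e x i j l)‖
        = √((NN e x i j + uu e x k ^ 2) * (NN e x i j + uu e x l ^ 2)) / NN e x i j := by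
      rw [eq_div_iff hN.ne', eq_comm, Real.sqrt_eq_iff_mul_self_eq (by positivity) (by positivity)]
      have : (‖z (fv e x i j k)‖ * ‖z (fv e x i j l)‖ * NN e x i j) *
          (‖z (fv e x i j k)‖ * ‖z (fv e x i j l)‖ * NN e x i j)
          = ‖z (fv e x i j k)‖ ^ 2 * ‖z (fv e x i j l)‖ ^ 2 * NN e x i j ^ 2 := by ring
      rw [this, n1, n2]
      field_simp
    rw [m1, fv_fv F hx hij hik hjk hil hjl, hkl.2, zero_add, div_div_div_cancel_right₀ hN.ne']
    rfl
  rw [hconv]
  linarith

end Pool.Agent.H62.M4
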