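import Pool.Agent.H62.M4.Spec

/-!
MP_6c826d_gt (S13329), m_4 = 120.  General lemmas on the Lorentzian form.
-/

set_option autoImplicit false

namespace Pool.Agent.H62.M4

open Finset

theorem frame_expand {a b c d v : V5} (haa : B a a = 1) (hbb : B b b = 1) (hcc : B c c = 1)
    (hdd : B d d = 1) (hvv : B v v = -1) (hab : B a b = 0) (hac : B a c = 0) (had : B a d = 0)
    (hbc : B b c = 0) (hbd : B b d = 0) (hcd : B c d = 0) (hva : B v a = 0) (hvb : B v b = 0)
    (hvc : B v c = 0) (hvd : B v d = 0) (y : V5) :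
    y = B y a • a + B y b • b + B y c • c + B y d • d - B y v • v := by
  have hba : B b a = 0 := by rw [B_comm]; exact hab
  have hca : B c a = 0 := by rw [B_comm]; exact hac
  have hda : B d a = 0 := by rw [B_comm]; exact had
  have hcb : B c b = 0 := by rw [B_comm]; exact hbc
  have hdb : B d b = 0 := by rw [B_comm]; exact hbd
  have hdc : B d c = 0 := by rw [B_comm]; exact hcd
  have hav : B a v = 0 := by rw [B_comm]; exact hva
  have hbv : B b v = 0 := by rw [B_comm]; exact hvb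
  have hcv : B c v = 0 := by rw [B_comm]; exact hvc
  have hdv : B d v = 0 := by rw [B_comm]; exact hvd
  have key : ∀ (g : Fin 5 → ℝ) (z : V5),
      z = g 0 • a + g 1 • b + g 2 • c + g 3 • d + g 4 • v →
      B z a = g 0 ∧ B z b = g 1 ∧ B z c = g 2 ∧ B z d = g 3 ∧ B z v = - g 4 := by
    intro g z hz
    subst hz
    simp only [B_add_left, B_smul_left, haa, hbb, hcc, hdd, hvv, hab, hac, had, hbc, hbd, hcd,
      hva, hvb, hvc, hvd, hba, hca, hda, hcb, hdb, hdc, hav, hbv, hcv, hdv]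
    refine ⟨by ring, by ring, by ring, by ring, by ring⟩
  have hli : LinearIndependent ℝ ![a, b, c, d, v] := by
    rw [Fintype.linearIndependent_iff]
    intro g hg
    have h0 : (0 : V5) = g 0 • a + g 1 • b + g 2 • c + g 3 • d + g 4 • v := by
      rw [← hg, Fin.sum_univ_five]; rfl
    obtain ⟨h1, h2, h3, h4, h5⟩ := key g 0 h0
    simp only [B_zero_left] at h1 h2 h3 h4 h5
    intro i
    fin_cases i
    · exact h1.symm
    · exact h2.symm
    · exact h3.symm
    · exact h4.symm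
    · show g 4 = 0; linarith
  have hspan := hli.span_eq_top_of_card_eq_finrank (by simp)
  have hy : y ∈ Submodule.span ℝ (Set.range ![a, b, c, d, v]) := by rw [hspan]; trivial
  rw [Submodule.mem_span_range_iff_exists_fun] at hy
  obtain ⟨g, hg⟩ := hy
  have hy' : y = g 0 • a + g 1 • b + g 2 • c + g 3 • d + g 4 • v := by
    rw [← hg, Fin.sum_univ_five]; rfl
  obtain ⟨h1, h2, h3, h4, h5⟩ := key g y hy'
  rw [h1, h2, h3, h4, h5, neg_smul, sub_neg_eq_add]
  exact hy'

theorem frame_form {a b c d v : V5} (haa : B a a = 1) (hbb : B b b = 1) (hcc : B c c = 1)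
    (hdd : B d d = 1) (hvv : B v v = -1) (hab : B a b = 0) (hac : B a c = 0) (had : B a d = 0)
    (hbc : B b c = 0) (hbd : B b d = 0) (hcd : B c d = 0) (hva : B v a = 0) (hvb : B v b = 0)
    (hvc : B v c = 0) (hvd : B v d = 0) (x y : V5) :
    B x y = B x a * B y a + B x b * B y b + B x c * B y c + B x d * B y d - B x v * B y v := by
  have h := frame_expand haa hbb hcc hdd hvv hab hac had hbc hbd hcd hva hvb hvc hvd y
  have h2 : B x y = B x (B y a • a + B y b • b + B y c • c + B y d • d - B y v • v) := by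
    rw [← h]
  rw [h2]
  simp only [B_add_right, B_sub_right, B_smul_right]
  ring

theorem sp_nonneg (x : V5) : 0 ≤ x 1 * x 1 + x 2 * x 2 + x 3 * x 3 + x 4 * x 4 := by
  have h1 := mul_self_nonneg (x 1)
  have h2 := mul_self_nonneg (x 2)
  have h3 := mul_self_nonneg (x 3)
  have h4 := mul_self_nonneg (x 4)
  linarith

theorem sp_zero (x : V5) (h : x 1 * x 1 + x 2 * x 2 + x 3 * x 3 + x 4 * x 4 = 0) :
    x 1 = 0 ∧ x 2 = 0 ∧ x 3 = 0 ∧ x 4 = 0 := by
  have h1 := mul_self_nonneg (x 1)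
  have h2 := mul_self_nonneg (x 2)
  have h3 := mul_self_nonneg (x 3)
  have h4 := mul_self_nonneg (x 4)
  refine ⟨mul_self_eq_zero.mp ?_, mul_self_eq_zero.mp ?_, mul_self_eq_zero.mp ?_,
    mul_self_eq_zero.mp ?_⟩ <;> linarith

theorem sp_cs (x y : V5) : (x 1 * y 1 + x 2 * y 2 + x 3 * y 3 + x 4 * y 4) ^ 2 ≤
    (x 1 * x 1 + x 2 * x 2 + x 3 * x 3 + x 4 * x 4) *
      (y 1 * y 1 + y 2 * y 2 + y 3 * y 3 + y 4 * y 4) := by
  nlinarith [sq_nonneg (x 1 * y 2 - x 2 * y 1), sq_nonneg (x 1 * y 3 - x 3 * y 1),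
      sq_nonneg (x 1 * y 4 - x 4 * y 1), sq_nonneg (x 2 * y 3 - x 3 * y 2),
      sq_nonneg (x 2 * y 4 - x 4 * y 2), sq_nonneg (x 3 * y 4 - x 4 * y 3)]

theorem unit_timelike_le {x y : V5} (hx : B x x = -1) (hx0 : 0 < x 0) (hy : B y y = -1)
    (hy0 : 0 < y 0) : B x y ≤ -1 := by
  unfold B at *
  set X := x 1 * x 1 + x 2 * x 2 + x 3 * x 3 + x 4 * x 4 with hX
  set Y := y 1 * y 1 + y 2 * y 2 + y 3 * y 3 + y 4 * y 4 with hY
  set Z := x 1 * y 1 + x 2 * y 2 + x 3 * y 3 + x 4 * y 4 with hZ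
  have hx2 : x 0 * x 0 = X + 1 := by rw [hX]; linarith
  have hy2 : y 0 * y 0 = Y + 1 := by rw [hY]; linarith
  have hX0 : 0 ≤ X := sp_nonneg x
  have hY0 : 0 ≤ Y := sp_nonneg y
  have hCS : Z ^ 2 ≤ X * Y := sp_cs x y
  have hp : 0 < x 0 * y 0 := mul_pos hx0 hy0
  have h1 : (x 0 * y 0) ^ 2 = (X + 1) * (Y + 1) := by rw [← hx2, ← hy2]; ring
  have h2 : (Z + 1) ^ 2 ≤ (x 0 * y 0) ^ 2 := by
    rw [h1]
    have : 2 * Z ≤ X + Y := by
      nlinarith [sq_nonneg (X - Y), sq_nonneg (X + Y - 2 * Z), sq_nonneg (X + Y + 2 * Z)]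
    nlinarith
  have h3 : Z + 1 ≤ x 0 * y 0 := by
    by_contra hcon
    push Not at hcon
    nlinarith
  linarith

theorem orth_timelike_aux {x y : V5} (hx : B x x < 0) (hxy : B x y = 0) :
    0 < x 0 * x 0 ∧
      (x 0 * y 0) ^ 2 ≤ (x 1 * x 1 + x 2 * x 2 + x 3 * x 3 + x 4 * x 4) *
      (y 1 * y 1 + y 2 * y 2 + y 3 * y 3 + y 4 * y 4) := by
  unfold B at *
  have h0 : 0 < x 0 * x 0 := by
    have := sp_nonneg x
    linarith
  have h1 : x 0 * y 0 = x 1 * y 1 + x 2 * y 2 + x 3 * y 3 + x 4 * y 4 := by linarith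
  refine ⟨h0, ?_⟩
  rw [h1]
  exact sp_cs x y

theorem orth_timelike {x y : V5} (hx : B x x < 0) (hxy : B x y = 0) : 0 ≤ B y y := by
  obtain ⟨h0, h2⟩ := orth_timelike_aux hx hxy
  unfold B at *
  set X := x 1 * x 1 + x 2 * x 2 + x 3 * x 3 + x 4 * x 4 with hX
  set Y := y 1 * y 1 + y 2 * y 2 + y 3 * y 3 + y 4 * y 4 with hY
  have hX0 : 0 ≤ X := sp_nonneg x
  have hY0 : 0 ≤ Y := sp_nonneg y
  have hlt : X < x 0 * x 0 := by linarith
  have h3 : X * Y ≤ (x 0 * x 0) * Y := mul_le_mul_of_nonneg_right hlt.le hY0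
  have h4 : (x 0 * x 0) * (y 0 * y 0) ≤ (x 0 * x 0) * Y := by nlinarith
  have h5 : y 0 * y 0 ≤ Y := le_of_mul_le_mul_left h4 h0
  linarith

theorem orth_timelike_zero {x y : V5} (hx : B x x < 0) (hxy : B x y = 0) (hy : B y y = 0) :
    y = 0 := by
  obtain ⟨h0, h2⟩ := orth_timelike_aux hx hxy
  unfold B at *
  set X := x 1 * x 1 + x 2 * x 2 + x 3 * x 3 + x 4 * x 4 with hX
  set Y := y 1 * y 1 + y 2 * y 2 + y 3 * y 3 + y 4 * y 4 with hY
  have hY0 : 0 ≤ Y := sp_nonneg y
  have hlt : X < x 0 * x 0 := by linarith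
  have hyY : y 0 * y 0 = Y := by linarith
  have hYz : Y = 0 := by
    by_contra hne
    have hYp : 0 < Y := lt_of_le_of_ne hY0 (Ne.symm hne)
    have h3 : X * Y < (x 0 * x 0) * Y := mul_lt_mul_of_pos_right hlt hYp
    have h4 : (x 0 * y 0) ^ 2 = (x 0 * x 0) * Y := by rw [← hyY]; ring
    linarith
  obtain ⟨hy1, hy2, hy3, hy4⟩ := sp_zero y hYz
  have hy0 : y 0 = 0 := by
    have : y 0 * y 0 = 0 := by rw [hyY, hYz]
    exact mul_self_eq_zero.mp this
  funext i
  fin_cases i <;> simp [hy0, hy1, hy2, hy3, hy4]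

theorem time_pos_of {x y : V5} (hx : B x x = -1) (hx0 : 0 < x 0) (hy : B y y < 0)
    (hxy : B x y < 0) : 0 < y 0 := by
  by_contra hcon
  push Not at hcon
  unfold B at *
  set X := x 1 * x 1 + x 2 * x 2 + x 3 * x 3 + x 4 * x 4 with hX
  set Y := y 1 * y 1 + y 2 * y 2 + y 3 * y 3 + y 4 * y 4 with hY
  set Z := x 1 * y 1 + x 2 * y 2 + x 3 * y 3 + x 4 * y 4 with hZ
  have hX0 : 0 ≤ X := sp_nonneg x
  have hY0 : 0 ≤ Y := sp_nonneg y
  have hCS : Z ^ 2 ≤ X * Y := sp_cs x y
  have hx2 : x 0 * x 0 = X + 1 := by rw [hX]; linarith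
  have hy2 : Y < y 0 * y 0 := by linarith
  have h1 : 0 ≤ -(x 0 * y 0) := by nlinarith
  have h2 : -(x 0 * y 0) < -Z := by linarith
  have h3 : (x 0 * y 0) ^ 2 < Z ^ 2 := by nlinarith
  have h4 : (x 0 * y 0) ^ 2 = (X + 1) * (y 0 * y 0) := by rw [← hx2]; ring
  nlinarith

/-- no five pairwise orthogonal unit spacelike vectors -/
theorem no_five_orth {a b c d f : V5} (haa : B a a = 1) (hbb : B b b = 1) (hcc : B c c = 1)
    (hdd : B d d = 1) (hff : B f f = 1) (hab : B a b = 0) (hac : B a c = 0) (had : B a d = 0)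
    (hbc : B b c = 0) (hbd : B b d = 0) (hcd : B c d = 0) (haf : B a f = 0) (hbf : B b f = 0)
    (hcf : B c f = 0) (hdf : B d f = 0) : False := by
  have hli : LinearIndependent ℝ ![a, b, c, d, f] := by
    rw [Fintype.linearIndependent_iff]
    intro g hg
    have h0 : (0 : V5) = g 0 • a + g 1 • b + g 2 • c + g 3 • d + g 4 • f := by
      rw [← hg, Fin.sum_univ_five]; rfl
    have hba : B b a = 0 := by rw [B_comm]; exact hab
    have hca : B c a = 0 := by rw [B_comm]; exact hac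
    have hda : B d a = 0 := by rw [B_comm]; exact had
    have hcb : B c b = 0 := by rw [B_comm]; exact hbc
    have hdb : B d b = 0 := by rw [B_comm]; exact hbd
    have hdc : B d c = 0 := by rw [B_comm]; exact hcd
    have hfa : B f a = 0 := by rw [B_comm]; exact haf
    have hfb : B f b = 0 := by rw [B_comm]; exact hbf
    have hfc : B f c = 0 := by rw [B_comm]; exact hcf
    have hfd : B f d = 0 := by rw [B_comm]; exact hdf
    have e1 : B 0 a = g 0 := by
      rw [h0]
      simp only [B_add_left, B_smul_left, haa, hba, hca, hda, hfa]; ring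
    have e2 : B 0 b = g 1 := by
      rw [h0]
      simp only [B_add_left, B_smul_left, hbb, hab, hcb, hdb, hfb]; ring
    have e3 : B 0 c = g 2 := by
      rw [h0]
      simp only [B_add_left, B_smul_left, hcc, hac, hbc, hdc, hfc]; ring
    have e4 : B 0 d = g 3 := by
      rw [h0]
      simp only [B_add_left, B_smul_left, hdd, had, hbd, hcd, hfd]; ring
    have e5 : B 0 f = g 4 := by
      rw [h0]
      simp only [B_add_left, B_smul_left, hff, haf, hbf, hcf, hdf]; ring
    simp only [B_zero_left] at e1 e2 e3 e4 e5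
    intro i
    fin_cases i
    · exact e1.symm
    · exact e2.symm
    · exact e3.symm
    · exact e4.symm
    · exact e5.symm
  have hspan := hli.span_eq_top_of_card_eq_finrank (by simp)
  -- the timelike vector o
  set o : V5 := ![1, 0, 0, 0, 0] with ho
  have hoo : B o o = -1 := by simp [B, ho]
  have hy : o ∈ Submodule.span ℝ (Set.range ![a, b, c, d, f]) := by rw [hspan]; trivial
  rw [Submodule.mem_span_range_iff_exists_fun] at hy
  obtain ⟨g, hg⟩ := hy
  have hy' : o = g 0 • a + g 1 • b + g 2 • c + g 3 • d + g 4 • f := by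
    rw [← hg, Fin.sum_univ_five]; rfl
  have : B o o = g 0 ^ 2 + g 1 ^ 2 + g 2 ^ 2 + g 3 ^ 2 + g 4 ^ 2 := by
    rw [hy']
    have hba : B b a = 0 := by rw [B_comm]; exact hab
    have hca : B c a = 0 := by rw [B_comm]; exact hac
    have hda : B d a = 0 := by rw [B_comm]; exact had
    have hcb : B c b = 0 := by rw [B_comm]; exact hbc
    have hdb : B d b = 0 := by rw [B_comm]; exact hbd
    have hdc : B d c = 0 := by rw [B_comm]; exact hcd
    have hfa : B f a = 0 := by rw [B_comm]; exact haf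
    have hfb : B f b = 0 := by rw [B_comm]; exact hbf
    have hfc : B f c = 0 := by rw [B_comm]; exact hcf
    have hfd : B f d = 0 := by rw [B_comm]; exact hdf
    simp only [B_add_left, B_smul_left, B_add_right, B_smul_right, haa, hbb, hcc, hdd, hff, hab,
      hac, had, hbc, hbd, hcd, haf, hbf, hcf, hdf, hba, hca, hda, hcb, hdb, hdc, hfa, hfb, hfc,
      hfd]
    ring
  nlinarith [sq_nonneg (g 0), sq_nonneg (g 1), sq_nonneg (g 2), sq_nonneg (g 3), sq_nonneg (g 4)]

/-- two orthogonal Lorentzian planes do not exist -/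
theorem no_two_planes {a b c d : V5} (haa : B a a = 1) (hbb : B b b = 1) (hcc : B c c = 1)
    (hdd : B d d = 1) (hac : B a c < -1) (hbd : B b d < -1) (hab : B a b = 0) (hbc : B b c = 0)
    (hcd : B c d = 0) (hda : B d a = 0) : False := by
  have hca : B c a = B a c := B_comm _ _
  have hdb : B d b = B b d := B_comm _ _
  have h1 : B (a + c) (a + c) < 0 := by
    simp only [B_add_left, B_add_right, haa, hcc, hca]; linarith
  have h2 : B (a + c) (b + d) = 0 := by
    have hcb : B c b = 0 := by rw [B_comm]; exact hbc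
    have had : B a d = 0 := by rw [B_comm]; exact hda
    simp only [B_add_left, B_add_right, hab, had, hcb, hcd]; ring
  have h3 := orth_timelike h1 h2
  have h4 : B (b + d) (b + d) = 2 + 2 * B b d := by
    simp only [B_add_left, B_add_right, hbb, hdd, hdb]; ring
  linarith

end Pool.Agent.H62.M4
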