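import Pool.Agent.H62.M4.Spec
import Pool.Agent.H62.M4.Lor

/-!
MP_6c826d_gt (S13329), module B2 (helper95), first part: the projections `f_k` and the
open sectors around a 2-face.
-/

set_option autoImplicit false

namespace Pool.Agent.H62.M4

open Finset

variable {n : ℕ}

/-- an orthonormal basis of the positive plane containing `f` and `g` -/
theorem exists_plane_basis {a b x f g : V5} (hfa : B f a = 0) (hfb : B f b = 0) (hfx : B f x = 0)
    (hga : B g a = 0) (hgb : B g b = 0) (hgx : B g x = 0) (hff : 0 < B f f)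
    (hdet : B f g ^ 2 < B f f * B g g) :
    ∃ p q : V5, B p p = 1 ∧ B q q = 1 ∧ B p q = 0 ∧ B p a = 0 ∧ B p b = 0 ∧ B p x = 0 ∧
      B q a = 0 ∧ B q b = 0 ∧ B q x = 0 := by
  set g' : V5 := g - (B f g / B f f) • f with hg'
  have h1 : B g' g' = B g g - B f g ^ 2 / B f f := by
    simp only [hg', B_sub_left, B_sub_right, B_smul_left, B_smul_right]
    rw [B_comm g f]
    field_simp
    ring
  have h2 : 0 < B g' g' := by
    rw [h1, sub_pos, div_lt_iff₀ hff]
    linarith [mul_comm (B f f) (B g g)]
  have h3 : B f g' = 0 := by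
    simp only [hg', B_sub_right, B_smul_right]
    field_simp
    ring
  have s1 : √(B f f) * √(B f f) = B f f := Real.mul_self_sqrt hff.le
  have s2 : √(B g' g') * √(B g' g') = B g' g' := Real.mul_self_sqrt h2.le
  have p1 : 0 < √(B f f) := Real.sqrt_pos.2 hff
  have p2 : 0 < √(B g' g') := Real.sqrt_pos.2 h2
  refine ⟨(1 / √(B f f)) • f, (1 / √(B g' g')) • g', ?_, ?_, ?_, ?_, ?_, ?_, ?_, ?_, ?_⟩
  · simp only [B_smul_left, B_smul_right]
    field_simp
    nlinarith [s1]
  · simp only [B_smul_left, B_smul_right]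
    field_simp
    nlinarith [s2]
  · simp only [B_smul_left, B_smul_right, h3, mul_zero]
  · simp only [B_smul_left, hfa, mul_zero]
  · simp only [B_smul_left, hfb, mul_zero]
  · simp only [B_smul_left, hfx, mul_zero]
  · simp only [B_smul_left, hg', B_sub_left, hga, hfa, mul_zero, sub_zero]
  · simp only [B_smul_left, hg', B_sub_left, hgb, hfb, mul_zero, sub_zero]
  · simp only [B_smul_left, hg', B_sub_left, hgx, hfx, mul_zero, sub_zero]

/-- the point `x'` -/
def xp (e : Fin n → V5) (x : V5) (i j : Fin n) : V5 := x + uu e x i • e i + uu e x j • e j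

/-- `N = 1 + u_i² + u_j²` -/
def NN (e : Fin n → V5) (x : V5) (i j : Fin n) : ℝ := 1 + uu e x i ^ 2 + uu e x j ^ 2

/-- the projections `f_k` -/
noncomputable def fv (e : Fin n → V5) (x : V5) (i j k : Fin n) : V5 :=
  e k - (uu e x k / NN e x i j) • xp e x i j

theorem NN_pos (e : Fin n → V5) (x : V5) (i j : Fin n) : 0 < NN e x i j := by
  unfold NN; positivity

section

variable {e : Fin n → V5} (F : Facts e) {x : V5} (hx : B x x = -1) {i j : Fin n}
  (hij : Adj e i j)

include F hx hij

theorem xp_self : B (xp e x i j) (xp e x i j) = -NN e x i j := by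
  have h1 := F.norm i
  have h2 := F.norm j
  have h3 := hij.2
  have h4 : B (e j) (e i) = 0 := by rw [B_comm]; exact h3
  simp only [xp, NN, B_add_left, B_add_right, B_smul_left, B_smul_right, h1, h2, h3, h4, hx,
    B_comm (e i) x, B_comm (e j) x, uu]
  ring

omit hx in
theorem xp_i : B (xp e x i j) (e i) = 0 := by
  have h1 := F.norm i
  have h4 : B (e j) (e i) = 0 := by rw [B_comm]; exact hij.2
  simp only [xp, B_add_left, B_smul_left, h1, h4, uu]
  ring

omit hx in
theorem xp_j : B (xp e x i j) (e j) = 0 := by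
  have h1 := F.norm j
  have h4 := hij.2
  simp only [xp, B_add_left, B_smul_left, h1, h4, uu]
  ring

omit F hx hij in
theorem xp_k {k : Fin n} (hik : Adj e i k) (hjk : Adj e j k) :
    B (xp e x i j) (e k) = -uu e x k := by
  simp only [xp, B_add_left, B_smul_left, hik.2, hjk.2, uu]
  ring

omit hx in
theorem fv_i {k : Fin n} (hik : Adj e i k) : B (fv e x i j k) (e i) = 0 := by
  have h : B (e k) (e i) = 0 := by rw [B_comm]; exact hik.2
  simp only [fv, B_sub_left, B_smul_left, xp_i F hij, h]
  ring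

omit hx in
theorem fv_j {k : Fin n} (hjk : Adj e j k) : B (fv e x i j k) (e j) = 0 := by
  have h : B (e k) (e j) = 0 := by rw [B_comm]; exact hjk.2
  simp only [fv, B_sub_left, B_smul_left, xp_j F hij, h]
  ring

theorem fv_x {k : Fin n} (hik : Adj e i k) (hjk : Adj e j k) :
    B (fv e x i j k) (xp e x i j) = 0 := by
  have hN := (NN_pos e x i j).ne'
  have h : B (e k) (xp e x i j) = -uu e x k := by rw [B_comm]; exact xp_k hik hjk
  simp only [fv, B_sub_left, B_smul_left, xp_self F hx hij, h]
  field_simp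
  ring

theorem fv_fv {k l : Fin n} (hik : Adj e i k) (hjk : Adj e j k) (hil : Adj e i l)
    (hjl : Adj e j l) : B (fv e x i j k) (fv e x i j l)
      = B (e k) (e l) + uu e x k * uu e x l / NN e x i j := by
  have hN := (NN_pos e x i j).ne'
  have h1 := fv_x F hx hij hik hjk
  have h2 := xp_k (x := x) hil hjl
  have h3 : B (fv e x i j k) (fv e x i j l) = B (fv e x i j k) (e l) := by
    conv_lhs => rw [show fv e x i j l = e l - (uu e x l / NN e x i j) • xp e x i j from rfl]
    simp only [B_sub_right, B_smul_right, h1]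
    ring
  rw [h3]
  simp only [fv, B_sub_left, B_smul_left, h2]
  field_simp
  ring

theorem fv_norm {k : Fin n} (hik : Adj e i k) (hjk : Adj e j k) :
    B (fv e x i j k) (fv e x i j k) = (NN e x i j + uu e x k ^ 2) / NN e x i j := by
  have hN := (NN_pos e x i j).ne'
  rw [fv_fv F hx hij hik hjk hik hjk, F.norm k]
  field_simp

theorem fv_norm_pos {k : Fin n} (hik : Adj e i k) (hjk : Adj e j k) :
    0 < B (fv e x i j k) (fv e x i j k) := by
  rw [fv_norm F hx hij hik hjk]
  have hN := NN_pos e x i j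
  positivity

theorem fv_det {k l : Fin n} (hQ : Q4 e i j k l) :
    B (fv e x i j k) (fv e x i j l) ^ 2
      < B (fv e x i j k) (fv e x i j k) * B (fv e x i j l) (fv e x i j l) := by
  obtain ⟨_, hik, hil, hjk, hjl, hkl⟩ := hQ
  have hN := NN_pos e x i j
  rw [fv_norm F hx hij hik hjk, fv_norm F hx hij hil hjl, fv_fv F hx hij hik hjk hil hjl, hkl.2,
    zero_add, div_pow, div_mul_div_comm, ← pow_two]
  apply div_lt_div_of_pos_right _ (by positivity)
  nlinarith [sq_nonneg (uu e x k), sq_nonneg (uu e x l), mul_pos hN hN,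
    mul_nonneg hN.le (sq_nonneg (uu e x k)), mul_nonneg hN.le (sq_nonneg (uu e x l))]

/-- comparison of the linear functional of the corner `(k,l)` on a common vector of two sectors -/
theorem sector_le (hx0 : 0 < x 0) {k l k' l' : Fin n} (hQ : Q4 e i j k l) (hQ' : Q4 e i j k' l')
    {s t s' t' : ℝ} (hs' : 0 < s') (ht' : 0 < t')
    (heq : ∀ g, s * B g (fv e x i j k) + t * B g (fv e x i j l)
      = s' * B g (fv e x i j k') + t' * B g (fv e x i j l')) :
    s * uu e x k + t * uu e x l ≤ s' * uu e x k' + t' * uu e x l' ∧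
      (s * uu e x k + t * uu e x l = s' * uu e x k' + t' * uu e x l' →
        (k' = k ∨ k' = l) ∧ (l' = k ∨ l' = l)) := by
  obtain ⟨v, hvv, hv0, hvi, hvj, hvk, hvl, hvm⟩ := F.vert i j k l hQ
  have hN := NN_pos e x i j
  set N := NN e x i j with hNdef
  have hc : B v (xp e x i j) ≤ -1 := by
    have h1 : B v (xp e x i j) = B v x := by
      simp only [xp, B_add_right, B_smul_right, hvi, hvj]; ring
    rw [h1]
    exact unit_timelike_le hvv hv0 hx hx0
  have hf : ∀ m, B v (fv e x i j m) = B v (e m) + uu e x m * (-B v (xp e x i j) / N) := by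
    intro m
    simp only [fv, B_sub_right, B_smul_right]
    rw [← hNdef]
    ring
  have h1 := heq v
  rw [hf, hf, hf, hf, hvk, hvl] at h1
  set c := -B v (xp e x i j) / N with hcdef
  have hcpos : 0 < c := by
    apply div_pos _ hN
    linarith
  have hle : ∀ m, Adj e i m → Adj e j m → B v (e m) ≤ 0 := by
    intro m hm1 hm2
    by_cases h2 : m = k
    · rw [h2, hvk]
    · by_cases h3 : m = l
      · rw [h3, hvl]
      · exact (hvm m hm1.1.symm hm2.1.symm h2 h3).le
  have hlt : ∀ m, Adj e i m → Adj e j m → ¬ (m = k ∨ m = l) → B v (e m) < 0 := by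
    intro m hm1 hm2 h2
    push Not at h2
    exact hvm m hm1.1.symm hm2.1.symm h2.1 h2.2
  obtain ⟨_, hik', hil', hjk', hjl', hkl'⟩ := hQ'
  have a1 := mul_nonneg hs'.le (neg_nonneg.2 (hle k' hik' hjk'))
  have a2 := mul_nonneg ht'.le (neg_nonneg.2 (hle l' hil' hjl'))
  have h2 : c * (s * uu e x k + t * uu e x l) = c * (s' * uu e x k' + t' * uu e x l')
      + (s' * B v (e k') + t' * B v (e l')) := by linear_combination h1
  constructor
  · refine le_of_mul_le_mul_left ?_ hcpos
    rw [h2]
    linarith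
  · intro h3
    rw [h3] at h2
    have h4 : s' * B v (e k') + t' * B v (e l') = 0 := by linarith
    constructor
    · by_contra h5
      have := mul_pos hs' (neg_pos.2 (hlt k' hik' hjk' h5))
      linarith
    · by_contra h5
      have := mul_pos ht' (neg_pos.2 (hlt l' hil' hjl' h5))
      linarith

theorem sector_eq (hx0 : 0 < x 0) {k l k' l' : Fin n} (hQ : Q4 e i j k l) (hQ' : Q4 e i j k' l')
    {s t s' t' : ℝ} (hs : 0 < s) (ht : 0 < t) (hs' : 0 < s') (ht' : 0 < t')
    (heq : ∀ g, s * B g (fv e x i j k) + t * B g (fv e x i j l)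
      = s' * B g (fv e x i j k') + t' * B g (fv e x i j l')) :
    (k' = k ∨ k' = l) ∧ (l' = k ∨ l' = l) := by
  have h1 := sector_le F hx hij hx0 hQ hQ' hs' ht' heq
  have h2 := sector_le F hx hij hx0 hQ' hQ hs ht (fun g => (heq g).symm)
  exact h1.2 (le_antisymm h1.1 h2.1)

end

end Pool.Agent.H62.M4
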