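import Pool.Agent.H62.M4.CellChk

/-!
MP_6c826d_gt (S13329), module G: the model of the 120-cell.
-/

set_option autoImplicit false

namespace Pool.Agent.H62.M4.Cell

noncomputable def ev (p : Int × Int) : ℝ := (p.1 : ℝ) + (p.2 : ℝ) * φ

theorem ev_add (p q : Int × Int) : ev (zadd p q) = ev p + ev q := by
  simp only [ev, zadd]; push_cast; ring

theorem ev_mul (p q : Int × Int) : ev (zmul p q) = ev p * ev q := by
  simp only [ev, zmul]
  push_cast
  have h := φ_sq
  have : ((p.1 : ℝ) + (p.2 : ℝ) * φ) * ((q.1 : ℝ) + (q.2 : ℝ) * φ) =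
      p.1 * q.1 + (p.1 * q.2 + p.2 * q.1) * φ + p.2 * q.2 * φ ^ 2 := by ring
  rw [this, h]
  ring

theorem ev_inj (p q : Int × Int) (h : ev p = ev q) : p = q := by
  unfold ev at h
  have h1 : ((p.2 - q.2 : ℤ) : ℝ) * φ = ((q.1 - p.1 : ℤ) : ℝ) := by push_cast; linarith
  have h2 : p.2 = q.2 := by
    by_contra hne
    have hne' : ((p.2 - q.2 : ℤ) : ℝ) ≠ 0 := by
      exact_mod_cast sub_ne_zero.mpr hne
    have h3 : φ = (((q.1 - p.1 : ℤ) : ℚ) / ((p.2 - q.2 : ℤ) : ℚ) : ℚ) := by
      push_cast
      push_cast at h1 hne'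
      rw [eq_div_iff hne']
      linarith
    exact Real.goldenRatio_irrational ⟨_, h3.symm⟩
  have h4 : p.1 = q.1 := by
    rw [h2] at h
    have : (p.1 : ℝ) = q.1 := by linarith
    exact_mod_cast this
  exact Prod.ext h4 h2

noncomputable def evv (x : Nat → Int × Int) (k : Fin 5) : ℝ := ev (x k)

theorem ev_zz : ev (0, 0) = 0 := by simp [ev]

theorem fr_evv (x y : Nat → Int × Int) : fr (evv x) (evv y) = ev (fz x y) := by
  have h1 : ev (0, -1) = -φ := by simp [ev]
  simp only [fr, evv, fz, ev_add, ev_mul, h1, Fin.val_zero, Fin.val_one, Fin.val_two]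
  have e3 : ((3 : Fin 5) : ℕ) = 3 := rfl
  have e4 : ((4 : Fin 5) : ℕ) = 4 := rfl
  rw [e3, e4]
  ring

theorem eq5_iff {x y : Nat → Int × Int} : eq5 x y = true ↔ ∀ k : Fin 5, x k = y k := by
  simp only [eq5, Bool.and_eq_true, beq_iff_eq]
  constructor
  · rintro ⟨⟨⟨⟨h0, h1⟩, h2⟩, h3⟩, h4⟩ k
    fin_cases k
    · exact h0
    · exact h1
    · exact h2
    · exact h3
    · exact h4
  · intro h
    exact ⟨⟨⟨⟨h 0, h 1⟩, h 2⟩, h 3⟩, h 4⟩

theorem evv_eq5 {x y : Nat → Int × Int} (h : eq5 x y = true) : evv x = evv y := by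
  funext k
  unfold evv
  rw [eq5_iff.1 h k]

theorem evv_ln (p q r s : Int × Int) (V a b c : Nat → Int × Int) :
    evv (ln p q r s V a b c) = ev p • evv V + ev q • evv a + ev r • evv b + ev s • evv c := by
  funext k
  simp only [evv, ln, ev_add, ev_mul, Pi.add_apply, Pi.smul_apply, smul_eq_mul]
  ring

theorem nine_of {a b c V x : Nat → Int × Int} (h : nz a b c V x = true) :
    Nine (evv a) (evv b) (evv c) (evv V) (evv x) := by
  have e1 : ev (1, 0) = 1 := by simp [ev]
  have e2 : ev (0, -1) = -φ := by simp [ev]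
  have e3 : ev (0, 1) = φ := by simp [ev]
  have e4 : ev (1, 1) = φ ^ 2 := by rw [φ_sq]; simp only [ev]; push_cast; ring
  have e5 : ev (-1, -1) = -φ ^ 2 := by rw [φ_sq]; simp only [ev]; push_cast; ring
  unfold nz at h
  simp only [Bool.or_eq_true] at h
  unfold Nine
  rcases h with (((((((h | h) | h) | h) | h) | h) | h) | h) | h
  · have h' := evv_eq5 h
    rw [evv_ln, e1, e2, ev_zz] at h'
    left
    rw [h']
    module
  · have h' := evv_eq5 h
    rw [evv_ln, e1, e2, ev_zz] at h'
    right; left
    rw [h']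
    module
  · have h' := evv_eq5 h
    rw [evv_ln, e1, e2, ev_zz] at h'
    right; right; left
    rw [h']
    module
  · have h' := evv_eq5 h
    rw [evv_ln, e3, e2, ev_zz] at h'
    right; right; right; left
    rw [h']
    module
  · have h' := evv_eq5 h
    rw [evv_ln, e3, e2, ev_zz] at h'
    right; right; right; right; left
    rw [h']
    module
  · have h' := evv_eq5 h
    rw [evv_ln, e3, e2, ev_zz] at h'
    right; right; right; right; right; left
    rw [h']
    module
  · have h' := evv_eq5 h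
    rw [evv_ln, e4, e5, e2] at h'
    right; right; right; right; right; right; left
    rw [h']
    module
  · have h' := evv_eq5 h
    rw [evv_ln, e4, e5, e2] at h'
    right; right; right; right; right; right; right; left
    rw [h']
    module
  · have h' := evv_eq5 h
    rw [evv_ln, e4, e5, e2] at h'
    right; right; right; right; right; right; right; right
    rw [h']
    module

theorem nine_rot {a b c V x : Fin 5 → ℝ} (h : Nine a b c V x) : Nine b c a V x := by
  unfold Nine at *
  rcases h with h | h | h | h | h | h | h | h | h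
  · right; right; left; exact h
  · left; exact h
  · right; left; exact h
  · right; right; right; right; left; rw [h]; module
  · right; right; right; right; right; left; rw [h]; module
  · right; right; right; left; rw [h]
  · right; right; right; right; right; right; right; right; rw [h]
  · right; right; right; right; right; right; left; rw [h]; module
  · right; right; right; right; right; right; right; left; rw [h]; module

/-- adjacency -/
def adP (w u : Fin 120) : Prop := ad w u = true

def toF (x : Nat) : Fin 120 := ⟨x % 120, Nat.mod_lt _ (by norm_num)⟩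

theorem toF_val {x : Nat} (h : x < 120) : (toF x).val = x := Nat.mod_eq_of_lt h

theorem chain_of (w : Fin 120) : ∀ (l : List Nat) (a : Fin 120), chn w a l = true →
    List.IsChain adP (a :: (l.map toF ++ [w])) ∧ (∀ u ∈ l.map toF, u ≠ 0 ∧ u ≠ w) ∧
      ∀ b ∈ l, b < 120 := by
  intro l
  induction l with
  | nil =>
    intro a h
    refine ⟨?_, by simp, by simp⟩
    simp only [List.map_nil, List.nil_append, List.isChain_cons_cons]
    exact ⟨h, List.isChain_singleton _⟩
  | cons b l ih =>
    intro a h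
    simp only [chn, Bool.and_eq_true, decide_eq_true_eq, Bool.not_eq_true', beq_eq_false_iff_ne,
      ne_eq] at h
    obtain ⟨⟨⟨⟨h1, h2⟩, h3⟩, h4⟩, h5⟩ := h
    have hb : (toF b).val = b := toF_val h2
    obtain ⟨g1, g2, g3⟩ := ih (toF b) (by rw [hb]; exact h5)
    refine ⟨?_, ?_, ?_⟩
    · simp only [List.map_cons, List.cons_append, List.isChain_cons_cons]
      refine ⟨?_, g1⟩
      unfold adP
      rw [hb]
      exact h1
    · intro u hu
      simp only [List.map_cons, List.mem_cons] at hu
      rcases hu with rfl | hu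
      · refine ⟨?_, ?_⟩
        · intro h0
          apply h4
          rw [← hb, h0]
          rfl
        · intro h0
          apply h3
          rw [← hb, h0]
      · exact g2 u hu
    · intro c hc
      simp only [List.mem_cons] at hc
      rcases hc with rfl | hc
      · exact h2
      · exact g3 c hc

theorem msk_bit : ∀ (l : List Nat) (a : Nat), a ∈ l → (msk l).testBit a = true := by
  intro l
  induction l with
  | nil => intro a h; simp at h
  | cons b l ih =>
    intro a h
    simp only [msk, Nat.testBit_or, Bool.or_eq_true]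
    simp only [List.mem_cons] at h
    rcases h with rfl | h
    · left
      exact Nat.testBit_two_pow_self
    · right
      exact ih a h

theorem disj_of {l l' : List Nat} (h : msk l &&& msk l' = 0) (hl : ∀ b ∈ l, b < 120)
    (hl' : ∀ b ∈ l', b < 120) : List.Disjoint (l.map toF) (l'.map toF) := by
  intro u hu hu'
  simp only [List.mem_map] at hu hu'
  obtain ⟨a, ha, rfl⟩ := hu
  obtain ⟨b, hb, hab⟩ := hu'
  have e : b = a := by
    have := congrArg Fin.val hab
    rw [toF_val (hl' b hb), toF_val (hl a ha)] at this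
    exact this
  subst e
  have h1 := msk_bit l b ha
  have h2 := msk_bit l' b hb
  have h3 : (msk l &&& msk l').testBit b = true := by
    rw [Nat.testBit_and, h1, h2]
    rfl
  rw [h] at h3
  simp at h3

theorem vec_unit (j : Nat) (x : Nat → Int × Int) (y : Fin 5 → ℝ)
    (h : eq5 x (fun k => if k = j then (1, 0) else (0, 0)) = true)
    (hy : ∀ k : Fin 5, y k = if (k : ℕ) = j then 1 else 0) : evv x = y := by
  funext k
  have h1 := eq5_iff.1 h k
  unfold evv
  rw [h1, hy k]
  by_cases hk : (k : ℕ) = j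
  · rw [if_pos hk, if_pos hk]
    simp [ev]
  · rw [if_neg hk, if_neg hk]
    simp [ev]

/-- facts on the corner `i` of `w`, with real coordinates -/
theorem corn_facts (w : Fin 120) (i : Fin 4) : ∃ (a b c : Fin 120) (V : Fin 5 → ℝ),
    a.val = cn w i 0 ∧ b.val = cn w i 1 ∧ c.val = cn w i 2 ∧ V = evv (vz w i) ∧
    adP w a ∧ adP w b ∧ adP w c ∧ adP a b ∧ adP a c ∧ adP b c ∧ fr V V = -φ ∧
    fr V (evv (xz w)) = 0 ∧ fr V (evv (xz a)) = 0 ∧ fr V (evv (xz b)) = 0 ∧
    fr V (evv (xz c)) = 0 ∧ 0 < V 4 ∧
    ∀ u, adP w u → u = a ∨ u = b ∨ u = c ∨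
      Nine (evv (xz a)) (evv (xz b)) (evv (xz c)) V (evv (xz u)) := by
  have h := chk_corn w i
  simp only [okc, Bool.and_eq_true, decide_eq_true_eq, Bool.not_eq_true', beq_eq_false_iff_ne,
    beq_iff_eq, ne_eq] at h
  obtain ⟨⟨⟨⟨⟨⟨⟨⟨⟨⟨⟨⟨⟨⟨⟨⟨h1, h2⟩, h3⟩, h4⟩, h5⟩, h6⟩, h7⟩, h8⟩, h9⟩, h10⟩, h11⟩, h12⟩, h13⟩, h14⟩,
    h15⟩, h16⟩, h17⟩ := h
  refine ⟨⟨_, h15⟩, ⟨_, h16⟩, ⟨_, h17⟩, evv (vz w i), rfl, rfl, rfl, rfl, h1, h2, h3, h4, h5, h6,
    ?_, ?_, ?_, ?_, ?_, ?_, ?_⟩
  · rw [fr_evv, h7]; simp [ev]
  · rw [fr_evv, h8]; exact ev_zz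
  · rw [fr_evv, h9]; exact ev_zz
  · rw [fr_evv, h10]; exact ev_zz
  · rw [fr_evv, h11]; exact ev_zz
  · have hp : 0 ≤ ((vz w i 4).1 : ℝ) := by exact_mod_cast h12
    have hq : 0 ≤ ((vz w i 4).2 : ℝ) := by exact_mod_cast h13
    have hφ := φ_pos
    have h0 : (0 : ℝ) ≤ ev (vz w i 4) := by
      unfold ev
      positivity
    have h0' : ev (vz w i 4) ≠ 0 := by
      intro hz
      apply h14
      apply ev_inj
      rw [hz, ev_zz]
    exact lt_of_le_of_ne h0 (Ne.symm h0')
  · intro u hu
    rcases chk_nine w i u hu with (h | h | h) | h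
    · left; exact Fin.ext h
    · right; left; exact Fin.ext h
    · right; right; left; exact Fin.ext h
    · right; right; right
      exact nine_of h

theorem adP_symm {w u : Fin 120} (h : adP w u) : adP u w := (chk_symm w u h).1

theorem model_exists : Nonempty Model := by
  have hb := chk_base
  simp only [Bool.and_eq_true, beq_iff_eq] at hb
  obtain ⟨⟨⟨⟨⟨⟨⟨⟨⟨⟨⟨⟨⟨b1, b2⟩, b3⟩, b4⟩, b5⟩, b6⟩, b7⟩, b8⟩, b9⟩, b10⟩, b11⟩, b12⟩, b13⟩, b14⟩ := hb
  refine ⟨⟨fun w => evv (xz w), adP, ?_, ?_, ?_, ?_, ?_, fun w u h => adP_symm h,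
    fun w u h => (chk_symm w u h).2, ?_, ⟨b1, b2, b3, b4, b5, b6⟩, ?_, ?_, ?_⟩⟩
  · intro w u h
    rcases chk_inj w u with h1 | h1
    · exact h1
    · exfalso
      have h2 : eq5 (xz w) (xz u) = true := by
        rw [eq5_iff]
        intro k
        exact ev_inj _ _ (congrFun h k)
      rw [h1] at h2
      exact Bool.false_ne_true h2
  · apply vec_unit 0 _ _ b7
    intro k; fin_cases k <;> simp
  · apply vec_unit 1 _ _ b8
    intro k; fin_cases k <;> simp
  · apply vec_unit 2 _ _ b9
    intro k; fin_cases k <;> simp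
  · apply vec_unit 3 _ _ b10
    intro k; fin_cases k <;> simp
  · intro w u h
    show fr (evv (xz w)) (evv (xz u)) = 0
    have h1 := chk_orth w u h
    rw [beq_iff_eq] at h1
    rw [fr_evv, h1]
    exact ev_zz
  · intro u hu
    obtain ⟨a, b, c, V, ha, hb, hc, hV, -, -, -, -, -, -, -, -, -, -, -, -, h⟩ := corn_facts 0 0
    have ha' : a = 1 := Fin.ext (by rw [ha]; exact b12)
    have hb' : b = 2 := Fin.ext (by rw [hb]; exact b13)
    have hc' : c = 3 := Fin.ext (by rw [hc]; exact b14)
    have hV' : V = ![0, 0, 0, 0, 1] := by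
      rw [hV]
      apply vec_unit 4 _ _ b11
      intro k; fin_cases k <;> simp
    rw [ha', hb', hc', hV'] at h
    exact h u hu
  · intro w u hu
    obtain ⟨i, hi⟩ := chk_cov w u hu
    obtain ⟨a, b, c, V, ha, hb, hc, hV, wa, wb, wc, ab, ac, bc, v0, v1, v2, v3, v4, v5, h⟩ :=
      corn_facts w i
    rcases hi with hi | hi | hi
    · have e : u = a := Fin.ext (by rw [hi, ha])
      subst e
      exact ⟨b, c, V, wb, wc, ab, ac, bc, v0, v1, v2, v3, v4, v5, h⟩
    · have e : u = b := Fin.ext (by rw [hi, hb])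
      subst e
      refine ⟨c, a, V, wc, wa, bc, adP_symm ab, adP_symm ac, v0, v1, v3, v4, v2, v5, ?_⟩
      intro x hx
      rcases h x hx with h | h | h | h
      · right; right; left; exact h
      · left; exact h
      · right; left; exact h
      · right; right; right; exact nine_rot h
    · have e : u = c := Fin.ext (by rw [hi, hc])
      subst e
      refine ⟨a, b, V, wa, wb, adP_symm ac, adP_symm bc, ab, v0, v1, v4, v2, v3, v5, ?_⟩
      intro x hx
      rcases h x hx with h | h | h | h
      · right; left; exact h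
      · right; right; left; exact h
      · left; exact h
      · right; right; right; exact nine_rot (nine_rot h)
  · intro w hw0 hw
    have hw0' : w.val ≠ 0 := fun h => hw0 (Fin.ext h)
    have hw' : ad 0 w = false := by
      cases hh : ad 0 w
      · rfl
      · exact absurd hh hw
    have hp := chk_path w hw0' hw'
    have hch := fun i : Fin 12 => chain_of w (pa w i) 0 (hp i)
    refine ⟨fun i => (pa w i).map toF, fun i => (hch i).1, fun i => (hch i).2.1, ?_⟩
    intro i j hij
    rcases chk_disj w i j with h | h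
    · exact absurd h hij
    · exact disj_of h (hch i).2.2 (hch j).2.2

end Pool.Agent.H62.M4.Cell

namespace Pool.Agent.H62.M4

theorem model_exists : Nonempty Model := Cell.model_exists

end Pool.Agent.H62.M4
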