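import Pool.Agent.H62.M4.CellData

/-!
MP_6c826d_gt (S13329), module G: kernel checks of the data of the 120-cell.
-/

set_option autoImplicit false

namespace Pool.Agent.H62.M4.Cell

theorem chk_symm : ∀ w : Fin 120, ∀ u : Fin 120, ad w u = true → ad u w = true ∧ w ≠ u := by
  decide +kernel

theorem chk_inj : ∀ w : Fin 120, ∀ u : Fin 120, w = u ∨ eq5 (xz w) (xz u) = false := by
  decide +kernel

theorem chk_orth : ∀ w : Fin 120, ∀ u : Fin 120, ad w u = true →
    (fz (xz w) (xz u) == (0, 0)) = true := by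
  decide +kernel

theorem chk_corn : ∀ w : Fin 120, ∀ i : Fin 4,
    okc w (cn w i 0) (cn w i 1) (cn w i 2) (vz w i) = true := by
  decide +kernel

theorem chk_nine : ∀ w : Fin 120, ∀ i : Fin 4, ∀ u : Fin 120, ad w u = true →
    (u.val = cn w i 0 ∨ u.val = cn w i 1 ∨ u.val = cn w i 2) ∨
    nz (xz (cn w i 0)) (xz (cn w i 1)) (xz (cn w i 2)) (vz w i) (xz u) = true := by
  decide +kernel

theorem chk_cov : ∀ w : Fin 120, ∀ u : Fin 120, ad w u = true → ∃ i : Fin 4,
    (u.val = cn w i 0 ∨ u.val = cn w i 1 ∨ u.val = cn w i 2) := by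
  decide +kernel

/-- chain from `a` through the list to `w` -/
def chn (w : Nat) : Nat → List Nat → Bool
  | a, [] => ad a w
  | a, b :: l => ad a b && decide (b < 120) && !(b == w) && !(b == 0) && chn w b l

theorem chk_path : ∀ w : Fin 120, w.val ≠ 0 → ad 0 w = false →
    ∀ i : Fin 12, chn w 0 (pa w i) = true := by
  decide +kernel

/-- bit mask of a list -/
def msk : List Nat → Nat
  | [] => 0
  | a :: l => 2 ^ a ||| msk l

theorem chk_disj : ∀ w : Fin 120, ∀ i j : Fin 12,
    i = j ∨ (msk (pa w i)) &&& (msk (pa w j)) = 0 := by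
  decide +kernel

theorem chk_base : (ad 0 1 && ad 0 2 && ad 0 3 && ad 1 2 && ad 1 3 && ad 2 3 &&
    eq5 (xz 0) (fun k => if k = 0 then (1, 0) else (0, 0)) &&
    eq5 (xz 1) (fun k => if k = 1 then (1, 0) else (0, 0)) &&
    eq5 (xz 2) (fun k => if k = 2 then (1, 0) else (0, 0)) &&
    eq5 (xz 3) (fun k => if k = 3 then (1, 0) else (0, 0)) &&
    eq5 (vz 0 0) (fun k => if k = 4 then (1, 0) else (0, 0)) &&
    cn 0 0 0 == 1 && cn 0 0 1 == 2 && cn 0 0 2 == 3) = true := by
  decide +kernel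

end Pool.Agent.H62.M4.Cell
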