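import Pool.Agent.H62.M4.Spec
import Pool.Agent.H62.M4.Lor

/-!
MP_6c826d_gt (S13329), module S4a: the metric inequality (no chords).
-/

set_option autoImplicit false

namespace Pool.Agent.H62.M4

open Finset

variable {n : ℕ}

theorem no_chord {e : Fin n → V5} (F : Facts e) {z c : Fin n} (R : RingD e z c)
    (A : RingA e z c R) (t : Fin 5) (w w' : Fin n) (hw : Adj e z w) (hwc : w ≠ c)
    (hwc' : ¬ Adj e c w) (hw' : Adj e z w') (hw'c : w' ≠ c) (hw'c' : ¬ Adj e c w')
    (h1 : Adj e w (R.p t)) (h2 : Adj e w' (R.p (t + 2))) (h3 : ¬ Adj e w (R.p (t + 1)))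
    (h4 : ¬ Adj e w' (R.p (t + 1))) : ¬ Adj e w w' := by
  intro hww'
  -- elementary facts on the ring
  have hz2 := R.zc.2
  have hpQ := R.pQ
  have hzc : B (e z) (e c) = 0 := R.zc.2
  -- `q` facts
  obtain ⟨hq1, hq0, hqz, hqc, hqp, hqp', hqneg⟩ := R.qv t
  obtain ⟨hr1, hr0, hrz, hrc, hrp, hrp', hrneg⟩ := R.qv (t + 1)
  have e12 : t + 1 + 1 = t + 2 := by rw [add_assoc]; rfl
  rw [e12] at hrp' hrneg
  -- non adjacency values
  have neg_of : ∀ i j, i ≠ j → B (e i) (e j) ≤ 0 := by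
    intro i j hij
    rcases F.dich i j hij with h | h <;> linarith
  have lt_of : ∀ i j, i ≠ j → ¬ Adj e i j → B (e i) (e j) < -1 := by
    intro i j hij h
    rcases F.dich i j hij with h' | h'
    · exact absurd ⟨hij, h'⟩ h
    · exact h'
  have hcp : ∀ s, Adj e c (R.p s) := fun s => (R.pQ s).2.2.2.1
  have hzp : ∀ s, Adj e z (R.p s) := fun s => (R.pQ s).2.1
  have hpp : ∀ s, Adj e (R.p s) (R.p (s + 1)) := fun s => (R.pQ s).2.2.2.2.2
  have wne : ∀ s, w ≠ R.p s := fun s h => hwc' (h ▸ hcp s)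
  have w'ne : ∀ s, w' ≠ R.p s := fun s h => hw'c' (h ▸ hcp s)
  have hAw : B (e w) (e c) < -1 := lt_of w c hwc (fun h => hwc' h.symm)
  have hAw' : B (e w') (e c) < -1 := lt_of w' c hw'c (fun h => hw'c' h.symm)
  have hb : B (e w) (e (R.p (t + 1))) < -1 := lt_of _ _ (wne _) h3
  have hb' : B (e w') (e (R.p (t + 1))) < -1 := lt_of _ _ (w'ne _) h4
  -- the bound Ω > 1
  have hwk : w ≠ R.k t := by
    intro h
    exact h3 (h ▸ (R.kQ t).2.2.2.2.2.symm)
  have hw'k : w' ≠ R.k (t + 1) := by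
    intro h
    exact h4 (h ▸ (R.kQ (t + 1)).2.2.2.2.1.symm)
  have hO : 1 < B (e w) (R.q t) / B (e w) (e c) := by
    have := A.om_le w hw hwc hwc' t hwk
    unfold Om at this
    linarith [R.C1 t]
  have hO' : 1 < B (e w') (R.q (t + 1)) / B (e w') (e c) := by
    have := A.om_le w' hw' hw'c hw'c' (t + 1) hw'k
    unfold Om at this
    linarith [R.C1 (t + 1)]
  have ha : B (e w) (R.q t) < B (e w) (e c) := by
    rw [one_lt_div_iff] at hO
    rcases hO with h | h
    · linarith [h.1]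
    · exact h.2
  have ha' : B (e w') (R.q (t + 1)) < B (e w') (e c) := by
    rw [one_lt_div_iff] at hO'
    rcases hO' with h | h
    · linarith [h.1]
    · exact h.2
  -- golden ratio facts
  have hφ := φ_pos
  have hφ2 := φ_sq
  have hs : √φ * √φ = φ := Real.mul_self_sqrt hφ.le
  have hs0 : 0 < √φ := Real.sqrt_pos.mpr hφ
  -- expression of e (p (t+4))
  have hp4 : e (R.p (t + 4)) = √φ • R.q t - φ • e (R.p (t + 1)) := by
    have k1 := R.pstep (t + 4)
    have k2 := R.qstep (t + 4)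
    have e6 : t + 4 + 2 = t + 1 := by
      rw [add_assoc]; rfl
    have e5 : t + 4 + 1 = t := by
      rw [add_assoc]
      have : (4 : Fin 5) + 1 = 0 := rfl
      rw [this, add_zero]
    rw [e6] at k1
    rw [e5] at k2
    rw [k1, k2]
    ext m
    simp only [Pi.sub_apply, Pi.smul_apply, smul_eq_mul]
    have : √φ * (φ * R.q (t + 4) m - √φ * e (R.p (t + 4)) m) -
        φ * (√φ * R.q (t + 4) m - φ * e (R.p (t + 4)) m) = (φ ^ 2 - √φ * √φ) * e (R.p (t + 4)) m := by
      ring
    rw [this, hs, hφ2]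
    ring
  have hp3 : e (R.p (t + 3)) = √φ • R.q (t + 1) - φ • e (R.p (t + 1)) := by
    have k1 := R.pstep (t + 1)
    have e3 : t + 1 + 2 = t + 3 := by
      rw [add_assoc]; rfl
    rw [e3] at k1
    exact k1
  have hβ : -(√φ) * (-B (e w) (R.q t)) - φ * B (e w) (e (R.p (t + 1))) ≤ 0 := by
    have := neg_of w (R.p (t + 4)) (wne _)
    rw [hp4] at this
    simp only [B_sub_right, B_smul_right] at this
    linarith
  have hβ' : -(√φ) * (-B (e w') (R.q (t + 1))) - φ * B (e w') (e (R.p (t + 1))) ≤ 0 := by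
    have := neg_of w' (R.p (t + 3)) (w'ne _)
    rw [hp3] at this
    simp only [B_sub_right, B_smul_right] at this
    linarith
  -- expansions
  have hx := frame_expand (F.norm z) (F.norm c) (F.norm (R.p t)) (F.norm (R.p (t + 1))) hq1
    hzc (hzp t).2 (hzp (t + 1)).2 (hcp t).2 (hcp (t + 1)).2 (hpp t).2 hqz hqc hqp hqp' (e w)
  have hx' := frame_expand (F.norm z) (F.norm c) (F.norm (R.p (t + 1))) (F.norm (R.p (t + 2))) hr1
    hzc (hzp (t + 1)).2 (hzp (t + 2)).2 (hcp (t + 1)).2 (hcp (t + 2)).2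
    (by have := (hpp (t + 1)).2; rwa [e12] at this) hrz hrc hrp hrp' (e w')
  have hwz : B (e w) (e z) = 0 := hw.symm.2
  have hw'z : B (e w') (e z) = 0 := hw'.symm.2
  rw [hwz, h1.2] at hx
  rw [hw'z, h2.2] at hx'
  have hqq : B (R.q t) (R.q (t + 1)) = -φ := by
    rw [R.qstep t]
    simp only [B_sub_right, B_smul_right, hq1, hqp]
    ring
  have hfin : B (e w) (e w') = B (e w) (e c) * B (e w') (e c) +
      B (e w) (e (R.p (t + 1))) * B (e w') (e (R.p (t + 1))) -
      φ * (B (e w) (R.q t) * B (e w') (R.q (t + 1))) := by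
    conv_lhs => rw [hx, hx']
    simp only [B_sub_right, B_smul_right, B_add_right, B_sub_left, B_smul_left, B_add_left,
      zero_smul, B_zero_left, B_zero_right, hqq, F.norm, hqc, hqp', hrc, hrp,
      B_comm (e c) (R.q (t + 1)), B_comm (e (R.p (t + 1))) (R.q (t + 1)),
      B_comm (e (R.p (t + 1))) (e c), (hcp (t + 1)).2]
    ring
  have hww := hww'.2
  rw [hfin] at hww
  set a := B (e w) (R.q t)
  set a' := B (e w') (R.q (t + 1))
  set α := B (e w) (e c)
  set α' := B (e w') (e c)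
  set β := B (e w) (e (R.p (t + 1)))
  set β' := B (e w') (e (R.p (t + 1)))
  -- √φ * (-β) ≤ -a
  have g1 : √φ * (-β) ≤ -a := by
    have : √φ * (√φ * (-β)) ≤ √φ * (-a) := by
      have : √φ * (√φ * (-β)) = φ * (-β) := by rw [← mul_assoc, hs]
      rw [this]; linarith
    exact le_of_mul_le_mul_left this hs0
  have g2 : √φ * (-β') ≤ -a' := by
    have : √φ * (√φ * (-β')) ≤ √φ * (-a') := by
      have : √φ * (√φ * (-β')) = φ * (-β') := by rw [← mul_assoc, hs]
      rw [this]; linarith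
    exact le_of_mul_le_mul_left this hs0
  have g3 : (√φ * (-β)) * (√φ * (-β')) ≤ (-a) * (-a') :=
    mul_le_mul g1 g2 (by nlinarith) (by linarith)
  have g4 : φ * (β * β') ≤ a * a' := by
    have : (√φ * (-β)) * (√φ * (-β')) = φ * (β * β') := by
      rw [show (√φ * (-β)) * (√φ * (-β')) = (√φ * √φ) * (β * β') by ring, hs]
    linarith
  have g5 : α * α' < a * a' := by
    have : (-α) * (-α') < (-a) * (-a') :=
      mul_lt_mul'' (by linarith) (by linarith) (by linarith) (by linarith)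
    linarith
  -- φ (α α' + β β') < φ a a' + a a' = φ^2 a a'
  have g6 : φ * (α * α') < φ * (a * a') := mul_lt_mul_of_pos_left g5 hφ
  have g7 : φ * (α * α' + β * β' - φ * (a * a')) < 0 := by
    have : φ * (α * α' + β * β' - φ * (a * a')) =
      φ * (α * α') + φ * (β * β') - φ ^ 2 * (a * a') := by ring
    rw [this, hφ2]
    linarith
  rw [hww] at g7
  linarith

end Pool.Agent.H62.M4
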