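import Pool.Agent.H62.M4.Spec
import Pool.Agent.H62.M4.Lor

/-!
MP_6c826d_gt (S13329), m_4 = 120.  Module E2: connectedness of the boundary of a facet and of a
2-face.
-/

set_option autoImplicit false

namespace Pool.Agent.H62.M4

open Finset

variable {n : ℕ}

/-- the pairing identity -/
theorem conn_pair {e : Fin n → V5} (F : Facts e) {i j k l : Fin n} {v : V5} (hQ : Q4 e i j k l)
    (hv : IsVert e i j k l v) (x w y : V5) :
    B x v * B w y - B w v * B x y =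
      (B w (e i) * B x v - B w v * B x (e i)) * B y (e i) +
      (B w (e j) * B x v - B w v * B x (e j)) * B y (e j) +
      (B w (e k) * B x v - B w v * B x (e k)) * B y (e k) +
      (B w (e l) * B x v - B w v * B x (e l)) * B y (e l) := by
  obtain ⟨hij, hik, hil, hjk, hjl, hkl⟩ := hQ
  obtain ⟨hvv, hv0, hvi, hvj, hvk, hvl, hneg⟩ := hv
  have hw := frame_form (F.norm i) (F.norm j) (F.norm k) (F.norm l) hvv hij.2 hik.2 hil.2 hjk.2
    hjl.2 hkl.2 hvi hvj hvk hvl w y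
  have hx := frame_form (F.norm i) (F.norm j) (F.norm k) (F.norm l) hvv hij.2 hik.2 hil.2 hjk.2
    hjl.2 hkl.2 hvi hvj hvk hvl x y
  rw [hw, hx]
  ring

/-- comparison with a vertex which is orthogonal to three of the normals of a corner -/
theorem conn_flip {e : Fin n → V5} (F : Facts e) {i j k l : Fin n} {v : V5} (hQ : Q4 e i j k l)
    (hv : IsVert e i j k l v) {x w v' : V5} (hx : B x x = -1) (hx0 : 0 < x 0)
    (hv' : B v' v' = -1) (hv0' : 0 < v' 0) (h1 : B v' (e i) = 0) (h2 : B v' (e j) = 0)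
    (h3 : B v' (e k) = 0) (h4 : B v' (e l) < 0) (hle : B w v / B x v ≤ B w v' / B x v') :
    B w (e l) * B x v - B w v * B x (e l) ≤ 0 := by
  obtain ⟨hij, hik, hil, hjk, hjl, hkl⟩ := hQ
  obtain ⟨hvv, hv0, hvi, hvj, hvk, hvl, hneg⟩ := hv
  have hw := frame_form (F.norm i) (F.norm j) (F.norm k) (F.norm l) hvv hij.2 hik.2 hil.2 hjk.2
    hjl.2 hkl.2 hvi hvj hvk hvl w v'
  have hxx := frame_form (F.norm i) (F.norm j) (F.norm k) (F.norm l) hvv hij.2 hik.2 hil.2 hjk.2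
    hjl.2 hkl.2 hvi hvj hvk hvl x v'
  rw [h1, h2, h3] at hw hxx
  have a1 : B x v < 0 := by
    have := unit_timelike_le hx hx0 hvv hv0
    linarith
  have a2 : B x v' < 0 := by
    have := unit_timelike_le hx hx0 hv' hv0'
    linarith
  have hpos : 0 < B x v * B x v' := mul_pos_of_neg_of_neg a1 a2
  have h5 : B w v * B x v' ≤ B w v' * B x v := by
    have h6 := mul_le_mul_of_nonneg_right hle hpos.le
    have e1 : B w v / B x v * (B x v * B x v') = B w v * B x v' := by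
      rw [← mul_assoc, div_mul_cancel₀ _ a1.ne]
    have e2 : B w v' / B x v' * (B x v * B x v') = B w v' * B x v := by
      rw [mul_comm (B x v), ← mul_assoc, div_mul_cancel₀ _ a2.ne]
    rwa [e1, e2] at h6
  rw [hw, hxx] at h5
  have h7 : 0 ≤ (B w (e l) * B x v - B w v * B x (e l)) * B v' (e l) := by nlinarith
  by_contra hcon
  rw [not_le] at hcon
  nlinarith [mul_neg_of_pos_of_neg hcon h4]

/-- vanishing of the sum -/
theorem conn_zero {e : Fin n → V5} {i j k l : Fin n} {v : V5} (hv : IsVert e i j k l v) (m : Fin n)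
    (h : 0 ≤ B v (e m)) : m = i ∨ m = j ∨ m = k ∨ m = l := by
  by_contra hcon
  push Not at hcon
  obtain ⟨c1, c2, c3, c4⟩ := hcon
  have := hv.2.2.2.2.2.2 m c1 c2 c3 c4
  linarith

theorem vert_le {e : Fin n → V5} {i j k l : Fin n} {v : V5} (hv : IsVert e i j k l v) (m : Fin n) :
    B v (e m) ≤ 0 := by
  by_contra hcon
  rw [not_le] at hcon
  rcases conn_zero hv m hcon.le with h | h | h | h
  · rw [h, hv.2.2.1] at hcon; exact lt_irrefl _ hcon
  · rw [h, hv.2.2.2.1] at hcon; exact lt_irrefl _ hcon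
  · rw [h, hv.2.2.2.2.1] at hcon; exact lt_irrefl _ hcon
  · rw [h, hv.2.2.2.2.2.1] at hcon; exact lt_irrefl _ hcon

theorem Q4.perm1 {e : Fin n → V5} {i j k l : Fin n} (h : Q4 e i j k l) : Q4 e i j l k :=
  ⟨h.1, h.2.2.1, h.2.1, h.2.2.2.2.1, h.2.2.2.1, h.2.2.2.2.2.symm⟩

theorem Q4.perm2 {e : Fin n → V5} {i j k l : Fin n} (h : Q4 e i j k l) : Q4 e i k l j :=
  ⟨h.2.1, h.2.2.1, h.1, h.2.2.2.2.2, h.2.2.2.1.symm, h.2.2.2.2.1.symm⟩

/-- a flipped corner: its vertex is strictly on the inner side of the old facet -/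
theorem flip_neg {e : Fin n → V5} {i j k l l' : Fin n} (hQ : Q4 e i j k l) {v' : V5}
    (hv' : IsVert e i j k l' v') (hl : l' ≠ l) : B v' (e l) < 0 :=
  hv'.2.2.2.2.2.2 l hQ.2.2.1.1.symm hQ.2.2.2.2.1.1.symm hQ.2.2.2.2.2.1.symm hl.symm

theorem conn {e : Fin n → V5} (F : Facts e) : ConnSpec e := by
  classical
  intro z D hne hcl m hm
  obtain ⟨k', l', hQ''⟩ := F.ext2 z m hm
  obtain ⟨x, hx⟩ := F.vert z m k' l' hQ''
  have hxx : B x x = -1 := hx.1
  have hx0 : 0 < x 0 := hx.2.1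
  set w : V5 := e m + e k' + e l' with hw
  obtain ⟨V, hV⟩ : ∃ V : Fin n → Fin n → Fin n → V5, ∀ j k l, Q4 e z j k l →
      IsVert e z j k l (V j k l) := by
    refine ⟨fun j k l => if h : Q4 e z j k l then (F.vert z j k l h).choose else 0, ?_⟩
    intro j k l h
    show IsVert e z j k l (if h : Q4 e z j k l then (F.vert z j k l h).choose else 0)
    rw [dif_pos h]
    exact (F.vert z j k l h).choose_spec
  obtain ⟨j0, k0, l0, h0, hj0, hk0, hl0⟩ := hne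
  let S : Finset (Fin n × Fin n × Fin n) := univ.filter
    (fun T => Q4 e z T.1 T.2.1 T.2.2 ∧ T.1 ∈ D ∧ T.2.1 ∈ D ∧ T.2.2 ∈ D)
  have hS : ∀ j k l, Q4 e z j k l → j ∈ D → k ∈ D → l ∈ D → (j, k, l) ∈ S := by
    intro j k l h1 h2 h3 h4
    exact mem_filter.2 ⟨mem_univ _, h1, h2, h3, h4⟩
  obtain ⟨T, hT, hmin⟩ := S.exists_min_image
    (fun T => B w (V T.1 T.2.1 T.2.2) / B x (V T.1 T.2.1 T.2.2)) ⟨_, hS j0 k0 l0 h0 hj0 hk0 hl0⟩
  obtain ⟨j, k, l⟩ := T
  obtain ⟨-, hQ, hj, hk, hl⟩ := mem_filter.1 hT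
  simp only at hQ hj hk hl
  have hv := hV j k l hQ
  set v := V j k l with hvdef
  have D1 : ∀ l1, l1 ≠ l → Q4 e z j k l1 → B w (e l) * B x v - B w v * B x (e l) ≤ 0 := by
    intro l1 hne1 hQ1
    have hl1 : l1 ∈ D := hcl j k l l1 hQ hj hk hl hQ1
    have hv1 := hV j k l1 hQ1
    have := hmin (j, k, l1) (hS j k l1 hQ1 hj hk hl1)
    exact conn_flip F hQ hv hxx hx0 hv1.1 hv1.2.1 hv1.2.2.1 hv1.2.2.2.1 hv1.2.2.2.2.1
      (flip_neg hQ hv1 hne1) this
  have D2 : ∀ k1, k1 ≠ k → Q4 e z j l k1 → B w (e k) * B x v - B w v * B x (e k) ≤ 0 := by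
    intro k1 hne1 hQ1
    have hk1 : k1 ∈ D := hcl j l k k1 hQ.perm1 hj hl hk hQ1
    have hv1 := hV j l k1 hQ1
    have := hmin (j, l, k1) (hS j l k1 hQ1 hj hl hk1)
    have hv' : IsVert e z j l k v := ⟨hv.1, hv.2.1, hv.2.2.1, hv.2.2.2.1, hv.2.2.2.2.2.1,
      hv.2.2.2.2.1, fun m h1 h2 h3 h4 => hv.2.2.2.2.2.2 m h1 h2 h4 h3⟩
    exact conn_flip F hQ.perm1 hv' hxx hx0 hv1.1 hv1.2.1 hv1.2.2.1 hv1.2.2.2.1 hv1.2.2.2.2.1
      (flip_neg hQ.perm1 hv1 hne1) this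
  have D3 : ∀ j1, j1 ≠ j → Q4 e z k l j1 → B w (e j) * B x v - B w v * B x (e j) ≤ 0 := by
    intro j1 hne1 hQ1
    have hj1 : j1 ∈ D := hcl k l j j1 hQ.perm2 hk hl hj hQ1
    have hv1 := hV k l j1 hQ1
    have := hmin (k, l, j1) (hS k l j1 hQ1 hk hl hj1)
    have hv' : IsVert e z k l j v := ⟨hv.1, hv.2.1, hv.2.2.1, hv.2.2.2.2.1, hv.2.2.2.2.2.1,
      hv.2.2.2.1, fun m h1 h2 h3 h4 => hv.2.2.2.2.2.2 m h1 h4 h2 h3⟩
    exact conn_flip F hQ.perm2 hv' hxx hx0 hv1.1 hv1.2.1 hv1.2.2.1 hv1.2.2.2.1 hv1.2.2.2.2.1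
      (flip_neg hQ.perm2 hv1 hne1) this
  obtain ⟨l1, hl1, hQl, -⟩ := F.two z j k l hQ
  obtain ⟨k1, hk1, hQk, -⟩ := F.two z j l k hQ.perm1
  obtain ⟨j1, hj1, hQj, -⟩ := F.two z k l j hQ.perm2
  have E1 := D1 l1 hl1 hQl
  have E2 := D2 k1 hk1 hQk
  have E3 := D3 j1 hj1 hQj
  have hp := conn_pair F hQ hv x w x
  have hwx : B w x = 0 := by
    rw [hw, B_add_left, B_add_left, B_comm (e m), B_comm (e k'), B_comm (e l'), hx.2.2.2.1,
      hx.2.2.2.2.1, hx.2.2.2.2.2.1]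
    norm_num
  rw [hwx, hxx, hx.2.2.1] at hp
  have hj' := vert_le hx j
  have hk'' := vert_le hx k
  have hl'' := vert_le hx l
  have P1 : 0 ≤ (B w (e j) * B x v - B w v * B x (e j)) * B x (e j) :=
    mul_nonneg_of_nonpos_of_nonpos E3 hj'
  have P2 : 0 ≤ (B w (e k) * B x v - B w v * B x (e k)) * B x (e k) :=
    mul_nonneg_of_nonpos_of_nonpos E2 hk''
  have P3 : 0 ≤ (B w (e l) * B x v - B w v * B x (e l)) * B x (e l) :=
    mul_nonneg_of_nonpos_of_nonpos E1 hl''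
  have hwv : 0 ≤ B w v := by linarith
  have hsum : B w v = B v (e m) + B v (e k') + B v (e l') := by
    rw [hw, B_add_left, B_add_left, B_comm (e m), B_comm (e k'), B_comm (e l')]
  have q1 := vert_le hv m
  have q2 := vert_le hv k'
  have q3 := vert_le hv l'
  rcases conn_zero hv m (by linarith) with h | h | h | h
  · exact absurd h hm.1.symm
  · rw [h]; exact hj
  · rw [h]; exact hk
  · rw [h]; exact hl

theorem conn2 {e : Fin n → V5} (F : Facts e) : Conn2Spec e := by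
  classical
  intro i j D hne hcl m hm1 hm2
  obtain ⟨k0, l0, h0, hk0, hl0⟩ := hne
  obtain ⟨l', hQ''⟩ := F.ext3 i j m h0.1 hm1 hm2
  obtain ⟨x, hx⟩ := F.vert i j m l' hQ''
  have hxx : B x x = -1 := hx.1
  have hx0 : 0 < x 0 := hx.2.1
  set w : V5 := e m + e l' with hw
  obtain ⟨V, hV⟩ : ∃ V : Fin n → Fin n → V5, ∀ k l, Q4 e i j k l →
      IsVert e i j k l (V k l) := by
    refine ⟨fun k l => if h : Q4 e i j k l then (F.vert i j k l h).choose else 0, ?_⟩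
    intro k l h
    show IsVert e i j k l (if h : Q4 e i j k l then (F.vert i j k l h).choose else 0)
    rw [dif_pos h]
    exact (F.vert i j k l h).choose_spec
  let S : Finset (Fin n × Fin n) := univ.filter
    (fun T => Q4 e i j T.1 T.2 ∧ T.1 ∈ D ∧ T.2 ∈ D)
  have hS : ∀ k l, Q4 e i j k l → k ∈ D → l ∈ D → (k, l) ∈ S := by
    intro k l h1 h3 h4
    exact mem_filter.2 ⟨mem_univ _, h1, h3, h4⟩
  obtain ⟨T, hT, hmin⟩ := S.exists_min_image
    (fun T => B w (V T.1 T.2) / B x (V T.1 T.2)) ⟨_, hS k0 l0 h0 hk0 hl0⟩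
  obtain ⟨k, l⟩ := T
  obtain ⟨-, hQ, hk, hl⟩ := mem_filter.1 hT
  simp only at hQ hk hl
  have hv := hV k l hQ
  set v := V k l with hvdef
  obtain ⟨l1, hl1, hQl, -⟩ := F.two i j k l hQ
  obtain ⟨k1, hk1, hQk, -⟩ := F.two i j l k hQ.perm1
  have E1 : B w (e l) * B x v - B w v * B x (e l) ≤ 0 := by
    have hl1' : l1 ∈ D := hcl k l l1 hQ hk hl hQl
    have hv1 := hV k l1 hQl
    have := hmin (k, l1) (hS k l1 hQl hk hl1')
    exact conn_flip F hQ hv hxx hx0 hv1.1 hv1.2.1 hv1.2.2.1 hv1.2.2.2.1 hv1.2.2.2.2.1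
      (flip_neg hQ hv1 hl1) this
  have E2 : B w (e k) * B x v - B w v * B x (e k) ≤ 0 := by
    have hk1' : k1 ∈ D := hcl l k k1 hQ.perm1 hl hk hQk
    have hv1 := hV l k1 hQk
    have := hmin (l, k1) (hS l k1 hQk hl hk1')
    have hv' : IsVert e i j l k v := ⟨hv.1, hv.2.1, hv.2.2.1, hv.2.2.2.1, hv.2.2.2.2.2.1,
      hv.2.2.2.2.1, fun m h1 h2 h3 h4 => hv.2.2.2.2.2.2 m h1 h2 h4 h3⟩
    exact conn_flip F hQ.perm1 hv' hxx hx0 hv1.1 hv1.2.1 hv1.2.2.1 hv1.2.2.2.1 hv1.2.2.2.2.1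
      (flip_neg hQ.perm1 hv1 hk1) this
  have hp := conn_pair F hQ hv x w x
  have hwx : B w x = 0 := by
    rw [hw, B_add_left, B_comm (e m), B_comm (e l'), hx.2.2.2.2.1, hx.2.2.2.2.2.1]
    norm_num
  rw [hwx, hxx, hx.2.2.1, hx.2.2.2.1] at hp
  have hk'' := vert_le hx k
  have hl'' := vert_le hx l
  have P2 : 0 ≤ (B w (e k) * B x v - B w v * B x (e k)) * B x (e k) :=
    mul_nonneg_of_nonpos_of_nonpos E2 hk''
  have P3 : 0 ≤ (B w (e l) * B x v - B w v * B x (e l)) * B x (e l) :=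
    mul_nonneg_of_nonpos_of_nonpos E1 hl''
  have hwv : 0 ≤ B w v := by linarith
  have hsum : B w v = B v (e m) + B v (e l') := by
    rw [hw, B_add_left, B_comm (e m), B_comm (e l')]
  have q1 := vert_le hv m
  have q3 := vert_le hv l'
  rcases conn_zero hv m (by linarith) with h | h | h | h
  · exact absurd h hm1.1.symm
  · exact absurd h hm2.1.symm
  · rw [h]; exact hk
  · rw [h]; exact hl

end Pool.Agent.H62.M4
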