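import Pool.Agent.H62.M4.Spec

/-!
MP_6c826d_gt (S13329), m_4 = 120.  Module S4b: counting in a small facet.
-/

set_option autoImplicit false

namespace Pool.Agent.H62.M4

open Finset

variable {n : ℕ}

section count

variable {e : Fin n → V5} {z c : Fin n}

/-! ### elementary facts on the ring -/

theorem ct_zp (R : RingD e z c) (a : Fin 5) : Adj e z (R.p a) := (R.pQ a).2.1

theorem ct_cp (R : RingD e z c) (a : Fin 5) : Adj e c (R.p a) := (R.pQ a).2.2.2.1

theorem ct_pp (R : RingD e z c) (a : Fin 5) : Adj e (R.p a) (R.p (a + 1)) := (R.pQ a).2.2.2.2.2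

theorem ct_zk (R : RingD e z c) (a : Fin 5) : Adj e z (R.k a) := (R.kQ a).2.2.1

theorem ct_pk (R : RingD e z c) (a : Fin 5) : Adj e (R.p a) (R.k a) := (R.kQ a).2.2.2.2.1

theorem ct_pk1 (R : RingD e z c) (a : Fin 5) : Adj e (R.p (a + 1)) (R.k a) := (R.kQ a).2.2.2.2.2

theorem ct_nck (R : RingD e z c) (hNF : NoFive e) (a : Fin 5) : ¬ Adj e c (R.k a) := by
  intro h
  exact hNF z c (R.p a) (R.p (a + 1)) (R.k a) (R.pQ a) ⟨ct_zk R a, h, ct_pk R a, ct_pk1 R a⟩

theorem ct_irr (i : Fin n) : ¬ Adj e i i := fun h => h.1 rfl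

theorem ct_ne_succ : ∀ a : Fin 5, a ≠ a + 1 := by decide

theorem ct_ne4 : ∀ a : Fin 5, a + 1 ≠ a + 4 := by decide

theorem ct_ne4' : ∀ a : Fin 5, a ≠ a + 4 := by decide

theorem ct_add2 : ∀ a : Fin 5, a + 2 = a + 1 + 1 := by decide

theorem ct_fin (a b : Fin 5) (h : a ≠ b) : b = a + 1 ∨ a = b + 1 ∨ b = a + 2 ∨ a = b + 2 := by
  revert h; revert a b; decide

/-- two `p`-neighbours of `w` -/
theorem ct_two_p (R : RingD e z c) (hNS : NoSq e) {w : Fin n} (hz : Adj e z w) (hc : w ≠ c)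
    (hcw : ¬ Adj e c w) {a b : Fin 5} (hab : a ≠ b) (ha : Adj e w (R.p a))
    (hb : Adj e w (R.p b)) : (b = a + 1 ∧ w = R.k a) ∨ (a = b + 1 ∧ w = R.k b) := by
  rcases ct_fin a b hab with h | h | h | h
  · subst h
    left
    refine ⟨rfl, ?_⟩
    rcases R.kuniq a w ⟨ct_zp R a, ct_zp R (a + 1), hz, ct_pp R a, ha.symm, hb.symm⟩ with h1 | h1
    · exact absurd h1 hc
    · exact h1
  · subst h
    right
    refine ⟨rfl, ?_⟩
    rcases R.kuniq b w ⟨ct_zp R b, ct_zp R (b + 1), hz, ct_pp R b, hb.symm, ha.symm⟩ with h1 | h1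
    · exact absurd h1 hc
    · exact h1
  · subst h
    exfalso
    rcases hNS c (R.p a) w (R.p (a + 2)) (Ne.symm hc) (fun h => hab (R.pinj h)) (ct_cp R a)
      ha.symm hb (ct_cp R (a + 2)).symm with h1 | h1
    · exact hcw h1
    · exact R.pnon a h1
  · subst h
    exfalso
    rcases hNS c (R.p b) w (R.p (b + 2)) (Ne.symm hc) (fun h => hab.symm (R.pinj h)) (ct_cp R b)
      hb.symm ha (ct_cp R (b + 2)).symm with h1 | h1
    · exact hcw h1
    · exact R.pnon b h1

theorem ct_k_p (R : RingD e z c) (hNF : NoFive e) (hNS : NoSq e) (a b : Fin 5) :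
    Adj e (R.k a) (R.p b) ↔ b = a ∨ b = a + 1 := by
  constructor
  · intro h
    by_contra hcon
    push Not at hcon
    have h1 := ct_two_p R hNS (ct_zk R a) (R.kc a) (ct_nck R hNF a) (Ne.symm hcon.1)
      (ct_pk R a).symm h
    have h2 := ct_two_p R hNS (ct_zk R a) (R.kc a) (ct_nck R hNF a) (Ne.symm hcon.2)
      (ct_pk1 R a).symm h
    have h3 : a ≠ a + 1 := ct_ne_succ a
    rcases h1 with h1 | h1
    · exact hcon.2 h1.1
    · rcases h2 with h2 | h2
      · have : a = b + 1 := h1.1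
        have : b = a + 1 + 1 := h2.1
        have h4 : ∀ a b : Fin 5, a = b + 1 → b = a + 1 + 1 → False := by decide
        exact h4 a b h1.1 h2.1
      · have h4 : ∀ a b : Fin 5, a = b + 1 → a + 1 = b + 1 → False := by decide
        exact h4 a b h1.1 h2.1
  · rintro (h | h)
    · subst h; exact (ct_pk R b).symm
    · subst h; exact (ct_pk1 R a).symm

theorem ct_kinj (R : RingD e z c) (hNF : NoFive e) (hNS : NoSq e) :
    Function.Injective R.k := by
  intro a b hab
  have h1 : Adj e (R.k b) (R.p a) := by rw [← hab]; exact (ct_k_p R hNF hNS a a).2 (Or.inl rfl)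
  have h2 : Adj e (R.k b) (R.p (a + 1)) := by
    rw [← hab]; exact (ct_k_p R hNF hNS a (a + 1)).2 (Or.inr rfl)
  have h3 := (ct_k_p R hNF hNS b a).1 h1
  have h4 := (ct_k_p R hNF hNS b (a + 1)).1 h2
  revert h3 h4
  have : ∀ a b : Fin 5, (a = b ∨ a = b + 1) → (a + 1 = b ∨ a + 1 = b + 1) → a = b := by decide
  exact fun h3 h4 => this a b h3 h4

/-! ### the parts of the link of `z` -/

open Classical in
/-- number of neighbours of `w` in `S` -/
noncomputable def ct_nb (e : Fin n → V5) (w : Fin n) (S : Finset (Fin n)) : ℕ :=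
  (S.filter (fun u => Adj e w u)).card

open Classical in
/-- the link of `z` -/
noncomputable def ct_L (e : Fin n → V5) (z : Fin n) : Finset (Fin n) :=
  univ.filter (fun w => Adj e z w)

/-- the set of the `p a` -/
noncomputable def ct_P (R : RingD e z c) : Finset (Fin n) := univ.image R.p

/-- the set of the `k a` -/
noncomputable def ct_K (R : RingD e z c) : Finset (Fin n) := univ.image R.k

open Classical in
/-- the other facets adjacent to some `p a` -/
noncomputable def ct_T (R : RingD e z c) : Finset (Fin n) :=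
  univ.filter (fun w => Adj e z w ∧ w ≠ c ∧ ¬ Adj e c w ∧ w ∉ ct_K R ∧ ∃ a, Adj e w (R.p a))

open Classical in
/-- the inner facets -/
noncomputable def ct_I (R : RingD e z c) : Finset (Fin n) :=
  univ.filter (fun w => Adj e z w ∧ w ≠ c ∧ ¬ Adj e c w ∧ ∀ a, ¬ Adj e w (R.p a))

theorem ct_mem_L {w : Fin n} : w ∈ ct_L e z ↔ Adj e z w := by
  unfold ct_L; simp

theorem ct_mem_P {R : RingD e z c} {w : Fin n} : w ∈ ct_P R ↔ ∃ a, R.p a = w := by
  unfold ct_P; simp

theorem ct_mem_K {R : RingD e z c} {w : Fin n} : w ∈ ct_K R ↔ ∃ a, R.k a = w := by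
  unfold ct_K; simp

theorem ct_mem_T {R : RingD e z c} {w : Fin n} : w ∈ ct_T R ↔
    (Adj e z w ∧ w ≠ c ∧ ¬ Adj e c w ∧ w ∉ ct_K R ∧ ∃ a, Adj e w (R.p a)) := by
  unfold ct_T; simp

theorem ct_mem_I {R : RingD e z c} {w : Fin n} : w ∈ ct_I R ↔
    (Adj e z w ∧ w ≠ c ∧ ¬ Adj e c w ∧ ∀ a, ¬ Adj e w (R.p a)) := by
  unfold ct_I; simp

theorem ct_mm (w : Fin n) : mm e z w = ct_nb e w (ct_L e z) := by
  unfold mm ct_nb ct_L
  congr 1
  ext u
  simp

theorem ct_nb_union (w : Fin n) {S T : Finset (Fin n)} (h : Disjoint S T) :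
    ct_nb e w (S ∪ T) = ct_nb e w S + ct_nb e w T := by
  classical
  unfold ct_nb
  rw [Finset.filter_union, Finset.card_union_of_disjoint]
  exact Finset.disjoint_filter_filter h

theorem ct_nb_le (w : Fin n) (S : Finset (Fin n)) : ct_nb e w S ≤ S.card := by
  classical
  unfold ct_nb; exact Finset.card_filter_le _ _

theorem ct_nb_single (w u : Fin n) (h : ¬ Adj e w u) : ct_nb e w {u} = 0 := by
  classical
  unfold ct_nb
  rw [Finset.card_eq_zero, Finset.filter_eq_empty_iff]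
  intro x hx; rw [Finset.mem_singleton] at hx; rw [hx]; exact h

theorem ct_nb_single' (w u : Fin n) (h : Adj e w u) : ct_nb e w {u} = 1 := by
  classical
  unfold ct_nb
  rw [Finset.filter_true_of_mem, Finset.card_singleton]
  intro x hx; rw [Finset.mem_singleton] at hx; rw [hx]; exact h

theorem ct_double (S T : Finset (Fin n)) :
    ∑ w ∈ S, ct_nb e w T = ∑ u ∈ T, ct_nb e u S := by
  classical
  unfold ct_nb
  have h1 : ∀ w ∈ S, (T.filter (fun u => Adj e w u)).card = ∑ u ∈ T, if Adj e w u then 1 else 0 :=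
    fun w _ => Finset.card_filter _ _
  have h2 : ∀ u ∈ T, (S.filter (fun w => Adj e u w)).card = ∑ w ∈ S, if Adj e w u then 1 else 0 := by
    intro u _
    rw [Finset.card_filter]
    refine Finset.sum_congr rfl fun w _ => ?_
    by_cases h : Adj e u w
    · rw [if_pos h, if_pos h.symm]
    · rw [if_neg h, if_neg (fun h' => h h'.symm)]
  rw [Finset.sum_congr rfl h1, Finset.sum_congr rfl h2, Finset.sum_comm]

theorem ct_image {ι : Type*} [Fintype ι] [DecidableEq ι] (f : ι → Fin n)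
    (hf : Function.Injective f) (w : Fin n) (s : Finset ι)
    (hs : ∀ a, Adj e w (f a) ↔ a ∈ s) : ct_nb e w (univ.image f) = s.card := by
  classical
  unfold ct_nb
  have : (univ.image f).filter (fun u => Adj e w u) = s.image f := by
    ext u
    simp only [Finset.mem_filter, Finset.mem_image, Finset.mem_univ, true_and]
    constructor
    · rintro ⟨⟨a, rfl⟩, h⟩; exact ⟨a, (hs a).1 h, rfl⟩
    · rintro ⟨a, ha, rfl⟩; exact ⟨⟨a, rfl⟩, (hs a).2 ha⟩
  rw [this, Finset.card_image_of_injective _ hf]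

theorem ct_cardP (R : RingD e z c) : (ct_P R).card = 5 := by
  unfold ct_P
  rw [Finset.card_image_of_injective _ R.pinj]; simp

theorem ct_cardK (R : RingD e z c) (hNF : NoFive e) (hNS : NoSq e) : (ct_K R).card = 5 := by
  unfold ct_K
  rw [Finset.card_image_of_injective _ (ct_kinj R hNF hNS)]; simp

/-- the partition of the link -/
theorem ct_part (R : RingD e z c) (hNF : NoFive e) :
    ct_L e z = (({c} ∪ ct_P R) ∪ (ct_K R ∪ ct_T R)) ∪ ct_I R ∧
    Disjoint ({c} : Finset (Fin n)) (ct_P R) ∧ Disjoint (ct_K R) (ct_T R) ∧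
    Disjoint ({c} ∪ ct_P R) (ct_K R ∪ ct_T R) ∧
    Disjoint (({c} ∪ ct_P R) ∪ (ct_K R ∪ ct_T R)) (ct_I R) := by
  classical
  refine ⟨?_, ?_, ?_, ?_, ?_⟩
  · ext w
    simp only [Finset.mem_union, Finset.mem_singleton, ct_mem_L, ct_mem_P, ct_mem_T, ct_mem_I]
    constructor
    · intro h
      by_cases h1 : w = c
      · exact Or.inl (Or.inl (Or.inl h1))
      · by_cases h2 : Adj e c w
        · obtain ⟨t, ht⟩ := R.pall w h h2
          exact Or.inl (Or.inl (Or.inr ⟨t, ht.symm⟩))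
        · by_cases h3 : w ∈ ct_K R
          · exact Or.inl (Or.inr (Or.inl h3))
          · by_cases h4 : ∃ a, Adj e w (R.p a)
            · exact Or.inl (Or.inr (Or.inr ⟨h, h1, h2, h3, h4⟩))
            · push Not at h4
              exact Or.inr ⟨h, h1, h2, h4⟩
    · rintro (((h | ⟨a, h⟩) | (h | h)) | h)
      · rw [h]; exact R.zc
      · rw [← h]; exact ct_zp R a
      · obtain ⟨a, ha⟩ := ct_mem_K.1 h
        rw [← ha]; exact ct_zk R a
      · exact h.1
      · exact h.1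
  · rw [Finset.disjoint_left]
    intro w h1 h2
    rw [Finset.mem_singleton] at h1
    obtain ⟨a, ha⟩ := ct_mem_P.1 h2
    rw [h1] at ha
    exact ct_irr c (by have := ct_cp R a; rwa [ha] at this)
  · rw [Finset.disjoint_left]
    intro w h1 h2
    exact (ct_mem_T.1 h2).2.2.2.1 h1
  · rw [Finset.disjoint_left]
    intro w h1 h2
    rw [Finset.mem_union] at h1 h2
    have hA : w = c ∨ Adj e c w := by
      rcases h1 with h1 | h1
      · exact Or.inl (Finset.mem_singleton.1 h1)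
      · obtain ⟨a, ha⟩ := ct_mem_P.1 h1
        rw [← ha]; exact Or.inr (ct_cp R a)
    rcases h2 with h2 | h2
    · obtain ⟨a, ha⟩ := ct_mem_K.1 h2
      rw [← ha] at hA
      rcases hA with hA | hA
      · exact R.kc a hA
      · exact ct_nck R hNF a hA
    · have h3 := ct_mem_T.1 h2
      rcases hA with hA | hA
      · exact h3.2.1 hA
      · exact h3.2.2.1 hA
  · rw [Finset.disjoint_left]
    intro w h1 h2
    have h3 := ct_mem_I.1 h2
    simp only [Finset.mem_union, Finset.mem_singleton] at h1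
    rcases h1 with (h1 | h1) | (h1 | h1)
    · exact h3.2.1 h1
    · obtain ⟨a, ha⟩ := ct_mem_P.1 h1
      rw [← ha] at h3; exact h3.2.2.1 (ct_cp R a)
    · obtain ⟨a, ha⟩ := ct_mem_K.1 h1
      rw [← ha] at h3; exact h3.2.2.2 a (ct_pk R a).symm
    · obtain ⟨a, ha⟩ := (ct_mem_T.1 h1).2.2.2.2
      exact h3.2.2.2 a ha

theorem ct_nbL (R : RingD e z c) (hNF : NoFive e) (w : Fin n) :
    mm e z w = ct_nb e w {c} + ct_nb e w (ct_P R) + ct_nb e w (ct_K R ∪ ct_T R) +
      ct_nb e w (ct_I R) := by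
  obtain ⟨h1, h2, h3, h4, h5⟩ := ct_part R hNF
  rw [ct_mm, h1, ct_nb_union w h5, ct_nb_union w h4, ct_nb_union w h2]

/-- adjacent elements of the second ring have a common neighbour `p a` -/
theorem ct_common (R : RingD e z c) (hNS : NoSq e)
    (hch : ∀ (t : Fin 5) (w w' : Fin n), Adj e z w → w ≠ c →
      ¬ Adj e c w → Adj e z w' → w' ≠ c → ¬ Adj e c w' → Adj e w (R.p t) →
      Adj e w' (R.p (t + 2)) → ¬ Adj e w (R.p (t + 1)) → ¬ Adj e w' (R.p (t + 1)) →
      ¬ Adj e w w')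
    {w u : Fin n} (hzw : Adj e z w) (hwc : w ≠ c) (hcw : ¬ Adj e c w) (hzu : Adj e z u)
    (huc : u ≠ c) (hcu : ¬ Adj e c u) {a b : Fin 5} (ha : Adj e w (R.p a))
    (hb : Adj e u (R.p b)) (hwu : Adj e w u) : ∃ d, Adj e w (R.p d) ∧ Adj e u (R.p d) := by
  by_contra hno
  push Not at hno
  -- consecutive case
  have hcons : ∀ x : Fin 5, ¬ (Adj e w (R.p x) ∧ Adj e u (R.p (x + 1))) := by
    rintro x ⟨h1, h2⟩
    rcases hNS w (R.p x) (R.p (x + 1)) u (fun h => by
        rw [h] at hcw; exact hcw (ct_cp R _)) (fun h => by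
        rw [← h] at hcu; exact hcu (ct_cp R _)) h1 (ct_pp R x) h2.symm hwu.symm with h3 | h3
    · exact hno _ h3 h2
    · exact hno _ h1 h3.symm
  have hcons' : ∀ x : Fin 5, ¬ (Adj e u (R.p x) ∧ Adj e w (R.p (x + 1))) := by
    rintro x ⟨h1, h2⟩
    rcases hNS u (R.p x) (R.p (x + 1)) w (fun h => by
        rw [h] at hcu; exact hcu (ct_cp R _)) (fun h => by
        rw [← h] at hcw; exact hcw (ct_cp R _)) h1 (ct_pp R x) h2.symm hwu with h3 | h3
    · exact hno _ h2 h3
    · exact hno _ h3.symm h1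
  have hab : a ≠ b := fun h => hno a ha (h ▸ hb)
  rcases ct_fin a b hab with h | h | h | h
  · subst h; exact hcons a ⟨ha, hb⟩
  · subst h; exact hcons' b ⟨hb, ha⟩
  · subst h
    refine hch a w u hzw hwc hcw hzu huc hcu ha hb (fun h3 => ?_) (fun h3 => ?_) hwu
    · have h4 : a + 2 = a + 1 + 1 := ct_add2 a
      rw [h4] at hb
      exact hcons (a + 1) ⟨h3, hb⟩
    · exact hcons a ⟨ha, h3⟩
  · subst h
    refine hch b u w hzu huc hcu hzw hwc hcw hb ha (fun h3 => ?_) (fun h3 => ?_) hwu.symm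
    · have h4 : b + 2 = b + 1 + 1 := ct_add2 b
      rw [h4] at ha
      exact hcons' (b + 1) ⟨h3, ha⟩
    · exact hcons' b ⟨hb, h3⟩

theorem ct_mem_KT (R : RingD e z c) (hNF : NoFive e) {w : Fin n} : w ∈ ct_K R ∪ ct_T R ↔
    (Adj e z w ∧ w ≠ c ∧ ¬ Adj e c w ∧ ∃ a, Adj e w (R.p a)) := by
  classical
  rw [Finset.mem_union]
  constructor
  · rintro (h | h)
    · obtain ⟨a, ha⟩ := ct_mem_K.1 h
      rw [← ha]
      exact ⟨ct_zk R a, R.kc a, ct_nck R hNF a, a, (ct_pk R a).symm⟩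
    · have h3 := ct_mem_T.1 h
      exact ⟨h3.1, h3.2.1, h3.2.2.1, h3.2.2.2.2⟩
  · intro h
    by_cases h3 : w ∈ ct_K R
    · exact Or.inl h3
    · exact Or.inr (ct_mem_T.2 ⟨h.1, h.2.1, h.2.2.1, h3, h.2.2.2⟩)

/-- a neighbour of `p a` in the link which is not `c` and not adjacent to `c` -/
theorem ct_ringmem (R : RingD e z c) (hNF : NoFive e) {w u : Fin n} {a : Fin 5}
    (hcw : ¬ Adj e c w) (hwu : Adj e w u) (hzu : Adj e z u) (hau : Adj e (R.p a) u)
    (hp : ∀ b, Adj e w (R.p b) → u ≠ R.p b) : u ∈ ct_K R ∪ ct_T R := by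
  have huc : u ≠ c := fun h => hcw (by rw [h] at hwu; exact hwu.symm)
  have hcu : ¬ Adj e c u := by
    intro h
    obtain ⟨t, ht⟩ := R.pall u hzu h
    rw [ht] at hwu
    exact hp t hwu ht
  exact (ct_mem_KT R hNF).2 ⟨hzu, huc, hcu, a, hau.symm⟩

/-- `k a` has exactly two neighbours in the second ring -/
theorem ct_ring_k (R : RingD e z c) (F : Facts e) (hNF : NoFive e) (hNS : NoSq e)
    (hch : ∀ (t : Fin 5) (w w' : Fin n), Adj e z w → w ≠ c →
      ¬ Adj e c w → Adj e z w' → w' ≠ c → ¬ Adj e c w' → Adj e w (R.p t) →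
      Adj e w' (R.p (t + 2)) → ¬ Adj e w (R.p (t + 1)) → ¬ Adj e w' (R.p (t + 1)) →
      ¬ Adj e w w') (a : Fin 5) :
    ct_nb e (R.k a) (ct_K R ∪ ct_T R) = 2 := by
  classical
  have hk := ct_nck R hNF a
  obtain ⟨u, hu1, hu2, hu3⟩ := F.two z (R.p a) (R.k a) (R.p (a + 1))
    ⟨ct_zp R a, ct_zk R a, ct_zp R (a + 1), ct_pk R a, ct_pp R a, (ct_pk1 R a).symm⟩
  obtain ⟨v, hv1, hv2, hv3⟩ := F.two z (R.p (a + 1)) (R.k a) (R.p a)
    ⟨ct_zp R (a + 1), ct_zk R a, ct_zp R a, ct_pk1 R a, (ct_pp R a).symm, (ct_pk R a).symm⟩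
  have hpp := ct_k_p R hNF hNS a
  have huR : u ∈ ct_K R ∪ ct_T R := by
    refine ct_ringmem R hNF hk hu2.2.2.2.2.2 hu2.2.2.1 hu2.2.2.2.2.1 ?_
    intro b hb
    rcases (hpp b).1 hb with h | h
    · subst h
      intro h; rw [h] at hu2; exact ct_irr _ hu2.2.2.2.2.1
    · subst h; exact hu1
  have hvR : v ∈ ct_K R ∪ ct_T R := by
    refine ct_ringmem R hNF hk hv2.2.2.2.2.2 hv2.2.2.1 hv2.2.2.2.2.1 ?_
    intro b hb
    rcases (hpp b).1 hb with h | h
    · subst h; exact hv1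
    · subst h
      intro h; rw [h] at hv2; exact ct_irr _ hv2.2.2.2.2.1
  have huv : u ≠ v := by
    intro h
    subst h
    have h1 := (ct_mem_KT R hNF).1 huR
    have h4 : a ≠ a + 1 := ct_ne_succ a
    rcases ct_two_p R hNS h1.1 h1.2.1 h1.2.2.1 h4 hu2.2.2.2.2.1.symm hv2.2.2.2.2.1.symm with h5 | h5
    · rw [h5.2] at hu2; exact ct_irr _ hu2.2.2.2.2.2
    · have : ∀ a : Fin 5, a = a + 1 + 1 → False := by decide
      exact this a h5.1
  unfold ct_nb
  have : (ct_K R ∪ ct_T R).filter (fun x => Adj e (R.k a) x) = {u, v} := by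
    ext x
    rw [Finset.mem_filter, Finset.mem_insert, Finset.mem_singleton]
    constructor
    · rintro ⟨h1, h2⟩
      have h3 := (ct_mem_KT R hNF).1 h1
      obtain ⟨b, hb⟩ := h3.2.2.2
      obtain ⟨d, hd1, hd2⟩ := ct_common R hNS hch (ct_zk R a) (R.kc a) hk h3.1 h3.2.1 h3.2.2.1
        (ct_pk R a).symm hb h2
      have hxp : ∀ b, x ≠ R.p b := fun b h => h3.2.2.1 (by rw [h]; exact ct_cp R b)
      rcases (hpp d).1 hd1 with h | h
      · subst h
        rcases hu3 x ⟨ct_zp R d, ct_zk R d, h3.1, ct_pk R d, hd2.symm, h2⟩ with h5 | h5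
        · exact absurd h5 (hxp _)
        · exact Or.inl h5
      · subst h
        rcases hv3 x ⟨ct_zp R (a + 1), ct_zk R a, h3.1, ct_pk1 R a, hd2.symm, h2⟩ with h5 | h5
        · exact absurd h5 (hxp _)
        · exact Or.inr h5
    · rintro (h | h)
      · rw [h]; exact ⟨huR, hu2.2.2.2.2.2⟩
      · rw [h]; exact ⟨hvR, hv2.2.2.2.2.2⟩
  rw [this, Finset.card_pair huv]

/-- the elements of `T` have exactly one neighbour `p a` -/
theorem ct_T_one (R : RingD e z c) (hNS : NoSq e) {w : Fin n} (hw : w ∈ ct_T R) :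
    ∃ a, ∀ b, Adj e w (R.p b) ↔ b = a := by
  have h3 := ct_mem_T.1 hw
  obtain ⟨a, ha⟩ := h3.2.2.2.2
  refine ⟨a, fun b => ⟨fun hb => ?_, fun hb => hb ▸ ha⟩⟩
  by_contra hne
  rcases ct_two_p R hNS h3.1 h3.2.1 h3.2.2.1 hne hb ha with h | h
  · exact h3.2.2.2.1 (ct_mem_K.2 ⟨_, h.2.symm⟩)
  · exact h3.2.2.2.1 (ct_mem_K.2 ⟨_, h.2.symm⟩)

/-- an element of `T` has exactly two neighbours in the second ring -/
theorem ct_ring_T (R : RingD e z c) (F : Facts e) (hNF : NoFive e) (hNS : NoSq e)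
    (hch : ∀ (t : Fin 5) (w w' : Fin n), Adj e z w → w ≠ c →
      ¬ Adj e c w → Adj e z w' → w' ≠ c → ¬ Adj e c w' → Adj e w (R.p t) →
      Adj e w' (R.p (t + 2)) → ¬ Adj e w (R.p (t + 1)) → ¬ Adj e w' (R.p (t + 1)) →
      ¬ Adj e w w') {w : Fin n} (hw : w ∈ ct_T R) :
    ct_nb e w (ct_K R ∪ ct_T R) = 2 := by
  classical
  have h0 := ct_mem_T.1 hw
  obtain ⟨a, ha⟩ := ct_T_one R hNS hw
  have hwa : Adj e w (R.p a) := (ha a).2 rfl
  obtain ⟨v, hv⟩ := F.ext3 z (R.p a) w (ct_zp R a) h0.1 hwa.symm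
  obtain ⟨u, hu1, hu2, hu3⟩ := F.two z (R.p a) w v hv
  have hmem : ∀ x, Q4 e z (R.p a) w x → x ∈ ct_K R ∪ ct_T R := by
    intro x hx
    refine ct_ringmem R hNF h0.2.2.1 hx.2.2.2.2.2 hx.2.2.1 hx.2.2.2.2.1 ?_
    intro b hb h
    have hb' := (ha b).1 hb
    subst hb'
    rw [h] at hx; exact ct_irr _ hx.2.2.2.2.1
  unfold ct_nb
  have : (ct_K R ∪ ct_T R).filter (fun x => Adj e w x) = {v, u} := by
    ext x
    rw [Finset.mem_filter, Finset.mem_insert, Finset.mem_singleton]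
    constructor
    · rintro ⟨h1, h2⟩
      have h3 := (ct_mem_KT R hNF).1 h1
      obtain ⟨b, hb⟩ := h3.2.2.2
      obtain ⟨d, hd1, hd2⟩ := ct_common R hNS hch h0.1 h0.2.1 h0.2.2.1 h3.1 h3.2.1 h3.2.2.1
        hwa hb h2
      have hd := (ha d).1 hd1
      subst hd
      exact hu3 x ⟨ct_zp R d, h0.1, h3.1, hd1.symm, hd2.symm, h2⟩
    · rintro (h | h)
      · rw [h]; exact ⟨hmem v hv, hv.2.2.2.2.2⟩
      · rw [h]; exact ⟨hmem u hu2, hu2.2.2.2.2.2⟩
  rw [this, Finset.card_pair (Ne.symm hu1)]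

/-! ### the five kinds of facets in the link -/

theorem ct_mm_k (R : RingD e z c) (F : Facts e) (hNF : NoFive e) (hNS : NoSq e)
    (hch : ∀ (t : Fin 5) (w w' : Fin n), Adj e z w → w ≠ c →
      ¬ Adj e c w → Adj e z w' → w' ≠ c → ¬ Adj e c w' → Adj e w (R.p t) →
      Adj e w' (R.p (t + 2)) → ¬ Adj e w (R.p (t + 1)) → ¬ Adj e w' (R.p (t + 1)) →
      ¬ Adj e w w') (a : Fin 5) :
    mm e z (R.k a) = 4 + ct_nb e (R.k a) (ct_I R) := by
  rw [ct_nbL R hNF, ct_ring_k R F hNF hNS hch a,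
    ct_nb_single _ _ (fun h => ct_nck R hNF a h.symm)]
  have : ct_nb e (R.k a) (ct_P R) = 2 := by
    unfold ct_P
    rw [ct_image R.p R.pinj (R.k a) {a, a + 1} (fun b => by
      rw [ct_k_p R hNF hNS a b]; simp)]
    exact Finset.card_pair (ct_ne_succ a)
  rw [this]

theorem ct_nb_TP (R : RingD e z c) (hNS : NoSq e) {w : Fin n} (hw : w ∈ ct_T R) :
    ct_nb e w (ct_P R) = 1 := by
  obtain ⟨a, ha⟩ := ct_T_one R hNS hw
  unfold ct_P
  rw [ct_image R.p R.pinj w {a} (fun b => by rw [ha b]; simp)]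
  simp

theorem ct_mm_T (R : RingD e z c) (F : Facts e) (hNF : NoFive e) (hNS : NoSq e)
    (hch : ∀ (t : Fin 5) (w w' : Fin n), Adj e z w → w ≠ c →
      ¬ Adj e c w → Adj e z w' → w' ≠ c → ¬ Adj e c w' → Adj e w (R.p t) →
      Adj e w' (R.p (t + 2)) → ¬ Adj e w (R.p (t + 1)) → ¬ Adj e w' (R.p (t + 1)) →
      ¬ Adj e w w') {w : Fin n} (hw : w ∈ ct_T R) :
    mm e z w = 3 + ct_nb e w (ct_I R) := by
  have h0 := ct_mem_T.1 hw
  rw [ct_nbL R hNF, ct_ring_T R F hNF hNS hch hw, ct_nb_TP R hNS hw,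
    ct_nb_single _ _ (fun h => h0.2.2.1 h.symm)]

theorem ct_mm_I (R : RingD e z c) (hNF : NoFive e) {w : Fin n} (hw : w ∈ ct_I R) :
    mm e z w = ct_nb e w (ct_K R ∪ ct_T R) + ct_nb e w (ct_I R) := by
  have h0 := ct_mem_I.1 hw
  rw [ct_nbL R hNF, ct_nb_single _ _ (fun h => h0.2.2.1 h.symm)]
  have : ct_nb e w (ct_P R) = 0 := by
    unfold ct_P
    rw [ct_image R.p R.pinj w ∅ (fun b => by simp [h0.2.2.2 b])]
    simp
  rw [this]; omega

theorem ct_mm_c (R : RingD e z c) (hNF : NoFive e) : mm e z c = 5 := by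
  classical
  rw [ct_nbL R hNF, ct_nb_single _ _ (ct_irr c)]
  have h1 : ct_nb e c (ct_P R) = 5 := by
    unfold ct_P
    rw [ct_image R.p R.pinj c univ (fun b => by simp [ct_cp R b])]
    simp
  have h2 : ct_nb e c (ct_K R ∪ ct_T R) = 0 := by
    unfold ct_nb
    rw [Finset.card_eq_zero, Finset.filter_eq_empty_iff]
    intro x hx
    exact ((ct_mem_KT R hNF).1 hx).2.2.1
  have h3 : ct_nb e c (ct_I R) = 0 := by
    unfold ct_nb
    rw [Finset.card_eq_zero, Finset.filter_eq_empty_iff]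
    intro x hx
    exact (ct_mem_I.1 hx).2.2.1
  rw [h1, h2, h3]

theorem ct_mm_p (R : RingD e z c) (hNF : NoFive e) (hNS : NoSq e) (a : Fin 5) :
    mm e z (R.p a) = 5 + ct_nb e (R.p a) (ct_T R) := by
  classical
  rw [ct_nbL R hNF, ct_nb_single' _ _ (ct_cp R a).symm]
  have h1 : ct_nb e (R.p a) (ct_P R) = 2 := by
    unfold ct_P
    rw [ct_image R.p R.pinj (R.p a) {a + 1, a + 4} (fun b => ?_)]
    · exact Finset.card_pair (ct_ne4 a)
    · simp only [Finset.mem_insert, Finset.mem_singleton]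
      constructor
      · intro h
        by_contra hcon
        push Not at hcon
        have hab : a ≠ b := fun h' => by rw [h'] at h; exact ct_irr _ h
        rcases ct_fin a b hab with h1 | h1 | h1 | h1
        · exact hcon.1 h1
        · have : ∀ a b : Fin 5, a = b + 1 → b = a + 4 := by decide
          exact hcon.2 (this a b h1)
        · rw [h1] at h; exact R.pnon a h
        · rw [h1] at h; exact R.pnon b h.symm
      · rintro (h | h)
        · rw [h]; exact ct_pp R a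
        · have h4 : ∀ a b : Fin 5, b = a + 4 → a = b + 1 := by decide
          have h5 := h4 a b h
          have h6 := ct_pp R b
          rw [← h5] at h6
          exact h6.symm
  have h2 : ct_nb e (R.p a) (ct_K R) = 2 := by
    unfold ct_K
    rw [ct_image R.k (ct_kinj R hNF hNS) (R.p a) {a, a + 4} (fun b => ?_)]
    · exact Finset.card_pair (ct_ne4' a)
    · simp only [Finset.mem_insert, Finset.mem_singleton]
      have h7 : Adj e (R.p a) (R.k b) ↔ Adj e (R.k b) (R.p a) := Adj.comm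
      rw [h7, ct_k_p R hNF hNS b a]
      have : ∀ a b : Fin 5, (a = b ∨ a = b + 1) ↔ (b = a ∨ b = a + 4) := by decide
      exact this a b
  have h3 : ct_nb e (R.p a) (ct_I R) = 0 := by
    unfold ct_nb
    rw [Finset.card_eq_zero, Finset.filter_eq_empty_iff]
    intro x hx h
    exact (ct_mem_I.1 hx).2.2.2 a h.symm
  rw [ct_nb_union _ (ct_part R hNF).2.2.1, h1, h2, h3]; omega

theorem ct_sum_pT (R : RingD e z c) (hNS : NoSq e) :
    ∑ a, ct_nb e (R.p a) (ct_T R) = (ct_T R).card := by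
  classical
  have h1 : ∑ a, ct_nb e (R.p a) (ct_T R) = ∑ u ∈ ct_P R, ct_nb e u (ct_T R) := by
    unfold ct_P
    rw [Finset.sum_image (fun a _ b _ h => R.pinj h)]
  rw [h1, ct_double, Finset.sum_congr rfl (fun w hw => ct_nb_TP R hNS hw)]
  simp

/-- the number of facets of the link -/
theorem ct_deg (R : RingD e z c) (hNF : NoFive e) (hNS : NoSq e) :
    deg e z = 11 + (ct_T R).card + (ct_I R).card := by
  classical
  have h0 : deg e z = (ct_L e z).card := rfl
  obtain ⟨h1, h2, h3, h4, h5⟩ := ct_part R hNF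
  rw [h0, h1, Finset.card_union_of_disjoint h5, Finset.card_union_of_disjoint h4,
    Finset.card_union_of_disjoint h2, Finset.card_union_of_disjoint h3, ct_cardP,
    ct_cardK R hNF hNS, Finset.card_singleton]
  omega

/-- the basic count -/
theorem ct_basic (R : RingD e z c) (F : Facts e) (hE : EulerSpec e) (hNF : NoFive e)
    (hNS : NoSq e)
    (hch : ∀ (t : Fin 5) (w w' : Fin n), Adj e z w → w ≠ c →
      ¬ Adj e c w → Adj e z w' → w' ≠ c → ¬ Adj e c w' → Adj e w (R.p t) →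
      Adj e w' (R.p (t + 2)) → ¬ Adj e w (R.p (t + 1)) → ¬ Adj e w' (R.p (t + 1)) →
      ¬ Adj e w w') :
    2 * (∑ a, ct_nb e (R.k a) (ct_I R)) + 2 * (∑ w ∈ ct_T R, ct_nb e w (ct_I R)) +
      (∑ w ∈ ct_I R, ct_nb e w (ct_I R)) =
      4 + 2 * (ct_T R).card + 6 * (ct_I R).card ∧
    ∑ w ∈ ct_I R, mm e z w = (∑ a, ct_nb e (R.k a) (ct_I R)) +
      (∑ w ∈ ct_T R, ct_nb e w (ct_I R)) + ∑ w ∈ ct_I R, ct_nb e w (ct_I R) := by
  classical
  have hdeg := ct_deg R hNF hNS
  obtain ⟨h1, h2, h3, h4, h5⟩ := ct_part R hNF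
  have hEu := hE z
  have hL : (∑ j ∈ univ.filter (fun j => Adj e z j), mm e z j) = ∑ j ∈ ct_L e z, mm e z j := by
    unfold ct_L; congr!
  have hI : ∑ w ∈ ct_I R, mm e z w = (∑ a, ct_nb e (R.k a) (ct_I R)) +
      (∑ w ∈ ct_T R, ct_nb e w (ct_I R)) + ∑ w ∈ ct_I R, ct_nb e w (ct_I R) := by
    rw [Finset.sum_congr rfl (fun w hw => ct_mm_I R hNF hw), Finset.sum_add_distrib,
      ct_double, Finset.sum_union h3]
    congr 2
    unfold ct_K
    rw [Finset.sum_image (fun a _ b _ h => ct_kinj R hNF hNS h)]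
  have hP : ∑ u ∈ ct_P R, mm e z u = 25 + (ct_T R).card := by
    unfold ct_P
    rw [Finset.sum_image (fun a _ b _ h => R.pinj h),
      Finset.sum_congr rfl (fun a _ => ct_mm_p R hNF hNS a), Finset.sum_add_distrib,
      ct_sum_pT R hNS]
    simp
  have hK : ∑ u ∈ ct_K R, mm e z u = 20 + ∑ a, ct_nb e (R.k a) (ct_I R) := by
    unfold ct_K
    rw [Finset.sum_image (fun a _ b _ h => ct_kinj R hNF hNS h),
      Finset.sum_congr rfl (fun a _ => ct_mm_k R F hNF hNS hch a), Finset.sum_add_distrib]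
    simp
  have hT : ∑ w ∈ ct_T R, mm e z w = 3 * (ct_T R).card + ∑ w ∈ ct_T R, ct_nb e w (ct_I R) := by
    rw [Finset.sum_congr rfl (fun w hw => ct_mm_T R F hNF hNS hch hw), Finset.sum_add_distrib]
    simp [mul_comm]
  have hc5 := ct_mm_c R hNF
  refine ⟨?_, hI⟩
  have htot : ∑ j ∈ ct_L e z, mm e z j = 5 + (25 + (ct_T R).card) +
      ((20 + ∑ a, ct_nb e (R.k a) (ct_I R)) +
        (3 * (ct_T R).card + ∑ w ∈ ct_T R, ct_nb e w (ct_I R))) + ∑ w ∈ ct_I R, mm e z w := by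
    rw [h1, Finset.sum_union h5, Finset.sum_union h4, Finset.sum_union h2, Finset.sum_union h3,
      Finset.sum_singleton, hc5, hP, hK, hT]
  have hEu' : (∑ j ∈ ct_L e z, mm e z j) + 12 = 6 * deg e z := hEu
  rw [htot, hI, hdeg] at hEu'
  omega

theorem ct_nb_pair (w x y : Fin n) (hxy : x ≠ y) (hx : Adj e w x) (hy : Adj e w y)
    {S : Finset (Fin n)} (hxS : x ∈ S) (hyS : y ∈ S) : 2 ≤ ct_nb e w S := by
  classical
  unfold ct_nb
  rw [← Finset.card_pair hxy]
  apply Finset.card_le_card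
  intro u hu
  rw [Finset.mem_insert, Finset.mem_singleton] at hu
  rw [Finset.mem_filter]
  rcases hu with h | h
  · rw [h]; exact ⟨hxS, hx⟩
  · rw [h]; exact ⟨hyS, hy⟩

theorem ct_nb_pos (w x : Fin n) (hx : Adj e w x) {S : Finset (Fin n)} (hxS : x ∈ S) :
    1 ≤ ct_nb e w S := by
  classical
  unfold ct_nb
  exact Finset.card_pos.2 ⟨x, Finset.mem_filter.2 ⟨hxS, hx⟩⟩

theorem ct_nb_full {w : Fin n} {S : Finset (Fin n)} (h : S.card ≤ ct_nb e w S) :
    ∀ x ∈ S, Adj e w x := by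
  classical
  unfold ct_nb at h
  have h1 : S.filter (fun u => Adj e w u) = S :=
    Finset.eq_of_subset_of_card_le (Finset.filter_subset _ _) h
  intro x hx
  rw [← h1] at hx
  exact (Finset.mem_filter.1 hx).2

open Classical in
theorem ct_nb_three (w x y v : Fin n) (h1 : x ≠ y) (h2 : x ≠ v) (h3 : y ≠ v) :
    ct_nb e w {x, y, v} = (if Adj e w x then 1 else 0) + ((if Adj e w y then 1 else 0) +
      (if Adj e w v then 1 else 0)) := by
  unfold ct_nb
  rw [Finset.card_filter, Finset.sum_insert (by simp [h1, h2]), Finset.sum_insert (by simp [h3]),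
    Finset.sum_singleton]

theorem ct_fsum (f : Fin 5 → ℕ) (h : ∀ a, 1 ≤ f a) (a b : Fin 5) (hab : a ≠ b) (ha : 2 ≤ f a)
    (hb : 2 ≤ f b) : 7 ≤ ∑ a, f a := by
  rw [Fin.sum_univ_five]
  have h0 := h 0
  have h1 := h 1
  have h2 := h 2
  have h3 := h 3
  have h4 := h 4
  fin_cases a <;> fin_cases b <;> simp at hab ha hb ⊢ <;> omega

/-- the case of three inner facets forming a path -/
theorem ct_path (R : RingD e z c) (F : Facts e) (hNF : NoFive e)
    (hNS : NoSq e) (h5 : FiveSpec e) {x y v : Fin n} (hxy : x ≠ y) (hxv : x ≠ v) (hyv : y ≠ v)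
    (hI : ct_I R = {x, y, v}) (axy : Adj e x y) (ayv : Adj e y v) (axv : ¬ Adj e x v)
    (hsum : ∑ w ∈ ct_I R, mm e z w ≤ 15)
    {u1 u2 u3 u4 : Fin n} (hu : ∀ u, u = u1 ∨ u = u2 ∨ u = u3 ∨ u = u4 →
      u ∈ ct_K R ∪ ct_T R ∧ 2 ≤ ct_nb e u (ct_I R)) (hcard : ({u1, u2, u3, u4} : Finset (Fin n)).card = 4) :
    False := by
  classical
  have hIz : ∀ w ∈ ct_I R, 5 ≤ mm e z w := fun w hw => h5 z w (ct_mem_I.1 hw).1
  have hyI : y ∈ ct_I R := by rw [hI]; simp
  have hxI : x ∈ ct_I R := by rw [hI]; simp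
  have hvI : v ∈ ct_I R := by rw [hI]; simp
  have hsum' : mm e z x + (mm e z y + mm e z v) ≤ 15 := by
    rw [hI, Finset.sum_insert (by simp [hxy, hxv]), Finset.sum_insert (by simp [hyv]),
      Finset.sum_singleton] at hsum
    exact hsum
  have hx5 := hIz x hxI
  have hv5 := hIz v hvI
  have hy5 : mm e z y ≤ 5 := by omega
  -- all four are adjacent to `y`
  have hadj : ∀ u, u = u1 ∨ u = u2 ∨ u = u3 ∨ u = u4 → Adj e y u := by
    intro u hu'
    obtain ⟨h1, h2⟩ := hu u hu'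
    by_contra hcon
    have hcon' : ¬ Adj e u y := fun h => hcon h.symm
    rw [hI, ct_nb_three u x y v hxy hxv hyv, if_neg hcon'] at h2
    have hux : Adj e u x := by
      by_contra h
      rw [if_neg h] at h2
      split_ifs at h2 <;> omega
    have huv : Adj e u v := by
      by_contra h
      rw [if_neg h] at h2
      split_ifs at h2 <;> omega
    have hyu : y ≠ u := by
      intro h
      have h3 := ((ct_mem_KT R hNF).1 h1).2.2.2
      obtain ⟨a, ha⟩ := h3
      rw [← h] at ha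
      exact (ct_mem_I.1 hyI).2.2.2 a ha
    rcases hNS x y v u hxv hyu axy ayv huv.symm hux with h3 | h3
    · exact axv h3
    · exact hcon h3
  have h4 : 4 ≤ ct_nb e y (ct_K R ∪ ct_T R) := by
    rw [← hcard]
    unfold ct_nb
    apply Finset.card_le_card
    intro u hu'
    simp only [Finset.mem_insert, Finset.mem_singleton] at hu'
    rw [Finset.mem_filter]
    exact ⟨(hu u hu').1, hadj u hu'⟩
  have h6 : 2 ≤ ct_nb e y (ct_I R) := ct_nb_pair y x v hxv axy.symm ayv hxI hvI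
  have := ct_mm_I R hNF hyI
  omega

theorem count {e : Fin n → V5} (F : Facts e) (hE : EulerSpec e) (h5 : FiveSpec e) (hNF : NoFive e)
    (hNS : NoSq e) (hP : Pent e)
    (hA : ∀ z c (R : RingD e z c), RingA e z c R)
    (hch : ∀ z c (R : RingD e z c) (t : Fin 5) (w w' : Fin n), Adj e z w → w ≠ c →
      ¬ Adj e c w → Adj e z w' → w' ≠ c → ¬ Adj e c w' → Adj e w (R.p t) →
      Adj e w' (R.p (t + 2)) → ¬ Adj e w (R.p (t + 1)) → ¬ Adj e w' (R.p (t + 1)) →
      ¬ Adj e w w') : CountSpec e := by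
  classical
  intro z c R hd
  rintro ⟨s0, t0, hst, hs0, ht0⟩
  have hch' := hch z c R
  obtain ⟨hb1, hb2⟩ := ct_basic R F hE hNF hNS hch'
  have hdeg := ct_deg R hNF hNS
  -- lower bounds
  have hK1 : ∀ a, 1 ≤ ct_nb e (R.k a) (ct_I R) := by
    intro a
    have h1 := h5 z (R.k a) (ct_zk R a)
    have h2 := ct_mm_k R F hNF hNS hch' a
    omega
  have hA5 : 5 ≤ ∑ a, ct_nb e (R.k a) (ct_I R) := by
    have := Finset.sum_le_sum (fun a (_ : a ∈ (univ : Finset (Fin 5))) => hK1 a)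
    simpa using this
  have hT2 : ∀ w ∈ ct_T R, 2 ≤ ct_nb e w (ct_I R) := by
    intro w hw
    have h1 := h5 z w (ct_mem_T.1 hw).1
    have h2 := ct_mm_T R F hNF hNS hch' hw
    omega
  have hB2 : 2 * (ct_T R).card ≤ ∑ w ∈ ct_T R, ct_nb e w (ct_I R) := by
    have := Finset.sum_le_sum hT2
    simpa [mul_comm] using this
  have hI5 : 5 * (ct_I R).card ≤ ∑ w ∈ ct_I R, mm e z w := by
    have := Finset.sum_le_sum (fun w (hw : w ∈ ct_I R) => h5 z w (ct_mem_I.1 hw).1)
    simpa [mul_comm] using this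
  -- two elements of `T`
  have hex : ∀ a, mm e z (R.p a) ≠ 5 → ∃ w ∈ ct_T R, ∀ b, Adj e w (R.p b) ↔ b = a := by
    intro a ha
    have h1 := ct_mm_p R hNF hNS a
    have h2 : 0 < ct_nb e (R.p a) (ct_T R) := by omega
    unfold ct_nb at h2
    obtain ⟨w, hw⟩ := Finset.card_pos.1 h2
    rw [Finset.mem_filter] at hw
    obtain ⟨b, hb⟩ := ct_T_one R hNS hw.1
    have : a = b := (hb a).1 hw.2.symm
    subst this
    exact ⟨w, hw.1, hb⟩
  obtain ⟨w1, hw1, hw1'⟩ := hex s0 hs0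
  obtain ⟨w2, hw2, hw2'⟩ := hex t0 ht0
  have hw12 : w1 ≠ w2 := by
    intro h
    subst h
    exact hst ((hw2' s0).1 ((hw1' s0).2 rfl))
  have hnadj : ¬ Adj e w1 w2 := by
    intro h
    have g1 := ct_mem_T.1 hw1
    have g2 := ct_mem_T.1 hw2
    obtain ⟨d, hd1, hd2⟩ := ct_common R hNS hch' g1.1 g1.2.1 g1.2.2.1 g2.1 g2.2.1 g2.2.2.1
      ((hw1' s0).2 rfl) ((hw2' t0).2 rfl) h
    exact hst (((hw1' d).1 hd1).symm.trans ((hw2' d).1 hd2))
  have hTc : 2 ≤ (ct_T R).card := by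
    rw [← Finset.card_pair hw12]
    apply Finset.card_le_card
    intro u hu
    rw [Finset.mem_insert, Finset.mem_singleton] at hu
    rcases hu with h | h
    · rw [h]; exact hw1
    · rw [h]; exact hw2
  -- first conclusion from `|T| = 2`
  have hconc1 : (ct_T R).card = 2 → (∃ s t, s ≠ t ∧ mm e z (R.p s) = 6 ∧ mm e z (R.p t) = 6 ∧
      ∀ a, a ≠ s → a ≠ t → mm e z (R.p a) = 5) := by
    intro hc
    have hTe : ct_T R = {w1, w2} := by
      symm
      apply Finset.eq_of_subset_of_card_le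
      · intro u hu
        rw [Finset.mem_insert, Finset.mem_singleton] at hu
        rcases hu with h | h
        · rw [h]; exact hw1
        · rw [h]; exact hw2
      · rw [hc, Finset.card_pair hw12]
    have hnb : ∀ a, ct_nb e (R.p a) (ct_T R) = (if a = s0 then 1 else 0) + (if a = t0 then 1 else 0) := by
      intro a
      rw [hTe]
      unfold ct_nb
      rw [Finset.card_filter, Finset.sum_pair hw12]
      have e1 : Adj e (R.p a) w1 ↔ a = s0 := by rw [Adj.comm]; exact hw1' a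
      have e2 : Adj e (R.p a) w2 ↔ a = t0 := by rw [Adj.comm]; exact hw2' a
      simp only [e1, e2]
    refine ⟨s0, t0, hst, ?_, ?_, ?_⟩
    · rw [ct_mm_p R hNF hNS, hnb, if_pos rfl, if_neg hst]
    · rw [ct_mm_p R hNF hNS, hnb, if_pos rfl, if_neg (Ne.symm hst)]
    · intro a h1 h2
      rw [ct_mm_p R hNF hNS, hnb, if_neg h1, if_neg h2]
  -- second conclusion
  have hconc2 : (¬ ∃ a b, a ≠ b ∧ 2 ≤ ct_nb e (R.k a) (ct_I R) ∧ 2 ≤ ct_nb e (R.k b) (ct_I R)) →
      ∃ b, ∀ a, a ≠ b → mm e z (R.k a) = 5 := by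
    intro hno
    by_cases h : ∃ b, 2 ≤ ct_nb e (R.k b) (ct_I R)
    · obtain ⟨b, hb⟩ := h
      refine ⟨b, fun a hab => ?_⟩
      have h1 : ¬ 2 ≤ ct_nb e (R.k a) (ct_I R) := fun h2 => hno ⟨a, b, hab, h2, hb⟩
      have := hK1 a
      rw [ct_mm_k R F hNF hNS hch' a]; omega
    · push Not at h
      refine ⟨0, fun a _ => ?_⟩
      have := hK1 a
      have := h a
      rw [ct_mm_k R F hNF hNS hch' a]; omega
  have hsum7 : (∑ a, ct_nb e (R.k a) (ct_I R)) ≤ 6 →
      ¬ ∃ a b, a ≠ b ∧ 2 ≤ ct_nb e (R.k a) (ct_I R) ∧ 2 ≤ ct_nb e (R.k b) (ct_I R) := by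
    rintro h ⟨a, b, hab, ha, hb⟩
    have := ct_fsum (fun a => ct_nb e (R.k a) (ct_I R)) hK1 a b hab ha hb
    omega
  have hIc : (ct_I R).card = 2 ∨ (ct_I R).card = 3 := by omega
  rcases hIc with hIc | hIc
  · -- two inner facets
    obtain ⟨x, y, hxy, hI⟩ := Finset.card_eq_two.1 hIc
    have hxI : x ∈ ct_I R := by rw [hI]; simp
    have hyI : y ∈ ct_I R := by rw [hI]; simp
    have a1 : ∀ w ∈ ct_T R, ∀ u ∈ ct_I R, Adj e w u := by
      intro w hw
      apply ct_nb_full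
      rw [hIc]; exact hT2 w hw
    have axy : Adj e x y := by
      rcases hNS x w1 y w2 hxy hw12 (a1 w1 hw1 x hxI).symm (a1 w1 hw1 y hyI)
        (a1 w2 hw2 y hyI).symm (a1 w2 hw2 x hxI) with h | h
      · exact h
      · exact absurd h hnadj
    have hJ : 2 ≤ ∑ w ∈ ct_I R, ct_nb e w (ct_I R) := by
      have h1 : ∑ w ∈ ct_I R, ct_nb e w (ct_I R) = ct_nb e x (ct_I R) + ct_nb e y (ct_I R) := by
        conv_lhs => rw [hI]
        rw [Finset.sum_pair hxy, ← hI]
      rw [h1]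
      have := ct_nb_pos x y axy hyI
      have := ct_nb_pos y x axy.symm hxI
      omega
    exact ⟨hconc1 (by omega), hconc2 (hsum7 (by omega))⟩
  · -- three inner facets
    have hTc2 : (ct_T R).card = 2 := by omega
    refine ⟨hconc1 hTc2, hconc2 ?_⟩
    by_cases h6 : (∑ a, ct_nb e (R.k a) (ct_I R)) ≤ 6
    · exact hsum7 h6
    · rintro ⟨a, b, hab, ha, hb⟩
      obtain ⟨x, y, v, hxy, hxv, hyv, hI⟩ := Finset.card_eq_three.1 hIc
      have hJ : ∑ w ∈ ct_I R, ct_nb e w (ct_I R) = 4 := by omega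
      have hs15 : ∑ w ∈ ct_I R, mm e z w ≤ 15 := by omega
      have hJ' : ∑ w ∈ ct_I R, ct_nb e w (ct_I R) = ct_nb e x (ct_I R) +
          (ct_nb e y (ct_I R) + ct_nb e v (ct_I R)) := by
        conv_lhs => rw [hI]
        rw [Finset.sum_insert (by simp [hxy, hxv]), Finset.sum_insert (by simp [hyv]),
          Finset.sum_singleton, ← hI]
      have hu : ∀ u, u = R.k a ∨ u = R.k b ∨ u = w1 ∨ u = w2 →
          u ∈ ct_K R ∪ ct_T R ∧ 2 ≤ ct_nb e u (ct_I R) := by
        intro u hu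
        rw [Finset.mem_union]
        rcases hu with h | h | h | h
        · rw [h]; exact ⟨Or.inl (ct_mem_K.2 ⟨a, rfl⟩), ha⟩
        · rw [h]; exact ⟨Or.inl (ct_mem_K.2 ⟨b, rfl⟩), hb⟩
        · rw [h]; exact ⟨Or.inr hw1, hT2 w1 hw1⟩
        · rw [h]; exact ⟨Or.inr hw2, hT2 w2 hw2⟩
      have hkT : ∀ (a : Fin 5) (w : Fin n), w ∈ ct_T R → R.k a ≠ w := by
        intro a w hw h
        exact (ct_mem_T.1 hw).2.2.2.1 (ct_mem_K.2 ⟨a, h⟩)
      have hcard : ({R.k a, R.k b, w1, w2} : Finset (Fin n)).card = 4 := by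
        rw [Finset.card_insert_of_notMem, Finset.card_insert_of_notMem, Finset.card_pair hw12]
        · simp only [Finset.mem_insert, Finset.mem_singleton, not_or]
          exact ⟨hkT b w1 hw1, hkT b w2 hw2⟩
        · simp only [Finset.mem_insert, Finset.mem_singleton, not_or]
          exact ⟨fun h => hab (ct_kinj R hNF hNS h), hkT a w1 hw1, hkT a w2 hw2⟩
      have nx : ct_nb e x (ct_I R) = (if Adj e x y then 1 else 0) + (if Adj e x v then 1 else 0) := by
        rw [hI, ct_nb_three x x y v hxy hxv hyv, if_neg (ct_irr x)]; omega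
      have ny : ct_nb e y (ct_I R) = (if Adj e x y then 1 else 0) + (if Adj e y v then 1 else 0) := by
        rw [hI, ct_nb_three y x y v hxy hxv hyv, if_neg (ct_irr y)]
        have : Adj e y x ↔ Adj e x y := Adj.comm
        simp only [this]; omega
      have nv : ct_nb e v (ct_I R) = (if Adj e x v then 1 else 0) + (if Adj e y v then 1 else 0) := by
        rw [hI, ct_nb_three v x y v hxy hxv hyv, if_neg (ct_irr v)]
        have h1 : Adj e v x ↔ Adj e x v := Adj.comm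
        have h2 : Adj e v y ↔ Adj e y v := Adj.comm
        simp only [h1, h2]; omega
      rw [hJ', nx, ny, nv] at hJ
      by_cases c1 : Adj e x y
      · by_cases c2 : Adj e x v
        · by_cases c3 : Adj e y v
          · simp [c1, c2, c3] at hJ
          · refine ct_path R F hNF hNS h5 (Ne.symm hxy) hyv hxv (x := y) (y := x) (v := v) ?_
              c1.symm c2 c3 hs15 hu hcard
            rw [hI]; exact Finset.insert_comm _ _ _
        · by_cases c3 : Adj e y v
          · exact ct_path R F hNF hNS h5 hxy hxv hyv hI c1 c3 c2 hs15 hu hcard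
          · simp [c1, c2, c3] at hJ
      · by_cases c2 : Adj e x v
        · by_cases c3 : Adj e y v
          · refine ct_path R F hNF hNS h5 hxv hxy (Ne.symm hyv) (x := x) (y := v) (v := y) ?_
              c2 c3.symm c1 hs15 hu hcard
            rw [hI, Finset.pair_comm]
          · simp [c1, c2, c3] at hJ
        · by_cases c3 : Adj e y v
          · simp [c1, c2, c3] at hJ
          · simp [c1, c2, c3] at hJ

end count

end Pool.Agent.H62.M4
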