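import Pool.Agent.H62.M4.Spec

/-!
MP_6c826d_gt (S13329), m_4 = 120.  Module D1: the counts of corners relative to a fixed corner.
-/

set_option autoImplicit false

namespace Pool.Agent.H62.M4

open Finset

variable {n : ℕ}

namespace Cnt

open Classical in
/-- indicator of corners -/
noncomputable def w (e : Fin n → V5) (i j k l : Fin n) : ℝ := if Q4 e i j k l then 1 else 0

theorem Adj.irr {e : Fin n → V5} {i : Fin n} : ¬ Adj e i i := fun h => h.1 rfl

theorem Q4.s12 {e : Fin n → V5} {i j k l : Fin n} : Q4 e i j k l ↔ Q4 e j i k l := by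
  unfold Q4
  rw [Adj.comm (e := e) (i := i) (j := j)]
  tauto

theorem Q4.s23 {e : Fin n → V5} {i j k l : Fin n} : Q4 e i j k l ↔ Q4 e i k j l := by
  unfold Q4
  rw [Adj.comm (e := e) (i := j) (j := k)]
  tauto

theorem Q4.s34 {e : Fin n → V5} {i j k l : Fin n} : Q4 e i j k l ↔ Q4 e i j l k := by
  unfold Q4
  rw [Adj.comm (e := e) (i := k) (j := l)]
  tauto

theorem w12 (e : Fin n → V5) (i j k l : Fin n) : w e i j k l = w e j i k l := by
  unfold w
  rw [Q4.s12]

theorem w23 (e : Fin n → V5) (i j k l : Fin n) : w e i j k l = w e i k j l := by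
  unfold w
  rw [Q4.s23]

theorem w34 (e : Fin n → V5) (i j k l : Fin n) : w e i j k l = w e i j l k := by
  unfold w
  rw [Q4.s34]

open Classical in
theorem tri {e : Fin n → V5} (F : Facts e) (i j k : Fin n) :
    ∑ l, w e i j k l = if Adj e i j ∧ Adj e i k ∧ Adj e j k then 2 else 0 := by
  unfold w
  rw [Finset.sum_ite, Finset.sum_const_zero, add_zero, Finset.sum_const, nsmul_eq_mul, mul_one]
  split_ifs with h
  · obtain ⟨l, hl⟩ := F.ext3 i j k h.1 h.2.1 h.2.2
    obtain ⟨l', hne, hl', hu⟩ := F.two i j k l hl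
    have : (univ.filter (fun m => Q4 e i j k m)) = {l, l'} := by
      ext m
      simp only [mem_filter, mem_univ, true_and, mem_insert, mem_singleton]
      constructor
      · exact hu m
      · rintro (rfl | rfl)
        · exact hl
        · exact hl'
    rw [this, Finset.card_pair hne.symm]
    norm_num
  · have : (univ.filter (fun m => Q4 e i j k m)) = ∅ := by
      ext m
      simp only [mem_filter, mem_univ, true_and, notMem_empty, iff_false]
      intro hm
      exact h ⟨hm.1, hm.2.1, hm.2.2.2.1⟩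
    rw [this]
    simp

open Classical in
theorem duo {e : Fin n → V5} (F : Facts e) (i j : Fin n) :
    ∑ k, ∑ l, w e i j k l = if Adj e i j then 2 * (mm e i j : ℝ) else 0 := by
  simp_rw [tri F]
  by_cases h : Adj e i j
  · simp only [h, true_and, if_true]
    rw [Finset.sum_ite, Finset.sum_const_zero, add_zero, Finset.sum_const, nsmul_eq_mul]
    unfold mm
    ring
  · simp [h]

open Classical in
theorem mono {e : Fin n → V5} (F : Facts e) (hE : EulerSpec e) (i : Fin n) :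
    ∑ j, ∑ k, ∑ l, w e i j k l = 12 * (deg e i : ℝ) - 24 := by
  simp_rw [duo F]
  have h := hE i
  have h' : (∑ j ∈ univ.filter (fun j => Adj e i j), (mm e i j : ℝ)) + 12 = 6 * (deg e i : ℝ) := by
    exact_mod_cast h
  rw [← Finset.sum_filter, ← Finset.mul_sum]
  linarith

/-- weighted sum over the corners -/
noncomputable def I (e : Fin n → V5) (f1 f2 f3 f4 : Fin n → ℝ) : ℝ :=
  ∑ i, ∑ j, ∑ k, ∑ l, w e i j k l * (f1 i * f2 j * f3 k * f4 l)

theorem I12 (e : Fin n → V5) (f1 f2 f3 f4 : Fin n → ℝ) : I e f1 f2 f3 f4 = I e f2 f1 f3 f4 := by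
  unfold I
  rw [Finset.sum_comm]
  refine Finset.sum_congr rfl fun i _ => Finset.sum_congr rfl fun j _ =>
    Finset.sum_congr rfl fun k _ => Finset.sum_congr rfl fun l _ => ?_
  rw [w12]
  ring

theorem I23 (e : Fin n → V5) (f1 f2 f3 f4 : Fin n → ℝ) : I e f1 f2 f3 f4 = I e f1 f3 f2 f4 := by
  unfold I
  refine Finset.sum_congr rfl fun i _ => ?_
  rw [Finset.sum_comm]
  refine Finset.sum_congr rfl fun j _ =>
    Finset.sum_congr rfl fun k _ => Finset.sum_congr rfl fun l _ => ?_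
  rw [w23]
  ring

theorem I34 (e : Fin n → V5) (f1 f2 f3 f4 : Fin n → ℝ) : I e f1 f2 f3 f4 = I e f1 f2 f4 f3 := by
  unfold I
  refine Finset.sum_congr rfl fun i _ => Finset.sum_congr rfl fun j _ => ?_
  rw [Finset.sum_comm]
  refine Finset.sum_congr rfl fun k _ => Finset.sum_congr rfl fun l _ => ?_
  rw [w34]
  ring

theorem I4 (e : Fin n → V5) (f1 f2 f3 f f' : Fin n → ℝ) :
    I e f1 f2 f3 (fun i => f i - f' i) = I e f1 f2 f3 f - I e f1 f2 f3 f' := by
  unfold I
  simp only [← Finset.sum_sub_distrib]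
  refine Finset.sum_congr rfl fun i _ => Finset.sum_congr rfl fun j _ =>
    Finset.sum_congr rfl fun k _ => Finset.sum_congr rfl fun l _ => ?_
  ring

theorem I3 (e : Fin n → V5) (f1 f2 f3 f f' : Fin n → ℝ) :
    I e f1 f2 (fun i => f i - f' i) f3 = I e f1 f2 f f3 - I e f1 f2 f' f3 := by
  rw [I34, I4, I34, I34 e f1 f2 f3 f']

theorem I2 (e : Fin n → V5) (f1 f2 f3 f f' : Fin n → ℝ) :
    I e f1 (fun i => f i - f' i) f2 f3 = I e f1 f f2 f3 - I e f1 f' f2 f3 := by
  rw [I23, I3, I23, I23 e f1 f2 f' f3]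

theorem I1 (e : Fin n → V5) (f1 f2 f3 f f' : Fin n → ℝ) :
    I e (fun i => f i - f' i) f1 f2 f3 = I e f f1 f2 f3 - I e f' f1 f2 f3 := by
  rw [I12, I2, I12, I12 e f1 f' f2 f3]

open Classical in
theorem Ifff1 {e : Fin n → V5} (F : Facts e) (f g h : Fin n → ℝ) :
    I e f g h (fun _ => 1) =
      ∑ i, f i * ∑ j, g j * ∑ k, h k * (if Adj e i j ∧ Adj e i k ∧ Adj e j k then 2 else 0) := by
  unfold I
  simp_rw [← tri F, Finset.mul_sum]
  refine Finset.sum_congr rfl fun i _ => Finset.sum_congr rfl fun j _ =>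
    Finset.sum_congr rfl fun k _ => Finset.sum_congr rfl fun l _ => ?_
  ring

open Classical in
theorem Iff11 {e : Fin n → V5} (F : Facts e) (f g : Fin n → ℝ) :
    I e f g (fun _ => 1) (fun _ => 1) =
      ∑ i, f i * ∑ j, g j * (if Adj e i j then 2 * (mm e i j : ℝ) else 0) := by
  unfold I
  simp_rw [← duo F, Finset.mul_sum]
  refine Finset.sum_congr rfl fun i _ => Finset.sum_congr rfl fun j _ =>
    Finset.sum_congr rfl fun k _ => Finset.sum_congr rfl fun l _ => ?_
  ring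

theorem If111 {e : Fin n → V5} (F : Facts e) (hE : EulerSpec e) (f : Fin n → ℝ) :
    I e f (fun _ => 1) (fun _ => 1) (fun _ => 1) =
      ∑ i, f i * (12 * (deg e i : ℝ) - 24) := by
  unfold I
  simp_rw [← mono F hE, Finset.mul_sum]
  refine Finset.sum_congr rfl fun i _ => Finset.sum_congr rfl fun j _ =>
    Finset.sum_congr rfl fun k _ => Finset.sum_congr rfl fun l _ => ?_
  ring

/-- a clique of four elements -/
structure Cl (e : Fin n → V5) (T : Finset (Fin n)) (c : Fin 4 → Fin n) : Prop where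
  inj : Function.Injective c
  img : T = univ.image c
  adj : ∀ s t, Adj e (c s) (c t) ↔ s ≠ t

open Classical in
/-- indicator of `T` -/
noncomputable def ind (T : Finset (Fin n)) (i : Fin n) : ℝ := if i ∈ T then 1 else 0

theorem sumT {e : Fin n → V5} {T : Finset (Fin n)} {c : Fin 4 → Fin n} (C : Cl e T c)
    (h : Fin n → ℝ) : ∑ i, ind T i * h i = ∑ s : Fin 4, h (c s) := by
  classical
  unfold ind
  simp only [ite_mul, one_mul, zero_mul]
  rw [← Finset.sum_filter]
  have : (univ.filter (fun i => i ∈ T)) = T := by ext; simp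
  rw [this]
  have hT := C.img
  rw [hT, Finset.sum_image (fun a _ b _ h => C.inj h)]

theorem Igggg {e : Fin n → V5} {T : Finset (Fin n)} {c : Fin 4 → Fin n}
    (C : Cl e T c) : I e (ind T) (ind T) (ind T) (ind T) = 24 := by
  have h1 : I e (ind T) (ind T) (ind T) (ind T) =
      ∑ i, ind T i * ∑ j, ind T j * ∑ k, ind T k * ∑ l, ind T l * w e i j k l := by
    unfold I
    simp_rw [Finset.mul_sum]
    refine Finset.sum_congr rfl fun i _ => Finset.sum_congr rfl fun j _ =>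
      Finset.sum_congr rfl fun k _ => Finset.sum_congr rfl fun l _ => ?_
    ring
  rw [h1]
  simp_rw [sumT C]
  have h2 : ∀ s t u v, w e (c s) (c t) (c u) (c v) =
      (((if s ≠ t ∧ s ≠ u ∧ s ≠ v ∧ t ≠ u ∧ t ≠ v ∧ u ≠ v then 1 else 0 : ℕ)) : ℝ) := by
    intro s t u v
    unfold w Q4
    simp only [C.adj]
    push_cast
    congr
  simp_rw [h2]
  have h3 : (∑ s : Fin 4, ∑ t : Fin 4, ∑ u : Fin 4, ∑ v : Fin 4,
    (if s ≠ t ∧ s ≠ u ∧ s ≠ v ∧ t ≠ u ∧ t ≠ v ∧ u ≠ v then 1 else 0 : ℕ)) = 24 := by decide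
  exact_mod_cast h3

theorem Iggg1 {e : Fin n → V5} (F : Facts e) {T : Finset (Fin n)} {c : Fin 4 → Fin n}
    (C : Cl e T c) : I e (ind T) (ind T) (ind T) (fun _ => 1) = 48 := by
  classical
  rw [Ifff1 F]
  simp_rw [sumT C]
  have h2 : ∀ s t u, (if Adj e (c s) (c t) ∧ Adj e (c s) (c u) ∧ Adj e (c t) (c u) then (2:ℝ)
      else 0) = (((if s ≠ t ∧ s ≠ u ∧ t ≠ u then 2 else 0 : ℕ)) : ℝ) := by
    intro s t u
    simp only [C.adj]
    push_cast
    congr
  simp_rw [h2]
  have h3 : (∑ s : Fin 4, ∑ t : Fin 4, ∑ u : Fin 4,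
    (if s ≠ t ∧ s ≠ u ∧ t ≠ u then 2 else 0 : ℕ)) = 48 := by decide
  exact_mod_cast h3

/-- sum of the six `m` -/
noncomputable def MM (e : Fin n → V5) (c : Fin 4 → Fin n) : ℝ :=
  (mm e (c 0) (c 1) : ℝ) + mm e (c 0) (c 2) + mm e (c 0) (c 3) + mm e (c 1) (c 2)
    + mm e (c 1) (c 3) + mm e (c 2) (c 3)

theorem Igg11 {e : Fin n → V5} (F : Facts e) {T : Finset (Fin n)} {c : Fin 4 → Fin n}
    (C : Cl e T c) : I e (ind T) (ind T) (fun _ => 1) (fun _ => 1) = 4 * MM e c := by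
  classical
  rw [Iff11 F]
  simp_rw [sumT C]
  simp only [C.adj]
  simp only [Fin.sum_univ_four]
  simp only [MM, mm_comm e (c 1) (c 0), mm_comm e (c 2) (c 0), mm_comm e (c 3) (c 0),
    mm_comm e (c 2) (c 1), mm_comm e (c 3) (c 1), mm_comm e (c 3) (c 2)]
  simp
  ring

theorem Ig111 {e : Fin n → V5} (F : Facts e) (hE : EulerSpec e) {T : Finset (Fin n)}
    {c : Fin 4 → Fin n} (C : Cl e T c) :
    I e (ind T) (fun _ => 1) (fun _ => 1) (fun _ => 1) =
      12 * ((deg e (c 0) : ℝ) + deg e (c 1) + deg e (c 2) + deg e (c 3)) - 96 := by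
  rw [If111 F hE, sumT C, Fin.sum_univ_four]
  ring

theorem I1111 {e : Fin n → V5} (F : Facts e) (hE : EulerSpec e) :
    I e (fun _ => 1) (fun _ => 1) (fun _ => 1) (fun _ => 1) =
      12 * (∑ i, (deg e i : ℝ)) - 24 * n := by
  rw [If111 F hE]
  simp only [one_mul, Finset.sum_sub_distrib, ← Finset.mul_sum, Finset.sum_const, Finset.card_univ,
    Fintype.card_fin, nsmul_eq_mul]
  ring


open Classical in
theorem first (e : Fin n → V5) (T : Finset (Fin n)) :
    ((univ.filter (fun q : Fin n × Fin n × Fin n × Fin n =>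
        Q4 e q.1 q.2.1 q.2.2.1 q.2.2.2 ∧ q.1 ∉ T ∧ q.2.1 ∉ T ∧ q.2.2.1 ∉ T ∧ q.2.2.2 ∉ T)).card : ℝ)
      = I e (fun i => 1 - ind T i) (fun i => 1 - ind T i) (fun i => 1 - ind T i)
          (fun i => 1 - ind T i) := by
  rw [Finset.card_filter]
  push_cast
  simp only [Fintype.sum_prod_type]
  unfold I
  refine Finset.sum_congr rfl fun i _ => Finset.sum_congr rfl fun j _ =>
    Finset.sum_congr rfl fun k _ => Finset.sum_congr rfl fun l _ => ?_
  unfold w ind
  by_cases h0 : Q4 e i j k l <;> by_cases h1 : i ∈ T <;> by_cases h2 : j ∈ T <;>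
    by_cases h3 : k ∈ T <;> by_cases h4 : l ∈ T <;> simp [h0, h1, h2, h3, h4]

open Classical in
theorem second (e : Fin n → V5) (T : Finset (Fin n)) :
    ((univ.filter (fun q : Fin n × Fin n × Fin n × Fin n =>
        Q4 e q.1 q.2.1 q.2.2.1 q.2.2.2 ∧ q.1 ∉ T ∧ q.2.1 ∉ T ∧ (q.2.2.1 ∈ T ∨ q.2.2.2 ∈ T))).card : ℝ)
      = I e (fun i => 1 - ind T i) (fun i => 1 - ind T i) (fun _ => 1) (fun _ => 1) -
        I e (fun i => 1 - ind T i) (fun i => 1 - ind T i) (fun i => 1 - ind T i)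
          (fun i => 1 - ind T i) := by
  rw [Finset.card_filter]
  push_cast
  simp only [Fintype.sum_prod_type]
  unfold I
  simp only [← Finset.sum_sub_distrib]
  refine Finset.sum_congr rfl fun i _ => Finset.sum_congr rfl fun j _ =>
    Finset.sum_congr rfl fun k _ => Finset.sum_congr rfl fun l _ => ?_
  unfold w ind
  by_cases h0 : Q4 e i j k l <;> by_cases h1 : i ∈ T <;> by_cases h2 : j ∈ T <;>
    by_cases h3 : k ∈ T <;> by_cases h4 : l ∈ T <;> simp [h0, h1, h2, h3, h4]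

open Classical in
theorem degsum (e : Fin n → V5) (i : Fin n) :
    ∑ j, (if Adj e i j then (1:ℝ) else 0) = (deg e i : ℝ) := by
  rw [Finset.sum_ite, Finset.sum_const_zero, add_zero, Finset.sum_const, nsmul_eq_mul, mul_one]
  rfl

open Classical in
theorem third {e : Fin n → V5} {T : Finset (Fin n)}
    {c : Fin 4 → Fin n} (C : Cl e T c) :
    ((univ.filter (fun q : Fin n × Fin n => Adj e q.1 q.2 ∧ q.1 ∉ T ∧ q.2 ∉ T)).card : ℝ)
      = (∑ i, (deg e i : ℝ)) -
        2 * ((deg e (c 0) : ℝ) + deg e (c 1) + deg e (c 2) + deg e (c 3)) + 12 := by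
  rw [Finset.card_filter]
  push_cast
  simp only [Fintype.sum_prod_type]
  have h1 : ∀ i j, (if Adj e i j ∧ i ∉ T ∧ j ∉ T then (1:ℝ) else 0) =
      (if Adj e i j then (1:ℝ) else 0) - ind T i * (if Adj e i j then (1:ℝ) else 0)
        - ind T j * (if Adj e i j then (1:ℝ) else 0)
        + ind T i * (ind T j * (if Adj e i j then (1:ℝ) else 0)) := by
    intro i j
    unfold ind
    by_cases h0 : Adj e i j <;> by_cases h1 : i ∈ T <;> by_cases h2 : j ∈ T <;>
      simp [h0, h1, h2]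
  simp_rw [h1, Finset.sum_add_distrib, Finset.sum_sub_distrib, ← Finset.mul_sum]
  rw [Finset.sum_comm (f := fun x i => ind T i * (if Adj e x i then (1:ℝ) else 0))]
  simp_rw [← Finset.mul_sum, sumT C, C.adj]
  have h2 : ∀ i, (∑ j, if Adj e j i then (1:ℝ) else 0) = (deg e i : ℝ) := by
    intro i
    rw [← degsum e i]
    refine Finset.sum_congr rfl fun j _ => ?_
    rw [Adj.comm]
  simp_rw [h2, degsum]
  have h3 : (∑ s : Fin 4, ∑ t : Fin 4, (if s ≠ t then 1 else 0 : ℝ)) = 12 := by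
    have : (∑ s : Fin 4, ∑ t : Fin 4, (if s ≠ t then 1 else 0 : ℕ)) = 12 := by decide
    exact_mod_cast this
  rw [h3]
  simp only [Fin.sum_univ_four]
  ring

end Cnt

open Classical in
/-- the four counts for a corner `(a,b,c,d)`;  `T = {a,b,c,d}` -/
theorem counts {e : Fin n → V5} (F : Facts e) (hE : EulerSpec e) (a b c d : Fin n)
    (hQ : Q4 e a b c d) (T : Finset (Fin n)) (hT : T = {a, b, c, d}) (D M : ℝ)
    (hD : D = (deg e a : ℝ) + deg e b + deg e c + deg e d)
    (hM : M = (mm e a b : ℝ) + mm e a c + mm e a d + mm e b c + mm e b d + mm e c d) :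
    ((univ.filter (fun q : Fin n × Fin n × Fin n × Fin n =>
        Q4 e q.1 q.2.1 q.2.2.1 q.2.2.2 ∧ q.1 ∉ T ∧ q.2.1 ∉ T ∧ q.2.2.1 ∉ T ∧ q.2.2.2 ∉ T)).card : ℝ)
      = 12 * (∑ i, (deg e i : ℝ)) - 24 * n - 48 * D + 24 * M + 216 ∧
    ((univ.filter (fun q : Fin n × Fin n × Fin n × Fin n =>
        Q4 e q.1 q.2.1 q.2.2.1 q.2.2.2 ∧ q.1 ∉ T ∧ q.2.1 ∉ T ∧ (q.2.2.1 ∈ T ∨ q.2.2.2 ∈ T))).card : ℝ)
      = 24 * D - 20 * M - 24 ∧
    ((univ.filter (fun q : Fin n × Fin n => Adj e q.1 q.2 ∧ q.1 ∉ T ∧ q.2 ∉ T)).card : ℝ)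
      = (∑ i, (deg e i : ℝ)) - 2 * D + 12 := by
  obtain ⟨hab, hac, had, hbc, hbd, hcd⟩ := hQ
  have C : Cnt.Cl e T ![a, b, c, d] := by
    have key : ∀ s t : Fin 4, Adj e (![a, b, c, d] s) (![a, b, c, d] t) ↔ s ≠ t := by
      intro s t
      fin_cases s <;> fin_cases t <;>
        simp [hab, hac, had, hbc, hbd, hcd, hab.symm, hac.symm, had.symm, hbc.symm, hbd.symm,
          hcd.symm, Cnt.Adj.irr]
    refine ⟨?_, ?_, key⟩
    · intro s t hst
      by_contra hne
      have := (key s t).2 hne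
      exact this.1 hst
    · rw [hT]
      ext x
      simp only [mem_insert, mem_singleton, mem_image, mem_univ, true_and, Fin.exists_fin_succ,
        Matrix.cons_val_zero, Matrix.cons_val_succ]
      constructor
      · rintro (rfl | rfl | rfl | rfl) <;> simp
      · intro h
        simp at h
        tauto
  have e4 := Cnt.Igggg C
  have e3 := Cnt.Iggg1 F C
  have e2 := Cnt.Igg11 F C
  have e1 := Cnt.Ig111 F hE C
  have e0 := Cnt.I1111 F hE
  have hMM : Cnt.MM e ![a, b, c, d] = M := by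
    rw [hM]
    rfl
  rw [hMM] at e2
  have hDD : (deg e (![a, b, c, d] 0) : ℝ) + deg e (![a, b, c, d] 1) + deg e (![a, b, c, d] 2)
      + deg e (![a, b, c, d] 3) = D := by
    rw [hD]
    rfl
  rw [hDD] at e1
  set g := Cnt.ind T with hg
  set o : Fin n → ℝ := fun _ => 1 with ho
  -- all the permuted sums
  have p2a : Cnt.I e g o o o = 12 * D - 96 := e1
  have p2b : Cnt.I e o g o o = 12 * D - 96 := by rw [Cnt.I12]; exact e1
  have p2c : Cnt.I e o o g o = 12 * D - 96 := by rw [Cnt.I23]; exact p2b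
  have p2d : Cnt.I e o o o g = 12 * D - 96 := by rw [Cnt.I34]; exact p2c
  have q12 : Cnt.I e g g o o = 4 * M := e2
  have q13 : Cnt.I e g o g o = 4 * M := by rw [Cnt.I23]; exact q12
  have q14 : Cnt.I e g o o g = 4 * M := by rw [Cnt.I34]; exact q13
  have q23 : Cnt.I e o g g o = 4 * M := by rw [Cnt.I12]; exact q13
  have q24 : Cnt.I e o g o g = 4 * M := by rw [Cnt.I12]; exact q14
  have q34 : Cnt.I e o o g g = 4 * M := by rw [Cnt.I23]; exact q24
  have r4 : Cnt.I e g g g o = 48 := e3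
  have r3 : Cnt.I e g g o g = 48 := by rw [Cnt.I34]; exact r4
  have r2 : Cnt.I e g o g g = 48 := by rw [Cnt.I23]; exact r3
  have r1 : Cnt.I e o g g g = 48 := by rw [Cnt.I12]; exact r2
  have hall : Cnt.I e (fun i => 1 - Cnt.ind T i) (fun i => 1 - Cnt.ind T i)
      (fun i => 1 - Cnt.ind T i) (fun i => 1 - Cnt.ind T i) =
      12 * (∑ i, (deg e i : ℝ)) - 24 * n - 48 * D + 24 * M + 216 := by
    have hfun : (fun i => 1 - Cnt.ind T i) = (fun i => o i - g i) := rfl
    rw [hfun]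
    simp only [Cnt.I4, Cnt.I3, Cnt.I2, Cnt.I1]
    change Cnt.I e o o o o - Cnt.I e g o o o - (Cnt.I e o g o o - Cnt.I e g g o o) - _ - _ = _
    rw [p2a, p2b, p2c, p2d, q12, q13, q14, q23, q24, q34, r4, r3, r2, r1, e0, e4]
    ring
  refine ⟨?_, ?_, ?_⟩
  · rw [Cnt.first e T, hall]
  · rw [Cnt.second e T, hall]
    have hfun : (fun i => 1 - Cnt.ind T i) = (fun i => o i - g i) := rfl
    rw [hfun]
    simp only [Cnt.I2, Cnt.I1]
    change Cnt.I e o o o o - Cnt.I e g o o o - (Cnt.I e o g o o - Cnt.I e g g o o) - _ = _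
    rw [p2a, p2b, q12, e0]
    ring
  · rw [Cnt.third C, hDD]

end Pool.Agent.H62.M4
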