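import Pool.Agent.H62.M4.IcoMul

/-!
MP_6c826d_gt (S13329), existence part: the right-angled 120-cell is compact.
-/

set_option autoImplicit false

namespace Pool.Agent.H62.M4

theorem φ_lo : (1.618 : ℝ) < φ := by
  have h := φ_sq
  have h1 := φ_pos
  by_contra hc
  push Not at hc
  nlinarith

theorem φ_hi : φ < (1.6181 : ℝ) := by
  have h := φ_sq
  have h1 := φ_pos
  by_contra hc
  push Not at hc
  nlinarith

/-- sum of the squares and of the fourth powers over the six axes of the icosahedron -/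
theorem ico_axes (b c d m : ℝ)
    (h1 : |b + (φ - 1) * c| ≤ m) (h2 : |b - (φ - 1) * c| ≤ m)
    (h3 : |c + (φ - 1) * d| ≤ m) (h4 : |c - (φ - 1) * d| ≤ m)
    (h5 : |d + (φ - 1) * b| ≤ m) (h6 : |d - (φ - 1) * b| ≤ m) :
    3 * (3 - φ) * (b ^ 2 + c ^ 2 + d ^ 2) ≤ 5 * m ^ 2 := by
  have hs := φ_sq
  have q : ∀ u : ℝ, |u| ≤ m → u ^ 4 ≤ m ^ 2 * u ^ 2 := by
    intro u hu
    have h : u ^ 2 ≤ m ^ 2 := by
      rw [← sq_abs u]
      exact pow_le_pow_left₀ (abs_nonneg u) hu 2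
    have : u ^ 4 = u ^ 2 * u ^ 2 := by ring
    rw [this]
    exact mul_le_mul_of_nonneg_right h (sq_nonneg u)
  have k1 := q _ h1
  have k2 := q _ h2
  have k3 := q _ h3
  have k4 := q _ h4
  have k5 := q _ h5
  have k6 := q _ h6
  set N := b ^ 2 + c ^ 2 + d ^ 2 with hN
  have s2 : (b + (φ - 1) * c) ^ 2 + (b - (φ - 1) * c) ^ 2 + (c + (φ - 1) * d) ^ 2
      + (c - (φ - 1) * d) ^ 2 + (d + (φ - 1) * b) ^ 2 + (d - (φ - 1) * b) ^ 2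
      = 2 * (3 - φ) * N := by
    rw [hN]
    linear_combination (2 * (b ^ 2 + c ^ 2 + d ^ 2)) * hs
  have s4 : (b + (φ - 1) * c) ^ 4 + (b - (φ - 1) * c) ^ 4 + (c + (φ - 1) * d) ^ 4
      + (c - (φ - 1) * d) ^ 4 + (d + (φ - 1) * b) ^ 4 + (d - (φ - 1) * b) ^ 4
      = 6 / 5 * (3 - φ) ^ 2 * N ^ 2 := by
    have e2 : (φ - 1) ^ 2 = 2 - φ := by linear_combination hs
    have e4 : (φ - 1) ^ 4 = 5 - 3 * φ := by
      have : (φ - 1) ^ 4 = ((φ - 1) ^ 2) ^ 2 := by ring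
      rw [this, e2]
      linear_combination hs
    have e5 : (3 - φ) ^ 2 = 5 * (2 - φ) := by linear_combination hs
    have x1 : ∀ u v : ℝ, (u + (φ - 1) * v) ^ 4 + (u - (φ - 1) * v) ^ 4
        = 2 * u ^ 4 + 12 * u ^ 2 * v ^ 2 * (2 - φ) + 2 * (5 - 3 * φ) * v ^ 4 := by
      intro u v
      have : (u + (φ - 1) * v) ^ 4 + (u - (φ - 1) * v) ^ 4
        = 2 * u ^ 4 + 12 * u ^ 2 * v ^ 2 * (φ - 1) ^ 2 + 2 * (φ - 1) ^ 4 * v ^ 4 := by ring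
      rw [this, e2, e4]
    have y1 := x1 b c
    have y2 := x1 c d
    have y3 := x1 d b
    rw [e5, hN]
    linear_combination y1 + y2 + y3
  have key : 6 / 5 * (3 - φ) ^ 2 * N ^ 2 ≤ m ^ 2 * (2 * (3 - φ) * N) := by
    rw [← s2, ← s4]
    linarith
  have hφ := φ_hi
  have h3φ : 0 < 3 - φ := by linarith
  have hN0 : 0 ≤ N := by positivity
  rcases hN0.eq_or_lt with h0 | h0
  · rw [← h0]
    have := sq_nonneg m
    linarith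
  · have hpos : 0 < (3 - φ) * N := mul_pos h3φ h0
    have h1 : (3 - φ) * N * (6 / 5 * ((3 - φ) * N)) ≤ (3 - φ) * N * (2 * m ^ 2) := by
      calc (3 - φ) * N * (6 / 5 * ((3 - φ) * N)) = 6 / 5 * (3 - φ) ^ 2 * N ^ 2 := by ring
        _ ≤ m ^ 2 * (2 * (3 - φ) * N) := key
        _ = (3 - φ) * N * (2 * m ^ 2) := by ring
    have h2 := le_of_mul_le_mul_left h1 hpos
    linarith

/-- the maximality of `i` in terms of the left translate of `y` -/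
theorem ico_step (y0 y1 y2 y3 : ℝ) (i : Fin 120)
    (hi : ∀ j : Fin 120, ico j 0 * y0 + ico j 1 * y1 + ico j 2 * y2 + ico j 3 * y3
      ≤ ico i 0 * y0 + ico i 1 * y1 + ico i 2 * y2 + ico i 3 * y3)
    (g : Fin 120) (h1 : 1 ≤ g.val) (h2 : g.val ≤ 12) :
    ico g 0 * (ico i 0 * y0 + ico i 1 * y1 + ico i 2 * y2 + ico i 3 * y3)
    + ico g 1 * (ico i 0 * y1 - ico i 1 * y0 - ico i 2 * y3 + ico i 3 * y2)
    + ico g 2 * (ico i 0 * y2 + ico i 1 * y3 - ico i 2 * y0 - ico i 3 * y1)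
    + ico g 3 * (ico i 0 * y3 - ico i 1 * y2 + ico i 2 * y1 - ico i 3 * y0)
      ≤ ico i 0 * y0 + ico i 1 * y1 + ico i 2 * y2 + ico i 3 * y3 := by
  obtain ⟨j, hj⟩ := ico_mul i g.val h1 h2
  obtain ⟨e0, e1, e2, e3⟩ := hj g rfl
  have h := hi j
  rw [e0, e1, e2, e3] at h
  refine le_trans (le_of_eq ?_) h
  ring

theorem ico_val (g : Fin 120) (b1 c1 b2 c2 b3 c3 : ℤ)
    (h : icoA g 0 = 0 ∧ icoB g 0 = 1 ∧ icoA g 1 = b1 ∧ icoB g 1 = c1 ∧ icoA g 2 = b2 ∧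
      icoB g 2 = c2 ∧ icoA g 3 = b3 ∧ icoB g 3 = c3) :
    ico g 0 = φ / 2 ∧ ico g 1 = (b1 + c1 * φ) / 2 ∧ ico g 2 = (b2 + c2 * φ) / 2 ∧
      ico g 3 = (b3 + c3 * φ) / 2 := by
  have h3 : ((3 : Fin 4) : ℕ) = 3 := rfl
  simp only [ico, Fin.val_zero, Fin.val_one, Fin.val_two, h3]
  obtain ⟨h0, h1, h2, h3, h4, h5, h6, h7⟩ := h
  rw [h0, h1, h2, h3, h4, h5, h6, h7]
  refine ⟨by push_cast; ring, rfl, rfl, rfl⟩

theorem ico_cover (y0 y1 y2 y3 : ℝ) : ∃ i : Fin 120,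
    0 ≤ ico i 0 * y0 + ico i 1 * y1 + ico i 2 * y2 + ico i 3 * y3 ∧
    y0 ^ 2 + y1 ^ 2 + y2 ^ 2 + y3 ^ 2 ≤
      1.1761 * (ico i 0 * y0 + ico i 1 * y1 + ico i 2 * y2 + ico i 3 * y3) ^ 2 := by
  obtain ⟨i, hi⟩ := Finite.exists_max
    (fun i : Fin 120 => ico i 0 * y0 + ico i 1 * y1 + ico i 2 * y2 + ico i 3 * y3)
  refine ⟨i, ?_⟩
  obtain ⟨z0, hz0⟩ : ∃ z, z = ico i 0 * y0 + ico i 1 * y1 + ico i 2 * y2 + ico i 3 * y3 := ⟨_, rfl⟩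
  obtain ⟨z1, hz1⟩ : ∃ z, z = ico i 0 * y1 - ico i 1 * y0 - ico i 2 * y3 + ico i 3 * y2 := ⟨_, rfl⟩
  obtain ⟨z2, hz2⟩ : ∃ z, z = ico i 0 * y2 + ico i 1 * y3 - ico i 2 * y0 - ico i 3 * y1 := ⟨_, rfl⟩
  obtain ⟨z3, hz3⟩ : ∃ z, z = ico i 0 * y3 - ico i 1 * y2 + ico i 2 * y1 - ico i 3 * y0 := ⟨_, rfl⟩
  have hn : y0 ^ 2 + y1 ^ 2 + y2 ^ 2 + y3 ^ 2 = z0 ^ 2 + z1 ^ 2 + z2 ^ 2 + z3 ^ 2 := by
    have h := ico_norm i
    rw [hz0, hz1, hz2, hz3]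
    linear_combination (-(y0 ^ 2 + y1 ^ 2 + y2 ^ 2 + y3 ^ 2)) * h
  obtain ⟨v0, v1, v2, v3⟩ := ico_val 1 1 0 (-1) 1 0 0 (by decide +kernel)
  have g1 := ico_step y0 y1 y2 y3 i hi 1 (by decide) (by decide)
  rw [v0, v1, v2, v3, ← hz0, ← hz1, ← hz2, ← hz3] at g1
  clear v0 v1 v2 v3
  push_cast at g1
  obtain ⟨v0, v1, v2, v3⟩ := ico_val 2 1 0 1 (-1) 0 0 (by decide +kernel)
  have g2 := ico_step y0 y1 y2 y3 i hi 2 (by decide) (by decide)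
  rw [v0, v1, v2, v3, ← hz0, ← hz1, ← hz2, ← hz3] at g2
  clear v0 v1 v2 v3
  push_cast at g2
  obtain ⟨v0, v1, v2, v3⟩ := ico_val 3 (-1) 0 (-1) 1 0 0 (by decide +kernel)
  have g3 := ico_step y0 y1 y2 y3 i hi 3 (by decide) (by decide)
  rw [v0, v1, v2, v3, ← hz0, ← hz1, ← hz2, ← hz3] at g3
  clear v0 v1 v2 v3
  push_cast at g3
  obtain ⟨v0, v1, v2, v3⟩ := ico_val 4 (-1) 0 1 (-1) 0 0 (by decide +kernel)
  have g4 := ico_step y0 y1 y2 y3 i hi 4 (by decide) (by decide)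
  rw [v0, v1, v2, v3, ← hz0, ← hz1, ← hz2, ← hz3] at g4
  clear v0 v1 v2 v3
  push_cast at g4
  obtain ⟨v0, v1, v2, v3⟩ := ico_val 5 0 0 1 0 (-1) 1 (by decide +kernel)
  have g5 := ico_step y0 y1 y2 y3 i hi 5 (by decide) (by decide)
  rw [v0, v1, v2, v3, ← hz0, ← hz1, ← hz2, ← hz3] at g5
  clear v0 v1 v2 v3
  push_cast at g5
  obtain ⟨v0, v1, v2, v3⟩ := ico_val 6 0 0 1 0 1 (-1) (by decide +kernel)
  have g6 := ico_step y0 y1 y2 y3 i hi 6 (by decide) (by decide)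
  rw [v0, v1, v2, v3, ← hz0, ← hz1, ← hz2, ← hz3] at g6
  clear v0 v1 v2 v3
  push_cast at g6
  obtain ⟨v0, v1, v2, v3⟩ := ico_val 7 0 0 (-1) 0 (-1) 1 (by decide +kernel)
  have g7 := ico_step y0 y1 y2 y3 i hi 7 (by decide) (by decide)
  rw [v0, v1, v2, v3, ← hz0, ← hz1, ← hz2, ← hz3] at g7
  clear v0 v1 v2 v3
  push_cast at g7
  obtain ⟨v0, v1, v2, v3⟩ := ico_val 8 0 0 (-1) 0 1 (-1) (by decide +kernel)
  have g8 := ico_step y0 y1 y2 y3 i hi 8 (by decide) (by decide)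
  rw [v0, v1, v2, v3, ← hz0, ← hz1, ← hz2, ← hz3] at g8
  clear v0 v1 v2 v3
  push_cast at g8
  obtain ⟨v0, v1, v2, v3⟩ := ico_val 9 (-1) 1 0 0 1 0 (by decide +kernel)
  have g9 := ico_step y0 y1 y2 y3 i hi 9 (by decide) (by decide)
  rw [v0, v1, v2, v3, ← hz0, ← hz1, ← hz2, ← hz3] at g9
  clear v0 v1 v2 v3
  push_cast at g9
  obtain ⟨v0, v1, v2, v3⟩ := ico_val 10 1 (-1) 0 0 1 0 (by decide +kernel)
  have g10 := ico_step y0 y1 y2 y3 i hi 10 (by decide) (by decide)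
  rw [v0, v1, v2, v3, ← hz0, ← hz1, ← hz2, ← hz3] at g10
  clear v0 v1 v2 v3
  push_cast at g10
  obtain ⟨v0, v1, v2, v3⟩ := ico_val 11 (-1) 1 0 0 (-1) 0 (by decide +kernel)
  have g11 := ico_step y0 y1 y2 y3 i hi 11 (by decide) (by decide)
  rw [v0, v1, v2, v3, ← hz0, ← hz1, ← hz2, ← hz3] at g11
  clear v0 v1 v2 v3
  push_cast at g11
  obtain ⟨v0, v1, v2, v3⟩ := ico_val 12 1 (-1) 0 0 (-1) 0 (by decide +kernel)
  have g12 := ico_step y0 y1 y2 y3 i hi 12 (by decide) (by decide)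
  rw [v0, v1, v2, v3, ← hz0, ← hz1, ← hz2, ← hz3] at g12
  clear v0 v1 v2 v3
  push_cast at g12
  rw [hn, ← hz0]
  have hlo := φ_lo
  have hhi := φ_hi
  have a1 : |z1 + (φ - 1) * z2| ≤ (2 - φ) * z0 := abs_le.2 ⟨by linarith, by linarith⟩
  have a2 : |z1 - (φ - 1) * z2| ≤ (2 - φ) * z0 := abs_le.2 ⟨by linarith, by linarith⟩
  have a3 : |z2 + (φ - 1) * z3| ≤ (2 - φ) * z0 := abs_le.2 ⟨by linarith, by linarith⟩
  have a4 : |z2 - (φ - 1) * z3| ≤ (2 - φ) * z0 := abs_le.2 ⟨by linarith, by linarith⟩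
  have a5 : |z3 + (φ - 1) * z1| ≤ (2 - φ) * z0 := abs_le.2 ⟨by linarith, by linarith⟩
  have a6 : |z3 - (φ - 1) * z1| ≤ (2 - φ) * z0 := abs_le.2 ⟨by linarith, by linarith⟩
  have hax := ico_axes z1 z2 z3 ((2 - φ) * z0) a1 a2 a3 a4 a5 a6
  have hm : 0 ≤ (2 - φ) * z0 := le_trans (abs_nonneg _) a1
  refine ⟨?_, ?_⟩
  · by_contra hc
    push Not at hc
    nlinarith
  · have e1 : 5 * ((2 - φ) * z0) ^ 2 ≤ 5 * (0.382 : ℝ) ^ 2 * z0 ^ 2 := by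
      have : (2 - φ) ^ 2 ≤ (0.382 : ℝ) ^ 2 := by
        apply pow_le_pow_left₀ <;> linarith
      rw [mul_pow]
      nlinarith [sq_nonneg z0, mul_le_mul_of_nonneg_right this (sq_nonneg z0)]
    have e2 : 3 * (1.3819 : ℝ) * (z1 ^ 2 + z2 ^ 2 + z3 ^ 2)
        ≤ 3 * (3 - φ) * (z1 ^ 2 + z2 ^ 2 + z3 ^ 2) := by
      apply mul_le_mul_of_nonneg_right _ (by positivity)
      linarith
    nlinarith [sq_nonneg z0]

theorem e120_cpt :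
    IsCompact {x : V5 | B x x = -1 ∧ 0 < x 0 ∧ ∀ i, B x (e120 i) ≤ 0} := by
  have hset : {x : V5 | B x x = -1 ∧ 0 < x 0 ∧ ∀ i, B x (e120 i) ≤ 0}
      = {x : V5 | B x x = -1} ∩ ({x : V5 | 0 ≤ x 0} ∩ ⋂ i, {x : V5 | B x (e120 i) ≤ 0}) := by
    ext x
    simp only [Set.mem_ofPred_eq, Set.mem_inter_iff, Set.mem_iInter]
    constructor
    · rintro ⟨h1, h2, h3⟩
      exact ⟨h1, h2.le, h3⟩
    · rintro ⟨h1, h2, h3⟩
      refine ⟨h1, lt_of_le_of_ne h2 ?_, h3⟩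
      intro h0
      unfold B at h1
      rw [← h0] at h1
      nlinarith [sq_nonneg (x 1), sq_nonneg (x 2), sq_nonneg (x 3), sq_nonneg (x 4)]
  have hclosed : IsClosed {x : V5 | B x x = -1 ∧ 0 < x 0 ∧ ∀ i, B x (e120 i) ≤ 0} := by
    rw [hset]
    refine IsClosed.inter (isClosed_eq (by unfold B; fun_prop) continuous_const)
      (IsClosed.inter (isClosed_le continuous_const (by fun_prop)) (isClosed_iInter fun i => ?_))
    exact isClosed_le (by unfold B; fun_prop) continuous_const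
  refine IsCompact.of_isClosed_subset
    (isCompact_Icc (a := (fun _ => -5 : V5)) (b := (fun _ => 5 : V5))) hclosed ?_
  rintro x ⟨h1, h2, h3⟩
  obtain ⟨i, hi0, hi⟩ := ico_cover (x 1) (x 2) (x 3) (x 4)
  set a := ico i 0 * x 1 + ico i 1 * x 2 + ico i 2 * x 3 + ico i 3 * x 4 with ha
  have hB := h3 i
  have hlo := φ_lo
  have hhi := φ_hi
  have hc : √2 * φ * a ≤ √(φ ^ 3) * x 0 := by
    simp only [B, e120_zero, e120_one, e120_two, e120_three, e120_four] at hB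
    rw [ha]
    linarith
  have hsq : (√2 * φ * a) ^ 2 ≤ (√(φ ^ 3) * x 0) ^ 2 :=
    pow_le_pow_left₀ (by positivity) hc 2
  have hs2 : √(2 : ℝ) ^ 2 = 2 := Real.sq_sqrt (by norm_num)
  have hs3 : √(φ ^ 3) ^ 2 = φ ^ 3 := Real.sq_sqrt (by positivity)
  rw [mul_pow, mul_pow, mul_pow, hs2, hs3] at hsq
  have hq : 2 * a ^ 2 ≤ φ * x 0 ^ 2 := by
    have hp : 0 < φ ^ 2 := by positivity
    refine le_of_mul_le_mul_left ?_ hp
    nlinarith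
  have hq2 : φ * x 0 ^ 2 ≤ 1.6181 * x 0 ^ 2 := mul_le_mul_of_nonneg_right hhi.le (sq_nonneg _)
  have hB1 : x 0 ^ 2 = 1 + (x 1 ^ 2 + x 2 ^ 2 + x 3 ^ 2 + x 4 ^ 2) := by
    unfold B at h1
    linarith
  have hx0 : x 0 ^ 2 ≤ 25 := by nlinarith
  have hb : ∀ k : Fin 5, x k ^ 2 ≤ 5 ^ 2 := by
    intro k
    fin_cases k
    · change x 0 ^ 2 ≤ 5 ^ 2
      linarith
    · change x 1 ^ 2 ≤ 5 ^ 2
      nlinarith [sq_nonneg (x 1), sq_nonneg (x 2), sq_nonneg (x 3), sq_nonneg (x 4)]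
    · change x 2 ^ 2 ≤ 5 ^ 2
      nlinarith [sq_nonneg (x 1), sq_nonneg (x 2), sq_nonneg (x 3), sq_nonneg (x 4)]
    · change x 3 ^ 2 ≤ 5 ^ 2
      nlinarith [sq_nonneg (x 1), sq_nonneg (x 2), sq_nonneg (x 3), sq_nonneg (x 4)]
    · change x 4 ^ 2 ≤ 5 ^ 2
      nlinarith [sq_nonneg (x 1), sq_nonneg (x 2), sq_nonneg (x 3), sq_nonneg (x 4)]
  rw [Set.mem_Icc, Pi.le_def, Pi.le_def]
  exact ⟨fun k => (abs_le_of_sq_le_sq' (hb k) (by norm_num)).1,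
    fun k => (abs_le_of_sq_le_sq' (hb k) (by norm_num)).2⟩

end Pool.Agent.H62.M4
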