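import Mathlib

/-!
MP_6c826d_gt (S13329), m_4 = 120.  Shared definitions for all modules.
-/

set_option autoImplicit false

namespace Pool.Agent.H62.M4

open Finset

/-- vectors of Lorentzian space `ℝ^{1,4}` -/
abbrev V5 := Fin 5 → ℝ

/-- the Lorentzian form (coordinate `0` is the time coordinate) -/
def B (x y : V5) : ℝ := -(x 0 * y 0) + x 1 * y 1 + x 2 * y 2 + x 3 * y 3 + x 4 * y 4

/-- the golden ratio -/
noncomputable abbrev φ : ℝ := Real.goldenRatio

variable {n : ℕ}

/-- the hypotheses of the frozen statement on the unit normals `e` -/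
structure RA (e : Fin n → V5) : Prop where
  norm : ∀ i, B (e i) (e i) = 1
  cpt : IsCompact {x : V5 | B x x = -1 ∧ 0 < x 0 ∧ ∀ i, B x (e i) ≤ 0}
  gen : ∀ i, ∃ x : V5, B x x = -1 ∧ 0 < x 0 ∧ B x (e i) = 0 ∧ ∀ j, j ≠ i → B x (e j) < 0
  right : ∀ i j, i ≠ j →
    (∃ x : V5, B x x = -1 ∧ 0 < x 0 ∧ (∀ k, B x (e k) ≤ 0) ∧ B x (e i) = 0 ∧ B x (e j) = 0) →
    B (e i) (e j) = 0

/-- two facets are adjacent iff their normals are orthogonal -/
def Adj (e : Fin n → V5) (i j : Fin n) : Prop := i ≠ j ∧ B (e i) (e j) = 0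

/-- `(i,j,k,l)` are four pairwise adjacent facets (a corner = vertex of the polytope) -/
def Q4 (e : Fin n → V5) (i j k l : Fin n) : Prop :=
  Adj e i j ∧ Adj e i k ∧ Adj e i l ∧ Adj e j k ∧ Adj e j l ∧ Adj e k l

/-- `v` is the vertex of the polytope at the corner `(i,j,k,l)` -/
def IsVert (e : Fin n → V5) (i j k l : Fin n) (v : V5) : Prop :=
  B v v = -1 ∧ 0 < v 0 ∧ B v (e i) = 0 ∧ B v (e j) = 0 ∧ B v (e k) = 0 ∧ B v (e l) = 0 ∧
    ∀ m, m ≠ i → m ≠ j → m ≠ k → m ≠ l → B v (e m) < 0

open Classical in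
/-- number of facets adjacent to `i` -/
noncomputable def deg (e : Fin n → V5) (i : Fin n) : ℕ := (univ.filter (fun j => Adj e i j)).card

open Classical in
/-- number of facets adjacent to both `i` and `j` (number of sides of the 2-face `F_i ∩ F_j`) -/
noncomputable def mm (e : Fin n → V5) (i j : Fin n) : ℕ :=
  (univ.filter (fun k => Adj e i k ∧ Adj e j k)).card

/-- The combinatorial/metric facts on a compact right-angled polytope which everything else uses. -/
structure Facts (e : Fin n → V5) : Prop where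
  norm : ∀ i, B (e i) (e i) = 1
  dich : ∀ i j, i ≠ j → B (e i) (e j) = 0 ∨ B (e i) (e j) < -1
  vert : ∀ i j k l, Q4 e i j k l → ∃ v, IsVert e i j k l v
  two : ∀ i j k l, Q4 e i j k l → ∃ l', l' ≠ l ∧ Q4 e i j k l' ∧ ∀ m, Q4 e i j k m → m = l ∨ m = l'
  ext0 : ∃ i j k l, Q4 e i j k l
  ext1 : ∀ i, ∃ j k l, Q4 e i j k l
  ext2 : ∀ i j, Adj e i j → ∃ k l, Q4 e i j k l
  ext3 : ∀ i j k, Adj e i j → Adj e i k → Adj e j k → ∃ l, Q4 e i j k l

/-- distance-coordinate of the point `x` from the facet `i` (`sinh` of the distance) -/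
def uu (e : Fin n → V5) (x : V5) (i : Fin n) : ℝ := -B x (e i)

/-- the angle function: dihedral angle at the edge `{a,b}` (opposite pair `{c,d}`) of the spherical
simplex with parameters `a,b,c,d` -/
noncomputable def angf (a b c d : ℝ) : ℝ :=
  Real.arccos (c * d / Real.sqrt ((1 + a ^ 2 + b ^ 2 + c ^ 2) * (1 + a ^ 2 + b ^ 2 + d ^ 2)))

/-! basic algebra of the form -/

theorem B_comm (x y : V5) : B x y = B y x := by unfold B; ring
@[simp] theorem B_add_left (x y z : V5) : B (x + y) z = B x z + B y z := by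
  simp only [B, Pi.add_apply]; ring
@[simp] theorem B_add_right (x y z : V5) : B x (y + z) = B x y + B x z := by
  simp only [B, Pi.add_apply]; ring
@[simp] theorem B_sub_left (x y z : V5) : B (x - y) z = B x z - B y z := by
  simp only [B, Pi.sub_apply]; ring
@[simp] theorem B_sub_right (x y z : V5) : B x (y - z) = B x y - B x z := by
  simp only [B, Pi.sub_apply]; ring
@[simp] theorem B_smul_left (a : ℝ) (x y : V5) : B (a • x) y = a * B x y := by
  simp only [B, Pi.smul_apply, smul_eq_mul]; ring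
@[simp] theorem B_smul_right (a : ℝ) (x y : V5) : B x (a • y) = a * B x y := by
  simp only [B, Pi.smul_apply, smul_eq_mul]; ring
@[simp] theorem B_neg_left (x y : V5) : B (-x) y = -B x y := by
  simp only [B, Pi.neg_apply]; ring
@[simp] theorem B_neg_right (x y : V5) : B x (-y) = -B x y := by
  simp only [B, Pi.neg_apply]; ring
@[simp] theorem B_zero_left (x : V5) : B 0 x = 0 := by simp [B]
@[simp] theorem B_zero_right (x : V5) : B x 0 = 0 := by simp [B]

theorem Adj.symm {e : Fin n → V5} {i j : Fin n} (h : Adj e i j) : Adj e j i :=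
  ⟨h.1.symm, by rw [B_comm]; exact h.2⟩

theorem Adj.comm {e : Fin n → V5} {i j : Fin n} : Adj e i j ↔ Adj e j i :=
  ⟨Adj.symm, Adj.symm⟩

theorem mm_comm (e : Fin n → V5) (i j : Fin n) : mm e i j = mm e j i := by
  unfold mm; congr 1; ext k; simp [and_comm]

theorem φ_sq : φ ^ 2 = φ + 1 := Real.goldenRatio_sq

theorem φ_pos : 0 < φ := Real.goldenRatio_pos

theorem one_lt_φ : 1 < φ := Real.one_lt_goldenRatio

theorem φ_lt_two : φ < 2 := Real.goldenRatio_lt_two

end Pool.Agent.H62.M4
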