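import Pool.Agent.H62.M4.MinL
import Pool.Agent.H62.M4.Lor

/-!
MP_6c826d_gt (S13329), m_4 = 120.  Module A1b: dichotomy and flag property.
-/

set_option autoImplicit false

namespace Pool.Agent.H62.M4

open Finset

variable {n : ℕ}

theorem di_gen {e : Fin n → V5} (h : RA e) (i : Fin n) : ∃ x, InP e x ∧ B x (e i) = 0 ∧
    ∀ j, j ≠ i → B x (e j) < 0 := by
  obtain ⟨x, h1, h2, h3, h4⟩ := h.gen i
  refine ⟨x, ⟨h1, h2, fun k => ?_⟩, h3, h4⟩
  by_cases hk : k = i
  · rw [hk, h3]
  · exact (h4 k hk).le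

theorem di_B_sum (e : Fin n → V5) (τ : Finset (Fin n)) (f : Fin n → ℝ) (z : V5) :
    B (∑ k ∈ τ, f k • e k) z = ∑ k ∈ τ, f k * B (e k) z := by
  classical
  induction τ using Finset.induction_on with
  | empty => simp
  | insert a s ha ih =>
    rw [Finset.sum_insert ha, Finset.sum_insert ha, B_add_left, B_smul_left, ih]

/-- disjoint facets have normals with negative product -/
theorem di_neg {e : Fin n → V5} (h : RA e) (i j : Fin n) (hij : i ≠ j)
    (hno : ¬ ∃ x, InP e x ∧ B x (e i) = 0 ∧ B x (e j) = 0) : B (e i) (e j) < 0 := by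
  classical
  obtain ⟨x, hx1, hx2, -⟩ := di_gen h i
  obtain ⟨y, τ, hy, hst, hτ, hyj, hort, hexp, hpos⟩ := min_lemma h {i} j
    ⟨x, hx1, fun k hk => by rw [Finset.mem_singleton] at hk; rw [hk]; exact hx2⟩
    (by
      rintro ⟨x, h1, h2, h3⟩
      exact hno ⟨x, h1, h2 i (Finset.mem_singleton_self i), h3⟩)
  obtain ⟨z, hz1, hz2, hz3⟩ := di_gen h j
  have hyz := unit_timelike_le hy.1 hy.2.1 hz1.1 hz1.2.1
  have hiτ : i ∈ τ := hst (Finset.mem_singleton_self i)
  have h0 : B (e j) z = 0 := by rw [B_comm]; exact hz2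
  have h1 : B (e j) z = (∑ k ∈ τ, B (e j) (e k) * B (e k) z) - B (e j) y * B y z := by
    conv_lhs => rw [hexp]
    rw [B_sub_left, B_smul_left, di_B_sum]
  rw [h0, ← Finset.add_sum_erase τ _ hiτ] at h1
  have h2 : ∑ k ∈ τ.erase i, B (e j) (e k) * B (e k) z ≤ 0 := by
    apply Finset.sum_nonpos
    intro k hk
    rw [Finset.mem_erase] at hk
    have h3 := hpos k hk.2 (by rw [Finset.mem_singleton]; exact hk.1)
    have h4 : B (e k) z ≤ 0 := by rw [B_comm]; exact hz1.2.2 k
    exact mul_nonpos_of_nonneg_of_nonpos h3 h4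
  have hyj' : B (e j) y < 0 := by rw [B_comm]; exact hyj
  have h5 : 0 < B (e j) y * B y z := mul_pos_of_neg_of_neg hyj' (by linarith)
  have h6 : 0 < B (e j) (e i) * B (e i) z := by linarith
  have h7 : B (e i) z < 0 := by rw [B_comm]; exact hz3 i hij
  have h8 : B (e j) (e i) < 0 := by
    by_contra hcon
    push Not at hcon
    have := mul_nonpos_of_nonneg_of_nonpos hcon h7.le
    linarith
  rw [B_comm]; exact h8

theorem di_nonpos {e : Fin n → V5} (h : RA e) (i j : Fin n) (hij : i ≠ j) : B (e i) (e j) ≤ 0 := by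
  by_cases hno : ∃ x, InP e x ∧ B x (e i) = 0 ∧ B x (e j) = 0
  · obtain ⟨x, h1, h2, h3⟩ := hno
    exact (h.right i j hij ⟨x, h1.1, h1.2.1, h1.2.2, h2, h3⟩).le
  · exact (di_neg h i j hij hno).le

theorem dich_strong {e : Fin n → V5} (h : RA e) (i j : Fin n) (hij : i ≠ j) :
    (∃ x, InP e x ∧ B x (e i) = 0 ∧ B x (e j) = 0) ∨ B (e i) (e j) < -1 := by
  classical
  by_cases hno : ∃ x, InP e x ∧ B x (e i) = 0 ∧ B x (e j) = 0
  · exact Or.inl hno
  right
  have hneg := di_neg h i j hij hno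
  obtain ⟨x, hx1, hx2, -⟩ := di_gen h i
  obtain ⟨y, τ, hy, hst, hτ, hyj, hort, hexp, hpos⟩ := min_lemma h {i} j
    ⟨x, hx1, fun k hk => by rw [Finset.mem_singleton] at hk; rw [hk]; exact hx2⟩
    (by
      rintro ⟨x, h1, h2, h3⟩
      exact hno ⟨x, h1, h2 i (Finset.mem_singleton_self i), h3⟩)
  have hiτ : i ∈ τ := hst (Finset.mem_singleton_self i)
  have h1 : ∑ k ∈ τ, B (e j) (e k) • e k = B (e j) (e i) • e i := by
    apply Finset.sum_eq_single_of_mem i hiτ
    intro k hk hki
    have hkj : k ≠ j := by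
      intro hkj
      have := (hτ k).1 hk
      rw [hkj] at this
      linarith
    have h3 := hpos k hk (by rw [Finset.mem_singleton]; exact hki)
    have h4 := di_nonpos h j k hkj.symm
    rw [le_antisymm h4 h3, zero_smul]
  rw [h1] at hexp
  have hyi : B y (e i) = 0 := (hτ i).1 hiτ
  have h2 : B (e j) (e j) = B (e j) (e i) ^ 2 - B (e j) y ^ 2 := by
    have h3 : B (e j) (e j) = B (B (e j) (e i) • e i - B (e j) y • y) (e j) :=
      congrArg (fun v => B v (e j)) hexp
    rw [h3, B_sub_left, B_smul_left, B_smul_left, B_comm (e i) (e j), B_comm y (e j)]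
    ring
  rw [h.norm j] at h2
  have hyj' : B (e j) y < 0 := by rw [B_comm]; exact hyj
  rw [B_comm (e j) (e i)] at h2
  nlinarith [mul_pos_of_neg_of_neg hyj' hyj']

theorem flag {e : Fin n → V5} (h : RA e) (hn : 0 < n) (σ : Finset (Fin n))
    (hσ : ∀ i ∈ σ, ∀ j ∈ σ, i ≠ j → B (e i) (e j) = 0) :
    ∃ x, InP e x ∧ ∀ i ∈ σ, B x (e i) = 0 := by
  classical
  induction σ using Finset.induction_on with
  | empty =>
    obtain ⟨x, hx, -, -⟩ := di_gen h ⟨0, hn⟩
    exact ⟨x, hx, fun i hi => absurd hi (Finset.notMem_empty i)⟩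
  | insert k σ hk ih =>
    have ih' := ih (fun i hi j hj hij => hσ i (Finset.mem_insert_of_mem hi) j
      (Finset.mem_insert_of_mem hj) hij)
    by_contra hcon
    obtain ⟨y, τ, hy, hst, hτ, hyj, hort, hexp, hpos⟩ := min_lemma h σ k ih' (by
      rintro ⟨x, h1, h2, h3⟩
      refine hcon ⟨x, h1, fun i hi => ?_⟩
      rcases Finset.mem_insert.1 hi with h4 | h4
      · rw [h4]; exact h3
      · exact h2 i h4)
    have h1 : ∑ l ∈ τ, B (e k) (e l) • e l = 0 := by
      apply Finset.sum_eq_zero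
      intro l hl
      have hlk : l ≠ k := by
        intro hlk
        have := (hτ l).1 hl
        rw [hlk] at this
        linarith
      have h2 : B (e k) (e l) = 0 := by
        by_cases hlσ : l ∈ σ
        · exact hσ k (Finset.mem_insert_self k σ) l (Finset.mem_insert_of_mem hlσ) hlk.symm
        · exact le_antisymm (di_nonpos h k l hlk.symm) (hpos l hl hlσ)
      rw [h2, zero_smul]
    rw [h1, zero_sub] at hexp
    have h3 : B (e k) (e k) = -(B (e k) y ^ 2) := by
      have h4 : B (e k) (e k) = B (-(B (e k) y • y)) (e k) :=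
        congrArg (fun v => B v (e k)) hexp
      rw [h4, B_neg_left, B_smul_left, B_comm y (e k)]
      ring
    rw [h.norm k] at h3
    nlinarith [sq_nonneg (B (e k) y)]

end Pool.Agent.H62.M4
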