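import Pool.Agent.H62.M4.Spec
import Pool.Agent.H62.M4.Lor

/-!
MP_6c826d_gt (S13329), m_4 = 120.  Module E1: Euler's relation for the facets.
-/

set_option autoImplicit false

namespace Pool.Agent.H62.M4

open Finset

variable {n : ℕ}

/-- the coefficient of `a` in `B x v • w - B w v • x` -/
def euD (x w v a : V5) : ℝ := B x v * B w a - B w v * B x a

theorem eu_pair {e : Fin n → V5} (F : Facts e) {i j k l : Fin n} (hQ : Q4 e i j k l) {v : V5}
    (hv : IsVert e i j k l v) (x w u : V5) :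
    B x v * B w u - B w v * B x u = euD x w v (e i) * B u (e i) + euD x w v (e j) * B u (e j)
      + euD x w v (e k) * B u (e k) + euD x w v (e l) * B u (e l) := by
  obtain ⟨hij, hik, hil, hjk, hjl, hkl⟩ := hQ
  obtain ⟨hvv, hv0, hvi, hvj, hvk, hvl, -⟩ := hv
  have h1 := frame_form (F.norm i) (F.norm j) (F.norm k) (F.norm l) hvv hij.2 hik.2 hil.2 hjk.2
    hjl.2 hkl.2 hvi hvj hvk hvl w u
  have h2 := frame_form (F.norm i) (F.norm j) (F.norm k) (F.norm l) hvv hij.2 hik.2 hil.2 hjk.2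
    hjl.2 hkl.2 hvi hvj hvk hvl x u
  rw [h1, h2]
  unfold euD
  ring

theorem eu_uniq {e : Fin n → V5} (F : Facts e) {i j k l : Fin n} (hQ : Q4 e i j k l) {v v' : V5}
    (hv : IsVert e i j k l v) (hv' : IsVert e i j k l v') : v' = v := by
  obtain ⟨hij, hik, hil, hjk, hjl, hkl⟩ := hQ
  obtain ⟨hvv, hv0, hvi, hvj, hvk, hvl, -⟩ := hv
  obtain ⟨hvv', hv0', hvi', hvj', hvk', hvl', -⟩ := hv'
  have h1 := frame_expand (F.norm i) (F.norm j) (F.norm k) (F.norm l) hvv hij.2 hik.2 hil.2 hjk.2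
    hjl.2 hkl.2 hvi hvj hvk hvl v'
  rw [hvi', hvj', hvk', hvl'] at h1
  simp only [zero_smul, zero_add, add_zero, zero_sub] at h1
  have h2 : B v' v' = B v' (-(B v' v • v)) := by rw [← h1]
  rw [B_neg_right, B_smul_right, hvv'] at h2
  have h3 := unit_timelike_le hvv' hv0' hvv hv0
  have h4 : B v' v = -1 := by nlinarith
  rw [h1, h4]
  simp

theorem eu_perm1 {e : Fin n → V5} {i j k l : Fin n} {v : V5} (hv : IsVert e i j k l v) :
    IsVert e i k j l v := by
  obtain ⟨h1, h2, h3, h4, h5, h6, h7⟩ := hv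
  exact ⟨h1, h2, h3, h5, h4, h6, fun m a b c d => h7 m a c b d⟩

theorem eu_perm2 {e : Fin n → V5} {i j k l : Fin n} {v : V5} (hv : IsVert e i j k l v) :
    IsVert e i j l k v := by
  obtain ⟨h1, h2, h3, h4, h5, h6, h7⟩ := hv
  exact ⟨h1, h2, h3, h4, h6, h5, fun m a b c d => h7 m a b d c⟩

theorem eu_q1 {e : Fin n → V5} {i j k l : Fin n} (h : Q4 e i j k l) : Q4 e i k j l := by
  obtain ⟨hij, hik, hil, hjk, hjl, hkl⟩ := h
  exact ⟨hik, hij, hil, hjk.symm, hkl, hjl⟩

theorem eu_q2 {e : Fin n → V5} {i j k l : Fin n} (h : Q4 e i j k l) : Q4 e i j l k := by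
  obtain ⟨hij, hik, hil, hjk, hjl, hkl⟩ := h
  exact ⟨hij, hil, hik, hjl, hjk, hkl.symm⟩

/-- all products with a vertex are nonpositive -/
theorem eu_le {e : Fin n → V5} {i j k l : Fin n} {v : V5} (hv : IsVert e i j k l v) (m : Fin n) :
    B v (e m) ≤ 0 := by
  obtain ⟨h1, h2, h3, h4, h5, h6, h7⟩ := hv
  by_cases a : m = i
  · rw [a, h3]
  by_cases b : m = j
  · rw [b, h4]
  by_cases c : m = k
  · rw [c, h5]
  by_cases d : m = l
  · rw [d, h6]
  exact (h7 m a b c d).le

/-- comparison with a flip -/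
theorem eu_flip {e : Fin n → V5} (F : Facts e) {i j k l l' : Fin n} (hQ : Q4 e i j k l)
    (hQ' : Q4 e i j k l') (hne : l' ≠ l) {v v' : V5} (hv : IsVert e i j k l v)
    (hv' : IsVert e i j k l' v') {x w : V5} (hx : B x v < 0) (hx' : B x v' < 0)
    (hle : -B w v' / B x v' ≤ -B w v / B x v) : euD x w v (e l) ≤ 0 := by
  have h1 := eu_pair F hQ hv x w v'
  obtain ⟨-, -, hi, hj, hk, hl, hall⟩ := hv'
  rw [hi, hj, hk] at h1
  have hneg : B v' (e l) < 0 := hall l hQ.2.2.1.1.symm hQ.2.2.2.2.1.1.symm hQ.2.2.2.2.2.1.symm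
    hne.symm
  have h2 : 0 ≤ B x v * B w v' - B w v * B x v' := by
    have h3 := mul_le_mul_of_nonneg_right hle (mul_pos_of_neg_of_neg hx hx').le
    have ha : B x v ≠ 0 := hx.ne
    have hb : B x v' ≠ 0 := hx'.ne
    have e1 : -B w v' / B x v' * (B x v * B x v') = -B w v' * B x v := by
      field_simp
    have e2 : -B w v / B x v * (B x v * B x v') = -B w v * B x v' := by
      field_simp
    rw [e1, e2] at h3
    nlinarith
  rw [h1] at h2
  by_contra hcon
  push Not at hcon
  nlinarith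

section
variable {e : Fin n → V5} (z : Fin n)

open Classical in
/-- the vertex at a corner of the facet `z` -/
noncomputable def euV (e : Fin n → V5) (z j k l : Fin n) : V5 :=
  if h : ∃ v, IsVert e z j k l v then h.choose else 0

theorem euV_spec (F : Facts e) {z j k l : Fin n} (hQ : Q4 e z j k l) :
    IsVert e z j k l (euV e z j k l) := by
  have h := F.vert z j k l hQ
  unfold euV
  rw [dif_pos h]
  exact h.choose_spec

theorem euV_1 (F : Facts e) {z j k l : Fin n} (hQ : Q4 e z j k l) :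
    euV e z k j l = euV e z j k l :=
  eu_uniq F hQ (euV_spec F hQ) (eu_perm1 (euV_spec F (eu_q1 hQ)))

theorem euV_2 (F : Facts e) {z j k l : Fin n} (hQ : Q4 e z j k l) :
    euV e z j l k = euV e z j k l :=
  eu_uniq F hQ (euV_spec F hQ) (eu_perm2 (euV_spec F (eu_q2 hQ)))

/-- the sign function of the facet `j` at the corner `(z,j,k,l)` -/
noncomputable def euS (e : Fin n → V5) (x w : V5) (z j k l : Fin n) : ℝ :=
  euD x w (euV e z j k l) (e j)

theorem euS_swap (F : Facts e) (x w : V5) {z j k l : Fin n} (hQ : Q4 e z j k l) :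
    euS e x w z j l k = euS e x w z j k l := by
  unfold euS
  rw [euV_2 F hQ]

theorem euS_2 (F : Facts e) (x w : V5) {z j k l : Fin n} (hQ : Q4 e z j k l) :
    euD x w (euV e z j k l) (e k) = euS e x w z k j l := by
  unfold euS
  rw [euV_1 F hQ]

theorem euS_3 (F : Facts e) (x w : V5) {z j k l : Fin n} (hQ : Q4 e z j k l) :
    euD x w (euV e z j k l) (e l) = euS e x w z l j k := by
  unfold euS
  have h1 := euV_1 F (eu_q2 hQ)
  rw [h1, euV_2 F hQ]

/-- position of a corner all of whose free signs are negative, relative to another corner -/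
theorem eu_pos (F : Facts e) {z j k l j' k' l' : Fin n} {x w : V5} (hQ : Q4 e z j k l)
    (hQ' : Q4 e z j' k' l')
    (h1 : euS e x w z j k l < 0 ∨ j = j') (h2 : euS e x w z k j l < 0) (h3 : euS e x w z l j k < 0)
    (h1' : euS e x w z j' k' l' < 0 ∨ j = j') (h2' : euS e x w z k' j' l' < 0)
    (h3' : euS e x w z l' j' k' < 0) :
    (j = j' ∨ j = k' ∨ j = l') ∧ (k = j' ∨ k = k' ∨ k = l') ∧ (l = j' ∨ l = k' ∨ l = l') := by
  have hv := euV_spec F hQ
  have hv' := euV_spec F hQ'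
  have e1 := eu_pair F hQ hv x w (euV e z j' k' l')
  have e2 := eu_pair F hQ' hv' x w (euV e z j k l)
  rw [euS_2 F x w hQ, euS_3 F x w hQ] at e1
  rw [euS_2 F x w hQ', euS_3 F x w hQ'] at e2
  rw [hv'.2.2.1] at e1
  rw [hv.2.2.1] at e2
  have a2 := eu_le hv' k
  have a3 := eu_le hv' l
  have a1 := eu_le hv' j
  have b1 := eu_le hv j'
  have b2 := eu_le hv k'
  have b3 := eu_le hv l'
  change B x (euV e z j k l) * B w (euV e z j' k' l') - B w (euV e z j k l) *
    B x (euV e z j' k' l') = _ + euS e x w z j k l * _ + _ + _ at e1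
  change B x (euV e z j' k' l') * B w (euV e z j k l) - B w (euV e z j' k' l') *
    B x (euV e z j k l) = _ + euS e x w z j' k' l' * _ + _ + _ at e2
  have c1 : 0 ≤ euS e x w z j k l * B (euV e z j' k' l') (e j) := by
    rcases h1 with h | h
    · exact mul_nonneg_of_nonpos_of_nonpos h.le a1
    · rw [h, hv'.2.2.2.1]; simp
  have c2 : 0 ≤ euS e x w z k j l * B (euV e z j' k' l') (e k) :=
    mul_nonneg_of_nonpos_of_nonpos h2.le a2
  have c3 : 0 ≤ euS e x w z l j k * B (euV e z j' k' l') (e l) :=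
    mul_nonneg_of_nonpos_of_nonpos h3.le a3
  have d1 : 0 ≤ euS e x w z j' k' l' * B (euV e z j k l) (e j') := by
    rcases h1' with h | h
    · exact mul_nonneg_of_nonpos_of_nonpos h.le b1
    · rw [← h, hv.2.2.2.1]; simp
  have d2 : 0 ≤ euS e x w z k' j' l' * B (euV e z j k l) (e k') :=
    mul_nonneg_of_nonpos_of_nonpos h2'.le b2
  have d3 : 0 ≤ euS e x w z l' j' k' * B (euV e z j k l) (e l') :=
    mul_nonneg_of_nonpos_of_nonpos h3'.le b3
  have hz : ∀ m, m = j ∨ m = k ∨ m = l → m ≠ z := by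
    rintro m (rfl | rfl | rfl)
    · exact hQ.1.1.symm
    · exact hQ.2.1.1.symm
    · exact hQ.2.2.1.1.symm
  have key : ∀ m, m = j ∨ m = k ∨ m = l → B (euV e z j' k' l') (e m) = 0 →
      m = j' ∨ m = k' ∨ m = l' := by
    intro m hm h0
    by_contra hcon
    push Not at hcon
    have := hv'.2.2.2.2.2.2 m (hz m hm) hcon.1 hcon.2.1 hcon.2.2
    linarith
  refine ⟨?_, key k (by simp) ?_, key l (by simp) ?_⟩
  · rcases h1 with h | h
    · apply key j (by simp)
      by_contra hne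
      have : B (euV e z j' k' l') (e j) < 0 := lt_of_le_of_ne a1 hne
      have := mul_pos_of_neg_of_neg h this
      linarith
    · left; exact h
  · by_contra hne
    have : B (euV e z j' k' l') (e k) < 0 := lt_of_le_of_ne a2 hne
    have := mul_pos_of_neg_of_neg h2 this
    linarith
  · by_contra hne
    have : B (euV e z j' k' l') (e l) < 0 := lt_of_le_of_ne a3 hne
    have := mul_pos_of_neg_of_neg h3 this
    linarith

/-- existence of a corner with all signs negative -/
theorem eu_ex1 (F : Facts e) {z : Fin n} {x w : V5} (hx : ∀ v : V5, B v v = -1 → 0 < v 0 → B x v < 0)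
    (hg : ∀ j k l, Q4 e z j k l → euS e x w z j k l ≠ 0) :
    ∃ j k l, Q4 e z j k l ∧ euS e x w z j k l < 0 ∧ euS e x w z k j l < 0 ∧
      euS e x w z l j k < 0 := by
  classical
  obtain ⟨j0, k0, l0, h0⟩ := F.ext1 z
  let O : Finset (Fin n × Fin n × Fin n) := univ.filter (fun p => Q4 e z p.1 p.2.1 p.2.2)
  have hO : O.Nonempty := ⟨(j0, k0, l0), by simp [O, h0]⟩
  obtain ⟨⟨j, k, l⟩, hp, hmax⟩ := Finset.exists_max_image O
    (fun p => -B w (euV e z p.1 p.2.1 p.2.2) / B x (euV e z p.1 p.2.1 p.2.2)) hO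
  have hQ : Q4 e z j k l := by simpa [O] using hp
  have hmax' : ∀ j' k' l', Q4 e z j' k' l' → -B w (euV e z j' k' l') / B x (euV e z j' k' l') ≤
      -B w (euV e z j k l) / B x (euV e z j k l) := by
    intro j' k' l' h
    exact hmax (j', k', l') (by simpa [O] using h)
  have hxv : ∀ {j k l : Fin n}, Q4 e z j k l → B x (euV e z j k l) < 0 := by
    intro j k l h
    have := euV_spec F h
    exact hx _ this.1 this.2.1
  have main : ∀ j' k' l', Q4 e z j' k' l' → euV e z j' k' l' = euV e z j k l →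
      euS e x w z l' j' k' < 0 := by
    intro j' k' l' h hV
    obtain ⟨l'', hne, h2, -⟩ := F.two z j' k' l' h
    have h3 := eu_flip F h h2 hne (euV_spec F h) (euV_spec F h2) (x := x) (w := w) (hxv h) (hxv h2)
      (by rw [hV]; exact hmax' _ _ _ h2)
    rw [euS_3 F x w h] at h3
    exact lt_of_le_of_ne h3 (hg _ _ _ (eu_q1 (eu_q2 h)))
  refine ⟨j, k, l, hQ, ?_, ?_, ?_⟩
  · -- `j` last
    have hq : Q4 e z k l j := eu_q2 (eu_q1 hQ)
    have := main k l j hq (by rw [euV_2 F (eu_q1 hQ), euV_1 F hQ])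
    exact this
  · have hq : Q4 e z j l k := eu_q2 hQ
    have := main j l k hq (euV_2 F hQ)
    exact this
  · exact main j k l hQ rfl

/-- existence of a corner containing `j` with the two other signs negative -/
theorem eu_ex2 (F : Facts e) {z : Fin n} {x w : V5} (hx : ∀ v : V5, B v v = -1 → 0 < v 0 → B x v < 0)
    (hg : ∀ j k l, Q4 e z j k l → euS e x w z j k l ≠ 0) {j : Fin n} (hj : Adj e z j) :
    ∃ k l, Q4 e z j k l ∧ euS e x w z k j l < 0 ∧ euS e x w z l j k < 0 := by
  classical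
  obtain ⟨k0, l0, h0⟩ := F.ext2 z j hj
  let O : Finset (Fin n × Fin n) := univ.filter (fun p => Q4 e z j p.1 p.2)
  have hO : O.Nonempty := ⟨(k0, l0), by simp [O, h0]⟩
  obtain ⟨⟨k, l⟩, hp, hmax⟩ := Finset.exists_max_image O
    (fun p => -B w (euV e z j p.1 p.2) / B x (euV e z j p.1 p.2)) hO
  have hQ : Q4 e z j k l := by simpa [O] using hp
  have hmax' : ∀ k' l', Q4 e z j k' l' → -B w (euV e z j k' l') / B x (euV e z j k' l') ≤
      -B w (euV e z j k l) / B x (euV e z j k l) := by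
    intro k' l' h
    exact hmax (k', l') (by simpa [O] using h)
  have hxv : ∀ {j k l : Fin n}, Q4 e z j k l → B x (euV e z j k l) < 0 := by
    intro j k l h
    have := euV_spec F h
    exact hx _ this.1 this.2.1
  have main : ∀ k' l', Q4 e z j k' l' → euV e z j k' l' = euV e z j k l →
      euS e x w z l' j k' < 0 := by
    intro k' l' h hV
    obtain ⟨l'', hne, h2, -⟩ := F.two z j k' l' h
    have h3 := eu_flip F h h2 hne (euV_spec F h) (euV_spec F h2) (x := x) (w := w) (hxv h) (hxv h2)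
      (by rw [hV]; exact hmax' _ _ h2)
    rw [euS_3 F x w h] at h3
    exact lt_of_le_of_ne h3 (hg _ _ _ (eu_q1 (eu_q2 h)))
  exact ⟨k, l, hQ, main l k (eu_q2 hQ) (euV_2 F hQ), main k l hQ rfl⟩

open Classical in
/-- exactly one corner of `z` has all signs negative -/
theorem eu_T1 (F : Facts e) {z : Fin n} {x w : V5} (hx : ∀ v : V5, B v v = -1 → 0 < v 0 → B x v < 0)
    (hg : ∀ j k l, Q4 e z j k l → euS e x w z j k l ≠ 0) :
    ∑ j, ∑ k, ∑ l, (if Q4 e z j k l ∧ euS e x w z j k l < 0 ∧ euS e x w z k j l < 0 ∧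
      euS e x w z l j k < 0 then 1 else 0) = 6 := by
  obtain ⟨j0, k0, l0, hQ, h1, h2, h3⟩ := eu_ex1 F hx hg
  have hjk : j0 ≠ k0 := hQ.2.2.2.1.1
  have hjl : j0 ≠ l0 := hQ.2.2.2.2.1.1
  have hkl : k0 ≠ l0 := hQ.2.2.2.2.2.1
  have e1 : ∑ j, ∑ k, ∑ l, (if Q4 e z j k l ∧ euS e x w z j k l < 0 ∧ euS e x w z k j l < 0 ∧
      euS e x w z l j k < 0 then 1 else 0) =
      (univ.filter (fun p : Fin n × Fin n × Fin n => Q4 e z p.1 p.2.1 p.2.2 ∧
        euS e x w z p.1 p.2.1 p.2.2 < 0 ∧ euS e x w z p.2.1 p.1 p.2.2 < 0 ∧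
        euS e x w z p.2.2 p.1 p.2.1 < 0)).card := by
    rw [Finset.card_filter, Fintype.sum_prod_type]
    refine Finset.sum_congr rfl fun j _ => ?_
    rw [Fintype.sum_prod_type]
  rw [e1]
  have e2 : (univ.filter (fun p : Fin n × Fin n × Fin n => Q4 e z p.1 p.2.1 p.2.2 ∧
        euS e x w z p.1 p.2.1 p.2.2 < 0 ∧ euS e x w z p.2.1 p.1 p.2.2 < 0 ∧
        euS e x w z p.2.2 p.1 p.2.1 < 0)) =
      {(j0, k0, l0), (j0, l0, k0), (k0, j0, l0), (k0, l0, j0), (l0, j0, k0), (l0, k0, j0)} := by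
    ext ⟨j, k, l⟩
    simp only [Finset.mem_filter, Finset.mem_univ, true_and, Finset.mem_insert,
      Finset.mem_singleton, Prod.mk.injEq]
    constructor
    · rintro ⟨hq, a1, a2, a3⟩
      obtain ⟨p1, p2, p3⟩ := eu_pos F hq hQ (Or.inl a1) a2 a3 (Or.inl h1) h2 h3
      have n1 : j ≠ k := hq.2.2.2.1.1
      have n2 : j ≠ l := hq.2.2.2.2.1.1
      have n3 : k ≠ l := hq.2.2.2.2.2.1
      rcases p1 with rfl | rfl | rfl <;> rcases p2 with rfl | rfl | rfl <;>
        rcases p3 with rfl | rfl | rfl <;> simp_all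
    · rintro (⟨rfl, rfl, rfl⟩ | ⟨rfl, rfl, rfl⟩ | ⟨rfl, rfl, rfl⟩ | ⟨rfl, rfl, rfl⟩ |
        ⟨rfl, rfl, rfl⟩ | ⟨rfl, rfl, rfl⟩)
      · exact ⟨hQ, h1, h2, h3⟩
      · refine ⟨eu_q2 hQ, ?_, h3, h2⟩
        rw [euS_swap F x w hQ]; exact h1
      · refine ⟨eu_q1 hQ, h2, h1, ?_⟩
        rw [euS_swap F x w (eu_q1 (eu_q2 hQ))]; exact h3
      · refine ⟨eu_q2 (eu_q1 hQ), ?_, ?_, h1⟩
        · rw [euS_swap F x w (eu_q1 hQ)]; exact h2
        · rw [euS_swap F x w (eu_q1 (eu_q2 hQ))]; exact h3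
      · refine ⟨eu_q1 (eu_q2 hQ), h3, ?_, ?_⟩
        · rw [euS_swap F x w hQ]; exact h1
        · rw [euS_swap F x w (eu_q1 hQ)]; exact h2
      · refine ⟨eu_q2 (eu_q1 (eu_q2 hQ)), ?_, ?_, ?_⟩
        · rw [euS_swap F x w (eu_q1 (eu_q2 hQ))]; exact h3
        · rw [euS_swap F x w (eu_q1 hQ)]; exact h2
        · rw [euS_swap F x w hQ]; exact h1
  rw [e2]
  have hkj := hjk.symm
  have hlj := hjl.symm
  have hlk := hkl.symm
  rw [Finset.card_insert_of_notMem (by simp [hjk, hjl, hkl, hkj, hlj, hlk]),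
    Finset.card_insert_of_notMem (by simp [hjk, hjl, hkl, hkj, hlj, hlk]),
    Finset.card_insert_of_notMem (by simp [hjk, hjl, hkl, hkj, hlj, hlk]),
    Finset.card_insert_of_notMem (by simp [hjk, hjl, hkl, hkj, hlj, hlk]),
    Finset.card_insert_of_notMem (by simp [hjk, hjl, hkl, hkj, hlj, hlk]),
    Finset.card_singleton]

open Classical in
/-- exactly one corner containing `z`, `j` has the two other signs negative -/
theorem eu_T2 (F : Facts e) {z : Fin n} {x w : V5} (hx : ∀ v : V5, B v v = -1 → 0 < v 0 → B x v < 0)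
    (hg : ∀ j k l, Q4 e z j k l → euS e x w z j k l ≠ 0) (j : Fin n) :
    ∑ k, ∑ l, (if Q4 e z j k l ∧ euS e x w z k j l < 0 ∧ euS e x w z l j k < 0 then 1 else 0) =
      if Adj e z j then 2 else 0 := by
  by_cases hj : Adj e z j
  · rw [if_pos hj]
    obtain ⟨k0, l0, hQ, h2, h3⟩ := eu_ex2 F hx hg hj
    have hkl : k0 ≠ l0 := hQ.2.2.2.2.2.1
    have e1 : ∑ k, ∑ l, (if Q4 e z j k l ∧ euS e x w z k j l < 0 ∧
        euS e x w z l j k < 0 then 1 else 0) =
        (univ.filter (fun p : Fin n × Fin n => Q4 e z j p.1 p.2 ∧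
          euS e x w z p.1 j p.2 < 0 ∧ euS e x w z p.2 j p.1 < 0)).card := by
      rw [Finset.card_filter, Fintype.sum_prod_type]
    rw [e1]
    have e2 : (univ.filter (fun p : Fin n × Fin n => Q4 e z j p.1 p.2 ∧
          euS e x w z p.1 j p.2 < 0 ∧ euS e x w z p.2 j p.1 < 0)) = {(k0, l0), (l0, k0)} := by
      ext ⟨k, l⟩
      simp only [Finset.mem_filter, Finset.mem_univ, true_and, Finset.mem_insert,
        Finset.mem_singleton, Prod.mk.injEq]
      constructor
      · rintro ⟨hq, a2, a3⟩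
        obtain ⟨-, p2, p3⟩ := eu_pos F hq hQ (Or.inr rfl) a2 a3 (Or.inr rfl) h2 h3
        have n1 : j ≠ k := hq.2.2.2.1.1
        have n2 : j ≠ l := hq.2.2.2.2.1.1
        have n3 : k ≠ l := hq.2.2.2.2.2.1
        rcases p2 with rfl | rfl | rfl <;> rcases p3 with rfl | rfl | rfl <;> simp_all
      · rintro (⟨rfl, rfl⟩ | ⟨rfl, rfl⟩)
        · exact ⟨hQ, h2, h3⟩
        · exact ⟨eu_q2 hQ, h3, h2⟩
    rw [e2, Finset.card_insert_of_notMem (by simp [hkl]), Finset.card_singleton]
  · rw [if_neg hj]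
    apply Finset.sum_eq_zero
    intro k _
    apply Finset.sum_eq_zero
    intro l _
    rw [if_neg]
    rintro ⟨h, -⟩
    exact hj h.1

open Classical in
/-- a pair of adjacent neighbours is in exactly two corners -/
theorem eu_T3 (F : Facts e) (z j k : Fin n) :
    ∑ l, (if Q4 e z j k l then 1 else 0) =
      if Adj e z j ∧ Adj e z k ∧ Adj e j k then 2 else 0 := by
  by_cases h : Adj e z j ∧ Adj e z k ∧ Adj e j k
  · rw [if_pos h]
    obtain ⟨l0, h0⟩ := F.ext3 z j k h.1 h.2.1 h.2.2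
    obtain ⟨l1, hne, h1, hall⟩ := F.two z j k l0 h0
    rw [← Finset.card_filter]
    have : (univ.filter (fun l => Q4 e z j k l)) = {l0, l1} := by
      ext l
      simp only [Finset.mem_filter, Finset.mem_univ, true_and, Finset.mem_insert,
        Finset.mem_singleton]
      constructor
      · exact hall l
      · rintro (rfl | rfl)
        · exact h0
        · exact h1
    rw [this, Finset.card_insert_of_notMem (by simp [hne.symm]), Finset.card_singleton]
  · rw [if_neg h]
    apply Finset.sum_eq_zero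
    intro l _
    rw [if_neg]
    intro hq
    exact h ⟨hq.1, hq.2.1, hq.2.2.2.1⟩

/-- a generic vector -/
theorem eu_gen (F : Facts e) (z : Fin n) {x : V5}
    (hx : ∀ v : V5, B v v = -1 → 0 < v 0 → B x v < 0) :
    ∃ w : V5, ∀ j k l, Q4 e z j k l → euS e x w z j k l ≠ 0 := by
  classical
  by_contra hcon
  push Not at hcon
  let L : Fin n × Fin n × Fin n → Subspace ℝ V5 := fun p =>
    if Q4 e z p.1 p.2.1 p.2.2 then
      { carrier := {w | euS e x w z p.1 p.2.1 p.2.2 = 0}
        zero_mem' := by simp [euS, euD]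
        add_mem' := by
          intro a b ha hb
          simp only [Set.mem_ofPred_eq, euS, euD, B_add_left] at ha hb ⊢
          linarith
        smul_mem' := by
          intro c a ha
          simp only [Set.mem_ofPred_eq, euS, euD, B_smul_left] at ha ⊢
          have : B x (euV e z p.1 p.2.1 p.2.2) * (c * B a (e p.1)) -
            c * B a (euV e z p.1 p.2.1 p.2.2) * B x (e p.1) =
            c * (B x (euV e z p.1 p.2.1 p.2.2) * B a (e p.1) -
              B a (euV e z p.1 p.2.1 p.2.2) * B x (e p.1)) := by ring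
          rw [this, ha, mul_zero] }
    else ⊥
  have hcov : ⋃ i, (L i : Set V5) = Set.univ := by
    rw [Set.iUnion_eq_univ_iff]
    intro w
    obtain ⟨j, k, l, hQ, h0⟩ := hcon w
    refine ⟨(j, k, l), ?_⟩
    simp only [L]
    rw [if_pos hQ]
    exact h0
  obtain ⟨⟨j, k, l⟩, hi⟩ := Subspace.exists_eq_top_of_iUnion_eq_univ hcov
  simp only [L] at hi
  split_ifs at hi with hQ
  · have h1 : e j ∈ (⊤ : Subspace ℝ V5) := trivial
    rw [← hi] at h1
    have h2 : euS e x (e j) z j k l = 0 := h1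
    have hv := euV_spec F hQ
    unfold euS euD at h2
    rw [F.norm j, B_comm (e j), hv.2.2.2.1] at h2
    have := hx _ hv.1 hv.2.1
    linarith
  · exact bot_ne_top hi

open Classical in
theorem euler_aux (F : Facts e) (z : Fin n) :
    12 * deg e z = 2 * (∑ j ∈ univ.filter (fun j => Adj e z j), mm e z j) + 24 := by
  let x : V5 := fun i => if i = 0 then 1 else 0
  have hx : ∀ v : V5, B v v = -1 → 0 < v 0 → B x v < 0 := by
    intro v _ hv
    simp [B, x, hv]
  obtain ⟨w, hw⟩ := eu_gen F z hx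
  have hneg : ∀ j k l, euS e x (-w) z j k l = -euS e x w z j k l := by
    intro j k l
    simp only [euS, euD, B_neg_left]
    ring
  have hw' : ∀ j k l, Q4 e z j k l → euS e x (-w) z j k l ≠ 0 := by
    intro j k l hQ
    rw [hneg]
    exact neg_ne_zero.2 (hw j k l hQ)
  -- the counts
  have key : ∀ w' : V5, (∀ j k l, Q4 e z j k l → euS e x w' z j k l ≠ 0) →
      (∑ j, ∑ k, ∑ l, ((if Q4 e z j k l ∧ euS e x w' z k j l < 0 ∧ euS e x w' z l j k < 0
          then 1 else 0) +
        (if Q4 e z j k l ∧ euS e x w' z j k l < 0 ∧ euS e x w' z l j k < 0 then 1 else 0) +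
        (if Q4 e z j k l ∧ euS e x w' z j k l < 0 ∧ euS e x w' z k j l < 0 then 1 else 0))) =
        6 * deg e z := by
    intro w' hg
    simp only [Finset.sum_add_distrib]
    have c1 : ∑ j, ∑ k, ∑ l, (if Q4 e z j k l ∧ euS e x w' z k j l < 0 ∧
        euS e x w' z l j k < 0 then 1 else 0) = 2 * deg e z := by
      rw [Finset.sum_congr rfl fun j _ => eu_T2 F hx hg j]
      unfold deg
      rw [Finset.card_filter, Finset.mul_sum]
      refine Finset.sum_congr rfl fun j _ => ?_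
      split_ifs <;> simp
    have c2 : ∑ j, ∑ k, ∑ l, (if Q4 e z j k l ∧ euS e x w' z j k l < 0 ∧
        euS e x w' z l j k < 0 then 1 else 0) = 2 * deg e z := by
      rw [← c1, Finset.sum_comm]
      refine Finset.sum_congr rfl fun k _ => Finset.sum_congr rfl fun j _ =>
        Finset.sum_congr rfl fun l _ => ?_
      refine if_congr ⟨?_, ?_⟩ rfl rfl
      · rintro ⟨a, b, c⟩
        refine ⟨eu_q1 a, b, ?_⟩
        rwa [euS_swap F x w' (eu_q1 (eu_q2 a))]
      · rintro ⟨a, b, c⟩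
        refine ⟨eu_q1 a, b, ?_⟩
        rwa [euS_swap F x w' (eu_q1 (eu_q2 a))]
    have c3 : ∑ j, ∑ k, ∑ l, (if Q4 e z j k l ∧ euS e x w' z j k l < 0 ∧
        euS e x w' z k j l < 0 then 1 else 0) = 2 * deg e z := by
      rw [← c2]
      refine Finset.sum_congr rfl fun j _ => ?_
      rw [Finset.sum_comm]
      refine Finset.sum_congr rfl fun l _ => Finset.sum_congr rfl fun k _ => ?_
      refine if_congr ⟨?_, ?_⟩ rfl rfl
      · rintro ⟨a, b, c⟩
        refine ⟨eu_q2 a, ?_, c⟩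
        rwa [euS_swap F x w' a]
      · rintro ⟨a, b, c⟩
        refine ⟨eu_q2 a, ?_, c⟩
        rwa [euS_swap F x w' a]
    rw [c1, c2, c3]
    ring
  have kA := key w hw
  have kB := key (-w) hw'
  have t1 := eu_T1 F hx hw
  have t2 := eu_T1 F hx hw'
  have hN : ∑ j, ∑ k, ∑ l, (if Q4 e z j k l then 1 else 0) =
      2 * (∑ j ∈ univ.filter (fun j => Adj e z j), mm e z j) := by
    rw [Finset.mul_sum, Finset.sum_filter]
    refine Finset.sum_congr rfl fun j _ => ?_
    rw [Finset.sum_congr rfl fun k _ => eu_T3 F z j k]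
    split_ifs with hj
    · unfold mm
      rw [Finset.card_filter, Finset.mul_sum]
      refine Finset.sum_congr rfl fun k _ => ?_
      by_cases hk : Adj e z k ∧ Adj e j k
      · rw [if_pos ⟨hj, hk⟩, if_pos hk, mul_one]
      · rw [if_neg (fun h => hk h.2), if_neg hk, mul_zero]
    · apply Finset.sum_eq_zero
      intro k _
      rw [if_neg]
      rintro ⟨h, -⟩
      exact hj h
  have hsum : 6 * deg e z + 6 * deg e z =
      2 * (∑ j ∈ univ.filter (fun j => Adj e z j), mm e z j) + 2 * 6 + 2 * 6 := by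
    have hR : ∑ j, ∑ k, ∑ l, ((if Q4 e z j k l then 1 else 0) +
        2 * (if Q4 e z j k l ∧ euS e x w z j k l < 0 ∧ euS e x w z k j l < 0 ∧
          euS e x w z l j k < 0 then 1 else 0) +
        2 * (if Q4 e z j k l ∧ euS e x (-w) z j k l < 0 ∧ euS e x (-w) z k j l < 0 ∧
          euS e x (-w) z l j k < 0 then 1 else 0)) =
        2 * (∑ j ∈ univ.filter (fun j => Adj e z j), mm e z j) + 2 * 6 + 2 * 6 := by
      simp only [Finset.sum_add_distrib, ← Finset.mul_sum]
      rw [hN, t1, t2]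
    have hAB := congrArg₂ (fun a b => a + b) kA kB
    simp only [← Finset.sum_add_distrib] at hAB
    rw [← hAB, ← hR]
    refine Finset.sum_congr rfl fun j _ => Finset.sum_congr rfl fun k _ =>
      Finset.sum_congr rfl fun l _ => ?_
    by_cases hQ : Q4 e z j k l
    · simp only [hneg, neg_lt_zero, hQ, true_and]
      rcases lt_or_gt_of_ne (hw j k l hQ) with h1 | h1 <;>
        rcases lt_or_gt_of_ne (hw k j l (eu_q1 hQ)) with h2 | h2 <;>
        rcases lt_or_gt_of_ne (hw l j k (eu_q1 (eu_q2 hQ))) with h3 | h3 <;>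
        simp [h1, h2, h3, h1.not_gt, h2.not_gt, h3.not_gt]
    · simp [hQ]
  omega

theorem euler {e : Fin n → V5} (F : Facts e) : EulerSpec e := by
  intro z
  have h := euler_aux F z
  omega

end

end Pool.Agent.H62.M4
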