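import Pool.Agent.H62.M4.Lor
import Pool.Agent.H62.M4.Cover

/-!
MP_6c826d_gt (S13329), m_4 = 120.  Module H1: the regular right-angled 120-cell satisfies `RA`
(helper59).
-/

set_option autoImplicit false

namespace Pool.Agent.H62.M4

theorem e120_gen (i : Fin 120) : ∃ x : V5, B x x = -1 ∧ 0 < x 0 ∧ B x (e120 i) = 0 ∧
    ∀ j, j ≠ i → B x (e120 j) < 0 := by
  have hφ := φ_pos
  have hφ1 := one_lt_φ
  set u : ℝ := √(φ ^ 3) with hu
  have hu0 : 0 < u := Real.sqrt_pos.mpr (by positivity)
  set o : V5 := ![1, 0, 0, 0, 0] with ho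
  have hoo : B o o = -1 := by simp [B, ho]
  have hoe : ∀ j, B o (e120 j) = -u := by
    intro j
    have h0 : o 0 = 1 := rfl
    have h1 : o 1 = 0 := rfl
    have h2 : o 2 = 0 := rfl
    have h3 : o 3 = 0 := rfl
    have h4 : o 4 = 0 := rfl
    unfold B
    rw [h0, h1, h2, h3, h4, e120_zero]
    ring
  have heo : B (e120 i) o = -u := by rw [B_comm]; exact hoe i
  set r : ℝ := √(1 + u ^ 2) with hr
  have hr0 : 0 < r := Real.sqrt_pos.mpr (by positivity)
  have hrr : r * r = 1 + u ^ 2 := Real.mul_self_sqrt (by positivity)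
  have hform : ∀ z, B (r⁻¹ • (o + u • e120 i)) z = r⁻¹ * (B o z + u * B (e120 i) z) := by
    intro z
    rw [B_smul_left, B_add_left, B_smul_left]
  refine ⟨r⁻¹ • (o + u • e120 i), ?_, ?_, ?_, ?_⟩
  · rw [hform, B_smul_right, B_smul_right, B_add_right, B_add_right, B_smul_right, B_smul_right,
      hoo, hoe, heo, e120_self]
    field_simp
    linear_combination hrr
  · have : (r⁻¹ • (o + u • e120 i)) 0 = r⁻¹ * (1 + u * u) := by
      simp only [Pi.smul_apply, Pi.add_apply, smul_eq_mul, e120_zero]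
      rw [← hu]
      have h0 : o 0 = 1 := rfl
      rw [h0]
    rw [this]
    positivity
  · rw [hform, hoe, e120_self]
    ring
  · intro j hj
    rw [hform, hoe]
    have hle : B (e120 i) (e120 j) ≤ 0 := by
      rcases e120_dich i j (Ne.symm hj) with h | h
      · exact h.le
      · linarith
    have h1 : u * B (e120 i) (e120 j) ≤ 0 := mul_nonpos_of_nonneg_of_nonpos hu0.le hle
    exact mul_neg_of_pos_of_neg (inv_pos.mpr hr0) (by linarith)

theorem exists120 : ∃ e : Fin 120 → V5, RA e := by
  refine ⟨e120, e120_self, e120_cpt, e120_gen, ?_⟩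
  rintro i j hij ⟨x, hxx, _, _, hxi, hxj⟩
  rcases e120_dich i j hij with h | h
  · exact h
  · exfalso
    have hφ1 := one_lt_φ
    have hx : B x x < 0 := by rw [hxx]; norm_num
    have hxy : B x (e120 i + e120 j) = 0 := by rw [B_add_right, hxi, hxj, add_zero]
    have h1 := orth_timelike hx hxy
    have h2 : B (e120 j) (e120 i) = B (e120 i) (e120 j) := B_comm _ _
    rw [B_add_left, B_add_right, B_add_right, e120_self, e120_self, h2] at h1
    linarith

end Pool.Agent.H62.M4
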