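import Pool.Agent.H62.M4.MinL

/-!
MP_6c826d_gt (S13329): the exit lemma, extension of cliques, flips (module A3).
-/

set_option autoImplicit false

namespace Pool.Agent.H62.M4

open Finset

variable {n : ℕ}

theorem h22_contB (x : V5) : Continuous (fun y : V5 => B x y) := by
  unfold B
  fun_prop

/-- the polytope is bounded -/
theorem h22_bdd {e : Fin n → V5} (h : RA e) (x : V5) : ∃ M, ∀ y, InP e y → -B x y ≤ M := by
  have hc : ContinuousOn (fun y : V5 => -B x y) {x : V5 | B x x = -1 ∧ 0 < x 0 ∧ ∀ i, B x (e i) ≤ 0} :=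
    (h22_contB x).neg.continuousOn
  obtain ⟨M, hM⟩ := h.cpt.bddAbove_image hc
  exact ⟨M, fun y hy => hM ⟨y, hy, rfl⟩⟩

/-- moving along a geodesic -/
theorem h22_move {x τ : V5} (hx : B x x = -1) (hx0 : 0 < x 0) (hτ : B τ τ = 1) (hxτ : B x τ = 0)
    (s : ℝ) : B (Real.cosh s • x + Real.sinh s • τ) (Real.cosh s • x + Real.sinh s • τ) = -1 ∧
      0 < (Real.cosh s • x + Real.sinh s • τ) 0 ∧
      B x (Real.cosh s • x + Real.sinh s • τ) = -Real.cosh s := by
  have hτx : B τ x = 0 := by rw [B_comm]; exact hxτ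
  have h1 : B (Real.cosh s • x + Real.sinh s • τ) (Real.cosh s • x + Real.sinh s • τ) = -1 := by
    simp only [B_add_left, B_add_right, B_smul_left, B_smul_right]
    rw [hx, hτ, hxτ, hτx]
    have := Real.cosh_sq s
    nlinarith
  have h2 : B x (Real.cosh s • x + Real.sinh s • τ) = -Real.cosh s := by
    simp only [B_add_right, B_smul_right]
    rw [hx, hxτ]
    ring
  refine ⟨h1, ?_, h2⟩
  refine time_pos_of hx hx0 (by rw [h1]; norm_num) ?_
  rw [h2]
  have := Real.cosh_pos s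
  linarith

theorem h22_moveB {x τ : V5} (s : ℝ) (y : V5) :
    B (Real.cosh s • x + Real.sinh s • τ) y = Real.cosh s * B x y + Real.sinh s * B τ y := by
  simp only [B_add_left, B_smul_left]

theorem h22_cosh_large (M : ℝ) : ∃ s : ℝ, 0 ≤ s ∧ M < Real.cosh s := by
  refine ⟨max M 0 + 1, by positivity, ?_⟩
  have h1 : max M 0 + 1 < Real.cosh (max M 0 + 1) := by
    have h2 : 0 < max M 0 + 1 := by positivity
    have h3 := Real.self_lt_sinh_iff.mpr h2
    have h4 := Real.sinh_lt_cosh (max M 0 + 1)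
    linarith
  have h5 := le_max_left M 0
  linarith

theorem n_pos {e : Fin n → V5} (h : RA e) : 0 < n := by
  by_contra hn
  have hn0 : n = 0 := by omega
  subst hn0
  let x : V5 := ![1, 0, 0, 0, 0]
  let τ : V5 := ![0, 1, 0, 0, 0]
  have hx : B x x = -1 := by simp [B, x]
  have hx0 : 0 < x 0 := by simp [x]
  have hτ : B τ τ = 1 := by simp [B, τ]
  have hxτ : B x τ = 0 := by simp [B, x, τ]
  obtain ⟨M, hM⟩ := h22_bdd h x
  obtain ⟨s, -, hs⟩ := h22_cosh_large M
  obtain ⟨h1, h2, h3⟩ := h22_move hx hx0 hτ hxτ s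
  have h4 := hM _ ⟨h1, h2, fun k => k.elim0⟩
  rw [h3] at h4
  linarith

theorem exit_lemma {e : Fin n → V5} (h : RA e) {x τ : V5} (hx : InP e x) (hτ : B τ τ = 1)
    (hxτ : B x τ = 0) (hact : ∀ k, B x (e k) = 0 → B τ (e k) ≤ 0) :
    ∃ (s : ℝ) (m : Fin n), 0 < s ∧ B x (e m) < 0 ∧ InP e (Real.cosh s • x + Real.sinh s • τ) ∧
      B (Real.cosh s • x + Real.sinh s • τ) (e m) = 0 := by
  classical
  obtain ⟨hxx, hx0, hxe⟩ := hx
  by_cases hK : (univ.filter (fun k => B x (e k) < 0 ∧ -B x (e k) < B τ (e k))).Nonempty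
  · obtain ⟨m, hm, hmin⟩ := exists_min_image _ (fun k => -B x (e k) / B τ (e k)) hK
    obtain ⟨-, hm1, hm2⟩ := mem_filter.mp hm
    have hτm : 0 < B τ (e m) := by linarith
    obtain ⟨r, hr⟩ : ∃ r, r = -B x (e m) / B τ (e m) := ⟨_, rfl⟩
    have hr0 : 0 < r := by rw [hr]; exact div_pos (by linarith) hτm
    have hr1 : r < 1 := by rw [hr, div_lt_one hτm]; exact hm2
    have hrm : r * B τ (e m) = -B x (e m) := by rw [hr]; field_simp
    have h1r : 0 < 1 - r ^ 2 := by nlinarith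
    have hsq : 0 < √(1 - r ^ 2) := Real.sqrt_pos.mpr h1r
    obtain ⟨s, hs⟩ : ∃ s, s = Real.arsinh (r / √(1 - r ^ 2)) := ⟨_, rfl⟩
    have hsinh : Real.sinh s = r / √(1 - r ^ 2) := by rw [hs, Real.sinh_arsinh]
    have hspos : 0 < Real.sinh s := by rw [hsinh]; positivity
    have hcosh : Real.cosh s = 1 / √(1 - r ^ 2) := by
      rw [hs, Real.cosh_arsinh]
      have h2 : 1 + (r / √(1 - r ^ 2)) ^ 2 = (1 / √(1 - r ^ 2)) ^ 2 := by
        rw [div_pow, div_pow, Real.sq_sqrt h1r.le]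
        field_simp
        ring
      rw [h2, Real.sqrt_sq (by positivity)]
    have hsr : Real.sinh s = r * Real.cosh s := by rw [hsinh, hcosh]; ring
    have hcp := Real.cosh_pos s
    obtain ⟨g1, g2, -⟩ := h22_move hxx hx0 hτ hxτ s
    have key : ∀ k, B x (e k) + r * B τ (e k) ≤ 0 := by
      intro k
      rcases (hxe k).lt_or_eq with h3 | h3
      · by_cases h4 : -B x (e k) < B τ (e k)
        · have h5 := hmin k (mem_filter.mpr ⟨mem_univ _, h3, h4⟩)
          have h6 : 0 < B τ (e k) := by linarith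
          have h7 : r ≤ -B x (e k) / B τ (e k) := by rw [hr]; exact h5
          rw [le_div_iff₀ h6] at h7
          linarith
        · push Not at h4
          rcases le_or_gt (B τ (e k)) 0 with h5 | h5
          · have := mul_nonneg hr0.le (neg_nonneg.mpr h5)
            linarith
          · have : r * B τ (e k) ≤ 1 * B τ (e k) := mul_le_mul_of_nonneg_right hr1.le h5.le
            linarith
      · have h4 := hact k h3
        have := mul_nonneg hr0.le (neg_nonneg.mpr h4)
        linarith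
    refine ⟨s, m, Real.sinh_pos_iff.mp hspos, hm1, ⟨g1, g2, fun k => ?_⟩, ?_⟩
    · rw [h22_moveB, hsr]
      have h3 := mul_nonneg hcp.le (neg_nonneg.mpr (key k))
      linarith
    · rw [h22_moveB, hsr]
      have : Real.cosh s * B x (e m) + r * Real.cosh s * B τ (e m) =
          Real.cosh s * (B x (e m) + r * B τ (e m)) := by ring
      rw [this, hrm]
      ring
  · exfalso
    rw [not_nonempty_iff_eq_empty, filter_eq_empty_iff] at hK
    obtain ⟨M, hM⟩ := h22_bdd h x
    obtain ⟨s, hs0, hs⟩ := h22_cosh_large M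
    obtain ⟨h1, h2, h3⟩ := h22_move hxx hx0 hτ hxτ s
    have hcp := Real.cosh_pos s
    have hsn : 0 ≤ Real.sinh s := Real.sinh_nonneg_iff.mpr hs0
    have hsc := (Real.sinh_lt_cosh s).le
    have h4 := hM _ ⟨h1, h2, fun k => by
      rw [h22_moveB]
      rcases (hxe k).lt_or_eq with h5 | h5
      · have h6 : B τ (e k) ≤ -B x (e k) := by
          by_contra hcon
          push Not at hcon
          exact hK (mem_univ k) ⟨h5, hcon⟩
        have h7 : Real.sinh s * B τ (e k) ≤ Real.sinh s * (-B x (e k)) :=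
          mul_le_mul_of_nonneg_left h6 hsn
        have h8 : Real.sinh s * (-B x (e k)) ≤ Real.cosh s * (-B x (e k)) :=
          mul_le_mul_of_nonneg_right hsc (by linarith)
        linarith
      · rw [h5, mul_zero, zero_add]
        exact mul_nonpos_of_nonneg_of_nonpos hsn (hact k h5)⟩
    rw [h3] at h4
    linarith

/-- a unit vector orthogonal to `x` and to at most three further vectors -/
theorem h22_orth (e : Fin n → V5) (σ : Finset (Fin n)) (hc : σ.card ≤ 3) {x : V5}
    (hx : B x x = -1) : ∃ τ : V5, B τ τ = 1 ∧ B x τ = 0 ∧ ∀ i ∈ σ, B τ (e i) = 0 := by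
  let f : V5 →ₗ[ℝ] ((σ → ℝ) × ℝ) :=
    { toFun := fun y => (fun i => B y (e i), B y x)
      map_add' := by
        intro a b
        ext <;> simp
      map_smul' := by
        intro r a
        ext <;> simp }
  have hlt : Module.finrank ℝ ((σ → ℝ) × ℝ) < Module.finrank ℝ V5 := by
    rw [Module.finrank_prod, Module.finrank_fintype_fun_eq_card, Module.finrank_self,
      Module.finrank_fintype_fun_eq_card, Fintype.card_coe, Fintype.card_fin]
    omega
  have hker := LinearMap.ker_ne_bot_of_finrank_lt (f := f) hlt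
  obtain ⟨y, hy, hy0⟩ := (Submodule.ne_bot_iff _).mp hker
  have hfy : f y = 0 := hy
  have h1 : ∀ i ∈ σ, B y (e i) = 0 := by
    intro i hi
    have := congrFun (congrArg Prod.fst hfy) ⟨i, hi⟩
    exact this
  have h2 : B y x = 0 := congrArg Prod.snd hfy
  have h3 : B x y = 0 := by rw [B_comm]; exact h2
  have hx' : B x x < 0 := by rw [hx]; norm_num
  have h4 : 0 < B y y := by
    rcases (orth_timelike hx' h3).lt_or_eq with h | h
    · exact h
    · exact (hy0 (orth_timelike_zero hx' h3 h.symm)).elim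
  have hs : 0 < √(B y y) := Real.sqrt_pos.mpr h4
  refine ⟨(1 / √(B y y)) • y, ?_, ?_, ?_⟩
  · rw [B_smul_left, B_smul_right]
    have h5 := Real.mul_self_sqrt h4.le
    field_simp
    rw [sq, h5]
  · rw [B_smul_right, h3, mul_zero]
  · intro i hi
    rw [B_smul_left, h1 i hi, mul_zero]

/-- a clique with at most three elements can be extended (uses `flag`, `exit_lemma`) -/
theorem extend {e : Fin n → V5} (h : RA e)
    (hflag : ∀ σ : Finset (Fin n), (∀ i ∈ σ, ∀ j ∈ σ, i ≠ j → B (e i) (e j) = 0) →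
      ∃ x, InP e x ∧ ∀ i ∈ σ, B x (e i) = 0)
    (σ : Finset (Fin n)) (hσ : ∀ i ∈ σ, ∀ j ∈ σ, i ≠ j → B (e i) (e j) = 0)
    (hc : σ.card ≤ 3) : ∃ m, m ∉ σ ∧ ∀ i ∈ σ, B (e i) (e m) = 0 := by
  obtain ⟨x, hx, hxσ⟩ := hflag σ hσ
  by_cases hk : ∃ k, k ∉ σ ∧ B x (e k) = 0
  · obtain ⟨k, hk, hxk⟩ := hk
    refine ⟨k, hk, fun i hi => ?_⟩
    exact h.right i k (fun e' => hk (e' ▸ hi)) ⟨x, hx.1, hx.2.1, hx.2.2, hxσ i hi, hxk⟩
  · push Not at hk
    obtain ⟨τ, hτ, hxτ, hτσ⟩ := h22_orth e σ hc hx.1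
    obtain ⟨s, m, hs, hm, hP, hPm⟩ := exit_lemma h hx hτ hxτ (fun k hxk => by
      by_cases hkσ : k ∈ σ
      · rw [hτσ k hkσ]
      · exact (hk k hkσ hxk).elim)
    have hmσ : m ∉ σ := fun hmσ => by
      rw [hxσ m hmσ] at hm
      exact lt_irrefl _ hm
    refine ⟨m, hmσ, fun i hi => ?_⟩
    refine h.right i m (fun e' => hmσ (e' ▸ hi)) ⟨_, hP.1, hP.2.1, hP.2.2, ?_, hPm⟩
    rw [h22_moveB, hxσ i hi, hτσ i hi]
    ring

theorem flip_exists {e : Fin n → V5} (h : RA e)
    (hflag : ∀ σ : Finset (Fin n), (∀ i ∈ σ, ∀ j ∈ σ, i ≠ j → B (e i) (e j) = 0) →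
      ∃ x, InP e x ∧ ∀ i ∈ σ, B x (e i) = 0)
    (i j k l : Fin n) (hQ : Q4 e i j k l) : ∃ l', l' ≠ l ∧ Q4 e i j k l' := by
  classical
  obtain ⟨q1, q2, q3, q4, q5, q6⟩ := hQ
  obtain ⟨v, hv, hvσ⟩ := hflag {i, j, k, l} (by
    intro a ha b hb hab
    simp only [mem_insert, mem_singleton] at ha hb
    rcases ha with rfl | rfl | rfl | rfl <;> rcases hb with rfl | rfl | rfl | rfl
    · exact (hab rfl).elim
    · exact q1.2
    · exact q2.2
    · exact q3.2
    · exact q1.symm.2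
    · exact (hab rfl).elim
    · exact q4.2
    · exact q5.2
    · exact q2.symm.2
    · exact q4.symm.2
    · exact (hab rfl).elim
    · exact q6.2
    · exact q3.symm.2
    · exact q5.symm.2
    · exact q6.symm.2
    · exact (hab rfl).elim)
  have hvi : B v (e i) = 0 := hvσ i (by simp)
  have hvj : B v (e j) = 0 := hvσ j (by simp)
  have hvk : B v (e k) = 0 := hvσ k (by simp)
  have hvl : B v (e l) = 0 := hvσ l (by simp)
  have hτ : B (-e l) (-e l) = 1 := by rw [B_neg_left, B_neg_right, neg_neg, h.norm l]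
  have hvτ : B v (-e l) = 0 := by rw [B_neg_right, hvl, neg_zero]
  obtain ⟨s, m, hs, hm, hP, hPm⟩ := exit_lemma h hv hτ hvτ (fun a ha => by
    rw [B_neg_left]
    by_cases hal : a = l
    · rw [hal, h.norm l]
      norm_num
    · rw [h.right l a (fun e' => hal e'.symm) ⟨v, hv.1, hv.2.1, hv.2.2, hvl, ha⟩]
      norm_num)
  have hmi : m ≠ i := fun e' => by rw [e', hvi] at hm; exact lt_irrefl _ hm
  have hmj : m ≠ j := fun e' => by rw [e', hvj] at hm; exact lt_irrefl _ hm
  have hmk : m ≠ k := fun e' => by rw [e', hvk] at hm; exact lt_irrefl _ hm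
  have hml : m ≠ l := fun e' => by rw [e', hvl] at hm; exact lt_irrefl _ hm
  have hadj : ∀ a, a ≠ m → B v (e a) = 0 → B (e l) (e a) = 0 → Adj e a m := by
    intro a ham hva hla
    refine ⟨ham, h.right a m ham ⟨_, hP.1, hP.2.1, hP.2.2, ?_, hPm⟩⟩
    rw [h22_moveB, hva, B_neg_left, hla]
    ring
  exact ⟨m, hml, q1, q2, hadj i hmi.symm hvi q3.symm.2, q4, hadj j hmj.symm hvj q5.symm.2,
    hadj k hmk.symm hvk q6.symm.2⟩

end Pool.Agent.H62.M4
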