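import Pool.Agent.H62.M4.Lor

/-!
MP_6c826d_gt (S13329), m_4 = 120.  Module A1a: the minimisation lemma (helper59).
-/

set_option autoImplicit false

namespace Pool.Agent.H62.M4

open Finset Filter Topology

variable {n : ℕ}

/-- points of the polytope -/
def InP (e : Fin n → V5) (x : V5) : Prop := B x x = -1 ∧ 0 < x 0 ∧ ∀ k, B x (e k) ≤ 0

theorem continuous_B_right (w : V5) : Continuous (fun x : V5 => B x w) := by
  unfold B
  fun_prop

theorem B_sum_left {ι : Type*} (s : Finset ι) (f : ι → V5) (y : V5) :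
    B (∑ k ∈ s, f k) y = ∑ k ∈ s, B (f k) y := by
  classical
  induction s using Finset.induction_on with
  | empty => simp
  | insert a s ha ih => rw [Finset.sum_insert ha, Finset.sum_insert ha, B_add_left, ih]

/-- moving from `y` in the direction `w` -/
theorem move_le {e : Fin n → V5} {σ : Finset (Fin n)} {j : Fin n} {y w : V5}
    (hy : InP e y) (hyσ : ∀ i ∈ σ, B y (e i) = 0)
    (hmax : ∀ x, InP e x → (∀ i ∈ σ, B x (e i) = 0) → B x (e j) ≤ B y (e j))
    (hyj : B y (e j) < 0)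
    (hww : B w w = 1) (hyw : B y w = 0) (hact : ∀ k, B y (e k) = 0 → B w (e k) ≤ 0)
    (hσ : ∀ i ∈ σ, B w (e i) = 0) : B w (e j) ≤ 0 := by
  by_contra hb
  push Not at hb
  set b := B w (e j) with hbdef
  have hBs : ∀ (s : ℝ) (z : V5), B (√(1 + s ^ 2) • y + s • w) z
      = √(1 + s ^ 2) * B y z + s * B w z := by
    intro s z
    rw [B_add_left, B_smul_left, B_smul_left]
  have hcont : Continuous (fun s : ℝ => √(1 + s ^ 2)) := by fun_prop
  have h1 : ∀ᶠ s : ℝ in 𝓝[>] 0, ∀ k, B (√(1 + s ^ 2) • y + s • w) (e k) ≤ 0 := by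
    rw [Filter.eventually_all]
    intro k
    rcases eq_or_lt_of_le (hy.2.2 k) with h0 | hneg
    · filter_upwards [self_mem_nhdsWithin] with s hs
      have hs' : (0 : ℝ) < s := hs
      rw [hBs, h0, mul_zero, zero_add]
      exact mul_nonpos_of_nonneg_of_nonpos hs'.le (hact k h0)
    · have hc : Continuous (fun s : ℝ => √(1 + s ^ 2) * B y (e k) + s * B w (e k)) := by
        fun_prop
      have hlt : (fun s : ℝ => √(1 + s ^ 2) * B y (e k) + s * B w (e k)) 0 < 0 := by
        simpa using hneg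
      have hev := (hc.tendsto 0).eventually (gt_mem_nhds hlt)
      have hev' : ∀ᶠ s : ℝ in 𝓝[>] 0, √(1 + s ^ 2) * B y (e k) + s * B w (e k) < 0 :=
        hev.filter_mono nhdsWithin_le_nhds
      filter_upwards [hev'] with s hs
      rw [hBs]
      exact hs.le
  have h2 : ∀ᶠ s : ℝ in 𝓝[>] 0, 0 < (√(1 + s ^ 2) • y + s • w) 0 := by
    have hc : Continuous (fun s : ℝ => √(1 + s ^ 2) * y 0 + s * w 0) := by fun_prop
    have hlt : 0 < (fun s : ℝ => √(1 + s ^ 2) * y 0 + s * w 0) 0 := by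
      simpa using hy.2.1
    have hev := (hc.tendsto 0).eventually (lt_mem_nhds hlt)
    have hev' : ∀ᶠ s : ℝ in 𝓝[>] 0, 0 < √(1 + s ^ 2) * y 0 + s * w 0 :=
      hev.filter_mono nhdsWithin_le_nhds
    filter_upwards [hev'] with s hs
    simpa using hs
  have h3 : ∀ᶠ s : ℝ in 𝓝[>] 0, s < b / (-B y (e j)) := by
    have hpos : 0 < b / (-B y (e j)) := div_pos hb (by linarith)
    exact (gt_mem_nhds hpos).filter_mono nhdsWithin_le_nhds
  have h4 : ∀ᶠ s : ℝ in 𝓝[>] 0, 0 < s := self_mem_nhdsWithin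
  obtain ⟨s, hs1, hs2, hs3, hs4⟩ := (h1.and (h2.and (h3.and h4))).exists
  have hP : InP e (√(1 + s ^ 2) • y + s • w) := by
    refine ⟨?_, hs2, hs1⟩
    have hwy : B w y = 0 := by rw [B_comm]; exact hyw
    rw [hBs, B_add_right, B_add_right, B_smul_right, B_smul_right, B_smul_right, B_smul_right,
      hww, hyw, hwy, hy.1]
    have hsq : √(1 + s ^ 2) * √(1 + s ^ 2) = 1 + s ^ 2 := Real.mul_self_sqrt (by positivity)
    linear_combination (-1 : ℝ) * hsq
  have hF : ∀ i ∈ σ, B (√(1 + s ^ 2) • y + s • w) (e i) = 0 := by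
    intro i hi
    rw [hBs, hyσ i hi, hσ i hi]
    ring
  have hle := hmax _ hP hF
  rw [hBs] at hle
  have hsqle : √(1 + s ^ 2) ≤ 1 + s ^ 2 := by
    rw [Real.sqrt_le_left (by positivity)]
    nlinarith [sq_nonneg s]
  have hlt : s * (-B y (e j)) < b := by
    rwa [lt_div_iff₀ (by linarith)] at hs3
  nlinarith [mul_pos hs4 (sub_pos.mpr hlt), mul_nonneg (sub_nonneg.mpr hsqle) (neg_nonneg.mpr hyj.le)]

theorem min_lemma {e : Fin n → V5} (h : RA e) (σ : Finset (Fin n)) (j : Fin n)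
    (h1 : ∃ x, InP e x ∧ ∀ i ∈ σ, B x (e i) = 0)
    (h2 : ¬ ∃ x, InP e x ∧ (∀ i ∈ σ, B x (e i) = 0) ∧ B x (e j) = 0) :
    ∃ (y : V5) (τ : Finset (Fin n)), InP e y ∧ σ ⊆ τ ∧ (∀ k, k ∈ τ ↔ B y (e k) = 0) ∧
      B y (e j) < 0 ∧ (∀ k ∈ τ, ∀ l ∈ τ, k ≠ l → B (e k) (e l) = 0) ∧
      e j = (∑ k ∈ τ, B (e j) (e k) • e k) - B (e j) y • y ∧
      ∀ k ∈ τ, k ∉ σ → 0 ≤ B (e j) (e k) := by
  classical
  -- the face and the maximum point
  have hFc : IsCompact {x : V5 | InP e x ∧ ∀ i ∈ σ, B x (e i) = 0} := by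
    have hclosed : IsClosed {x : V5 | ∀ i ∈ σ, B x (e i) = 0} := by
      have : {x : V5 | ∀ i ∈ σ, B x (e i) = 0} = ⋂ i ∈ σ, {x : V5 | B x (e i) = 0} := by
        ext x; simp
      rw [this]
      exact isClosed_biInter fun i _ => isClosed_eq (continuous_B_right _) continuous_const
    have := h.cpt.inter_right hclosed
    have hset : {x : V5 | InP e x ∧ ∀ i ∈ σ, B x (e i) = 0} =
        {x : V5 | B x x = -1 ∧ 0 < x 0 ∧ ∀ i, B x (e i) ≤ 0} ∩
          {x : V5 | ∀ i ∈ σ, B x (e i) = 0} := by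
      ext x; exact Iff.rfl
    rw [hset]
    exact this
  obtain ⟨y, hyF, hymax⟩ := hFc.exists_isMaxOn h1 (continuous_B_right (e j)).continuousOn
  obtain ⟨hyP, hyσ⟩ := hyF
  have hmax : ∀ x, InP e x → (∀ i ∈ σ, B x (e i) = 0) → B x (e j) ≤ B y (e j) :=
    fun x hx hxσ => hymax ⟨hx, hxσ⟩
  have hyj : B y (e j) < 0 :=
    lt_of_le_of_ne (hyP.2.2 j) fun h0 => h2 ⟨y, hyP, hyσ, h0⟩
  set τ : Finset (Fin n) := univ.filter (fun k => B y (e k) = 0) with hτdef
  have hτ : ∀ k, k ∈ τ ↔ B y (e k) = 0 := by intro k; simp [hτdef]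
  have hστ : σ ⊆ τ := fun i hi => (hτ i).2 (hyσ i hi)
  have horth : ∀ k ∈ τ, ∀ l ∈ τ, k ≠ l → B (e k) (e l) = 0 := by
    intro k hk l hl hkl
    exact h.right k l hkl ⟨y, hyP.1, hyP.2.1, hyP.2.2, (hτ k).1 hk, (hτ l).1 hl⟩
  -- the remainder
  set r : V5 := e j - (∑ k ∈ τ, B (e j) (e k) • e k) + B (e j) y • y with hr
  have hrz : ∀ z, B r z = B (e j) z - (∑ k ∈ τ, B (e j) (e k) * B (e k) z)
      + B (e j) y * B y z := by
    intro z
    rw [hr, B_add_left, B_sub_left, B_sum_left, B_smul_left]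
    simp only [B_smul_left]
  have hry : B r y = 0 := by
    rw [hrz, hyP.1]
    have : (∑ k ∈ τ, B (e j) (e k) * B (e k) y) = 0 := by
      refine Finset.sum_eq_zero fun k hk => ?_
      rw [B_comm (e k) y, (hτ k).1 hk, mul_zero]
    rw [this]; ring
  have hrτ : ∀ l ∈ τ, B r (e l) = 0 := by
    intro l hl
    rw [hrz, (hτ l).1 hl]
    have : (∑ k ∈ τ, B (e j) (e k) * B (e k) (e l)) = B (e j) (e l) := by
      rw [Finset.sum_eq_single l]
      · rw [h.norm l, mul_one]
      · intro k hk hkl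
        rw [horth k hk l hl hkl, mul_zero]
      · intro hl'
        exact absurd hl hl'
    rw [this]; ring
  have hrj : B r (e j) = B r r := by
    have hej : e j = r + (∑ k ∈ τ, B (e j) (e k) • e k) - B (e j) y • y := by
      rw [hr]; abel
    have : B r (e j) = B r r + (∑ k ∈ τ, B (e j) (e k) * B r (e k)) - B (e j) y * B r y := by
      conv_lhs => rw [hej]
      rw [B_sub_right, B_add_right, B_smul_right, B_comm r (∑ k ∈ τ, B (e j) (e k) • e k),
        B_sum_left]
      simp only [B_smul_left]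
      congr 2
      exact Finset.sum_congr rfl fun k _ => by rw [B_comm (e k) r]
    rw [this, hry]
    have h0 : (∑ k ∈ τ, B (e j) (e k) * B r (e k)) = 0 :=
      Finset.sum_eq_zero fun k hk => by rw [hrτ k hk, mul_zero]
    rw [h0]; ring
  have hyr : B y r = 0 := by rw [B_comm]; exact hry
  have hyy : B y y < 0 := by rw [hyP.1]; norm_num
  have hrr0 : 0 ≤ B r r := orth_timelike hyy hyr
  have hr0 : r = 0 := by
    by_contra hrne
    have hrr : 0 < B r r :=
      lt_of_le_of_ne hrr0 fun h0 => hrne (orth_timelike_zero hyy hyr h0.symm)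
    have hsq : 0 < √(B r r) := Real.sqrt_pos.mpr hrr
    have hss : √(B r r) * √(B r r) = B r r := Real.mul_self_sqrt hrr0
    have hle : B ((√(B r r))⁻¹ • r) (e j) ≤ 0 := by
      refine move_le hyP hyσ hmax hyj ?_ ?_ ?_ ?_
      · rw [B_smul_left, B_smul_right]
        field_simp
        nlinarith
      · rw [B_smul_right, hyr, mul_zero]
      · intro k hk
        rw [B_smul_left, hrτ k ((hτ k).2 hk), mul_zero]
      · intro i hi
        rw [B_smul_left, hrτ i (hστ hi), mul_zero]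
    rw [B_smul_left, hrj] at hle
    have : 0 < (√(B r r))⁻¹ * B r r := mul_pos (inv_pos.mpr hsq) hrr
    linarith
  refine ⟨y, τ, hyP, hστ, hτ, hyj, horth, ?_, ?_⟩
  · have : e j - (∑ k ∈ τ, B (e j) (e k) • e k) + B (e j) y • y = 0 := by rw [← hr]; exact hr0
    have h3 : e j = (∑ k ∈ τ, B (e j) (e k) • e k) - B (e j) y • y := by
      have h4 := congrArg (fun z => z + (∑ k ∈ τ, B (e j) (e k) • e k) - B (e j) y • y) this
      simp only [zero_add] at h4
      rw [← h4]; abel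
    exact h3
  · intro k hk hkσ
    have hle : B (-e k) (e j) ≤ 0 := by
      refine move_le hyP hyσ hmax hyj ?_ ?_ ?_ ?_
      · rw [B_neg_left, B_neg_right, h.norm k]; norm_num
      · rw [B_neg_right, (hτ k).1 hk, neg_zero]
      · intro l hl
        rw [B_neg_left]
        by_cases hkl : k = l
        · subst hkl; rw [h.norm k]; norm_num
        · rw [horth k hk l ((hτ l).2 hl) hkl, neg_zero]
      · intro i hi
        rw [B_neg_left, horth k hk i (hστ hi) (fun hki => hkσ (hki ▸ hi)), neg_zero]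
    rw [B_neg_left, B_comm (e k) (e j)] at hle
    linarith

end Pool.Agent.H62.M4
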