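import Pool.Agent.H62.M4.Spec
import Pool.Agent.H62.M4.Lor
import Pool.Agent.H62.M4.MinL

/-!
MP_6c826d_gt (S13329), module A4 (helper95): assembly of `Facts`.
-/

set_option autoImplicit false

namespace Pool.Agent.H62.M4

open Finset

variable {n : ℕ}

theorem facts_of_RA {e : Fin n → V5} (h : RA e)
    (hdich : ∀ i j, i ≠ j → (∃ x, InP e x ∧ B x (e i) = 0 ∧ B x (e j) = 0) ∨ B (e i) (e j) < -1)
    (hflag : ∀ σ : Finset (Fin n), (∀ i ∈ σ, ∀ j ∈ σ, i ≠ j → B (e i) (e j) = 0) →
      ∃ x, InP e x ∧ ∀ i ∈ σ, B x (e i) = 0)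
    (hext : ∀ σ : Finset (Fin n), (∀ i ∈ σ, ∀ j ∈ σ, i ≠ j → B (e i) (e j) = 0) → σ.card ≤ 3 →
      ∃ m, m ∉ σ ∧ ∀ i ∈ σ, B (e i) (e m) = 0)
    (hflip : ∀ i j k l, Q4 e i j k l → ∃ l', l' ≠ l ∧ Q4 e i j k l') : Facts e := by
  classical
  have hd : ∀ i j, i ≠ j → B (e i) (e j) = 0 ∨ B (e i) (e j) < -1 := by
    intro i j hij
    rcases hdich i j hij with ⟨x, ⟨hx, hx0, hxP⟩, hi, hj⟩ | hlt
    · exact Or.inl (h.right i j hij ⟨x, hx, hx0, hxP, hi, hj⟩)
    · exact Or.inr hlt
  have hvert : ∀ i j k l, Q4 e i j k l → ∃ v, IsVert e i j k l v := by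
    intro i j k l ⟨hij, hik, hil, hjk, hjl, hkl⟩
    have hσ : ∀ a ∈ ({i, j, k, l} : Finset (Fin n)), ∀ b ∈ ({i, j, k, l} : Finset (Fin n)),
        a ≠ b → B (e a) (e b) = 0 := by
      intro a ha b hb hab
      simp only [mem_insert, mem_singleton] at ha hb
      rcases ha with rfl | rfl | rfl | rfl <;> rcases hb with rfl | rfl | rfl | rfl <;>
        first
          | exact absurd rfl hab
          | exact hij.2
          | exact hik.2
          | exact hil.2
          | exact hjk.2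
          | exact hjl.2
          | exact hkl.2
          | exact hij.symm.2
          | exact hik.symm.2
          | exact hil.symm.2
          | exact hjk.symm.2
          | exact hjl.symm.2
          | exact hkl.symm.2
    obtain ⟨v, ⟨hv, hv0, hvP⟩, hvz⟩ := hflag _ hσ
    have vi := hvz i (by simp)
    have vj := hvz j (by simp)
    have vk := hvz k (by simp)
    have vl := hvz l (by simp)
    refine ⟨v, hv, hv0, vi, vj, vk, vl, ?_⟩
    intro m hmi hmj hmk hml
    refine lt_of_le_of_ne (hvP m) ?_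
    intro h0
    have r1 := h.right i m hmi.symm ⟨v, hv, hv0, hvP, vi, h0⟩
    have r2 := h.right j m hmj.symm ⟨v, hv, hv0, hvP, vj, h0⟩
    have r3 := h.right k m hmk.symm ⟨v, hv, hv0, hvP, vk, h0⟩
    have r4 := h.right l m hml.symm ⟨v, hv, hv0, hvP, vl, h0⟩
    exact no_five_orth (h.norm i) (h.norm j) (h.norm k) (h.norm l) (h.norm m) hij.2 hik.2 hil.2
      hjk.2 hjl.2 hkl.2 r1 r2 r3 r4
  have e3 : ∀ i j k, Adj e i j → Adj e i k → Adj e j k → ∃ l, Q4 e i j k l := by
    intro i j k hij hik hjk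
    have hσ : ∀ a ∈ ({i, j, k} : Finset (Fin n)), ∀ b ∈ ({i, j, k} : Finset (Fin n)),
        a ≠ b → B (e a) (e b) = 0 := by
      intro a ha b hb hab
      simp only [mem_insert, mem_singleton] at ha hb
      rcases ha with rfl | rfl | rfl <;> rcases hb with rfl | rfl | rfl <;>
        first
          | exact absurd rfl hab
          | exact hij.2
          | exact hik.2
          | exact hjk.2
          | exact hij.symm.2
          | exact hik.symm.2
          | exact hjk.symm.2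
    obtain ⟨m, hm, hm'⟩ := hext _ hσ (card_le_three)
    simp only [mem_insert, mem_singleton, not_or] at hm
    exact ⟨m, hij, hik, ⟨fun h0 => hm.1 h0.symm, hm' i (by simp)⟩, hjk,
      ⟨fun h0 => hm.2.1 h0.symm, hm' j (by simp)⟩, ⟨fun h0 => hm.2.2 h0.symm, hm' k (by simp)⟩⟩
  have e2 : ∀ i j, Adj e i j → ∃ k l, Q4 e i j k l := by
    intro i j hij
    have hσ : ∀ a ∈ ({i, j} : Finset (Fin n)), ∀ b ∈ ({i, j} : Finset (Fin n)),
        a ≠ b → B (e a) (e b) = 0 := by
      intro a ha b hb hab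
      simp only [mem_insert, mem_singleton] at ha hb
      rcases ha with rfl | rfl <;> rcases hb with rfl | rfl <;>
        first
          | exact absurd rfl hab
          | exact hij.2
          | exact hij.symm.2
    obtain ⟨m, hm, hm'⟩ := hext _ hσ (card_le_two.trans (by norm_num))
    simp only [mem_insert, mem_singleton, not_or] at hm
    obtain ⟨l, hl⟩ := e3 i j m hij ⟨fun h0 => hm.1 h0.symm, hm' i (by simp)⟩
      ⟨fun h0 => hm.2 h0.symm, hm' j (by simp)⟩
    exact ⟨m, l, hl⟩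
  have e1 : ∀ i, ∃ j k l, Q4 e i j k l := by
    intro i
    obtain ⟨m, hm, hm'⟩ := hext {i} (by
      intro a ha b hb hab
      simp only [mem_singleton] at ha hb
      exact absurd (ha.trans hb.symm) hab) (by simp)
    simp only [mem_singleton] at hm
    obtain ⟨k, l, hl⟩ := e2 i m ⟨fun h0 => hm h0.symm, hm' i (by simp)⟩
    exact ⟨m, k, l, hl⟩
  have e0 : ∃ i j k l, Q4 e i j k l := by
    obtain ⟨m, _, _⟩ := hext ∅ (by simp) (by simp)
    obtain ⟨j, k, l, hl⟩ := e1 m
    exact ⟨m, j, k, l, hl⟩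
  refine ⟨h.norm, hd, hvert, ?_, e0, e1, e2, e3⟩
  intro i j k l hQ
  obtain ⟨l', hl', hQ'⟩ := hflip i j k l hQ
  refine ⟨l', hl', hQ', ?_⟩
  intro m hQm
  by_contra hcon
  push Not at hcon
  obtain ⟨hml, hml'⟩ := hcon
  obtain ⟨v, hv, hv0, vi, vj, vk, vl, vm⟩ := hvert i j k l hQ
  obtain ⟨hij, hik, hil, hjk, hjl, hkl⟩ := hQ
  obtain ⟨_, _, hil', _, hjl', hkl'⟩ := hQ'
  obtain ⟨_, _, him, _, hjm, hkm⟩ := hQm
  have a1 : B v (e l') < 0 := vm l' hil'.1.symm hjl'.1.symm hkl'.1.symm hl'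
  have a2 : B v (e m) < 0 := vm m him.1.symm hjm.1.symm hkm.1.symm hml
  have key : ∀ x y : V5, B x (e i) = 0 → B x (e j) = 0 → B x (e k) = 0 →
      B x y = B x (e l) * B y (e l) - B x v * B y v := by
    intro x y x1 x2 x3
    have := frame_form (h.norm i) (h.norm j) (h.norm k) (h.norm l) hv hij.2 hik.2 hil.2 hjk.2
      hjl.2 hkl.2 vi vj vk vl x y
    rw [this, x1, x2, x3]
    ring
  have k1 := key (e l') (e l') hil'.symm.2 hjl'.symm.2 hkl'.symm.2
  have k2 := key (e m) (e m) him.symm.2 hjm.symm.2 hkm.symm.2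
  have k3 := key (e l') (e m) hil'.symm.2 hjl'.symm.2 hkl'.symm.2
  rw [h.norm l', B_comm (e l') v] at k1
  rw [h.norm m, B_comm (e m) v] at k2
  rw [B_comm (e l') v, B_comm (e m) v] at k3
  have b1 : B (e l') (e l) < -1 := by
    rcases hd l' l hl' with h0 | h0
    · rw [h0] at k1; nlinarith
    · exact h0
  have b2 : B (e m) (e l) < -1 := by
    rcases hd m l hml with h0 | h0
    · rw [h0] at k2; nlinarith
    · exact h0
  have c1 : B v (e l') * B v (e m) < B (e l') (e l) * B (e m) (e l) := by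
    have s1 : -B v (e l') < -B (e l') (e l) := by nlinarith
    have s2 : -B v (e m) < -B (e m) (e l) := by nlinarith
    have := mul_lt_mul'' s1 s2 (by linarith) (by linarith)
    linarith [neg_mul_neg (B v (e l')) (B v (e m)), neg_mul_neg (B (e l') (e l)) (B (e m) (e l))]
  rcases hd l' m (fun h0 => hml' h0.symm) with h0 | h0
  · rw [h0] at k3; linarith
  · linarith

end Pool.Agent.H62.M4
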