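import Pool.Agent.H62.M4.Spec

/-!
MP_6c826d_gt (S13329), m_4 = 120.  The lower bound from the specifications of all modules.
-/

set_option autoImplicit false

namespace Pool.Agent.H62.M4

open Finset

variable {n : ℕ}

open Classical in
theorem sum_x (e : Fin n → V5) (hE : EulerSpec e) (i : Fin n) :
    (∑ j ∈ univ.filter (fun j => Adj e i j), ((mm e i j : ℝ) - 5)) = (deg e i : ℝ) - 12 := by
  have h := hE i
  have h' : (∑ j ∈ univ.filter (fun j => Adj e i j), (mm e i j : ℝ)) + 12 = 6 * (deg e i : ℝ) := by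
    exact_mod_cast h
  rw [Finset.sum_sub_distrib]
  simp only [Finset.sum_const, nsmul_eq_mul]
  have : ((univ.filter (fun j => Adj e i j)).card : ℝ) = (deg e i : ℝ) := rfl
  rw [this]
  linarith

theorem three_x (e : Fin n → V5) (h5 : FiveSpec e) (hE : EulerSpec e) {i j k l : Fin n}
    (hij : Adj e i j) (hik : Adj e i k) (hil : Adj e i l) (hjk : j ≠ k) (hjl : j ≠ l)
    (hkl : k ≠ l) :
    ((mm e i j : ℝ) - 5) + ((mm e i k : ℝ) - 5) + ((mm e i l : ℝ) - 5) ≤ (deg e i : ℝ) - 12 := by
  classical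
  rw [← sum_x e hE i]
  have hsub : ({j, k, l} : Finset (Fin n)) ⊆ univ.filter (fun j => Adj e i j) := by
    intro m hm
    simp only [Finset.mem_insert, Finset.mem_singleton] at hm
    simp only [Finset.mem_filter, Finset.mem_univ, true_and]
    rcases hm with rfl | rfl | rfl <;> assumption
  have hle := Finset.sum_le_sum_of_subset_of_nonneg hsub
    (f := fun j => ((mm e i j : ℝ) - 5)) (by
      intro m hm _
      simp only [Finset.mem_filter, Finset.mem_univ, true_and] at hm
      have := h5 i m hm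
      have : (5 : ℝ) ≤ mm e i m := by exact_mod_cast this
      linarith)
  rw [Finset.sum_insert (by simp [hjk, hjl]), Finset.sum_insert (by simp [hkl]),
    Finset.sum_singleton] at hle
  linarith

theorem ff_nonneg (e : Fin n → V5) (h5 : FiveSpec e) (hE : EulerSpec e) {i j k l : Fin n}
    (h : Q4 e i j k l) : 0 ≤ ff e i j k l := by
  obtain ⟨hij, hik, hil, hjk, hjl, hkl⟩ := h
  have a1 := three_x e h5 hE hij hik hil hjk.1 hjl.1 hkl.1
  have a2 := three_x e h5 hE hij.symm hjk hjl hik.1 hil.1 hkl.1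
  have a3 := three_x e h5 hE hik.symm hjk.symm hkl hij.1 hil.1 hjl.1
  have a4 := three_x e h5 hE hil.symm hjl.symm hkl.symm hij.1 hik.1 hjk.1
  rw [mm_comm e j i] at a2
  rw [mm_comm e k i, mm_comm e k j] at a3
  rw [mm_comm e l i, mm_comm e l j, mm_comm e l k] at a4
  have b1 : (5 : ℝ) ≤ mm e i j := by exact_mod_cast h5 _ _ hij
  have b2 : (5 : ℝ) ≤ mm e i k := by exact_mod_cast h5 _ _ hik
  have b3 : (5 : ℝ) ≤ mm e i l := by exact_mod_cast h5 _ _ hil
  have b4 : (5 : ℝ) ≤ mm e j k := by exact_mod_cast h5 _ _ hjk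
  have b5 : (5 : ℝ) ≤ mm e j l := by exact_mod_cast h5 _ _ hjl
  have b6 : (5 : ℝ) ≤ mm e k l := by exact_mod_cast h5 _ _ hkl
  unfold ff
  linarith

theorem twelve_le (e : Fin n → V5) (h5 : FiveSpec e) (hE : EulerSpec e) (i : Fin n) :
    (12 : ℝ) ≤ deg e i := by
  classical
  have h := sum_x e hE i
  have : 0 ≤ ∑ j ∈ univ.filter (fun j => Adj e i j), ((mm e i j : ℝ) - 5) := by
    apply Finset.sum_nonneg
    intro m hm
    simp only [Finset.mem_filter, Finset.mem_univ, true_and] at hm
    have : (5 : ℝ) ≤ mm e i m := by exact_mod_cast h5 i m hm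
    linarith
  linarith

/-- the lower bound -/
theorem lower_bound (e : Fin n → V5) (F : Facts e) (h5 : FiveSpec e) (hE : EulerSpec e)
    (hP2 : P2Spec e) (hRing : RingSpec e) (hSing : SingSpec e) (hF18 : F18Spec e)
    (hMany : ManySpec e) : 120 ≤ n := by
  classical
  by_contra hn
  have hn' : n ≤ 119 := by omega
  have hnr : (n : ℝ) ≤ 119 := by exact_mod_cast hn'
  have hE0 : 0 ≤ EE e := by
    unfold EE
    have : 0 ≤ ∑ i, ((deg e i : ℝ) - 12) :=
      Finset.sum_nonneg (fun i _ => by have := twelve_le e h5 hE i; linarith)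
    linarith
  -- a regular facet exists
  have hreg : ∃ c, deg e c = 12 := by
    by_contra hno
    push Not at hno
    have h13 : ∀ i, (1 : ℝ) ≤ (deg e i : ℝ) - 12 := by
      intro i
      have h1 := twelve_le e h5 hE i
      have h2 : 12 ≤ deg e i := by exact_mod_cast h1
      have h3 : 13 ≤ deg e i := by have := hno i; omega
      have : (13 : ℝ) ≤ deg e i := by exact_mod_cast h3
      linarith
    have hEE : (n : ℝ) / 2 ≤ EE e := by
      unfold EE
      have : (∑ _i : Fin n, (1 : ℝ)) ≤ ∑ i, ((deg e i : ℝ) - 12) :=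
        Finset.sum_le_sum (fun i _ => h13 i)
      rw [Finset.sum_const, nsmul_eq_mul, Finset.card_univ, Fintype.card_fin] at this
      linarith
    obtain ⟨i, j, k, l, hQ⟩ := F.ext0
    have hp := hP2 i j k l hQ
    have hf := ff_nonneg e h5 hE hQ
    linarith
  obtain ⟨c, hc⟩ := hreg
  have hmany := hMany (by omega) c hc
  set S := univ.filter (fun z => deg e z ≠ 12 ∧ ∃ c', Adj e z c' ∧ deg e c' = 12) with hS
  -- E ≥ 30
  have hE30 : 30 ≤ EE e := by
    unfold EE
    have h1 : ∑ z ∈ S, ((deg e z : ℝ) - 12) ≤ ∑ i, ((deg e i : ℝ) - 12) :=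
      Finset.sum_le_univ_sum_of_nonneg (fun i => by have := twelve_le e h5 hE i; linarith)
    have h2 : ∑ z ∈ S, (5 : ℝ) ≤ ∑ z ∈ S, ((deg e z : ℝ) - 12) := by
      apply Finset.sum_le_sum
      intro z hz
      rw [hS, Finset.mem_filter] at hz
      obtain ⟨_, hz1, c', hzc, hc'⟩ := hz
      obtain ⟨R⟩ := hRing z c' hzc hc'
      have h17 := (hSing z c' R hc' hz1).S1
      have : (17 : ℝ) ≤ deg e z := by exact_mod_cast h17
      linarith
    have h3 : (60 : ℝ) ≤ ∑ z ∈ S, (5 : ℝ) := by
      rw [Finset.sum_const, nsmul_eq_mul]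
      have : (12 : ℝ) ≤ S.card := by exact_mod_cast hmany
      linarith
    linarith
  -- a singular facet adjacent to a regular one
  have hex : S.Nonempty := Finset.card_pos.mp (by omega)
  obtain ⟨z, hz⟩ := hex
  rw [hS, Finset.mem_filter] at hz
  obtain ⟨_, hz1, c', hzc, hc'⟩ := hz
  obtain ⟨i, j, k, l, hQ, hff⟩ := hF18 z c' hzc hc' hz1
  have hp := hP2 i j k l hQ
  have : (119 : ℝ) < n := by
    by_contra hcon
    push Not at hcon
    nlinarith
  have : 119 < n := by exact_mod_cast this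
  omega

end Pool.Agent.H62.M4
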