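import Pool.Agent.H62.M4.Defs

/-!
MP_6c826d_gt (S13329), existence part: the 120 unit icosians (data, checked in the kernel) and the
120 normals `e120` of the regular right-angled 120-cell.
The doubled coordinates `a + b φ` (`a, b ∈ {-2,...,2}`) are the digits of `icoCode` in base 5.
-/

set_option autoImplicit false
set_option maxRecDepth 100000

namespace Pool.Agent.H62.M4

/-- the digits (base 5) of the doubled coordinates -/
def icoCode : ℕ := 55582248169018270292780621043707944609591553306309955469661448265030619261686616138845720947607502011787754317194797411245143039275202599387892416326718252755371399827835624872735567134508513544135686329781685759118490329110931191447221869110306724729968304722915470549032272712955088535440902227179077381728957184866004024415605050656746443647803495457602313779763539612643730033159613251118915501953204456349745608288371543124212578863653110922224867957875951238301268641896188082657701301869452911355346824649054732155771875171040259087126419481502246143430259709237322824930780430554037905080027003568815324433289204613676538688701330178832845820727496962357555664064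

/-- rational part of the doubled coordinate -/
def icoA (i k : ℕ) : ℤ := ((icoCode / 5 ^ (8 * i + 2 * k) % 5 : ℕ) : ℤ) - 2

/-- coefficient of `φ` in the doubled coordinate -/
def icoB (i k : ℕ) : ℤ := ((icoCode / 5 ^ (8 * i + 2 * k + 1) % 5 : ℕ) : ℤ) - 2

/-- four times the inner product, rational part -/
def icoP (i j : ℕ) : ℤ :=
  (icoA i 0 * icoA j 0 + icoB i 0 * icoB j 0) + (icoA i 1 * icoA j 1 + icoB i 1 * icoB j 1)
  + (icoA i 2 * icoA j 2 + icoB i 2 * icoB j 2) + (icoA i 3 * icoA j 3 + icoB i 3 * icoB j 3)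

/-- four times the inner product, coefficient of `φ` -/
def icoQ (i j : ℕ) : ℤ :=
  (icoA i 0 * icoB j 0 + icoB i 0 * icoA j 0 + icoB i 0 * icoB j 0)
  + (icoA i 1 * icoB j 1 + icoB i 1 * icoA j 1 + icoB i 1 * icoB j 1)
  + (icoA i 2 * icoB j 2 + icoB i 2 * icoA j 2 + icoB i 2 * icoB j 2)
  + (icoA i 3 * icoB j 3 + icoB i 3 * icoA j 3 + icoB i 3 * icoB j 3)

/-- the check of a pair -/
def icoChk (i j : ℕ) : Bool :=
  let p := icoP i j
  let q := icoQ i j
  (p == 0 && q == 2) || (p == 2 && q == 0) || (p == -2 && q == 2) || (p == 0 && q == 0) ||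
  (p == -2 && q == 0) || (p == 2 && q == -2) || (p == 0 && q == -2) || (p == -4 && q == 0)

theorem ico_chk :
    (List.range 120).all (fun i => (List.range i).all (fun j => icoChk i j)) = true := by
  decide +kernel

theorem ico_chk_diag :
    (List.range 120).all (fun i => icoP i i == 4 && icoQ i i == 0) = true := by
  decide +kernel

/-- the unit icosians, as vectors of `ℝ⁴` -/
noncomputable def ico (i : Fin 120) (k : Fin 4) : ℝ :=
  ((icoA i k : ℝ) + (icoB i k : ℝ) * φ) / 2

theorem ico_dot_eq (i j : Fin 120) :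
    ico i 0 * ico j 0 + ico i 1 * ico j 1 + ico i 2 * ico j 2 + ico i 3 * ico j 3
      = ((icoP i j : ℝ) + (icoQ i j : ℝ) * φ) / 4 := by
  have h := φ_sq
  simp only [ico, icoP, icoQ, Fin.val_zero, Fin.val_one, Fin.val_two]
  have h3 : ((3 : Fin 4) : ℕ) = 3 := rfl
  rw [h3]
  push_cast
  linear_combination (((icoB i 0 : ℝ) * icoB j 0 + icoB i 1 * icoB j 1 + icoB i 2 * icoB j 2
    + icoB i 3 * icoB j 3) / 4) * h

theorem ico_norm (i : Fin 120) : ico i 0 ^ 2 + ico i 1 ^ 2 + ico i 2 ^ 2 + ico i 3 ^ 2 = 1 := by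
  have h := ico_dot_eq i i
  have hc := List.all_eq_true.1 ico_chk_diag i.val (List.mem_range.2 i.isLt)
  simp only [Bool.and_eq_true, beq_iff_eq] at hc
  rw [hc.1, hc.2] at h
  push_cast at h
  linear_combination h

theorem ico_dot_aux (p q : ℤ)
    (h : ((p == 0 && q == 2) || (p == 2 && q == 0) || (p == -2 && q == 2) || (p == 0 && q == 0) ||
      (p == -2 && q == 0) || (p == 2 && q == -2) || (p == 0 && q == -2) || (p == -4 && q == 0))
      = true) :
    ((p : ℝ) + (q : ℝ) * φ) / 4 = φ / 2 ∨ ((p : ℝ) + (q : ℝ) * φ) / 4 ≤ 1 / 2 := by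
  have h1 := one_lt_φ
  have h2 := φ_lt_two
  simp only [Bool.or_eq_true, Bool.and_eq_true, beq_iff_eq] at h
  rcases h with ((((((h | h) | h) | h) | h) | h) | h) | h <;> obtain ⟨rfl, rfl⟩ := h <;>
    push_cast
  · left; ring
  all_goals right; linarith

theorem ico_dot (i j : Fin 120) (hij : i ≠ j) :
    ico i 0 * ico j 0 + ico i 1 * ico j 1 + ico i 2 * ico j 2 + ico i 3 * ico j 3 = φ / 2 ∨
    ico i 0 * ico j 0 + ico i 1 * ico j 1 + ico i 2 * ico j 2 + ico i 3 * ico j 3 ≤ 1 / 2 := by
  rcases lt_or_gt_of_ne (fun h => hij (Fin.ext h) : (i : ℕ) ≠ (j : ℕ)) with hlt | hlt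
  · have hc := List.all_eq_true.1 (List.all_eq_true.1 ico_chk j.val (List.mem_range.2 j.isLt))
      i.val (List.mem_range.2 hlt)
    have := ico_dot_aux _ _ hc
    rw [← ico_dot_eq] at this
    simpa only [mul_comm (ico j _) (ico i _)] using this
  · have hc := List.all_eq_true.1 (List.all_eq_true.1 ico_chk i.val (List.mem_range.2 i.isLt))
      j.val (List.mem_range.2 hlt)
    have := ico_dot_aux _ _ hc
    rwa [← ico_dot_eq] at this

/-- the normals of the regular right-angled 120-cell -/
noncomputable def e120 (i : Fin 120) : V5 :=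
  ![√(φ ^ 3), √2 * φ * ico i 0, √2 * φ * ico i 1, √2 * φ * ico i 2, √2 * φ * ico i 3]

theorem e120_zero (i : Fin 120) : e120 i 0 = √(φ ^ 3) := rfl
theorem e120_one (i : Fin 120) : e120 i 1 = √2 * φ * ico i 0 := rfl
theorem e120_two (i : Fin 120) : e120 i 2 = √2 * φ * ico i 1 := rfl
theorem e120_three (i : Fin 120) : e120 i 3 = √2 * φ * ico i 2 := rfl
theorem e120_four (i : Fin 120) : e120 i 4 = √2 * φ * ico i 3 := rfl

theorem e120_form (i j : Fin 120) : B (e120 i) (e120 j) = - φ ^ 3 + 2 * φ ^ 2 *
    (ico i 0 * ico j 0 + ico i 1 * ico j 1 + ico i 2 * ico j 2 + ico i 3 * ico j 3) := by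
  have h3 : √(φ ^ 3) * √(φ ^ 3) = φ ^ 3 := Real.mul_self_sqrt (by have := φ_pos; positivity)
  have h2 : √(2 : ℝ) * √2 = 2 := Real.mul_self_sqrt (by norm_num)
  simp only [B, e120_zero, e120_one, e120_two, e120_three, e120_four]
  linear_combination (-1) * h3 + (φ ^ 2 * (ico i 0 * ico j 0 + ico i 1 * ico j 1
    + ico i 2 * ico j 2 + ico i 3 * ico j 3)) * h2

theorem φ_cube : φ ^ 3 = 2 * φ + 1 := by
  have h := φ_sq
  linear_combination (φ + 1) * h

theorem e120_self (i : Fin 120) : B (e120 i) (e120 i) = 1 := by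
  rw [e120_form]
  have h := ico_norm i
  have h3 := φ_cube
  have h2 := φ_sq
  linear_combination (2 * φ ^ 2) * h - h3 + 2 * h2

theorem e120_dich (i j : Fin 120) (hij : i ≠ j) :
    B (e120 i) (e120 j) = 0 ∨ B (e120 i) (e120 j) ≤ -φ := by
  rw [e120_form]
  have h3 := φ_cube
  have h2 := φ_sq
  rcases ico_dot i j hij with h | h
  · left; rw [h]; ring
  · right
    have : 2 * φ ^ 2 * (ico i 0 * ico j 0 + ico i 1 * ico j 1 + ico i 2 * ico j 2
        + ico i 3 * ico j 3) ≤ 2 * φ ^ 2 * (1 / 2) :=
      mul_le_mul_of_nonneg_left h (by positivity)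
    linarith

end Pool.Agent.H62.M4
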