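import Pool.Agent.H62.M4.Spec
import Pool.Agent.H62.M4.Lor

/-!
MP_6c826d_gt (S13329), m_4 = 120.  Module K: combinatorics of links.
-/

set_option autoImplicit false

namespace Pool.Agent.H62.M4

open Finset

variable {n : ℕ}

theorem noFive {e : Fin n → V5} (F : Facts e) : NoFive e := by
  rintro i j k l m ⟨hij, hik, hil, hjk, hjl, hkl⟩ ⟨him, hjm, hkm, hlm⟩
  exact no_five_orth (F.norm i) (F.norm j) (F.norm k) (F.norm l) (F.norm m) hij.2 hik.2 hil.2
    hjk.2 hjl.2 hkl.2 him.2 hjm.2 hkm.2 hlm.2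

theorem noSq {e : Fin n → V5} (F : Facts e) : NoSq e := by
  intro a b c d hac hbd hab hbc hcd hda
  by_contra hcon
  rw [not_or] at hcon
  have h1 : B (e a) (e c) < -1 := (F.dich a c hac).resolve_left fun h => hcon.1 ⟨hac, h⟩
  have h2 : B (e b) (e d) < -1 := (F.dich b d hbd).resolve_left fun h => hcon.2 ⟨hbd, h⟩
  exact no_two_planes (F.norm a) (F.norm b) (F.norm c) (F.norm d) h1 h2 hab.2 hbc.2 hcd.2 hda.2

/-! ### The link of a pair -/

theorem Lk.swap {e : Fin n → V5} {i j k l : Fin n} (h : Q4 e i j k l) : Q4 e i j l k :=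
  ⟨h.1, h.2.2.1, h.2.1, h.2.2.2.2.1, h.2.2.2.1, h.2.2.2.2.2.symm⟩

theorem Lk.nb {e : Fin n → V5} (F : Facts e) {i j b a c m : Fin n} (h1 : Q4 e i j b a)
    (h2 : Q4 e i j b c) (hac : c ≠ a) (h3 : Q4 e i j b m) : m = a ∨ m = c := by
  obtain ⟨l', -, -, hl⟩ := F.two i j b a h1
  rcases hl c h2 with hc | hc
  · exact absurd hc hac
  · rw [hc]
    exact hl m h3

theorem Lk.other {e : Fin n → V5} (F : Facts e) {i j b a : Fin n} (h1 : Q4 e i j b a) :
    ∃ c, c ≠ a ∧ Q4 e i j b c := by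
  obtain ⟨l', h2, h3, -⟩ := F.two i j b a h1
  exact ⟨l', h2, h3⟩

theorem Lk.tri {e : Fin n → V5} (F : Facts e) {i j a b c : Fin n} (h1 : Q4 e i j a b)
    (h2 : Q4 e i j b c) : ¬ Adj e a c := by
  intro h3
  exact noFive F i j a b c h1 ⟨h2.2.2.1, h2.2.2.2.2.1, h3, h2.2.2.2.2.2⟩

theorem Lk.sq {e : Fin n → V5} (F : Facts e) {i j a b c d : Fin n} (h1 : Q4 e i j a b)
    (h2 : Q4 e i j b c) (h3 : Q4 e i j c d) (hac : c ≠ a) (hbd : d ≠ b) : ¬ Adj e d a := by
  intro h4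
  rcases noSq F a b c d hac.symm hbd.symm h1.2.2.2.2.2 h2.2.2.2.2.2 h3.2.2.2.2.2 h4 with h | h
  · exact Lk.tri F h1 h2 h
  · exact Lk.tri F h2 h3 h

/-- five consecutive members of a link -/
theorem Lk.path {e : Fin n → V5} (F : Facts e) {i j k l : Fin n} (h : Q4 e i j k l) :
    ∃ c2 c3 c4 : Fin n, Q4 e i j l c2 ∧ Q4 e i j c2 c3 ∧ Q4 e i j c3 c4 ∧ k ≠ l ∧ k ≠ c2 ∧
      k ≠ c3 ∧ k ≠ c4 ∧ l ≠ c2 ∧ l ≠ c3 ∧ l ≠ c4 ∧ c2 ≠ c3 ∧ c2 ≠ c4 ∧ c3 ≠ c4 := by
  obtain ⟨c2, h2, q2⟩ := Lk.other F (Lk.swap h)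
  obtain ⟨c3, h3, q3⟩ := Lk.other F (Lk.swap q2)
  obtain ⟨c4, h4, q4⟩ := Lk.other F (Lk.swap q3)
  refine ⟨c2, c3, c4, q2, q3, q4, h.2.2.2.2.2.1, h2.symm, ?_, ?_, q2.2.2.2.2.2.1, h3.symm, ?_,
    q3.2.2.2.2.2.1, h4.symm, q4.2.2.2.2.2.1⟩
  · rintro rfl
    exact Lk.tri F h q2 q3.2.2.2.2.2.symm
  · rintro rfl
    exact Lk.sq F h q2 q3 h2 h3 q4.2.2.2.2.2
  · rintro rfl
    exact Lk.tri F q2 q3 q4.2.2.2.2.2.symm

open Classical in
/-- the link as a finite set -/
noncomputable def Lk.lk (e : Fin n → V5) (i j : Fin n) : Finset (Fin n) :=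
  univ.filter fun k => Adj e i k ∧ Adj e j k

theorem Lk.mem {e : Fin n → V5} {i j k : Fin n} : k ∈ Lk.lk e i j ↔ Adj e i k ∧ Adj e j k := by
  simp [Lk.lk]

theorem Lk.card_eq (e : Fin n → V5) (i j : Fin n) : (Lk.lk e i j).card = mm e i j := rfl

theorem Lk.mem_left {e : Fin n → V5} {i j k l : Fin n} (h : Q4 e i j k l) : k ∈ Lk.lk e i j :=
  Lk.mem.mpr ⟨h.2.1, h.2.2.2.1⟩

theorem Lk.mem_right {e : Fin n → V5} {i j k l : Fin n} (h : Q4 e i j k l) : l ∈ Lk.lk e i j :=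
  Lk.mem.mpr ⟨h.2.2.1, h.2.2.2.2.1⟩

theorem five {e : Fin n → V5} (F : Facts e) : FiveSpec e := by
  intro i j hij
  obtain ⟨k, l, h⟩ := F.ext2 i j hij
  obtain ⟨c2, c3, c4, q2, q3, q4, n01, n02, n03, n04, n12, n13, n14, n23, n24, n34⟩ :=
    Lk.path F h
  rw [← Lk.card_eq]
  have hsub : ({k, l, c2, c3, c4} : Finset (Fin n)) ⊆ Lk.lk e i j := by
    intro m hm
    simp only [mem_insert, mem_singleton] at hm
    rcases hm with rfl | rfl | rfl | rfl | rfl
    · exact Lk.mem_left h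
    · exact Lk.mem_right h
    · exact Lk.mem_left q3
    · exact Lk.mem_left q4
    · exact Lk.mem_right q4
  have hcard : ({k, l, c2, c3, c4} : Finset (Fin n)).card = 5 := by
    simp [n01, n02, n03, n04, n12, n13, n14, n23, n24, n34]
  calc 5 = ({k, l, c2, c3, c4} : Finset (Fin n)).card := hcard.symm
    _ ≤ (Lk.lk e i j).card := card_le_card hsub

theorem pent {e : Fin n → V5} (F : Facts e) : Pent e := by
  intro i j k l h hm5
  obtain ⟨c2, c3, c4, q2, q3, q4, n01, n02, n03, n04, n12, n13, n14, n23, n24, n34⟩ :=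
    Lk.path F h
  rw [← Lk.card_eq] at hm5
  have hsub : ({k, l, c2, c3, c4} : Finset (Fin n)) ⊆ Lk.lk e i j := by
    intro m hm
    simp only [mem_insert, mem_singleton] at hm
    rcases hm with rfl | rfl | rfl | rfl | rfl
    · exact Lk.mem_left h
    · exact Lk.mem_right h
    · exact Lk.mem_left q3
    · exact Lk.mem_left q4
    · exact Lk.mem_right q4
  have hcard : ({k, l, c2, c3, c4} : Finset (Fin n)).card = 5 := by
    simp [n01, n02, n03, n04, n12, n13, n14, n23, n24, n34]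
  have heq : ({k, l, c2, c3, c4} : Finset (Fin n)) = Lk.lk e i j :=
    eq_of_subset_of_card_le hsub (by rw [hcard, hm5])
  have hall : ∀ m, Adj e i m → Adj e j m → m = k ∨ m = l ∨ m = c2 ∨ m = c3 ∨ m = c4 := by
    intro m h1 h2
    have : m ∈ ({k, l, c2, c3, c4} : Finset (Fin n)) := by
      rw [heq]; exact Lk.mem.mpr ⟨h1, h2⟩
    simpa only [mem_insert, mem_singleton] using this
  -- the fifth side closes up
  have q5 : Q4 e i j c4 k := by
    obtain ⟨c5, h5, q5⟩ := Lk.other F (Lk.swap q4)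
    rcases hall c5 q5.2.2.1 q5.2.2.2.2.1 with rfl | rfl | rfl | rfl | rfl
    · exact q5
    · rcases Lk.nb F (Lk.swap h) q2 n02.symm (Lk.swap q5) with h' | h'
      · exact absurd h'.symm n04
      · exact absurd h'.symm n24
    · exact absurd q5.2.2.2.2.2.symm (Lk.tri F q3 q4)
    · exact absurd rfl h5
    · exact absurd rfl q5.2.2.2.2.2.1
  refine ⟨![k, l, c2, c3, c4], ?_, rfl, rfl, ?_, ?_, ?_⟩
  · intro a b hab
    fin_cases a <;> fin_cases b <;> first | rfl | (exfalso; simp at hab; tauto)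
  · intro t
    fin_cases t
    exacts [h, q2, q3, q4, q5]
  · intro m h1 h2
    rcases hall m h1 h2 with rfl | rfl | rfl | rfl | rfl
    exacts [⟨0, rfl⟩, ⟨1, rfl⟩, ⟨2, rfl⟩, ⟨3, rfl⟩, ⟨4, rfl⟩]
  · intro t
    fin_cases t
    exacts [Lk.tri F h q2, Lk.tri F q2 q3, Lk.tri F q3 q4, Lk.tri F q4 q5,
      Lk.tri F q5 h]

theorem hex {e : Fin n → V5} (F : Facts e) : Hex e := by
  intro i j k l h hm6
  obtain ⟨c2, c3, c4, q2, q3, q4, n01, n02, n03, n04, n12, n13, n14, n23, n24, n34⟩ :=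
    Lk.path F h
  rw [← Lk.card_eq] at hm6
  obtain ⟨c5, h5, q5⟩ := Lk.other F (Lk.swap q4)
  -- `c5` is different from the previous ones
  have m1 : l ≠ c5 := by
    rintro rfl
    rcases Lk.nb F (Lk.swap h) q2 n02.symm (Lk.swap q5) with h' | h'
    · exact n04 h'.symm
    · exact n24 h'.symm
  have m2 : c2 ≠ c5 := by
    rintro rfl
    exact Lk.tri F q3 q4 q5.2.2.2.2.2.symm
  have m3 : c3 ≠ c5 := h5.symm
  have m4 : c4 ≠ c5 := q5.2.2.2.2.2.1
  have m0 : k ≠ c5 := by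
    rintro rfl
    -- a sixth element of the link
    obtain ⟨m, hm, hm'⟩ : ∃ m ∈ Lk.lk e i j, m ∉ ({k, l, c2, c3, c4} : Finset (Fin n)) := by
      by_contra hcon
      push Not at hcon
      have h1 := card_le_card (show Lk.lk e i j ⊆ ({k, l, c2, c3, c4} : Finset (Fin n)) from hcon)
      have h2 : ({k, l, c2, c3, c4} : Finset (Fin n)).card = 5 := by
        simp [n01, n02, n03, n04, n12, n13, n14, n23, n24, n34]
      omega
    simp only [mem_insert, mem_singleton, not_or] at hm'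
    obtain ⟨r0, r1, r2, r3, r4⟩ := hm'
    obtain ⟨x, qx⟩ := F.ext3 i j m h.1 (Lk.mem.mp hm).1 (Lk.mem.mp hm).2
    have hx : ∀ x, Q4 e i j m x → x ≠ k ∧ x ≠ l ∧ x ≠ c2 ∧ x ≠ c3 ∧ x ≠ c4 := by
      intro x qx
      refine ⟨?_, ?_, ?_, ?_, ?_⟩
      · rintro rfl
        rcases Lk.nb F (Lk.swap q5) h n14 (Lk.swap qx) with h' | h'
        · exact r4 h'
        · exact r1 h'
      · rintro rfl
        rcases Lk.nb F (Lk.swap h) q2 n02.symm (Lk.swap qx) with h' | h'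
        · exact r0 h'
        · exact r2 h'
      · rintro rfl
        rcases Lk.nb F (Lk.swap q2) q3 n13.symm (Lk.swap qx) with h' | h'
        · exact r1 h'
        · exact r3 h'
      · rintro rfl
        rcases Lk.nb F (Lk.swap q3) q4 n24.symm (Lk.swap qx) with h' | h'
        · exact r2 h'
        · exact r4 h'
      · rintro rfl
        rcases Lk.nb F (Lk.swap q4) q5 n03 (Lk.swap qx) with h' | h'
        · exact r3 h'
        · exact r0 h'
    obtain ⟨s0, s1, s2, s3, s4⟩ := hx x qx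
    have smx : m ≠ x := qx.2.2.2.2.2.1
    have hsub : ({k, l, c2, c3, c4, m, x} : Finset (Fin n)) ⊆ Lk.lk e i j := by
      intro y hy
      simp only [mem_insert, mem_singleton] at hy
      rcases hy with rfl | rfl | rfl | rfl | rfl | rfl | rfl
      · exact Lk.mem_left h
      · exact Lk.mem_right h
      · exact Lk.mem_left q3
      · exact Lk.mem_left q4
      · exact Lk.mem_right q4
      · exact hm
      · exact Lk.mem_right qx
    have hc7 : ({k, l, c2, c3, c4, m, x} : Finset (Fin n)).card = 7 := by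
      simp [n01, n02, n03, n04, n12, n13, n14, n23, n24, n34, Ne.symm r0, Ne.symm r1,
        Ne.symm r2, Ne.symm r3, Ne.symm r4, Ne.symm s0, Ne.symm s1, Ne.symm s2, Ne.symm s3,
        Ne.symm s4, smx]
    have := card_le_card hsub
    omega
  have hsub : ({k, l, c2, c3, c4, c5} : Finset (Fin n)) ⊆ Lk.lk e i j := by
    intro m hm
    simp only [mem_insert, mem_singleton] at hm
    rcases hm with rfl | rfl | rfl | rfl | rfl | rfl
    · exact Lk.mem_left h
    · exact Lk.mem_right h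
    · exact Lk.mem_left q3
    · exact Lk.mem_left q4
    · exact Lk.mem_right q4
    · exact Lk.mem_right q5
  have hcard : ({k, l, c2, c3, c4, c5} : Finset (Fin n)).card = 6 := by
    simp [n01, n02, n03, n04, n12, n13, n14, n23, n24, n34, m0, m1, m2, m3, m4]
  have heq : ({k, l, c2, c3, c4, c5} : Finset (Fin n)) = Lk.lk e i j :=
    eq_of_subset_of_card_le hsub (by rw [hcard, hm6])
  have hall : ∀ m, Adj e i m → Adj e j m →
      m = k ∨ m = l ∨ m = c2 ∨ m = c3 ∨ m = c4 ∨ m = c5 := by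
    intro m h1 h2
    have : m ∈ ({k, l, c2, c3, c4, c5} : Finset (Fin n)) := by
      rw [heq]; exact Lk.mem.mpr ⟨h1, h2⟩
    simpa only [mem_insert, mem_singleton] using this
  have q6 : Q4 e i j c5 k := by
    obtain ⟨c6, h6, q6⟩ := Lk.other F (Lk.swap q5)
    rcases hall c6 q6.2.2.1 q6.2.2.2.2.1 with rfl | rfl | rfl | rfl | rfl | rfl
    · exact q6
    · rcases Lk.nb F (Lk.swap h) q2 n02.symm (Lk.swap q6) with h' | h'
      · exact absurd h'.symm m0
      · exact absurd h'.symm m2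
    · rcases Lk.nb F (Lk.swap q2) q3 n13.symm (Lk.swap q6) with h' | h'
      · exact absurd h'.symm m1
      · exact absurd h'.symm m3
    · exact absurd q6.2.2.2.2.2.symm (Lk.tri F q4 q5)
    · exact absurd rfl h6
    · exact absurd rfl q6.2.2.2.2.2.1
  refine ⟨![k, l, c2, c3, c4, c5], ?_, rfl, rfl, ?_, ?_, ?_, ?_⟩
  · intro a b hab
    fin_cases a <;> fin_cases b <;> first | rfl | (exfalso; simp at hab; tauto)
  · intro t
    fin_cases t
    exacts [h, q2, q3, q4, q5, q6]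
  · intro m h1 h2
    rcases hall m h1 h2 with rfl | rfl | rfl | rfl | rfl | rfl
    exacts [⟨0, rfl⟩, ⟨1, rfl⟩, ⟨2, rfl⟩, ⟨3, rfl⟩, ⟨4, rfl⟩, ⟨5, rfl⟩]
  · intro t
    fin_cases t
    exacts [Lk.tri F h q2, Lk.tri F q2 q3, Lk.tri F q3 q4, Lk.tri F q4 q5,
      Lk.tri F q5 q6, Lk.tri F q6 h]
  · intro t
    fin_cases t
    exacts [fun hh => Lk.sq F h q2 q3 n02.symm n13.symm hh.symm,
      fun hh => Lk.sq F q2 q3 q4 n13.symm n24.symm hh.symm,
      fun hh => Lk.sq F q3 q4 q5 n24.symm m3.symm hh.symm,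
      fun hh => Lk.sq F h q2 q3 n02.symm n13.symm hh,
      fun hh => Lk.sq F q2 q3 q4 n13.symm n24.symm hh,
      fun hh => Lk.sq F q3 q4 q5 n24.symm m3.symm hh]

end Pool.Agent.H62.M4
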