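import Pool.Agent.H62.M4.Defs

/-!
MP_6c826d_gt (S13329), module G: interface between the data file Cell.lean and Many.lean.
-/

set_option autoImplicit false

namespace Pool.Agent.H62.M4

/-- the form in the frame of a corner: `e_0, e_1, e_2, e_3` unit spacelike, `V` with `V·V = -φ` -/
noncomputable def fr (x y : Fin 5 → ℝ) : ℝ :=
  x 0 * y 0 + x 1 * y 1 + x 2 * y 2 + x 3 * y 3 - φ * (x 4 * y 4)

/-- `x` is one of the nine vectors given by `RegSpec` at the corner `(·; a, b, c)` with vertex `V` -/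
def Nine (a b c V x : Fin 5 → ℝ) : Prop :=
  x = V - φ • a ∨ x = V - φ • b ∨ x = V - φ • c ∨
  x = φ • V - φ • a - φ • b ∨ x = φ • V - φ • a - φ • c ∨ x = φ • V - φ • b - φ • c ∨
  x = φ ^ 2 • V - φ ^ 2 • a - φ • b - φ • c ∨
  x = φ ^ 2 • V - φ ^ 2 • b - φ • a - φ • c ∨
  x = φ ^ 2 • V - φ ^ 2 • c - φ • a - φ • b

/-- the combinatorial model of the regular right-angled 120-cell -/
structure Model where
  X : Fin 120 → Fin 5 → ℝ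
  adj : Fin 120 → Fin 120 → Prop
  inj : Function.Injective X
  X0 : X 0 = ![1, 0, 0, 0, 0]
  X1 : X 1 = ![0, 1, 0, 0, 0]
  X2 : X 2 = ![0, 0, 1, 0, 0]
  X3 : X 3 = ![0, 0, 0, 1, 0]
  adj_symm : ∀ w w', adj w w' → adj w' w
  adj_ne : ∀ w w', adj w w' → w ≠ w'
  orth : ∀ w w', adj w w' → fr (X w) (X w') = 0
  base : adj 0 1 ∧ adj 0 2 ∧ adj 0 3 ∧ adj 1 2 ∧ adj 1 3 ∧ adj 2 3
  nine0 : ∀ w, adj 0 w → w = 1 ∨ w = 2 ∨ w = 3 ∨ Nine (X 1) (X 2) (X 3) ![0, 0, 0, 0, 1] (X w)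
  corn : ∀ w' w, adj w' w → ∃ (w1 w2 : Fin 120) (V : Fin 5 → ℝ), adj w' w1 ∧ adj w' w2 ∧
    adj w w1 ∧ adj w w2 ∧ adj w1 w2 ∧ fr V V = -φ ∧ fr V (X w') = 0 ∧ fr V (X w) = 0 ∧
    fr V (X w1) = 0 ∧ fr V (X w2) = 0 ∧ 0 < V 4 ∧
    ∀ w'', adj w' w'' → w'' = w ∨ w'' = w1 ∨ w'' = w2 ∨ Nine (X w) (X w1) (X w2) V (X w'')
  paths : ∀ w, w ≠ 0 → ¬ adj 0 w → ∃ P : Fin 12 → List (Fin 120),
    (∀ i, List.IsChain adj (0 :: (P i ++ [w]))) ∧ (∀ i, ∀ u ∈ P i, u ≠ 0 ∧ u ≠ w) ∧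
    ∀ i j, i ≠ j → List.Disjoint (P i) (P j)

end Pool.Agent.H62.M4
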