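import Pool.Agent.H62.M4.Spec
import Pool.Agent.H62.M4.Lor
import Pool.Agent.H62.M4.Model

/-!
G2: propagation from a regular facet, with the combinatorial model of the 120-cell as argument.
-/

set_option autoImplicit false

namespace Pool.Agent.H62.M4

open Finset

variable {n : ℕ}

/-- the vector with coordinates `x` in the frame -/
noncomputable def xi (f0 f1 f2 f3 V : V5) (x : Fin 5 → ℝ) : V5 :=
  x 0 • f0 + x 1 • f1 + x 2 • f2 + x 3 • f3 + x 4 • V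

/-- an orthogonal frame, `V·V = -φ`, `V = √φ v` -/
structure Frm (f0 f1 f2 f3 v : V5) : Prop where
  n0 : B f0 f0 = 1
  n1 : B f1 f1 = 1
  n2 : B f2 f2 = 1
  n3 : B f3 f3 = 1
  o01 : B f0 f1 = 0
  o02 : B f0 f2 = 0
  o03 : B f0 f3 = 0
  o12 : B f1 f2 = 0
  o13 : B f1 f3 = 0
  o23 : B f2 f3 = 0
  vv : B v v = -1
  vpos : 0 < v 0
  v0 : B v f0 = 0
  v1 : B v f1 = 0
  v2 : B v f2 = 0
  v3 : B v f3 = 0

theorem sqrtφ : √φ * √φ = φ := Real.mul_self_sqrt φ_pos.le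

section
variable {f0 f1 f2 f3 v : V5}

theorem xi_sub (V : V5) (x y : Fin 5 → ℝ) :
    xi f0 f1 f2 f3 V (x - y) = xi f0 f1 f2 f3 V x - xi f0 f1 f2 f3 V y := by
  unfold xi
  simp only [Pi.sub_apply, sub_smul]
  abel

theorem xi_smul (V : V5) (a : ℝ) (x : Fin 5 → ℝ) :
    xi f0 f1 f2 f3 V (a • x) = a • xi f0 f1 f2 f3 V x := by
  unfold xi
  simp only [Pi.smul_apply, smul_eq_mul, smul_add, mul_smul]

theorem xi_form (H : Frm f0 f1 f2 f3 v) (x y : Fin 5 → ℝ) :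
    B (xi f0 f1 f2 f3 (√φ • v) x) (xi f0 f1 f2 f3 (√φ • v) y) = fr x y := by
  unfold xi fr
  simp only [B_add_left, B_add_right, B_smul_left, B_smul_right, H.n0, H.n1, H.n2, H.n3, H.o01,
    H.o02, H.o03, H.o12, H.o13, H.o23, H.vv, H.v0, H.v1, H.v2, H.v3, B_comm f1 f0, B_comm f2 f0,
    B_comm f3 f0, B_comm f2 f1, B_comm f3 f1, B_comm f3 f2, B_comm f0 v, B_comm f1 v, B_comm f2 v,
    B_comm f3 v]
  have h := sqrtφ
  linear_combination (-(x 4 * y 4)) * h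

theorem xi_v (H : Frm f0 f1 f2 f3 v) (x : Fin 5 → ℝ) :
    B v (xi f0 f1 f2 f3 (√φ • v) x) = -(√φ * x 4) := by
  unfold xi
  simp only [B_add_right, B_smul_right, H.vv, H.v0, H.v1, H.v2, H.v3]
  ring

theorem xi_inj (H : Frm f0 f1 f2 f3 v) {x y : Fin 5 → ℝ}
    (h : xi f0 f1 f2 f3 (√φ • v) x = xi f0 f1 f2 f3 (√φ • v) y) : x = y := by
  have hs : 0 < √φ := Real.sqrt_pos.2 φ_pos
  have c4 : x 4 = y 4 := by
    have h1 := xi_v H x
    have h2 := xi_v H y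
    rw [h] at h1
    have h3 : √φ * x 4 = √φ * y 4 := by linarith
    exact mul_left_cancel₀ hs.ne' h3
  have key : ∀ z : V5, B (xi f0 f1 f2 f3 (√φ • v) x) z = B (xi f0 f1 f2 f3 (√φ • v) y) z := by
    intro z; rw [h]
  have c0 := key f0
  have c1 := key f1
  have c2 := key f2
  have c3 := key f3
  unfold xi at c0 c1 c2 c3
  simp only [B_add_left, B_smul_left, H.n0, H.n1, H.n2, H.n3, H.o01,
    H.o02, H.o03, H.o12, H.o13, H.o23, H.v0, H.v1, H.v2, H.v3, B_comm f1 f0, B_comm f2 f0,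
    B_comm f3 f0, B_comm f2 f1, B_comm f3 f1, B_comm f3 f2, mul_zero, mul_one, add_zero,
    zero_add] at c0 c1 c2 c3
  funext i
  fin_cases i
  · exact c0
  · exact c1
  · exact c2
  · exact c3
  · exact c4

end

theorem Q4.rot {e : Fin n → V5} {i j k l : Fin n} (h : Q4 e i j k l) : Q4 e i k l j :=
  ⟨h.2.1, h.2.2.1, h.1, h.2.2.2.2.2, h.2.2.2.1.symm, h.2.2.2.2.1.symm⟩

theorem IsVert.rot {e : Fin n → V5} {i j k l : Fin n} {v : V5} (h : IsVert e i j k l v) :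
    IsVert e i k l j v :=
  ⟨h.1, h.2.1, h.2.2.1, h.2.2.2.2.1, h.2.2.2.2.2.1, h.2.2.2.1,
    fun m h1 h2 h3 h4 => h.2.2.2.2.2.2 m h1 h4 h2 h3⟩

theorem frm_of_corner {e : Fin n → V5} (F : Facts e) {i j k l : Fin n} {v : V5}
    (hQ : Q4 e i j k l) (hv : IsVert e i j k l v) : Frm (e i) (e j) (e k) (e l) v where
  n0 := F.norm _
  n1 := F.norm _
  n2 := F.norm _
  n3 := F.norm _
  o01 := hQ.1.2
  o02 := hQ.2.1.2
  o03 := hQ.2.2.1.2
  o12 := hQ.2.2.2.1.2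
  o13 := hQ.2.2.2.2.1.2
  o23 := hQ.2.2.2.2.2.2
  vv := hv.1
  vpos := hv.2.1
  v0 := hv.2.2.1
  v1 := hv.2.2.2.1
  v2 := hv.2.2.2.2.1
  v3 := hv.2.2.2.2.2.1

/-- the nine neighbours at a corner of a regular facet, in coordinates -/
theorem corner_nine {e : Fin n → V5} (F : Facts e) (hR : RegSpec e) {f0 f1 f2 f3 v : V5}
    (H : Frm f0 f1 f2 f3 v) {i0 i1 i2 i3 : Fin n} (hQ : Q4 e i0 i1 i2 i3) (hdeg : deg e i0 = 12)
    {a0 a b c V : Fin 5 → ℝ} (h0 : e i0 = xi f0 f1 f2 f3 (√φ • v) a0)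
    (h1 : e i1 = xi f0 f1 f2 f3 (√φ • v) a) (h2 : e i2 = xi f0 f1 f2 f3 (√φ • v) b)
    (h3 : e i3 = xi f0 f1 f2 f3 (√φ • v) c) (hVV : fr V V = -φ) (hV0 : fr V a0 = 0)
    (hV1 : fr V a = 0) (hV2 : fr V b = 0) (hV3 : fr V c = 0) (hpos : 0 < V 4)
    {x : Fin 5 → ℝ} (hx : Nine a b c V x) :
    ∃ m, e m = xi f0 f1 f2 f3 (√φ • v) x := by
  obtain ⟨v', hv'⟩ := F.vert i0 i1 i2 i3 hQ
  have H' := frm_of_corner F hQ hv'
  -- identify the vertex
  set y := xi f0 f1 f2 f3 (√φ • v) V with hy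
  have y0 : B y (e i0) = 0 := by rw [h0, hy, xi_form H]; exact hV0
  have y1 : B y (e i1) = 0 := by rw [h1, hy, xi_form H]; exact hV1
  have y2 : B y (e i2) = 0 := by rw [h2, hy, xi_form H]; exact hV2
  have y3 : B y (e i3) = 0 := by rw [h3, hy, xi_form H]; exact hV3
  have yy : B y y = -φ := by rw [hy, xi_form H]; exact hVV
  have hexp := frame_expand H'.n0 H'.n1 H'.n2 H'.n3 H'.vv H'.o01 H'.o02 H'.o03 H'.o12 H'.o13
    H'.o23 H'.v0 H'.v1 H'.v2 H'.v3 y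
  rw [y0, y1, y2, y3] at hexp
  simp only [zero_smul, zero_add, zero_sub] at hexp
  set lam : ℝ := -(B y v') with hlam
  have hyl : y = lam • v' := by rw [hexp, hlam, neg_smul]
  have hl2 : lam * lam = φ := by
    have h4 := yy
    rw [hyl, B_smul_left, B_smul_right, H'.vv] at h4
    linarith
  have hs : 0 < √φ := Real.sqrt_pos.2 φ_pos
  have ypos : 0 < y 0 := by
    apply time_pos_of H.vv H.vpos
    · rw [yy]; linarith [φ_pos]
    · rw [hy, xi_v H]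
      have := mul_pos hs hpos
      linarith
  have lpos : 0 < lam := by
    rw [hyl] at ypos
    simp only [Pi.smul_apply, smul_eq_mul] at ypos
    by_contra hc
    push Not at hc
    have := mul_nonpos_of_nonpos_of_nonneg hc H'.vpos.le
    linarith
  have hls : lam = √φ := by
    rw [← hl2, Real.sqrt_mul_self lpos.le]
  rw [hls] at hyl
  have r1 := hR i0 i1 i2 i3 v' hdeg hQ hv'
  have r2 := hR i0 i2 i3 i1 v' hdeg hQ.rot hv'.rot
  have r3 := hR i0 i3 i1 i2 v' hdeg hQ.rot.rot hv'.rot.rot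
  have e1 : √φ • v' = xi f0 f1 f2 f3 (√φ • v) V := by rw [← hyl]
  have e2 : (φ * √φ) • v' = φ • xi f0 f1 f2 f3 (√φ • v) V := by rw [mul_smul, e1]
  have e3 : (φ ^ 2 * √φ) • v' = φ ^ 2 • xi f0 f1 f2 f3 (√φ • v) V := by rw [mul_smul, e1]
  rw [e1, e2, e3, h1, h2, h3] at r1 r2 r3
  obtain ⟨⟨m1, _, p1⟩, ⟨m2, _, p2⟩, ⟨m3, _, p3⟩⟩ := r1
  obtain ⟨⟨m4, _, p4⟩, ⟨m5, _, p5⟩, ⟨m6, _, p6⟩⟩ := r2
  obtain ⟨⟨m7, _, p7⟩, ⟨m8, _, p8⟩, ⟨m9, _, p9⟩⟩ := r3
  rcases hx with rfl | rfl | rfl | rfl | rfl | rfl | rfl | rfl | rfl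
  · exact ⟨m1, by rw [p1, xi_sub, xi_smul]⟩
  · exact ⟨m4, by rw [p4, xi_sub, xi_smul]⟩
  · exact ⟨m7, by rw [p7, xi_sub, xi_smul]⟩
  · exact ⟨m2, by simp only [xi_sub, xi_smul]; exact p2⟩
  · exact ⟨m8, by simp only [xi_sub, xi_smul]; rw [p8]; abel⟩
  · exact ⟨m5, by simp only [xi_sub, xi_smul]; exact p5⟩
  · exact ⟨m3, by simp only [xi_sub, xi_smul]; exact p3⟩
  · exact ⟨m6, by simp only [xi_sub, xi_smul]; rw [p6]; abel⟩
  · exact ⟨m9, by simp only [xi_sub, xi_smul]; exact p9⟩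

theorem many_of_model (M : Model) {e : Fin n → V5} (F : Facts e) (hR : RegSpec e) : ManySpec e := by
  classical
  intro hn c hc
  obtain ⟨j, k, l, hQ⟩ := F.ext1 c
  obtain ⟨v, hv⟩ := F.vert c j k l hQ
  have H := frm_of_corner F hQ hv
  set ξ : (Fin 5 → ℝ) → V5 := xi (e c) (e j) (e k) (e l) (√φ • v) with hξ
  -- unit vectors
  have u0 : e c = ξ (M.X 0) := by rw [M.X0]; simp [hξ, xi]
  have u1 : e j = ξ (M.X 1) := by rw [M.X1]; simp [hξ, xi]
  have u2 : e k = ξ (M.X 2) := by rw [M.X2]; simp [hξ, xi]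
  have u3 : e l = ξ (M.X 3) := by rw [M.X3]; simp [hξ, xi]
  -- adjacency of realised neighbours
  have hadj : ∀ w w' m m', M.adj w w' → e m = ξ (M.X w) → e m' = ξ (M.X w') → Adj e m m' := by
    intro w w' m m' h1 h2 h3
    have h4 : B (e m) (e m') = 0 := by rw [h2, h3, hξ, xi_form H]; exact M.orth w w' h1
    refine ⟨?_, h4⟩
    rintro rfl
    rw [F.norm] at h4
    exact one_ne_zero h4
  have hinj : ∀ w w' m, e m = ξ (M.X w) → e m = ξ (M.X w') → w = w' := by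
    intro w w' m h1 h2
    exact M.inj (xi_inj H (h1.symm.trans h2))
  set Good : Fin 120 → Prop := fun w => ∃ m, e m = ξ (M.X w) ∧ deg e m = 12 ∧
    ∀ w', M.adj w w' → ∃ m', e m' = ξ (M.X w') with hGood
  -- the start
  have good0 : Good 0 := by
    refine ⟨c, u0, hc, fun w hw => ?_⟩
    rcases M.nine0 w hw with rfl | rfl | rfl | h
    · exact ⟨j, u1⟩
    · exact ⟨k, u2⟩
    · exact ⟨l, u3⟩
    · refine corner_nine F hR H hQ hc u0 u1 u2 u3 (V := ![0, 0, 0, 0, 1]) ?_ ?_ ?_ ?_ ?_ ?_ h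
      · simp [fr]
      · rw [M.X0]; simp [fr]
      · rw [M.X1]; simp [fr]
      · rw [M.X2]; simp [fr]
      · rw [M.X3]; simp [fr]
      · show (0 : ℝ) < 1
        exact one_pos
  -- propagation
  have prop : ∀ w w' m', Good w → M.adj w w' → e m' = ξ (M.X w') → deg e m' = 12 → Good w' := by
    rintro w w' m' ⟨m, hm, hdm, hnb⟩ hww hm' hd
    obtain ⟨w1, w2, V, a1, a2, a3, a4, a5, hVV, hV0, hV, hV1, hV2, hpos, hall⟩ :=
      M.corn w' w (M.adj_symm _ _ hww)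
    obtain ⟨m1, hm1⟩ := hnb w1 a3
    obtain ⟨m2, hm2⟩ := hnb w2 a4
    have hQ' : Q4 e m' m m1 m2 := ⟨hadj _ _ _ _ (M.adj_symm _ _ hww) hm' hm,
      hadj _ _ _ _ a1 hm' hm1, hadj _ _ _ _ a2 hm' hm2, hadj _ _ _ _ a3 hm hm1,
      hadj _ _ _ _ a4 hm hm2, hadj _ _ _ _ a5 hm1 hm2⟩
    refine ⟨m', hm', hd, fun w'' hw'' => ?_⟩
    rcases hall w'' hw'' with rfl | rfl | rfl | h
    · exact ⟨m, hm⟩
    · exact ⟨m1, hm1⟩
    · exact ⟨m2, hm2⟩
    · exact corner_nine F hR H hQ' hd hm' hm hm1 hm2 hVV hV0 hV hV1 hV2 hpos h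
  -- some vertex is not realised
  have hex : ∃ t, ¬ ∃ m, e m = ξ (M.X t) := by
    by_contra hcon
    push Not at hcon
    choose f hf using hcon
    have finj : Function.Injective f := by
      intro w w' h
      exact hinj w w' (f w) (hf w) (by rw [h]; exact hf w')
    have := Fintype.card_le_of_injective f finj
    simp only [Fintype.card_fin] at this
    omega
  obtain ⟨t, ht⟩ := hex
  have ht0 : t ≠ 0 := by
    rintro rfl
    exact ht ⟨c, u0⟩
  have ht1 : ¬ M.adj 0 t := by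
    intro h
    obtain ⟨m, _, _, hnb⟩ := good0
    exact ht (hnb t h)
  obtain ⟨P, hP1, _, hP3⟩ := M.paths t ht0 ht1
  -- the first vertex of a path which is not good
  have first : ∀ (L : List (Fin 120)) (a : Fin 120), Good a → List.IsChain M.adj (a :: (L ++ [t])) →
      ∃ x ∈ L, ∃ y, Good y ∧ M.adj y x ∧ ¬ Good x := by
    intro L
    induction L with
    | nil =>
      intro a ha hch
      exfalso
      obtain ⟨m, _, _, hnb⟩ := ha
      apply ht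
      apply hnb
      simpa using hch
    | cons x L ih =>
      intro a ha hch
      rw [List.cons_append, List.isChain_cons_cons] at hch
      by_cases hx : Good x
      · obtain ⟨x', h1, h2⟩ := ih x hx hch.2
        exact ⟨x', List.mem_cons_of_mem _ h1, h2⟩
      · exact ⟨x, List.mem_cons_self, a, ha, hch.1, hx⟩
  have sel : ∀ i : Fin 12, ∃ z : Fin n, (deg e z ≠ 12 ∧ ∃ c', Adj e z c' ∧ deg e c' = 12) ∧
      ∃ x ∈ P i, e z = ξ (M.X x) := by
    intro i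
    obtain ⟨x, hx, y, hy, hyx, hnx⟩ := first (P i) 0 good0 (hP1 i)
    have hy' := hy
    obtain ⟨m, hm, hdm, hnb⟩ := hy
    obtain ⟨z, hz⟩ := hnb x hyx
    refine ⟨z, ⟨?_, m, (hadj _ _ _ _ hyx hm hz).symm, hdm⟩, x, hx, hz⟩
    intro hd
    exact hnx (prop y x z hy' hyx hz hd)
  choose z hz1 x hx1 hx2 using sel
  have zinj : Function.Injective z := by
    intro i i' h
    by_contra hne
    have h1 : x i = x i' := hinj _ _ (z i) (hx2 i) (by rw [h]; exact hx2 i')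
    exact hP3 i i' hne (hx1 i) (by rw [h1]; exact hx1 i')
  have hcard : (univ.image z).card = 12 := by
    rw [Finset.card_image_of_injective _ zinj]; simp
  refine le_of_eq_of_le hcard.symm ?_
  apply Finset.card_le_card
  intro w hw
  obtain ⟨i, _, rfl⟩ := Finset.mem_image.1 hw
  rw [Finset.mem_filter]
  exact ⟨Finset.mem_univ _, hz1 i⟩

end Pool.Agent.H62.M4
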