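import Pool.Agent.H62.M4.Spec

/-!
MP_6c826d_gt (S13329), module S5: the geometric contradiction for the two remaining configurations
(`NASpec`): exactly two hexagons among the five `p t` and at most one `k t` not a pentagon.
-/

set_option autoImplicit false

namespace Pool.Agent.H62.M4

open Finset

section h36NA

variable {n : ℕ} {e : Fin n → V5} {z c : Fin n}

theorem h36_swap {i j k l : Fin n} (h : Q4 e i j k l) : Q4 e i j l k :=
  ⟨h.1, h.2.2.1, h.2.1, h.2.2.2.2.1, h.2.2.2.1, h.2.2.2.2.2.symm⟩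

theorem h36_mid {i j k l : Fin n} (h : Q4 e i j k l) : Q4 e i k j l :=
  ⟨h.2.1, h.1, h.2.2.1, h.2.2.2.1.symm, h.2.2.2.2.2, h.2.2.2.2.1⟩

theorem h36_mk {i j k l : Fin n} (h1 : Adj e i j) (h2 : Adj e i k) (h3 : Adj e i l)
    (h4 : Adj e j k) (h5 : Adj e j l) (h6 : Adj e k l) : Q4 e i j k l := ⟨h1, h2, h3, h4, h5, h6⟩

theorem h36_two (F : Facts e) {i j k a x y : Fin n} (ha : Q4 e i j k a) (hx : Q4 e i j k x)
    (hxa : x ≠ a) (hy : Q4 e i j k y) (hya : y ≠ a) : x = y := by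
  obtain ⟨l', -, -, hm⟩ := F.two i j k a ha
  rcases hm x hx with h | h
  · exact absurd h hxa
  · rcases hm y hy with h' | h'
    · exact absurd h' hya
    · rw [h, h']

/-- completing a pentagon `a, b, b', u, a'` -/
theorem h36_pent (F : Facts e) (hP : Pent e) {i j a b a' b' : Fin n} (h0 : Q4 e i j a b)
    (hm : mm e i j = 5) (hb : Q4 e i j b b') (hba : b' ≠ a) (ha : Q4 e i j a a') (hab : a' ≠ b) :
    ∃ u, Q4 e i j b' u ∧ Q4 e i j u a' ∧ u ≠ a ∧ u ≠ b ∧ u ≠ b' ∧ u ≠ a' := by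
  obtain ⟨d, hinj, hd0, hd1, hQ, -, -⟩ := hP i j a b h0 hm
  have hne : ∀ s t : Fin 5, s ≠ t → d s ≠ d t := fun s t hst h => hst (hinj h)
  have h12 : Q4 e i j (d 1) (d 2) := hQ 1
  have h23 : Q4 e i j (d 2) (d 3) := hQ 2
  have h34 : Q4 e i j (d 3) (d 4) := hQ 3
  have h40 : Q4 e i j (d 4) (d 0) := hQ 4
  have e2 : b' = d 2 := by
    refine h36_two F (h36_swap h0) hb hba (by rw [← hd1]; exact h12) ?_
    rw [← hd0]; exact hne 2 0 (by decide)
  have e4 : a' = d 4 := by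
    refine h36_two F h0 ha hab (by rw [← hd0]; exact h36_swap h40) ?_
    rw [← hd1]; exact hne 4 1 (by decide)
  refine ⟨d 3, ?_, ?_, ?_, ?_, ?_, ?_⟩
  · rw [e2]; exact h23
  · rw [e4]; exact h34
  · rw [← hd0]; exact hne 3 0 (by decide)
  · rw [← hd1]; exact hne 3 1 (by decide)
  · rw [e2]; exact hne 3 2 (by decide)
  · rw [e4]; exact hne 3 4 (by decide)

/-- completing a hexagon `a, b, b', b'', u, a'` -/
theorem h36_hex (F : Facts e) (hH : Hex e) {i j a b a' b' b'' : Fin n} (h0 : Q4 e i j a b)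
    (hm : mm e i j = 6) (hb : Q4 e i j b b') (hba : b' ≠ a) (hb' : Q4 e i j b' b'')
    (hbb : b'' ≠ b) (ha : Q4 e i j a a') (hab : a' ≠ b) :
    ∃ u, Q4 e i j b'' u ∧ Q4 e i j u a' ∧ u ≠ a ∧ u ≠ b ∧ u ≠ b' := by
  obtain ⟨d, hinj, hd0, hd1, hQ, -, -⟩ := hH i j a b h0 hm
  have hne : ∀ s t : Fin 6, s ≠ t → d s ≠ d t := fun s t hst h => hst (hinj h)
  have h12 : Q4 e i j (d 1) (d 2) := hQ 1
  have h23 : Q4 e i j (d 2) (d 3) := hQ 2
  have h34 : Q4 e i j (d 3) (d 4) := hQ 3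
  have h45 : Q4 e i j (d 4) (d 5) := hQ 4
  have h50 : Q4 e i j (d 5) (d 0) := hQ 5
  have e2 : b' = d 2 := by
    refine h36_two F (h36_swap h0) hb hba (by rw [← hd1]; exact h12) ?_
    rw [← hd0]; exact hne 2 0 (by decide)
  have e3 : b'' = d 3 := by
    refine h36_two F (h36_swap hb) hb' hbb (by rw [e2]; exact h23) ?_
    rw [← hd1]; exact hne 3 1 (by decide)
  have e5 : a' = d 5 := by
    refine h36_two F h0 ha hab (by rw [← hd0]; exact h36_swap h50) ?_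
    rw [← hd1]; exact hne 5 1 (by decide)
  refine ⟨d 4, ?_, ?_, ?_, ?_, ?_⟩
  · rw [e3]; exact h34
  · rw [e5]; exact h45
  · rw [← hd0]; exact hne 4 0 (by decide)
  · rw [← hd1]; exact hne 4 1 (by decide)
  · rw [e2]; exact hne 4 2 (by decide)

theorem h36_zk (R : RingD e z c) (t : Fin 5) : Adj e z (R.k t) := (R.kQ t).2.2.1
theorem h36_zp (R : RingD e z c) (t : Fin 5) : Adj e z (R.p t) := (R.pQ t).2.1
theorem h36_cp (R : RingD e z c) (t : Fin 5) : Adj e c (R.p t) := (R.pQ t).2.2.2.1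

theorem h36_ck (hNF : NoFive e) (R : RingD e z c) (t : Fin 5) : ¬ Adj e c (R.k t) := fun h =>
  hNF _ _ _ _ (R.k t) (R.pQ t) ⟨(R.kQ t).2.2.1, h, (R.kQ t).2.2.2.2.1, (R.kQ t).2.2.2.2.2⟩

/-- `p s ~ k t` only for `s = t` and `s = t + 1` -/
theorem h36_pk (hNF : NoFive e) (hNS : NoSq e) (R : RingD e z c) (s t : Fin 5)
    (h : Adj e (R.p s) (R.k t)) : s = t ∨ s = t + 1 := by
  have key : ∀ r : Fin 5, s ≠ r → ¬ Adj e (R.p s) (R.p r) → Adj e (R.p r) (R.k t) → False := by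
    intro r hsr hn hr
    rcases hNS c (R.p s) (R.k t) (R.p r) (R.kc t).symm (fun h' => hsr (R.pinj h'))
      (h36_cp R s) h hr.symm (h36_cp R r).symm with h' | h'
    · exact h36_ck hNF R t h'
    · exact hn h'
  have h1 : Adj e (R.p t) (R.k t) := (R.kQ t).2.2.2.2.1
  have h2 : Adj e (R.p (t + 1)) (R.k t) := (R.kQ t).2.2.2.2.2
  have hs : s = t ∨ s = t + 1 ∨ s = t + 2 ∨ s = t + 3 ∨ s = t + 4 := by
    clear key h h1 h2; revert s t; decide
  rcases hs with hs | hs | hs | hs | hs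
  · exact Or.inl hs
  · exact Or.inr hs
  · exfalso
    refine key t ?_ ?_ h1
    · rw [hs]; clear key h h1 h2 hs; revert t; decide
    · rw [hs]; exact fun h' => R.pnon t h'.symm
  · exfalso
    refine key (t + 1) ?_ ?_ h2
    · rw [hs]; clear key h h1 h2 hs; revert t; decide
    · have e3 : t + 3 = t + 1 + 2 := by clear key h h1 h2 hs; revert t; decide
      rw [hs, e3]; exact fun h' => R.pnon (t + 1) h'.symm
  · exfalso
    refine key (t + 1) ?_ ?_ h2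
    · rw [hs]; clear key h h1 h2 hs; revert t; decide
    · have e3 : t + 1 = t + 4 + 2 := by clear key h h1 h2 hs; revert t; decide
      rw [hs, e3]; exact R.pnon (t + 4)

/-- a facet of `z` adjacent to `k t`, different from `p t` and `p (t+1)`, is away from `c` -/
theorem h36_cu (hNF : NoFive e) (hNS : NoSq e) (R : RingD e z c) (t : Fin 5) {u : Fin n}
    (hz : Adj e z u) (hk : Adj e u (R.k t)) (h0 : u ≠ R.p t) (h1 : u ≠ R.p (t + 1)) :
    u ≠ c ∧ ¬ Adj e c u := by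
  refine ⟨?_, ?_⟩
  · rintro rfl
    exact h36_ck hNF R t hk
  · intro hc
    obtain ⟨s, hs⟩ := R.pall u hz hc
    rw [hs] at hk h0 h1
    rcases h36_pk hNF hNS R s t hk with h | h
    · exact h0 (by rw [h])
    · exact h1 (by rw [h])

theorem h36_kp (hNF : NoFive e) (R : RingD e z c) (s t : Fin 5) :
    R.k t ≠ R.p s := by
  intro h
  exact h36_ck hNF R t (by rw [h]; exact h36_cp R s)

/-- rotation of the ring -/
def h36_rot (R : RingD e z c) (a : Fin 5) : RingD e z c where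
  p t := R.p (t + a)
  q t := R.q (t + a)
  k t := R.k (t + a)
  C t := R.C (t + a)
  zc := R.zc
  pinj := fun s t h => add_right_cancel (R.pinj h)
  pQ := fun t => by
    have h := R.pQ (t + a)
    rwa [add_right_comm] at h
  pall := fun m h1 h2 => by
    obtain ⟨t, ht⟩ := R.pall m h1 h2
    exact ⟨t - a, by rw [sub_add_cancel]; exact ht⟩
  pnon := fun t => by
    have h := R.pnon (t + a)
    rwa [add_right_comm] at h
  qv := fun t => by
    have h := R.qv (t + a)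
    rwa [add_right_comm] at h
  qstep := fun t => by
    have h := R.qstep (t + a)
    rwa [add_right_comm] at h
  pstep := fun t => by
    have h := R.pstep (t + a)
    rwa [add_right_comm] at h
  kQ := fun t => by
    have h := R.kQ (t + a)
    rwa [add_right_comm] at h
  kc := fun t => R.kc (t + a)
  kuniq := fun t m => by
    have h := R.kuniq (t + a) m
    rwa [add_right_comm] at h
  C1 := fun t => R.C1 (t + a)
  kform := fun t => R.kform (t + a)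

theorem h36_a1 (t : Fin 5) : -(t + 1) + 1 = -t := by revert t; decide
theorem h36_a2 (t : Fin 5) : -(t + 2) + 2 = -t := by revert t; decide
theorem h36_a3 (t : Fin 5) : -(t + 1 + 1) = -(t + 2) := by revert t; decide
theorem h36_a4 (t : Fin 5) : -(t + 2) + 1 = -(t + 1) := by revert t; decide

theorem h36_sq : √φ * √φ = φ := Real.mul_self_sqrt φ_pos.le

/-- reflection of the ring -/
noncomputable def h36_refl (R : RingD e z c) : RingD e z c where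
  p t := R.p (-t)
  q t := R.q (-(t + 1))
  k t := R.k (-(t + 1))
  C t := R.C (-(t + 1))
  zc := R.zc
  pinj := fun s t h => neg_injective (R.pinj h)
  pQ := fun t => by
    have h := R.pQ (-(t + 1))
    rw [h36_a1] at h
    exact h36_swap h
  pall := fun m h1 h2 => by
    obtain ⟨t, ht⟩ := R.pall m h1 h2
    exact ⟨-t, by rw [neg_neg]; exact ht⟩
  pnon := fun t => by
    have h := R.pnon (-(t + 2))
    rw [h36_a2] at h
    exact fun h' => h h'.symm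
  qv := fun t => by
    have h := R.qv (-(t + 1))
    rw [h36_a1] at h
    obtain ⟨h1, h2, h3, h4, h5, h6, h7⟩ := h
    exact ⟨h1, h2, h3, h4, h6, h5, fun m m1 m2 m3 m4 => h7 m m1 m2 m4 m3⟩
  qstep := fun t => by
    have h := R.qstep (-(t + 2))
    have h' := R.pstep (-(t + 2))
    rw [h36_a4] at h
    rw [h36_a2] at h'
    rw [h36_a3, h, h', smul_sub, smul_sub, smul_smul, smul_smul, smul_smul, smul_smul, h36_sq]
    have e1 : φ * φ = φ + 1 := by rw [← φ_sq]; ring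
    rw [e1, mul_comm (√φ) φ, add_smul, one_smul]
    abel
  pstep := fun t => by
    have h := R.qstep (-(t + 2))
    have h' := R.pstep (-(t + 2))
    rw [h36_a4] at h
    rw [h36_a2] at h'
    rw [h, h', smul_sub, smul_sub, smul_smul, smul_smul, smul_smul, smul_smul, h36_sq]
    have e1 : φ * φ = φ + 1 := by rw [← φ_sq]; ring
    rw [e1, mul_comm (√φ) φ, add_smul, one_smul]
    abel
  kQ := fun t => by
    have h := R.kQ (-(t + 1))
    rw [h36_a1] at h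
    exact h36_mid h
  kc := fun t => R.kc (-(t + 1))
  kuniq := fun t m h0 => by
    have h := R.kuniq (-(t + 1)) m
    rw [h36_a1] at h
    exact h (h36_mid h0)
  C1 := fun t => R.C1 (-(t + 1))
  kform := fun t => R.kform (-(t + 1))

/-- the sixth facet `w` of the hexagon `z ∩ p (t+1)` -/
theorem h36_w (F : Facts e) (hNF : NoFive e) (hNS : NoSq e) (hH : Hex e) (R : RingD e z c)
    (t : Fin 5) (hm : mm e z (R.p (t + 1)) = 6) :
    ∃ w, Adj e z w ∧ Adj e w (R.p (t + 1)) ∧ Adj e w (R.k t) ∧ Adj e w (R.k (t + 1)) ∧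
      w ≠ c ∧ ¬ Adj e c w ∧ w ≠ R.p t ∧ w ≠ R.p (t + 1) ∧ w ≠ R.p (t + 2) := by
  have e2 : t + 1 + 1 = t + 2 := by clear hm; revert t; decide
  have q0 : Q4 e z (R.p (t + 1)) (R.p t) c := by
    have h := R.pQ t
    exact h36_mk h.2.2.1 h.2.1 h.1 h.2.2.2.2.2.symm h.2.2.2.2.1.symm h.2.2.2.1.symm
  have q1 : Q4 e z (R.p (t + 1)) c (R.p (t + 2)) := by
    have h := R.pQ (t + 1)
    rw [e2] at h
    exact h36_mid h
  have q2 : Q4 e z (R.p (t + 1)) (R.p (t + 2)) (R.k (t + 1)) := by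
    have h := R.kQ (t + 1)
    rwa [e2] at h
  have q3 : Q4 e z (R.p (t + 1)) (R.p t) (R.k t) := h36_mid (R.kQ t)
  have n02 : R.p (t + 2) ≠ R.p t := fun h => absurd (R.pinj h) (by
    clear h q0 q1 q2 q3 hm e2; revert t; decide)
  obtain ⟨w, hw1, hw2, hwa, hwc, hwb⟩ :=
    h36_hex F hH q0 hm q1 n02 q2 (R.kc (t + 1)) q3 (R.kc t)
  have hzw : Adj e z w := hw1.2.2.1
  have hpw : Adj e (R.p (t + 1)) w := hw1.2.2.2.2.1
  have hkw : Adj e (R.k (t + 1)) w := hw1.2.2.2.2.2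
  have hwk : Adj e w (R.k t) := hw2.2.2.2.2.2
  have hw1' : w ≠ R.p (t + 1) := hpw.1.symm
  have hcu := h36_cu hNF hNS R t hzw hwk hwa hw1'
  exact ⟨w, hzw, hpw.symm, hwk, hkw.symm, hcu.1, hcu.2, hwa, hw1', hwb⟩

/-- the fifth facet `u` of the pentagon `z ∩ k t` -/
theorem h36_u (F : Facts e) (hNF : NoFive e) (hNS : NoSq e) (hP : Pent e) (R : RingD e z c)
    (t : Fin 5) (hm : mm e z (R.k t) = 5) {x y : Fin n} (hzx : Adj e z x)
    (hxp : Adj e x (R.p t)) (hxk : Adj e x (R.k t)) (hx : x ≠ R.p (t + 1)) (hzy : Adj e z y)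
    (hyp : Adj e y (R.p (t + 1))) (hyk : Adj e y (R.k t)) (hy : y ≠ R.p t) :
    ∃ u, Adj e z u ∧ Adj e u (R.k t) ∧ Adj e u x ∧ Adj e u y ∧ u ≠ R.p t ∧ u ≠ R.p (t + 1) ∧
      u ≠ c ∧ ¬ Adj e c u := by
  have hk := R.kQ t
  have q0 : Q4 e z (R.k t) (R.p t) (R.p (t + 1)) :=
    h36_mk hk.2.2.1 hk.1 hk.2.1 hk.2.2.2.2.1.symm hk.2.2.2.2.2.symm hk.2.2.2.1
  have q1 : Q4 e z (R.k t) (R.p (t + 1)) y :=
    h36_mk hk.2.2.1 hk.2.1 hzy hk.2.2.2.2.2.symm hyk.symm hyp.symm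
  have q2 : Q4 e z (R.k t) (R.p t) x :=
    h36_mk hk.2.2.1 hk.1 hzx hk.2.2.2.2.1.symm hxk.symm hxp.symm
  obtain ⟨u, h1, h2, ha, hb, -, -⟩ := h36_pent F hP q0 hm q1 hy q2 hx
  have hzu : Adj e z u := h1.2.2.1
  have huk : Adj e u (R.k t) := h1.2.2.2.2.1.symm
  have hcu := h36_cu hNF hNS R t hzu huk ha hb
  exact ⟨u, hzu, huk, h2.2.2.2.2.2, h1.2.2.2.2.2.symm, ha, hb, hcu.1, hcu.2⟩

theorem h36_CC {R : RingD e z c} (A : RingA e z c R) (t : Fin 5) (hm : mm e z (R.p (t + 1)) = 5) :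
    Adj e (R.k t) (R.k (t + 1)) ∧ R.C t * R.C (t + 1) = φ :=
  ⟨(A.pent t).mp hm, (A.kk t).mp ((A.pent t).mp hm)⟩

theorem h36_CC_lt {R : RingD e z c} (A : RingA e z c R) (t : Fin 5) (hm : mm e z (R.p (t + 1)) = 6) :
    R.C t * R.C (t + 1) < φ := by
  have h : ¬ Adj e (R.k t) (R.k (t + 1)) := fun h => by
    have := (A.pent t).mpr h
    omega
  have h1 := A.kk_lt t h
  have h2 := Real.sqrt_nonneg ((R.C t ^ 2 - 1) * (R.C (t + 1) ^ 2 - 1))
  linarith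

/-! ### the algebra -/

theorem h36_alg0 {X m C4 : ℝ} (hX : 1 < X) (hm1 : 1 < m) (hm : φ ≤ m ^ 2) (h3 : X * C4 = φ)
    (h4 : X * m < φ) (h6 : m ≤ X + φ * (X - C4)) : False := by
  have hφ := φ_sq
  have hp := φ_pos
  have h1 := one_lt_φ
  have a1 : m * X ≤ φ ^ 2 * (X ^ 2 - 1) := by nlinarith
  have a0 : 0 < m * X := by positivity
  have a2 : (m * X) ^ 2 < φ ^ 2 := by nlinarith
  have hX2 : 1 < X ^ 2 := by nlinarith
  have a3 : X ^ 2 < φ := by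
    have : φ * X ^ 2 ≤ (m * X) ^ 2 := by nlinarith [mul_le_mul_of_nonneg_right hm (sq_nonneg X)]
    nlinarith
  have a4 : φ * X ^ 2 ≤ (m * X) ^ 2 := by nlinarith [mul_le_mul_of_nonneg_right hm (sq_nonneg X)]
  have a5 : (m * X) ^ 2 ≤ (φ ^ 2 * (X ^ 2 - 1)) ^ 2 := by
    apply pow_le_pow_left₀ a0.le a1
  generalize X ^ 2 = Y at *
  have b1 : φ * Y ≤ φ ^ 4 * (Y - 1) ^ 2 := by nlinarith
  have b2 : (Y - 1) ^ 2 < (Y - 1) * (φ - 1) := by nlinarith
  have b3 : φ ^ 4 * (Y - 1) ^ 2 < φ ^ 4 * ((Y - 1) * (φ - 1)) := by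
    apply mul_lt_mul_of_pos_left b2; positivity
  have b4 : φ ^ 4 * ((Y - 1) * (φ - 1)) = φ * (φ ^ 2 * (Y - 1)) := by
    have : φ * (φ - 1) = 1 := by nlinarith
    calc φ ^ 4 * ((Y - 1) * (φ - 1)) = φ * (φ ^ 2 * (Y - 1)) * (φ * (φ - 1)) := by ring
      _ = _ := by rw [this, mul_one]
  have b5 : φ ^ 2 * (Y - 1) ≤ Y := by nlinarith
  nlinarith

theorem h36_alg1 {X C1 C2 C4 : ℝ} (hX : 1 < X) (hC1 : 1 < C1) (hC2 : 1 < C2)
    (h12 : C1 * C2 = φ) (h3 : X * C4 = φ) (h4 : X * C1 < φ) (h5 : X * C2 < φ)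
    (h6 : C1 ≤ X + φ * (X - C4)) (h7 : C2 ≤ X + φ * (X - C4)) : False := by
  rcases le_or_gt φ (C1 ^ 2) with h | h
  · exact h36_alg0 hX hC1 h h3 h4 h6
  · rcases le_or_gt φ (C2 ^ 2) with h' | h'
    · exact h36_alg0 hX hC2 h' h3 h5 h7
    · have hp := φ_pos
      have : C1 ^ 2 * C2 ^ 2 < φ * φ := by
        apply mul_lt_mul'' h h' <;> positivity
      have e1 : C1 ^ 2 * C2 ^ 2 = φ * φ := by rw [← h12]; ring
      linarith

theorem h36_alg2 {X C1 C2 C4 O0 O3 O4 : ℝ} (hX : 1 < X) (hC1 : 1 < C1) (hC2 : 1 < C2)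
    (h12 : C1 * C2 = φ) (h3 : X * C4 = φ) (h4 : X * C1 < φ)
    (r0 : O3 - O0 = φ * (C2 - C1)) (r1 : O4 - C1 = φ * (O3 - C2))
    (e1 : (φ * C1 - X) * O0 + (φ * X - C1) * C1 = φ)
    (e2 : (φ * X - C2) * C2 + (φ * C2 - X) * O3 = φ)
    (h7 : C4 ≤ O4) (h8 : 0 < O4) : False := by
  have hφ := φ_sq
  have hp := φ_pos
  have h1 := one_lt_φ
  obtain ⟨g, hg⟩ : ∃ g, O3 = φ * C2 - g := ⟨φ * C2 - O3, by ring⟩
  have hO0 : O0 = φ * C1 - g := by linarith
  have hO4 : O4 = C1 + C2 - φ * g := by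
    have : O4 = C1 + φ * (O3 - C2) := by linarith
    rw [this, hg]
    have : φ ^ 2 * C2 = (φ + 1) * C2 := by rw [hφ]
    linarith
  have f1 : φ * (C1 ^ 2 - 1) = g * (φ * C1 - X) := by
    rw [hO0] at e1
    have : φ ^ 2 * C1 ^ 2 = (φ + 1) * C1 ^ 2 := by rw [hφ]
    linarith
  have f2 : φ * (C2 ^ 2 - 1) = g * (φ * C2 - X) := by
    rw [hg] at e2
    have : φ ^ 2 * C2 ^ 2 = (φ + 1) * C2 ^ 2 := by rw [hφ]
    linarith
  have f3 : φ * ((C2 - C1) * (C1 + C2 - g)) = 0 := by linarith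
  rcases mul_eq_zero.mp f3 with h | h
  · linarith
  · rcases mul_eq_zero.mp h with h | h
    · have hs : C2 = C1 := by linarith
      rw [hs] at h12 hO4
      have k1 : g * (φ * C1 - X) = 1 := by
        rw [← f1]
        have : C1 ^ 2 = φ := by rw [← h12]; ring
        rw [this]; nlinarith
      have k2 : X < C1 := by nlinarith
      have k3 : 0 < φ * C1 - X := by nlinarith
      have k4 : 0 < g := by
        by_contra hneg
        push Not at hneg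
        nlinarith
      have k5 : φ ≤ X * (C1 + C1 - φ * g) := by
        have k5' : X * C4 ≤ X * O4 := mul_le_mul_of_nonneg_left h7 (by linarith)
        rw [h3, hO4] at k5'
        exact k5'
      have k6 : φ * g ≤ (φ * C1 * g - 1) * (C1 + C1 - φ * g) := by
        have : φ * C1 * g - 1 = g * X := by linarith
        rw [this]
        nlinarith
      have k7 : 0 ≤ C1 * (2 * φ * (C1 * C1) * g - φ ^ 2 * C1 * g ^ 2 - 2 * C1) := by
        apply mul_nonneg (by linarith)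
        linarith
      have k8 : C1 * (2 * φ * (C1 * C1) * g - φ ^ 2 * C1 * g ^ 2 - 2 * C1) =
          φ * (φ - 2 - (φ * g - C1) ^ 2) := by
        have : C1 * (2 * φ * (C1 * C1) * g - φ ^ 2 * C1 * g ^ 2 - 2 * C1) =
          (C1 * C1) * (2 * φ * C1 * g) - (C1 * C1) * φ ^ 2 * g ^ 2 - 2 * (C1 * C1) := by ring
        rw [this, h12]
        have e3 : φ * (φ - 2 - (φ * g - C1) ^ 2) =
          φ * (φ - 2) - φ * φ ^ 2 * g ^ 2 + 2 * φ * φ * g * C1 - φ * (C1 * C1) := by ring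
        rw [e3, h12]
        ring
      rw [k8] at k7
      have k9 : φ - 2 - (φ * g - C1) ^ 2 < 0 := by
        have := sq_nonneg (φ * g - C1)
        have := φ_lt_two
        linarith
      nlinarith
    · have hg' : g = C1 + C2 := by linarith
      rw [hg'] at hO4
      nlinarith

theorem h36_alg3 {Y W C1 : ℝ} (hY : 1 < Y) (hW : 1 < W) (hC1 : 1 < C1)
    (h12 : Y * W = φ) (h : W ≤ Y - φ * (W - Y))
    (e1 : (φ * C1 - Y) * Y + (φ * Y - C1) * (Y + φ * (Y - W)) = φ) : False := by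
  have hφ := φ_sq
  have hp := φ_pos
  have h1 := one_lt_φ
  have k1 : W ≤ Y := by nlinarith
  have k2 : φ ≤ Y ^ 2 := by nlinarith
  have k3 : Y < φ := by nlinarith
  have k4 : 0 < φ ^ 2 - Y ^ 2 := by nlinarith
  have k5 : C1 * (φ ^ 2 - Y ^ 2) = Y * (3 * φ + 1 - 2 * φ * Y ^ 2) := by
    have e2 : (φ * C1 - Y) * Y + (φ * Y - C1) * (Y + φ * (Y - W)) - φ = 0 := by linarith
    have e3 : Y * ((φ * C1 - Y) * Y + (φ * Y - C1) * (Y + φ * (Y - W)) - φ) = 0 := by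
      rw [e2, mul_zero]
    have e4 : Y * ((φ * C1 - Y) * Y + (φ * Y - C1) * (Y + φ * (Y - W)) - φ) =
        φ * C1 * Y ^ 2 - Y ^ 3 + φ * Y ^ 3 - C1 * Y ^ 2 + φ ^ 2 * Y ^ 3 - φ * C1 * Y ^ 2
        - φ ^ 2 * Y * (Y * W) + φ * C1 * (Y * W) - φ * Y := by ring
    rw [e4, h12] at e3
    have e5 : φ ^ 3 = 2 * φ + 1 := by
      calc φ ^ 3 = φ * φ ^ 2 := by ring
        _ = φ * (φ + 1) := by rw [hφ]
        _ = φ ^ 2 + φ := by ring
        _ = 2 * φ + 1 := by rw [hφ]; ring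
    have e6 : φ ^ 2 * Y * φ = (2 * φ + 1) * Y := by rw [← e5]; ring
    rw [e6] at e3
    have e7 : φ ^ 2 * Y ^ 3 = (φ + 1) * Y ^ 3 := by rw [hφ]
    nlinarith
  have k6 : φ * (3 * φ + 1 - 2 * φ * Y ^ 2) ≤ φ ^ 2 - Y ^ 2 := by nlinarith
  have k7 : Y * (φ * (3 * φ + 1 - 2 * φ * Y ^ 2)) ≤ Y * (φ ^ 2 - Y ^ 2) :=
    mul_le_mul_of_nonneg_left k6 (by linarith)
  have k8 : φ * (C1 * (φ ^ 2 - Y ^ 2)) ≤ Y * (φ ^ 2 - Y ^ 2) := by
    rw [k5]; linarith
  have k9 : Y * (φ ^ 2 - Y ^ 2) < φ * (C1 * (φ ^ 2 - Y ^ 2)) := by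
    have := mul_lt_mul_of_pos_right k3 k4
    have := mul_lt_mul_of_pos_right hC1 k4
    nlinarith
  linarith

/-! ### the three configurations -/

theorem h36_caseN1 (F : Facts e) (hNF : NoFive e) (hNS : NoSq e) (hP : Pent e)
    (R : RingD e z c) (A : RingA e z c R)
    (m1 : mm e z (R.p 1) = 6) (m3 : mm e z (R.p 3) = 6) (m2 : mm e z (R.p 2) = 5)
    (m4 : mm e z (R.p 4) = 5) (m0 : mm e z (R.p 0) = 5) (k4 : mm e z (R.k 4) = 5) : False := by
  have c12 : Adj e (R.k 1) (R.k 2) ∧ R.C 1 * R.C 2 = φ := h36_CC A 1 m2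
  have c34 : Adj e (R.k 3) (R.k 4) ∧ R.C 3 * R.C 4 = φ := h36_CC A 3 m4
  have c40 : Adj e (R.k 4) (R.k 0) ∧ R.C 4 * R.C 0 = φ := h36_CC A 4 m0
  have c01 : R.C 0 * R.C 1 < φ := h36_CC_lt A 0 m1
  have c23 : R.C 2 * R.C 3 < φ := h36_CC_lt A 2 m3
  have q3 : Adj e (R.p 4) (R.k 3) := (R.kQ 3).2.2.2.2.2
  have q0 : Adj e (R.p 0) (R.k 0) := (R.kQ 0).2.2.2.2.1
  obtain ⟨u, hzu, hu4, hu3, hu0, -, -, huc, hcu⟩ := h36_u F hNF hNS hP R 4 k4
    (h36_zk R 3) q3.symm c34.1 (h36_kp hNF R _ 3) (h36_zk R 0) q0.symm c40.1.symm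
    (h36_kp hNF R _ 0)
  have o3 := (A.om_eq u hzu huc hcu 3).mp hu3
  have o4 := (A.om_eq u hzu huc hcu 4).mp hu4
  have o0 := (A.om_eq u hzu huc hcu 0).mp hu0
  have n13 : ¬ Adj e (R.k 1) (R.k 3) := A.kk2 1
  have n02 : ¬ Adj e (R.k 0) (R.k 2) := A.kk2 0
  have u1 : u ≠ R.k 1 := fun h => n13 (by rw [← h]; exact hu3)
  have u2 : u ≠ R.k 2 := fun h => n02 (by rw [← h]; exact hu0.symm)
  have l1 := A.om_le u hzu huc hcu 1 u1
  have l2 := A.om_le u hzu huc hcu 2 u2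
  have r2 : Om R u 0 - Om R u 2 = φ * (Om R u 4 - Om R u 3) := A.om_rel u hzu huc hcu 2
  have r3 : Om R u 1 - Om R u 3 = φ * (Om R u 0 - Om R u 4) := A.om_rel u hzu huc hcu 3
  rw [o0, o4, o3] at r2
  rw [o0, o4, o3] at r3
  have hx : R.C 0 = R.C 3 := by
    have h1 := c34.2
    have h2 := c40.2
    have h3 : R.C 4 * (R.C 0 - R.C 3) = 0 := by linarith
    have h4 := R.C1 4
    rcases mul_eq_zero.mp h3 with h | h
    · linarith
    · linarith
  rw [hx] at r2 r3 c01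
  exact h36_alg1 (R.C1 3) (R.C1 1) (R.C1 2) c12.2 c34.2 c01 (by linarith) (by linarith)
    (by linarith)

theorem h36_caseN2 (F : Facts e) (hNF : NoFive e) (hNS : NoSq e) (hP : Pent e) (hH : Hex e)
    (R : RingD e z c) (A : RingA e z c R)
    (m1 : mm e z (R.p 1) = 6) (m3 : mm e z (R.p 3) = 6) (m2 : mm e z (R.p 2) = 5)
    (m4 : mm e z (R.p 4) = 5) (m0 : mm e z (R.p 0) = 5) (k1 : mm e z (R.k 1) = 5)
    (k2 : mm e z (R.k 2) = 5) : False := by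
  have c12 : Adj e (R.k 1) (R.k 2) ∧ R.C 1 * R.C 2 = φ := h36_CC A 1 m2
  have c34 : Adj e (R.k 3) (R.k 4) ∧ R.C 3 * R.C 4 = φ := h36_CC A 3 m4
  have c40 : Adj e (R.k 4) (R.k 0) ∧ R.C 4 * R.C 0 = φ := h36_CC A 4 m0
  have c01 : R.C 0 * R.C 1 < φ := h36_CC_lt A 0 m1
  obtain ⟨w1, zw1, w1p, w1k0, w1k1, w1c, cw1, w1p0, w1p1, w1p2⟩ :=
    h36_w F hNF hNS hH R 0 m1
  obtain ⟨w3, zw3, w3p, w3k2, w3k3, w3c, cw3, w3p2, w3p3, w3p4⟩ :=
    h36_w F hNF hNS hH R 2 m3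
  have q2 : Adj e (R.p 2) (R.k 2) := (R.kQ 2).2.2.2.2.1
  have q1 : Adj e (R.p 2) (R.k 1) := (R.kQ 1).2.2.2.2.2
  obtain ⟨u, hzu, hu1, hux, huy, -, hup, huc, hcu⟩ := h36_u F hNF hNS hP R 1 k1
    (x := w1) (y := R.k 2) zw1 w1p w1k1 w1p2 (h36_zk R 2) q2.symm c12.1.symm
    (h36_kp hNF R _ 2)
  obtain ⟨u', hzu', hu2, hux', huy', hup', -, -, -⟩ := h36_u F hNF hNS hP R 2 k2
    (x := R.k 1) (y := w3) (h36_zk R 1) q1.symm c12.1 (h36_kp hNF R _ 1) zw3 w3p w3k2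
    w3p2
  have huu : u' = u := by
    have a0 : Q4 e z (R.k 1) (R.k 2) (R.p 2) :=
      h36_mk (h36_zk R 1) (h36_zk R 2) (h36_zp R 2) c12.1 q1.symm q2.symm
    have a1 : Q4 e z (R.k 1) (R.k 2) u :=
      h36_mk (h36_zk R 1) (h36_zk R 2) hzu c12.1 hu1.symm huy.symm
    have a2 : Q4 e z (R.k 1) (R.k 2) u' :=
      h36_mk (h36_zk R 1) (h36_zk R 2) hzu' c12.1 hux'.symm hu2.symm
    exact h36_two F a0 a2 hup' a1 hup
  rw [huu] at huy' hu2
  have o1 := (A.om_eq u hzu huc hcu 1).mp hu1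
  have o2 := (A.om_eq u hzu huc hcu 2).mp hu2
  have r0 : Om R u 3 - Om R u 0 = φ * (Om R u 2 - Om R u 1) := A.om_rel u hzu huc hcu 0
  have r1 : Om R u 4 - Om R u 1 = φ * (Om R u 3 - Om R u 2) := A.om_rel u hzu huc hcu 1
  have e1 : (φ * R.C 1 - R.C 0) * Om R u 0 + (φ * R.C 0 - R.C 1) * Om R u 1 = φ :=
    A.e_rel w1 u 0 zw1 w1c cw1 w1p w1k0 w1k1 hzu huc hcu hux.symm
  have e2 : (φ * R.C 3 - R.C 2) * Om R u 2 + (φ * R.C 2 - R.C 3) * Om R u 3 = φ :=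
    A.e_rel w3 u 2 zw3 w3c cw3 w3p w3k2 w3k3 hzu huc hcu huy'.symm
  have n41 : ¬ Adj e (R.k 4) (R.k 1) := A.kk2 4
  have u4 : u ≠ R.k 4 := fun h => n41 (by rw [← h]; exact hu1)
  have l4 := A.om_le u hzu huc hcu 4 u4
  have l4' := A.om_pos u hzu huc hcu 4
  have hx : R.C 0 = R.C 3 := by
    have h1 := c34.2
    have h2 := c40.2
    have h3 : R.C 4 * (R.C 0 - R.C 3) = 0 := by linarith
    have h4 := R.C1 4
    rcases mul_eq_zero.mp h3 with h | h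
    · linarith
    · linarith
  rw [hx] at e1 c01
  rw [o1, o2] at r0
  rw [o1, o2] at r1
  rw [o1] at e1
  rw [o2] at e2
  exact h36_alg2 (R.C1 3) (R.C1 1) (R.C1 2) c12.2 c34.2 c01 r0 r1 e1 e2 l4 l4'

theorem h36_caseA (F : Facts e) (hNF : NoFive e) (hNS : NoSq e) (hP : Pent e) (hH : Hex e)
    (R : RingD e z c) (A : RingA e z c R)
    (m1 : mm e z (R.p 1) = 6) (m3 : mm e z (R.p 3) = 5)
    (m4 : mm e z (R.p 4) = 5) (m0 : mm e z (R.p 0) = 5) (k4 : mm e z (R.k 4) = 5)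
    (k0 : mm e z (R.k 0) = 5) : False := by
  have c23 : Adj e (R.k 2) (R.k 3) ∧ R.C 2 * R.C 3 = φ := h36_CC A 2 m3
  have c34 : Adj e (R.k 3) (R.k 4) ∧ R.C 3 * R.C 4 = φ := h36_CC A 3 m4
  have c40 : Adj e (R.k 4) (R.k 0) ∧ R.C 4 * R.C 0 = φ := h36_CC A 4 m0
  obtain ⟨w1, zw1, w1p, w1k0, w1k1, w1c, cw1, w1p0, w1p1, w1p2⟩ :=
    h36_w F hNF hNS hH R 0 m1
  have q3 : Adj e (R.p 4) (R.k 3) := (R.kQ 3).2.2.2.2.2
  have q0 : Adj e (R.p 0) (R.k 0) := (R.kQ 0).2.2.2.2.1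
  have q4 : Adj e (R.p 0) (R.k 4) := (R.kQ 4).2.2.2.2.2
  obtain ⟨u, hzu, hu4, hu3, hu0, -, hup, huc, hcu⟩ := h36_u F hNF hNS hP R 4 k4
    (x := R.k 3) (y := R.k 0) (h36_zk R 3) q3.symm c34.1 (h36_kp hNF R _ 3) (h36_zk R 0)
    q0.symm c40.1.symm (h36_kp hNF R _ 0)
  obtain ⟨u', hzu', hu0', hux', huy', hup', -, -, -⟩ := h36_u F hNF hNS hP R 0 k0
    (x := R.k 4) (y := w1) (h36_zk R 4) q4.symm c40.1 (h36_kp hNF R _ 4) zw1 w1p w1k0
    w1p0
  have huu : u' = u := by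
    have a0 : Q4 e z (R.k 4) (R.k 0) (R.p 0) :=
      h36_mk (h36_zk R 4) (h36_zk R 0) (h36_zp R 0) c40.1 q4.symm q0.symm
    have a1 : Q4 e z (R.k 4) (R.k 0) u :=
      h36_mk (h36_zk R 4) (h36_zk R 0) hzu c40.1 hu4.symm hu0.symm
    have a2 : Q4 e z (R.k 4) (R.k 0) u' :=
      h36_mk (h36_zk R 4) (h36_zk R 0) hzu' c40.1 hux'.symm hu0'.symm
    exact h36_two F a0 a2 hup' a1 hup
  rw [huu] at huy'
  have o3 := (A.om_eq u hzu huc hcu 3).mp hu3
  have o4 := (A.om_eq u hzu huc hcu 4).mp hu4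
  have o0 := (A.om_eq u hzu huc hcu 0).mp hu0
  have n24 : ¬ Adj e (R.k 2) (R.k 4) := A.kk2 2
  have u2 : u ≠ R.k 2 := fun h => n24 (by rw [← h]; exact hu4)
  have l2 := A.om_le u hzu huc hcu 2 u2
  have r2 : Om R u 0 - Om R u 2 = φ * (Om R u 4 - Om R u 3) := A.om_rel u hzu huc hcu 2
  have r3 : Om R u 1 - Om R u 3 = φ * (Om R u 0 - Om R u 4) := A.om_rel u hzu huc hcu 3
  have e1 : (φ * R.C 1 - R.C 0) * Om R u 0 + (φ * R.C 0 - R.C 1) * Om R u 1 = φ :=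
    A.e_rel w1 u 0 zw1 w1c cw1 w1p w1k0 w1k1 hzu huc hcu huy'.symm
  have hx : R.C 0 = R.C 3 := by
    have h1 := c34.2
    have h2 := c40.2
    have h3 : R.C 4 * (R.C 0 - R.C 3) = 0 := by linarith
    have h4 := R.C1 4
    rcases mul_eq_zero.mp h3 with h | h
    · linarith
    · linarith
  have hy : R.C 2 = R.C 4 := by
    have h1 := c34.2
    have h2 := c23.2
    have h3 : R.C 3 * (R.C 2 - R.C 4) = 0 := by linarith
    have h4 := R.C1 3
    rcases mul_eq_zero.mp h3 with h | h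
    · linarith
    · linarith
  have o1 : Om R u 1 = R.C 3 + φ * (R.C 3 - R.C 4) := by
    rw [o0, o4, o3, hx] at r3
    linarith
  have o2 : Om R u 2 = R.C 3 - φ * (R.C 4 - R.C 3) := by
    rw [o0, o4, o3, hx] at r2
    linarith
  rw [o0, o1, hx] at e1
  rw [o2, hy] at l2
  exact h36_alg3 (R.C1 3) (R.C1 4) (R.C1 1) c34.2 l2 e1

/-! ### assembly -/

theorem h36_finN (F : Facts e) (hNF : NoFive e) (hNS : NoSq e) (hP : Pent e) (hH : Hex e)
    (hA : ∀ z c (R : RingD e z c), RingA e z c R) (R : RingD e z c) (s : Fin 5)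
    (m1 : mm e z (R.p s) = 6) (m3 : mm e z (R.p (s + 2)) = 6)
    (m5 : ∀ a, a ≠ s → a ≠ s + 2 → mm e z (R.p a) = 5)
    (hb : ∃ b, ∀ a, a ≠ b → mm e z (R.k a) = 5) : False := by
  have A := hA z c (h36_rot R (s + 4))
  have i1 : 1 + (s + 4) = s := by clear m1 m3 m5 hb A; revert s; decide
  have i3 : 3 + (s + 4) = s + 2 := by clear m1 m3 m5 hb A i1; revert s; decide
  have n2 : 2 + (s + 4) ≠ s ∧ 2 + (s + 4) ≠ s + 2 := by
    clear m1 m3 m5 hb A i1 i3; revert s; decide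
  have n4 : 4 + (s + 4) ≠ s ∧ 4 + (s + 4) ≠ s + 2 := by
    clear m1 m3 m5 hb A i1 i3 n2; revert s; decide
  have n0 : 0 + (s + 4) ≠ s ∧ 0 + (s + 4) ≠ s + 2 := by
    clear m1 m3 m5 hb A i1 i3 n2 n4; revert s; decide
  have M1 : mm e z ((h36_rot R (s + 4)).p 1) = 6 := by
    change mm e z (R.p (1 + (s + 4))) = 6
    rw [i1]; exact m1
  have M3 : mm e z ((h36_rot R (s + 4)).p 3) = 6 := by
    change mm e z (R.p (3 + (s + 4))) = 6
    rw [i3]; exact m3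
  have M2 : mm e z ((h36_rot R (s + 4)).p 2) = 5 := m5 _ n2.1 n2.2
  have M4 : mm e z ((h36_rot R (s + 4)).p 4) = 5 := m5 _ n4.1 n4.2
  have M0 : mm e z ((h36_rot R (s + 4)).p 0) = 5 := m5 _ n0.1 n0.2
  obtain ⟨b, hb⟩ := hb
  by_cases h4 : 4 + (s + 4) = b
  · have K1 : mm e z ((h36_rot R (s + 4)).k 1) = 5 :=
      hb _ (fun h => absurd (add_right_cancel (h.trans h4.symm)) (by decide))
    have K2 : mm e z ((h36_rot R (s + 4)).k 2) = 5 :=
      hb _ (fun h => absurd (add_right_cancel (h.trans h4.symm)) (by decide))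
    exact h36_caseN2 F hNF hNS hP hH _ A M1 M3 M2 M4 M0 K1 K2
  · have K4 : mm e z ((h36_rot R (s + 4)).k 4) = 5 := hb _ h4
    exact h36_caseN1 F hNF hNS hP _ A M1 M3 M2 M4 M0 K4

theorem h36_finA (F : Facts e) (hNF : NoFive e) (hNS : NoSq e) (hP : Pent e) (hH : Hex e)
    (hA : ∀ z c (R : RingD e z c), RingA e z c R) (R : RingD e z c) (s : Fin 5)
    (m1 : mm e z (R.p s) = 6) (m2 : mm e z (R.p (s + 1)) = 6)
    (m5 : ∀ a, a ≠ s → a ≠ s + 1 → mm e z (R.p a) = 5)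
    (hb : ∃ b, ∀ a, a ≠ b → mm e z (R.k a) = 5) : False := by
  obtain ⟨b, hb⟩ := hb
  have hk : (s + 3 ≠ b ∧ s + 4 ≠ b) ∨ (s + 1 ≠ b ∧ s + 2 ≠ b) := by
    clear m1 m2 m5 hb; revert s b; decide
  rcases hk with ⟨h3, h4⟩ | ⟨h1, h2⟩
  · have A := hA z c (h36_rot R (s + 4))
    have i1 : 1 + (s + 4) = s := by clear m1 m2 m5 hb A h3 h4; revert s; decide
    have n3 : 3 + (s + 4) ≠ s ∧ 3 + (s + 4) ≠ s + 1 := by
      clear m1 m2 m5 hb A i1 h3 h4; revert s; decide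
    have n4 : 4 + (s + 4) ≠ s ∧ 4 + (s + 4) ≠ s + 1 := by
      clear m1 m2 m5 hb A i1 n3 h3 h4; revert s; decide
    have n0 : 0 + (s + 4) ≠ s ∧ 0 + (s + 4) ≠ s + 1 := by
      clear m1 m2 m5 hb A i1 n3 n4 h3 h4; revert s; decide
    have j4 : 4 + (s + 4) = s + 3 := by
      clear m1 m2 m5 hb A i1 n3 n4 n0 h3 h4; revert s; decide
    have j0 : 0 + (s + 4) = s + 4 := by
      clear m1 m2 m5 hb A i1 n3 n4 n0 h3 h4 j4; revert s; decide
    have M1 : mm e z ((h36_rot R (s + 4)).p 1) = 6 := by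
      change mm e z (R.p (1 + (s + 4))) = 6
      rw [i1]; exact m1
    have M3 : mm e z ((h36_rot R (s + 4)).p 3) = 5 := m5 _ n3.1 n3.2
    have M4 : mm e z ((h36_rot R (s + 4)).p 4) = 5 := m5 _ n4.1 n4.2
    have M0 : mm e z ((h36_rot R (s + 4)).p 0) = 5 := m5 _ n0.1 n0.2
    have K4 : mm e z ((h36_rot R (s + 4)).k 4) = 5 := by
      change mm e z (R.k (4 + (s + 4))) = 5
      rw [j4]; exact hb _ h3
    have K0 : mm e z ((h36_rot R (s + 4)).k 0) = 5 := by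
      change mm e z (R.k (0 + (s + 4))) = 5
      rw [j0]; exact hb _ h4
    exact h36_caseA F hNF hNS hP hH _ A M1 M3 M4 M0 K4 K0
  · have A := hA z c (h36_rot (h36_refl R) (-(s + 2)))
    have i1 : -(1 + -(s + 2)) = s + 1 := by clear m1 m2 m5 hb A h1 h2; revert s; decide
    have n3 : -(3 + -(s + 2)) ≠ s ∧ -(3 + -(s + 2)) ≠ s + 1 := by
      clear m1 m2 m5 hb A i1 h1 h2; revert s; decide
    have n4 : -(4 + -(s + 2)) ≠ s ∧ -(4 + -(s + 2)) ≠ s + 1 := by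
      clear m1 m2 m5 hb A i1 n3 h1 h2; revert s; decide
    have n0 : -(0 + -(s + 2)) ≠ s ∧ -(0 + -(s + 2)) ≠ s + 1 := by
      clear m1 m2 m5 hb A i1 n3 n4 h1 h2; revert s; decide
    have j4 : -(4 + -(s + 2) + 1) = s + 2 := by
      clear m1 m2 m5 hb A i1 n3 n4 n0 h1 h2; revert s; decide
    have j0 : -(0 + -(s + 2) + 1) = s + 1 := by
      clear m1 m2 m5 hb A i1 n3 n4 n0 h1 h2 j4; revert s; decide
    have M1 : mm e z ((h36_rot (h36_refl R) (-(s + 2))).p 1) = 6 := by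
      change mm e z (R.p (-(1 + -(s + 2)))) = 6
      rw [i1]; exact m2
    have M3 : mm e z ((h36_rot (h36_refl R) (-(s + 2))).p 3) = 5 := m5 _ n3.1 n3.2
    have M4 : mm e z ((h36_rot (h36_refl R) (-(s + 2))).p 4) = 5 := m5 _ n4.1 n4.2
    have M0 : mm e z ((h36_rot (h36_refl R) (-(s + 2))).p 0) = 5 := m5 _ n0.1 n0.2
    have K4 : mm e z ((h36_rot (h36_refl R) (-(s + 2))).k 4) = 5 := by
      change mm e z (R.k (-(4 + -(s + 2) + 1))) = 5
      rw [j4]; exact hb _ h2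
    have K0 : mm e z ((h36_rot (h36_refl R) (-(s + 2))).k 0) = 5 := by
      change mm e z (R.k (-(0 + -(s + 2) + 1))) = 5
      rw [j0]; exact hb _ h1
    exact h36_caseA F hNF hNS hP hH _ A M1 M3 M4 M0 K4 K0

end h36NA

theorem na {n : ℕ} {e : Fin n → V5} (F : Facts e) (h5 : FiveSpec e) (hNF : NoFive e)
    (hNS : NoSq e) (hP : Pent e) (hH : Hex e) (hA : ∀ z c (R : RingD e z c), RingA e z c R) :
    NASpec e := by
  rintro z c R ⟨s, t, hst, ms, mt, m5⟩ hb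
  have h : t = s + 1 ∨ t = s + 2 ∨ s = t + 2 ∨ s = t + 1 := by
    clear ms mt m5 hb; revert s t; decide
  rcases h with h | h | h | h
  · rw [h] at mt m5
    exact h36_finA F hNF hNS hP hH hA R s ms mt m5 hb
  · rw [h] at mt m5
    exact h36_finN F hNF hNS hP hH hA R s ms mt m5 hb
  · rw [h] at ms m5
    exact h36_finN F hNF hNS hP hH hA R t mt ms (fun a h1 h2 => m5 a h2 h1) hb
  · rw [h] at ms m5
    exact h36_finA F hNF hNS hP hH hA R t mt ms (fun a h1 h2 => m5 a h2 h1) hb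

end Pool.Agent.H62.M4
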