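import Pool.Agent.H62.M4.Spec

/-!
MP_6c826d_gt (S13329), module C2 + C3: the six dihedral angles and the numerical bound.
-/

set_option autoImplicit false

namespace Pool.Agent.H62.M4

open Finset

namespace P1M

/-- the angle is at least the angle of the normalised simplex -/
theorem angf_ge (a b c d : ℝ) (ha : 0 < a) (hb : 0 < b) (hc : 0 < c) (hd : 0 < d) (R : ℝ)
    (hR : R = a ^ 2 + b ^ 2 + c ^ 2 + d ^ 2) :
    Real.pi / 2 - Real.arctan √((c ^ 2 / R) * (d ^ 2 / R) / (a ^ 2 / R + b ^ 2 / R)) ≤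
      angf a b c d := by
  have hRpos : 0 < R := by rw [hR]; positivity
  set q : ℝ := (c ^ 2 / R) * (d ^ 2 / R) / (a ^ 2 / R + b ^ 2 / R) with hq
  have hab : 0 < a ^ 2 + b ^ 2 := by positivity
  have hq' : q = c ^ 2 * d ^ 2 / (R * (a ^ 2 + b ^ 2)) := by
    rw [hq]
    field_simp
  have hqpos : 0 < q := by rw [hq']; positivity
  have h1 : Real.arctan √q =
      Real.arcsin (c * d / √((a ^ 2 + b ^ 2 + c ^ 2) * (a ^ 2 + b ^ 2 + d ^ 2))) := by
    rw [Real.arctan_eq_arcsin]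
    congr 1
    rw [Real.sq_sqrt hqpos.le]
    have h2 : (a ^ 2 + b ^ 2 + c ^ 2) * (a ^ 2 + b ^ 2 + d ^ 2) =
        (R * (a ^ 2 + b ^ 2)) * (1 + q) := by
      rw [hq', hR]
      have : (a ^ 2 + b ^ 2 + c ^ 2 + d ^ 2) * (a ^ 2 + b ^ 2) ≠ 0 := by positivity
      field_simp
      ring
    have h3 : q = (c * d) ^ 2 / (R * (a ^ 2 + b ^ 2)) := by rw [hq']; ring
    rw [h2, Real.sqrt_mul (by positivity)]
    conv_lhs => rw [h3]
    rw [Real.sqrt_div (by positivity), Real.sqrt_sq (by positivity)]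
    rw [← h3]
    rw [div_div]
  rw [h1, angf, ← Real.arccos_eq_pi_div_two_sub_arcsin]
  apply Real.arccos_le_arccos
  apply div_le_div_of_nonneg_left (by positivity) (by positivity)
  apply Real.sqrt_le_sqrt
  have e1 : a ^ 2 + b ^ 2 + c ^ 2 ≤ 1 + a ^ 2 + b ^ 2 + c ^ 2 := by linarith
  have e2 : a ^ 2 + b ^ 2 + d ^ 2 ≤ 1 + a ^ 2 + b ^ 2 + d ^ 2 := by linarith
  exact mul_le_mul e1 e2 (by positivity) (by positivity)

/-- `arctan (1/√8) ≤ 0.64906 π / 6` -/
theorem num : Real.arctan √(1 / 8) ≤ 0.64906 * Real.pi / 6 := by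
  have hpi1 : (3.141592 : ℝ) < Real.pi := Real.pi_gt_d6
  have hpi2 : Real.pi < (3.141593 : ℝ) := Real.pi_lt_d6
  set θ : ℝ := 0.64906 * Real.pi / 6 with hθ
  have hθ1 : 0.3398 < θ := by rw [hθ]; linarith
  have hθ2 : θ < 0.34 := by rw [hθ]; linarith
  set s : ℝ := Real.sin θ with hs
  -- lower bound for s
  have hs0 : 0.3 ≤ s := by
    have h := Real.sin_gt_sub_cube (x := θ) (by linarith)
    have h3 : θ ^ 3 ≤ 0.34 ^ 3 := by
      apply pow_le_pow_left₀ (by linarith) hθ2.le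
    rw [← hs] at h
    norm_num at h3
    linarith
  -- sin (5 θ)
  have h5 : Real.sin (5 * θ) = 16 * s ^ 5 - 20 * s ^ 3 + 5 * s := by
    have e : 5 * θ = 2 * θ + 3 * θ := by ring
    rw [e, Real.sin_add, Real.sin_two_mul, Real.cos_three_mul, Real.cos_two_mul,
      Real.sin_three_mul]
    have hc : Real.cos θ ^ 2 = 1 - s ^ 2 := by
      rw [hs]; linarith [Real.sin_sq_add_cos_sq θ]
    have hc4 : Real.cos θ ^ 4 = (1 - s ^ 2) ^ 2 := by
      rw [← hc]; ring
    rw [← hs]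
    have : 2 * s * Real.cos θ * (4 * Real.cos θ ^ 3 - 3 * Real.cos θ) =
        2 * s * (4 * Real.cos θ ^ 4 - 3 * Real.cos θ ^ 2) := by ring
    rw [this, hc4, hc]
    ring
  set ξ : ℝ := 1.2265 * Real.pi / 60 with hξ
  have h5' : Real.sin (5 * θ) = 1 - 2 * Real.sin ξ ^ 2 := by
    have e : 5 * θ = 2 * ξ + Real.pi / 2 := by
      rw [hθ, hξ]; ring
    rw [e, Real.sin_add_pi_div_two, Real.cos_two_mul, Real.cos_sq']
    ring
  have hξ1 : 0.064219 < ξ := by rw [hξ]; linarith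
  have hξ2 : ξ < 0.06422 := by rw [hξ]; linarith
  have hsξ : 0.064152 < Real.sin ξ := by
    have h := Real.sin_gt_sub_cube (x := ξ) (by linarith)
    have h3 : ξ ^ 3 ≤ 0.06422 ^ 3 := by
      apply pow_le_pow_left₀ (by linarith) hξ2.le
    norm_num at h3
    linarith
  have hlt : Real.sin (5 * θ) < 241 / 243 := by
    rw [h5']
    have : (0.064152 : ℝ) ^ 2 < Real.sin ξ ^ 2 := by
      apply pow_lt_pow_left₀ hsξ (by norm_num) (by norm_num)
    norm_num at this ⊢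
    linarith
  have hs1 : 1 / 3 ≤ s := by
    by_contra hcon
    push Not at hcon
    have hneg : 16 * s ^ 4 + 16 / 3 * s ^ 3 - 164 / 9 * s ^ 2 - 164 / 27 * s + 241 / 81 ≤ 0 := by
      have b4 : s ^ 4 ≤ (1 / 3) ^ 4 := pow_le_pow_left₀ (by linarith) hcon.le 4
      have b3 : s ^ 3 ≤ (1 / 3) ^ 3 := pow_le_pow_left₀ (by linarith) hcon.le 3
      have b2 : (0.3 : ℝ) ^ 2 ≤ s ^ 2 := pow_le_pow_left₀ (by norm_num) hs0 2
      norm_num at b4 b3 b2
      nlinarith
    have hfac : 16 * s ^ 5 - 20 * s ^ 3 + 5 * s - 241 / 243 = (s - 1 / 3) *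
        (16 * s ^ 4 + 16 / 3 * s ^ 3 - 164 / 9 * s ^ 2 - 164 / 27 * s + 241 / 81) := by ring
    have : 0 ≤ 16 * s ^ 5 - 20 * s ^ 3 + 5 * s - 241 / 243 := by
      rw [hfac]
      exact mul_nonneg_of_nonpos_of_nonpos (by linarith) hneg
    rw [h5] at hlt
    linarith
  -- conclude
  have h8 : Real.arctan √(1 / 8) = Real.arcsin (1 / 3) := by
    rw [Real.arctan_eq_arcsin]
    congr 1
    rw [Real.sq_sqrt (by norm_num)]
    have e1 : (1 + 1 / 8 : ℝ) = 9 * (1 / 8) := by norm_num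
    rw [e1, Real.sqrt_mul (by norm_num)]
    have e2 : √(9 : ℝ) = 3 := by
      rw [show (9 : ℝ) = 3 ^ 2 by norm_num]
      exact Real.sqrt_sq (by norm_num)
    rw [e2]
    have : (0 : ℝ) < √(1 / 8) := Real.sqrt_pos.2 (by norm_num)
    field_simp
  rw [h8]
  have hle : Real.arcsin (1 / 3) ≤ Real.arcsin s := Real.monotone_arcsin hs1
  have : Real.arcsin s = θ := by
    rw [hs]
    exact Real.arcsin_sin (by linarith) (by linarith)
  linarith

/-- the statement of `ptan` -/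
def PtanSpec : Prop := ∀ (p1 p2 p3 p4 : ℝ), 0 < p1 → 0 < p2 → 0 < p3 → 0 < p4 →
    p1 + p2 + p3 + p4 = 1 →
    Real.arctan √(p1 * p2 / (p3 + p4)) + Real.arctan √(p1 * p3 / (p2 + p4)) +
    Real.arctan √(p1 * p4 / (p2 + p3)) + Real.arctan √(p2 * p3 / (p1 + p4)) +
    Real.arctan √(p2 * p4 / (p1 + p3)) + Real.arctan √(p3 * p4 / (p1 + p2)) ≤
      6 * Real.arctan √(1 / 8)

theorem p1_of_ptan (h : PtanSpec) : P1Spec := by
  intro a b c d ha hb hc hd
  set R : ℝ := a ^ 2 + b ^ 2 + c ^ 2 + d ^ 2 with hR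
  have hRpos : 0 < R := by rw [hR]; positivity
  have h1 := angf_ge a b c d ha hb hc hd R hR
  have h2 := angf_ge a c b d ha hc hb hd R (by rw [hR]; ring)
  have h3 := angf_ge a d b c ha hd hb hc R (by rw [hR]; ring)
  have h4 := angf_ge b c a d hb hc ha hd R (by rw [hR]; ring)
  have h5 := angf_ge b d a c hb hd ha hc R (by rw [hR]; ring)
  have h6 := angf_ge c d a b hc hd ha hb R (by rw [hR]; ring)
  have hp := h (a ^ 2 / R) (b ^ 2 / R) (c ^ 2 / R) (d ^ 2 / R) (by positivity) (by positivity)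
    (by positivity) (by positivity) (by
      rw [← add_div, ← add_div, ← add_div, ← hR]
      exact div_self hRpos.ne')
  have hn := num
  linarith

end P1M

end Pool.Agent.H62.M4
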