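import Pool.Agent.H62.M4.Spec
import Pool.Agent.H62.M4.Counts

/-!
MP_6c826d_gt (S13329), module D2: the main inequality `P2Spec` from the counts.
-/

set_option autoImplicit false

namespace Pool.Agent.H62.M4

open Finset

variable {n : ℕ}

theorem P2M.s12 {e : Fin n → V5} {i j k l : Fin n} (h : Q4 e i j k l) : Q4 e j i k l :=
  ⟨h.1.symm, h.2.2.2.1, h.2.2.2.2.1, h.2.1, h.2.2.1, h.2.2.2.2.2⟩

theorem P2M.s23 {e : Fin n → V5} {i j k l : Fin n} (h : Q4 e i j k l) : Q4 e i k j l :=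
  ⟨h.2.1, h.1, h.2.2.1, h.2.2.2.1.symm, h.2.2.2.2.2, h.2.2.2.2.1⟩

theorem P2M.s34 {e : Fin n → V5} {i j k l : Fin n} (h : Q4 e i j k l) : Q4 e i j l k :=
  ⟨h.1, h.2.2.1, h.2.1, h.2.2.2.2.1, h.2.2.2.1, h.2.2.2.2.2.symm⟩

open Classical in
/-- symmetrisation: the sum of the angles over the corners disjoint from `T` -/
theorem P2M.sum_A0 (e : Fin n → V5) (hP1 : P1Spec) (T : Finset (Fin n)) (u : Fin n → ℝ)
    (hu : ∀ m, m ∉ T → 0 < u m) :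
    ((univ.filter (fun q : Fin n × Fin n × Fin n × Fin n =>
        Q4 e q.1 q.2.1 q.2.2.1 q.2.2.2 ∧ q.1 ∉ T ∧ q.2.1 ∉ T ∧ q.2.2.1 ∉ T ∧ q.2.2.2 ∉ T)).card : ℝ)
      * (1.17547 * (2 * Real.pi)) ≤
    6 * ∑ q ∈ univ.filter (fun q : Fin n × Fin n × Fin n × Fin n =>
        Q4 e q.1 q.2.1 q.2.2.1 q.2.2.2 ∧ q.1 ∉ T ∧ q.2.1 ∉ T ∧ q.2.2.1 ∉ T ∧ q.2.2.2 ∉ T),
      angf (u q.1) (u q.2.1) (u q.2.2.1) (u q.2.2.2) := by
  set A := univ.filter (fun q : Fin n × Fin n × Fin n × Fin n =>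
        Q4 e q.1 q.2.1 q.2.2.1 q.2.2.2 ∧ q.1 ∉ T ∧ q.2.1 ∉ T ∧ q.2.2.1 ∉ T ∧ q.2.2.2 ∉ T) with hA
  set g : Fin n × Fin n × Fin n × Fin n → ℝ :=
    fun q => angf (u q.1) (u q.2.1) (u q.2.2.1) (u q.2.2.2) with hg
  have mem : ∀ i j k l : Fin n, (i, j, k, l) ∈ A ↔
      Q4 e i j k l ∧ i ∉ T ∧ j ∉ T ∧ k ∉ T ∧ l ∉ T := by
    intro i j k l
    simp [hA]
  have h2 : ∑ q ∈ A, g (q.1, q.2.2.1, q.2.1, q.2.2.2) = ∑ q ∈ A, g q := by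
    refine Finset.sum_nbij' (fun q => (q.1, q.2.2.1, q.2.1, q.2.2.2))
      (fun q => (q.1, q.2.2.1, q.2.1, q.2.2.2)) ?_ ?_ ?_ ?_ ?_
    · rintro ⟨i, j, k, l⟩ hq
      rw [mem] at hq
      simp only [mem]
      exact ⟨(P2M.s23 hq.1), hq.2.1, hq.2.2.2.1, hq.2.2.1, hq.2.2.2.2⟩
    · rintro ⟨i, j, k, l⟩ hq
      rw [mem] at hq
      simp only [mem]
      exact ⟨(P2M.s23 hq.1), hq.2.1, hq.2.2.2.1, hq.2.2.1, hq.2.2.2.2⟩
    · rintro ⟨i, j, k, l⟩ _; rfl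
    · rintro ⟨i, j, k, l⟩ _; rfl
    · rintro ⟨i, j, k, l⟩ _; rfl
  have h3 : ∑ q ∈ A, g (q.1, q.2.2.2, q.2.1, q.2.2.1) = ∑ q ∈ A, g q := by
    refine Finset.sum_nbij' (fun q => (q.1, q.2.2.2, q.2.1, q.2.2.1))
      (fun q => (q.1, q.2.2.1, q.2.2.2, q.2.1)) ?_ ?_ ?_ ?_ ?_
    · rintro ⟨i, j, k, l⟩ hq
      rw [mem] at hq
      simp only [mem]
      exact ⟨(P2M.s23 (P2M.s34 hq.1)), hq.2.1, hq.2.2.2.2, hq.2.2.1, hq.2.2.2.1⟩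
    · rintro ⟨i, j, k, l⟩ hq
      rw [mem] at hq
      simp only [mem]
      exact ⟨(P2M.s34 (P2M.s23 hq.1)), hq.2.1, hq.2.2.2.1, hq.2.2.2.2, hq.2.2.1⟩
    · rintro ⟨i, j, k, l⟩ _; rfl
    · rintro ⟨i, j, k, l⟩ _; rfl
    · rintro ⟨i, j, k, l⟩ _; rfl
  have h4 : ∑ q ∈ A, g (q.2.1, q.2.2.1, q.1, q.2.2.2) = ∑ q ∈ A, g q := by
    refine Finset.sum_nbij' (fun q => (q.2.1, q.2.2.1, q.1, q.2.2.2))
      (fun q => (q.2.2.1, q.1, q.2.1, q.2.2.2)) ?_ ?_ ?_ ?_ ?_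
    · rintro ⟨i, j, k, l⟩ hq
      rw [mem] at hq
      simp only [mem]
      exact ⟨(P2M.s23 (P2M.s12 hq.1)), hq.2.2.1, hq.2.2.2.1, hq.2.1, hq.2.2.2.2⟩
    · rintro ⟨i, j, k, l⟩ hq
      rw [mem] at hq
      simp only [mem]
      exact ⟨(P2M.s12 (P2M.s23 hq.1)), hq.2.2.2.1, hq.2.1, hq.2.2.1, hq.2.2.2.2⟩
    · rintro ⟨i, j, k, l⟩ _; rfl
    · rintro ⟨i, j, k, l⟩ _; rfl
    · rintro ⟨i, j, k, l⟩ _; rfl
  have h5 : ∑ q ∈ A, g (q.2.1, q.2.2.2, q.1, q.2.2.1) = ∑ q ∈ A, g q := by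
    refine Finset.sum_nbij' (fun q => (q.2.1, q.2.2.2, q.1, q.2.2.1))
      (fun q => (q.2.2.1, q.1, q.2.2.2, q.2.1)) ?_ ?_ ?_ ?_ ?_
    · rintro ⟨i, j, k, l⟩ hq
      rw [mem] at hq
      simp only [mem]
      exact ⟨(P2M.s23 (P2M.s34 (P2M.s12 hq.1))), hq.2.2.1, hq.2.2.2.2, hq.2.1, hq.2.2.2.1⟩
    · rintro ⟨i, j, k, l⟩ hq
      rw [mem] at hq
      simp only [mem]
      exact ⟨(P2M.s34 (P2M.s12 (P2M.s23 hq.1))), hq.2.2.2.1, hq.2.1, hq.2.2.2.2, hq.2.2.1⟩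
    · rintro ⟨i, j, k, l⟩ _; rfl
    · rintro ⟨i, j, k, l⟩ _; rfl
    · rintro ⟨i, j, k, l⟩ _; rfl
  have h6 : ∑ q ∈ A, g (q.2.2.1, q.2.2.2, q.1, q.2.1) = ∑ q ∈ A, g q := by
    refine Finset.sum_nbij' (fun q => (q.2.2.1, q.2.2.2, q.1, q.2.1))
      (fun q => (q.2.2.1, q.2.2.2, q.1, q.2.1)) ?_ ?_ ?_ ?_ ?_
    · rintro ⟨i, j, k, l⟩ hq
      rw [mem] at hq
      simp only [mem]
      exact ⟨(P2M.s23 (P2M.s34 (P2M.s12 (P2M.s23 hq.1)))), hq.2.2.2.1, hq.2.2.2.2, hq.2.1, hq.2.2.1⟩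
    · rintro ⟨i, j, k, l⟩ hq
      rw [mem] at hq
      simp only [mem]
      exact ⟨(P2M.s23 (P2M.s34 (P2M.s12 (P2M.s23 hq.1)))), hq.2.2.2.1, hq.2.2.2.2, hq.2.1, hq.2.2.1⟩
    · rintro ⟨i, j, k, l⟩ _; rfl
    · rintro ⟨i, j, k, l⟩ _; rfl
    · rintro ⟨i, j, k, l⟩ _; rfl
  have key : ∑ q ∈ A, (1.17547 * (2 * Real.pi)) ≤ ∑ q ∈ A,
      (g q + g (q.1, q.2.2.1, q.2.1, q.2.2.2) + g (q.1, q.2.2.2, q.2.1, q.2.2.1) +
        g (q.2.1, q.2.2.1, q.1, q.2.2.2) + g (q.2.1, q.2.2.2, q.1, q.2.2.1) +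
        g (q.2.2.1, q.2.2.2, q.1, q.2.1)) := by
    refine Finset.sum_le_sum ?_
    rintro ⟨i, j, k, l⟩ hq
    rw [mem] at hq
    exact hP1 (u i) (u j) (u k) (u l) (hu _ hq.2.1) (hu _ hq.2.2.1) (hu _ hq.2.2.2.1)
      (hu _ hq.2.2.2.2)
  simp only [Finset.sum_add_distrib] at key
  rw [h2, h3, h4, h5, h6, Finset.sum_const, nsmul_eq_mul] at key
  linarith

open Classical in
theorem P2M.sum_A1 (e : Fin n → V5) (T : Finset (Fin n)) (u : Fin n → ℝ)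
    (hu : ∀ m, m ∈ T → u m = 0) :
    ∑ q ∈ univ.filter (fun q : Fin n × Fin n × Fin n × Fin n =>
        Q4 e q.1 q.2.1 q.2.2.1 q.2.2.2 ∧ q.1 ∉ T ∧ q.2.1 ∉ T ∧ (q.2.2.1 ∈ T ∨ q.2.2.2 ∈ T)),
      angf (u q.1) (u q.2.1) (u q.2.2.1) (u q.2.2.2) =
    ((univ.filter (fun q : Fin n × Fin n × Fin n × Fin n =>
        Q4 e q.1 q.2.1 q.2.2.1 q.2.2.2 ∧ q.1 ∉ T ∧ q.2.1 ∉ T ∧
          (q.2.2.1 ∈ T ∨ q.2.2.2 ∈ T))).card : ℝ) * (Real.pi / 2) := by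
  rw [← nsmul_eq_mul, ← Finset.sum_const]
  refine Finset.sum_congr rfl ?_
  rintro ⟨i, j, k, l⟩ hq
  simp only [Finset.mem_filter, Finset.mem_univ, true_and] at hq
  rcases hq.2.2.2 with h | h
  · simp [angf, hu _ h]
  · simp [angf, hu _ h]

open Classical in
/-- summation of `AngleSpec` over the adjacent pairs outside `T` -/
theorem P2M.sum_all (e : Fin n → V5) (hA : AngleSpec e) (T : Finset (Fin n)) (x : V5)
    (h1 : B x x = -1) (h2 : 0 < x 0) (h3 : ∀ k, B x (e k) ≤ 0) :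
    ∑ q ∈ univ.filter (fun q : Fin n × Fin n × Fin n × Fin n =>
        Q4 e q.1 q.2.1 q.2.2.1 q.2.2.2 ∧ q.1 ∉ T ∧ q.2.1 ∉ T),
      angf (uu e x q.1) (uu e x q.2.1) (uu e x q.2.2.1) (uu e x q.2.2.2) ≤
    ((univ.filter (fun q : Fin n × Fin n => Adj e q.1 q.2 ∧ q.1 ∉ T ∧ q.2 ∉ T)).card : ℝ) *
      (4 * Real.pi) := by
  have h : ∑ q ∈ univ.filter (fun q : Fin n × Fin n => Adj e q.1 q.2 ∧ q.1 ∉ T ∧ q.2 ∉ T),
      (∑ k, ∑ l, if Q4 e q.1 q.2 k l then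
        angf (uu e x q.1) (uu e x q.2) (uu e x k) (uu e x l) else 0) ≤
      ((univ.filter (fun q : Fin n × Fin n => Adj e q.1 q.2 ∧ q.1 ∉ T ∧ q.2 ∉ T)).card : ℝ) *
      (4 * Real.pi) := by
    rw [← nsmul_eq_mul, ← Finset.sum_const]
    refine Finset.sum_le_sum ?_
    rintro ⟨i, j⟩ hq
    simp only [Finset.mem_filter, Finset.mem_univ, true_and] at hq
    exact hA x h1 h2 h3 i j hq.1
  refine le_trans (le_of_eq ?_) h
  rw [Finset.sum_filter, Finset.sum_filter]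
  simp only [Fintype.sum_prod_type]
  refine Finset.sum_congr rfl fun i _ => Finset.sum_congr rfl fun j _ => ?_
  by_cases hc : Adj e i j ∧ i ∉ T ∧ j ∉ T
  · rw [if_pos hc]
    refine Finset.sum_congr rfl fun k _ => Finset.sum_congr rfl fun l _ => ?_
    by_cases hQ : Q4 e i j k l
    · rw [if_pos hQ, if_pos ⟨hQ, hc.2⟩]
    · rw [if_neg hQ, if_neg (fun h => hQ h.1)]
  · rw [if_neg hc]
    refine Finset.sum_eq_zero fun k _ => Finset.sum_eq_zero fun l _ => ?_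
    rw [if_neg]
    rintro ⟨hQ, h4⟩
    exact hc ⟨hQ.1, h4⟩

open Classical in
/-- the inequality for one corner from the three counts -/
theorem p2_of_counts {e : Fin n → V5} (F : Facts e) (hA : AngleSpec e) (hP1 : P1Spec)
    (a b c d : Fin n) (hQ : Q4 e a b c d) (T : Finset (Fin n)) (hT : T = {a, b, c, d}) (D M : ℝ)
    (hD : D = (deg e a : ℝ) + deg e b + deg e c + deg e d)
    (hM : M = (mm e a b : ℝ) + mm e a c + mm e a d + mm e b c + mm e b d + mm e c d)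
    (hc0 : ((univ.filter (fun q : Fin n × Fin n × Fin n × Fin n =>
        Q4 e q.1 q.2.1 q.2.2.1 q.2.2.2 ∧ q.1 ∉ T ∧ q.2.1 ∉ T ∧ q.2.2.1 ∉ T ∧ q.2.2.2 ∉ T)).card : ℝ)
      = 12 * (∑ i, (deg e i : ℝ)) - 24 * n - 48 * D + 24 * M + 216)
    (hc1 : ((univ.filter (fun q : Fin n × Fin n × Fin n × Fin n =>
        Q4 e q.1 q.2.1 q.2.2.1 q.2.2.2 ∧ q.1 ∉ T ∧ q.2.1 ∉ T ∧
          (q.2.2.1 ∈ T ∨ q.2.2.2 ∈ T))).card : ℝ) = 24 * D - 20 * M - 24)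
    (hc2 : ((univ.filter (fun q : Fin n × Fin n => Adj e q.1 q.2 ∧ q.1 ∉ T ∧ q.2 ∉ T)).card : ℝ)
      = (∑ i, (deg e i : ℝ)) - 2 * D + 12) :
    18 + ff e a b c d / 4 + 0.17547 * (5 * n + EE e - 57 - ff e a b c d) ≤ n := by
  obtain ⟨v, hv1, hv2, hva, hvb, hvc, hvd, hv⟩ := F.vert a b c d hQ
  have hz : ∀ m, m ∈ T → uu e v m = 0 := by
    intro m hm
    rw [hT] at hm
    simp only [Finset.mem_insert, Finset.mem_singleton] at hm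
    rcases hm with rfl | rfl | rfl | rfl <;> simp [uu, *]
  have hp : ∀ m, m ∉ T → 0 < uu e v m := by
    intro m hm
    rw [hT] at hm
    simp only [Finset.mem_insert, Finset.mem_singleton, not_or] at hm
    have := hv m hm.1 hm.2.1 hm.2.2.1 hm.2.2.2
    unfold uu
    linarith
  have hle : ∀ k, B v (e k) ≤ 0 := by
    intro k
    by_cases hk : k ∈ T
    · have := hz k hk
      unfold uu at this
      linarith
    · have := hp k hk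
      unfold uu at this
      linarith
  have h0 := P2M.sum_A0 e hP1 T (uu e v) hp
  have h1 := P2M.sum_A1 e T (uu e v) hz
  have h2 := P2M.sum_all e hA T v hv1 hv2 hle
  have hsplit : ∑ q ∈ univ.filter (fun q : Fin n × Fin n × Fin n × Fin n =>
        Q4 e q.1 q.2.1 q.2.2.1 q.2.2.2 ∧ q.1 ∉ T ∧ q.2.1 ∉ T),
      angf (uu e v q.1) (uu e v q.2.1) (uu e v q.2.2.1) (uu e v q.2.2.2) =
      (∑ q ∈ univ.filter (fun q : Fin n × Fin n × Fin n × Fin n =>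
        Q4 e q.1 q.2.1 q.2.2.1 q.2.2.2 ∧ q.1 ∉ T ∧ q.2.1 ∉ T ∧ (q.2.2.1 ∈ T ∨ q.2.2.2 ∈ T)),
      angf (uu e v q.1) (uu e v q.2.1) (uu e v q.2.2.1) (uu e v q.2.2.2)) +
      ∑ q ∈ univ.filter (fun q : Fin n × Fin n × Fin n × Fin n =>
        Q4 e q.1 q.2.1 q.2.2.1 q.2.2.2 ∧ q.1 ∉ T ∧ q.2.1 ∉ T ∧ q.2.2.1 ∉ T ∧ q.2.2.2 ∉ T),
      angf (uu e v q.1) (uu e v q.2.1) (uu e v q.2.2.1) (uu e v q.2.2.2) := by
    rw [← Finset.sum_filter_add_sum_filter_not (univ.filter (fun q : Fin n × Fin n × Fin n × Fin n =>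
        Q4 e q.1 q.2.1 q.2.2.1 q.2.2.2 ∧ q.1 ∉ T ∧ q.2.1 ∉ T))
        (fun q => q.2.2.1 ∈ T ∨ q.2.2.2 ∈ T), Finset.filter_filter, Finset.filter_filter]
    congr 1
    · refine Finset.sum_congr ?_ fun _ _ => rfl
      ext q
      simp only [Finset.mem_filter, Finset.mem_univ, true_and]
      tauto
    · refine Finset.sum_congr ?_ fun _ _ => rfl
      ext q
      simp only [Finset.mem_filter, Finset.mem_univ, true_and]
      tauto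
  rw [hsplit, h1] at h2
  rw [hc0] at h0
  rw [hc1, hc2] at h2
  set S0 := ∑ q ∈ univ.filter (fun q : Fin n × Fin n × Fin n × Fin n =>
        Q4 e q.1 q.2.1 q.2.2.1 q.2.2.2 ∧ q.1 ∉ T ∧ q.2.1 ∉ T ∧ q.2.2.1 ∉ T ∧ q.2.2.2 ∉ T),
      angf (uu e v q.1) (uu e v q.2.1) (uu e v q.2.2.1) (uu e v q.2.2.2) with hS0
  set S := ∑ i, (deg e i : ℝ) with hS
  have hEE : EE e = (S - 12 * n) / 2 := by
    unfold EE
    rw [Finset.sum_sub_distrib, Finset.sum_const, Finset.card_univ, Fintype.card_fin, nsmul_eq_mul]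
    ring
  have hff : ff e a b c d = 2 * D - M - 66 := by
    unfold ff
    rw [hD, hM]
    ring
  have hpi : 0 < Real.pi := Real.pi_pos
  have hmain : Real.pi * (18 + ff e a b c d / 4 + 0.17547 * (5 * n + EE e - 57 - ff e a b c d)) ≤
      Real.pi * n := by
    rw [hEE, hff]
    nlinarith [h0, h2]
  exact le_of_mul_le_mul_left hmain hpi

theorem p2 {e : Fin n → V5} (F : Facts e) (hE : EulerSpec e) (hA : AngleSpec e) (hP1 : P1Spec) :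
    P2Spec e := by
  classical
  intro a b c d hQ
  obtain ⟨h0, h1, h2⟩ := counts F hE a b c d hQ {a, b, c, d} rfl _ _ rfl rfl
  exact p2_of_counts F hA hP1 a b c d hQ {a, b, c, d} rfl _ _ rfl rfl h0 h1 h2

end Pool.Agent.H62.M4
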