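import Pool.Agent.H62.M4.Spec

/-!
MP_6c826d_gt (S13329), m_4 = 120.  Module C1: the inequality for the sum of six arctangents.
-/

set_option autoImplicit false

namespace Pool.Agent.H62.M4

open Finset Filter Topology

/-- the sum of the six angles -/
noncomputable def ptG (a b c d : ℝ) : ℝ :=
  Real.arctan √(a * b / (c + d)) + Real.arctan √(a * c / (b + d)) +
    Real.arctan √(a * d / (b + c)) + Real.arctan √(b * c / (a + d)) +
    Real.arctan √(b * d / (a + c)) + Real.arctan √(c * d / (a + b))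

theorem ptG_swap12 (a b c d : ℝ) : ptG b a c d = ptG a b c d := by
  unfold ptG
  rw [mul_comm b a, add_comm b a]
  ring

theorem ptG_swap23 (a b c d : ℝ) : ptG a c b d = ptG a b c d := by
  unfold ptG
  rw [mul_comm c b, add_comm c b]
  ring

theorem ptG_swap34 (a b c d : ℝ) : ptG a b d c = ptG a b c d := by
  unfold ptG
  rw [mul_comm d c, add_comm d c]
  ring

theorem pt_dterm {N M : ℝ → ℝ} {N' M' : ℝ} (hN : HasDerivAt N N' 0) (hM : HasDerivAt M M' 0)
    (hN0 : 0 < N 0) (hM0 : 0 < M 0) :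
    HasDerivAt (fun x => Real.arctan √(N x / M x))
      ((N' * M 0 - N 0 * M') / (2 * √(N 0) * √(M 0) * (M 0 + N 0))) 0 := by
  have h1 := hN.div hM hM0.ne'
  have h2 := (h1.sqrt (div_pos hN0 hM0).ne').arctan
  refine h2.congr_deriv ?_
  simp only [Pi.div_apply]
  have e1 : √(N 0 / M 0) = √(N 0) / √(M 0) := Real.sqrt_div hN0.le _
  have e2 : √(N 0 / M 0) ^ 2 = N 0 / M 0 := Real.sq_sqrt (div_pos hN0 hM0).le
  rw [e2, e1]
  have hs : 0 < √(M 0) := Real.sqrt_pos.2 hM0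
  have hn : 0 < √(N 0) := Real.sqrt_pos.2 hN0
  have hm2 : M 0 = √(M 0) * √(M 0) := (Real.mul_self_sqrt hM0.le).symm
  have hadd : M 0 + N 0 ≠ 0 := (add_pos hM0 hN0).ne'
  have hadd' : N 0 + M 0 ≠ 0 := (add_pos hN0 hM0).ne'
  have hne : M 0 ≠ 0 := hM0.ne'
  have h1N : 1 + N 0 / M 0 = (M 0 + N 0) / M 0 := by field_simp
  rw [h1N]
  generalize hA : N' * M 0 - N 0 * M' = Z
  have : 1 / ((M 0 + N 0) / M 0) * (Z / M 0 ^ 2 / (2 * (√(N 0) / √(M 0)))) =
      Z * √(M 0) / (2 * √(N 0) * M 0 * (M 0 + N 0)) := by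
    field_simp
  rw [this]
  rw [div_eq_div_iff (by positivity) (by positivity)]
  have : Z * √(M 0) * (2 * √(N 0) * √(M 0) * (M 0 + N 0)) =
      Z * (√(M 0) * √(M 0)) * (2 * √(N 0) * (M 0 + N 0)) := by ring
  rw [this, ← hm2]
  ring

theorem pt_pos {a b c d : ℝ} (ha : 0 < a) (hb : 0 < b) (hc : 0 < c) (hd : 0 < d)
    (hs : a + b + c + d = 1) (hab : b < a) (hbc : b ≤ c) (hbd : b ≤ d) :
    0 < (a - b) * √(c + d) - √c * (1 - b) * (√b / √(b + d)) - √d * (1 - b) * (√b / √(b + c))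
      + √c * (1 - a) * (√a / √(a + d)) + √d * (1 - a) * (√a / √(a + c)) := by
  have ha1 : 0 < 1 - a := by linarith
  have hC : 0 < √c := Real.sqrt_pos.2 hc
  have hD : 0 < √d := Real.sqrt_pos.2 hd
  have key : ∀ y : ℝ, 0 < y → √b / √(b + y) < √a / √(a + y) := by
    intro y hy
    rw [← Real.sqrt_div hb.le, ← Real.sqrt_div ha.le]
    apply Real.sqrt_lt_sqrt (by positivity)
    rw [div_lt_div_iff₀ (by positivity) (by positivity)]
    nlinarith
  have key2 : ∀ y : ℝ, 0 < y → b ≤ y → √b / √(b + y) ≤ √(1 / 2) := by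
    intro y hy hby
    rw [← Real.sqrt_div hb.le]
    apply Real.sqrt_le_sqrt
    rw [div_le_div_iff₀ (by positivity) (by norm_num)]
    linarith
  have k1 := key d hd
  have k2 := key c hc
  have m1 := key2 d hd hbd
  have m2 := key2 c hc hbc
  have hcd : (√c + √d) * √(1 / 2) ≤ √(c + d) := by
    apply Real.le_sqrt_of_sq_le
    have e1 : ((√c + √d) * √(1 / 2)) ^ 2 = (√c + √d) ^ 2 * (1 / 2) := by
      rw [mul_pow, Real.sq_sqrt (by norm_num)]
    rw [e1]
    have h1 := Real.sq_sqrt hc.le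
    have h2 := Real.sq_sqrt hd.le
    nlinarith [sq_nonneg (√c - √d)]
  have p1 : 0 < √c * (1 - a) * (√a / √(a + d) - √b / √(b + d)) :=
    mul_pos (mul_pos hC ha1) (by linarith)
  have p2 : 0 < √d * (1 - a) * (√a / √(a + c) - √b / √(b + c)) :=
    mul_pos (mul_pos hD ha1) (by linarith)
  have p3 : 0 ≤ (a - b) * (√c * (√(1 / 2) - √b / √(b + d))) :=
    mul_nonneg (by linarith) (mul_nonneg hC.le (by linarith))
  have p4 : 0 ≤ (a - b) * (√d * (√(1 / 2) - √b / √(b + c))) :=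
    mul_nonneg (by linarith) (mul_nonneg hD.le (by linarith))
  have p5 : 0 ≤ (a - b) * (√(c + d) - (√c + √d) * √(1 / 2)) :=
    mul_nonneg (by linarith) (by linarith)
  nlinarith

/-- simplification of one term of the derivative -/
theorem pt_term {a c r : ℝ} (ha : 0 < a) (hc : 0 < c) (hr : 0 < r) (hs : a + c + r = 1) :
    (c * (1 - c)) / (2 * √(a * c) * √r * (r + a * c)) = √c / (2 * √a * √r * (1 - a)) := by
  have h1 : r + a * c = (1 - a) * (1 - c) := by
    have : r = 1 - a - c := by linarith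
    rw [this]; ring
  have ha1 : 0 < 1 - a := by linarith
  have hc1 : 0 < 1 - c := by linarith
  have hC : 0 < √c := Real.sqrt_pos.2 hc
  have hA : 0 < √a := Real.sqrt_pos.2 ha
  have hR : 0 < √r := Real.sqrt_pos.2 hr
  rw [h1, Real.sqrt_mul ha.le, div_eq_div_iff (by positivity) (by positivity)]
  have h2 : c = √c * √c := (Real.mul_self_sqrt hc.le).symm
  calc c * (1 - c) * (2 * √a * √r * (1 - a))
      = (√c * √c) * (1 - c) * (2 * √a * √r * (1 - a)) := by rw [← h2]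
    _ = √c * (2 * (√a * √c) * √r * ((1 - a) * (1 - c))) := by ring

/-- the derivative in the direction (-1,1,0,0) is positive -/
theorem pt_deriv {a b c d : ℝ} (ha : 0 < a) (hb : 0 < b) (hc : 0 < c) (hd : 0 < d)
    (hs : a + b + c + d = 1) (hab : b < a) (hbc : b ≤ c) (hbd : b ≤ d) :
    ∃ D : ℝ, 0 < D ∧ HasDerivAt (fun x => ptG (a - x) (b + x) c d) D 0 := by
  have hA : HasDerivAt (fun x : ℝ => a - x) (-1) 0 := by
    simpa using (hasDerivAt_id (0 : ℝ)).const_sub a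
  have hB : HasDerivAt (fun x : ℝ => b + x) 1 0 := by
    simpa using (hasDerivAt_id (0 : ℝ)).const_add b
  have hconst : ∀ y : ℝ, HasDerivAt (fun _ : ℝ => y) 0 0 := fun y => hasDerivAt_const 0 y
  have t1 := pt_dterm (hA.mul hB) (hconst (c + d)) (by simpa using mul_pos ha hb)
    (by positivity)
  have t2 := pt_dterm (hA.mul_const c) (hB.add_const d) (by simpa using mul_pos ha hc)
    (by simpa using add_pos hb hd)
  have t3 := pt_dterm (hA.mul_const d) (hB.add_const c) (by simpa using mul_pos ha hd)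
    (by simpa using add_pos hb hc)
  have t4 := pt_dterm (hB.mul_const c) (hA.add_const d) (by simpa using mul_pos hb hc)
    (by simpa using add_pos ha hd)
  have t5 := pt_dterm (hB.mul_const d) (hA.add_const c) (by simpa using mul_pos hb hd)
    (by simpa using add_pos ha hc)
  have t6 := pt_dterm (hconst (c * d)) (hA.add hB) (by positivity)
    (by simpa using add_pos ha hb)
  have h := ((((t1.add t2).add t3).add t4).add t5).add t6
  refine ⟨_, ?_, h⟩
  simp only [Pi.mul_apply, Pi.add_apply, sub_zero, add_zero, mul_zero, zero_mul]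
  have e1 : (-1 * b + a * 1) * (c + d) / (2 * √(a * b) * √(c + d) * (c + d + a * b)) =
      (a - b) * √(c + d) / (2 * √a * √b * (1 - a) * (1 - b)) := by
    have h1 : c + d + a * b = (1 - a) * (1 - b) := by
      have : c = 1 - a - b - d := by linarith
      rw [this]; ring
    have ha1 : 0 < 1 - a := by linarith
    have hb1 : 0 < 1 - b := by linarith
    have hS : 0 < √(c + d) := Real.sqrt_pos.2 (by positivity)
    have hA : 0 < √a := Real.sqrt_pos.2 ha
    have hB : 0 < √b := Real.sqrt_pos.2 hb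
    rw [h1, Real.sqrt_mul ha.le, div_eq_div_iff (by positivity) (by positivity)]
    have h2 : c + d = √(c + d) * √(c + d) := (Real.mul_self_sqrt (by positivity)).symm
    calc (-1 * b + a * 1) * (c + d) * (2 * √a * √b * (1 - a) * (1 - b))
        = (-1 * b + a * 1) * (√(c + d) * √(c + d)) * (2 * √a * √b * (1 - a) * (1 - b)) := by
          rw [← h2]
      _ = (a - b) * √(c + d) * (2 * (√a * √b) * √(c + d) * ((1 - a) * (1 - b))) := by ring
  have e2 : (-1 * c * (b + d) - a * c * 1) / (2 * √(a * c) * √(b + d) * (b + d + a * c)) =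
      -(√c / (2 * √a * √(b + d) * (1 - a))) := by
    rw [← pt_term ha hc (add_pos hb hd) (by linarith), ← neg_div]
    congr 1
    have : b + d = 1 - a - c := by linarith
    rw [this]; ring
  have e3 : (-1 * d * (b + c) - a * d * 1) / (2 * √(a * d) * √(b + c) * (b + c + a * d)) =
      -(√d / (2 * √a * √(b + c) * (1 - a))) := by
    rw [← pt_term ha hd (add_pos hb hc) (by linarith), ← neg_div]
    congr 1
    have : b + c = 1 - a - d := by linarith
    rw [this]; ring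
  have e4 : (1 * c * (a + d) - b * c * -1) / (2 * √(b * c) * √(a + d) * (a + d + b * c)) =
      √c / (2 * √b * √(a + d) * (1 - b)) := by
    rw [← pt_term hb hc (add_pos ha hd) (by linarith)]
    congr 1
    have : a + d = 1 - b - c := by linarith
    rw [this]; ring
  have e5 : (1 * d * (a + c) - b * d * -1) / (2 * √(b * d) * √(a + c) * (a + c + b * d)) =
      √d / (2 * √b * √(a + c) * (1 - b)) := by
    rw [← pt_term hb hd (add_pos ha hc) (by linarith)]
    congr 1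
    have : a + c = 1 - b - d := by linarith
    rw [this]; ring
  have e6 : (0 - c * d * (-1 + 1)) / (2 * √(c * d) * √(a + b) * (a + b + c * d)) = 0 := by
    simp
  rw [e1, e2, e3, e4, e5, e6]
  have hpos := pt_pos ha hb hc hd hs hab hbc hbd
  have ha1 : 0 < 1 - a := by linarith
  have hb1 : 0 < 1 - b := by linarith
  have hA : 0 < √a := Real.sqrt_pos.2 ha
  have hB : 0 < √b := Real.sqrt_pos.2 hb
  have h1 : 0 < √(b + d) := Real.sqrt_pos.2 (add_pos hb hd)
  have h2 : 0 < √(b + c) := Real.sqrt_pos.2 (add_pos hb hc)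
  have h3 : 0 < √(a + d) := Real.sqrt_pos.2 (add_pos ha hd)
  have h4 : 0 < √(a + c) := Real.sqrt_pos.2 (add_pos ha hc)
  have hq : 0 < ((a - b) * √(c + d) - √c * (1 - b) * (√b / √(b + d))
      - √d * (1 - b) * (√b / √(b + c)) + √c * (1 - a) * (√a / √(a + d))
      + √d * (1 - a) * (√a / √(a + c))) / (2 * √a * √b * (1 - a) * (1 - b)) :=
    div_pos hpos (by positivity)
  refine lt_of_lt_of_eq hq ?_
  rw [add_div, add_div, sub_div, sub_div]
  have f2 : √c * (1 - b) * (√b / √(b + d)) / (2 * √a * √b * (1 - a) * (1 - b)) =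
      √c / (2 * √a * √(b + d) * (1 - a)) := by
    field_simp
  have f3 : √d * (1 - b) * (√b / √(b + c)) / (2 * √a * √b * (1 - a) * (1 - b)) =
      √d / (2 * √a * √(b + c) * (1 - a)) := by
    field_simp
  have f4 : √c * (1 - a) * (√a / √(a + d)) / (2 * √a * √b * (1 - a) * (1 - b)) =
      √c / (2 * √b * √(a + d) * (1 - b)) := by
    field_simp
  have f5 : √d * (1 - a) * (√a / √(a + c)) / (2 * √a * √b * (1 - a) * (1 - b)) =
      √d / (2 * √b * √(a + c) * (1 - b)) := by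
    field_simp
  rw [f2, f3, f4, f5]
  ring

/-- the simplex with all coordinates at least `δ` -/
def PtK (δ a b c d : ℝ) : Prop := δ ≤ a ∧ δ ≤ b ∧ δ ≤ c ∧ δ ≤ d ∧ a + b + c + d = 1

/-- `(a,b,c,d)` is a maximum point -/
def PtMax (δ a b c d : ℝ) : Prop :=
  PtK δ a b c d ∧ ∀ a' b' c' d', PtK δ a' b' c' d' → ptG a' b' c' d' ≤ ptG a b c d

theorem PtMax.s12 {δ a b c d : ℝ} (h : PtMax δ a b c d) : PtMax δ b a c d := by
  obtain ⟨⟨h1, h2, h3, h4, h5⟩, h6⟩ := h
  refine ⟨⟨h2, h1, h3, h4, by linarith⟩, ?_⟩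
  intro a' b' c' d' h
  rw [ptG_swap12 a b c d]
  exact h6 a' b' c' d' h

theorem PtMax.s23 {δ a b c d : ℝ} (h : PtMax δ a b c d) : PtMax δ a c b d := by
  obtain ⟨⟨h1, h2, h3, h4, h5⟩, h6⟩ := h
  refine ⟨⟨h1, h3, h2, h4, by linarith⟩, ?_⟩
  intro a' b' c' d' h
  rw [ptG_swap23 a b c d]
  exact h6 a' b' c' d' h

theorem PtMax.s34 {δ a b c d : ℝ} (h : PtMax δ a b c d) : PtMax δ a b d c := by
  obtain ⟨⟨h1, h2, h3, h4, h5⟩, h6⟩ := h
  refine ⟨⟨h1, h2, h4, h3, by linarith⟩, ?_⟩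
  intro a' b' c' d' h
  rw [ptG_swap34 a b c d]
  exact h6 a' b' c' d' h

theorem PtMax.le {δ a b c d : ℝ} (hδ : 0 < δ) (h : PtMax δ a b c d) (hbc : b ≤ c) (hbd : b ≤ d) :
    a ≤ b := by
  by_contra hcon
  push Not at hcon
  obtain ⟨⟨h1, h2, h3, h4, h5⟩, h6⟩ := h
  obtain ⟨D, hD, hder⟩ := pt_deriv (lt_of_lt_of_le hδ h1) (lt_of_lt_of_le hδ h2)
    (lt_of_lt_of_le hδ h3) (lt_of_lt_of_le hδ h4) h5 hcon hbc hbd
  have hsl := (hasDerivAt_iff_tendsto_slope.1 hder).eventually (lt_mem_nhds hD)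
  have hsl' : ∀ᶠ x in 𝓝[>] (0 : ℝ), 0 < slope (fun x => ptG (a - x) (b + x) c d) 0 x :=
    hsl.filter_mono (nhdsWithin_mono _ (fun x hx => ne_of_gt hx))
  have hsm : ∀ᶠ x in 𝓝[>] (0 : ℝ), x ∈ Set.Ioo (0 : ℝ) (a - b) :=
    Ioo_mem_nhdsGT (by linarith)
  obtain ⟨x, hx1, hx2⟩ := (hsl'.and hsm).exists
  have hx3 : 0 < x := hx2.1
  have hx4 : x < a - b := hx2.2
  rw [slope_def_field] at hx1
  simp only [sub_zero, add_zero] at hx1
  have hx5 : 0 < ptG (a - x) (b + x) c d - ptG a b c d := by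
    have := mul_pos hx1 hx3
    rwa [div_mul_cancel₀ _ hx3.ne'] at this
  have := h6 (a - x) (b + x) c d ⟨by linarith, by linarith, h3, h4, by linarith⟩
  linarith

theorem PtMax.alleq {δ a b c d : ℝ} (hδ : 0 < δ) (h : PtMax δ a b c d) (hba : b ≤ a)
    (hbc : b ≤ c) (hbd : b ≤ d) : a = 1 / 4 ∧ b = 1 / 4 ∧ c = 1 / 4 ∧ d = 1 / 4 := by
  have e1 : a ≤ b := h.le hδ hbc hbd
  have e2 : c ≤ b := h.s23.s12.s23.le hδ (by linarith) hbd
  have e3 : d ≤ b := h.s34.s23.s12.s23.le hδ (by linarith) hbc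
  have := h.1.2.2.2.2
  refine ⟨by linarith, by linarith, by linarith, by linarith⟩

theorem PtMax.eq {δ a b c d : ℝ} (hδ : 0 < δ) (h : PtMax δ a b c d) :
    a = 1 / 4 ∧ b = 1 / 4 ∧ c = 1 / 4 ∧ d = 1 / 4 := by
  rcases le_total a b with h1 | h1 <;> rcases le_total c d with h2 | h2
  · rcases le_total a c with h3 | h3
    · obtain ⟨p, q, r, s⟩ := h.s12.alleq hδ h1 h3 (by linarith)
      exact ⟨q, p, r, s⟩
    · -- `c` smallest
      obtain ⟨p, q, r, s⟩ := h.s23.alleq hδ h3 (by linarith) h2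
      exact ⟨p, r, q, s⟩
  · rcases le_total a d with h3 | h3
    · obtain ⟨p, q, r, s⟩ := h.s12.alleq hδ h1 (by linarith) h3
      exact ⟨q, p, r, s⟩
    · obtain ⟨p, q, r, s⟩ := h.s34.s23.alleq hδ h3 (by linarith) h2
      exact ⟨p, r, s, q⟩
  · rcases le_total b c with h3 | h3
    · exact h.alleq hδ h1 h3 (by linarith)
    · obtain ⟨p, q, r, s⟩ := h.s23.alleq hδ (by linarith) h3 h2
      exact ⟨p, r, q, s⟩
  · rcases le_total b d with h3 | h3
    · exact h.alleq hδ h1 (by linarith) h3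
    · obtain ⟨p, q, r, s⟩ := h.s34.s23.alleq hδ (by linarith) h3 h2
      exact ⟨p, r, s, q⟩

theorem pt_exists {δ a b c d : ℝ} (hδ : 0 < δ) (h : PtK δ a b c d) :
    ∃ a' b' c' d', PtMax δ a' b' c' d' := by
  let K : Set (ℝ × ℝ × ℝ × ℝ) := {p | PtK δ p.1 p.2.1 p.2.2.1 p.2.2.2}
  have hK : IsCompact K := by
    have hbox : IsCompact (Set.Icc ((δ, δ, δ, δ) : ℝ × ℝ × ℝ × ℝ) (1, 1, 1, 1)) := isCompact_Icc
    refine hbox.of_isClosed_subset ?_ ?_
    · have : K = {p | δ ≤ p.1} ∩ ({p | δ ≤ p.2.1} ∩ ({p | δ ≤ p.2.2.1} ∩ ({p | δ ≤ p.2.2.2} ∩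
          {p | p.1 + p.2.1 + p.2.2.1 + p.2.2.2 = 1}))) := by
        ext p; rfl
      rw [this]
      refine (isClosed_le (by fun_prop) (by fun_prop)).inter
        ((isClosed_le (by fun_prop) (by fun_prop)).inter
        ((isClosed_le (by fun_prop) (by fun_prop)).inter
        ((isClosed_le (by fun_prop) (by fun_prop)).inter
        (isClosed_eq (by fun_prop) (by fun_prop)))))
    · rintro ⟨p1, p2, p3, p4⟩ ⟨k1, k2, k3, k4, k5⟩
      simp only at k1 k2 k3 k4 k5
      refine ⟨⟨k1, k2, k3, k4⟩, ⟨?_, ?_, ?_, ?_⟩⟩ <;> simp only <;> linarith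
  have hne : K.Nonempty := ⟨(a, b, c, d), h⟩
  have hpos : ∀ p ∈ K, 0 < p.1 ∧ 0 < p.2.1 ∧ 0 < p.2.2.1 ∧ 0 < p.2.2.2 := by
    rintro p ⟨k1, k2, k3, k4, -⟩
    exact ⟨lt_of_lt_of_le hδ k1, lt_of_lt_of_le hδ k2, lt_of_lt_of_le hδ k3,
      lt_of_lt_of_le hδ k4⟩
  have hcont : ContinuousOn (fun p : ℝ × ℝ × ℝ × ℝ => ptG p.1 p.2.1 p.2.2.1 p.2.2.2) K := by
    have hterm : ∀ N M : ℝ × ℝ × ℝ × ℝ → ℝ, Continuous N → Continuous M →
        (∀ p ∈ K, M p ≠ 0) → ContinuousOn (fun p => Real.arctan √(N p / M p)) K := by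
      intro N M hN hM h0
      exact Real.continuous_arctan.comp_continuousOn
        (Real.continuous_sqrt.comp_continuousOn (hN.continuousOn.div hM.continuousOn h0))
    have c1 := hterm (fun p => p.1 * p.2.1) (fun p => p.2.2.1 + p.2.2.2) (by fun_prop)
      (by fun_prop) (fun p hp => by obtain ⟨q1, q2, q3, q4⟩ := hpos p hp; positivity)
    have c2 := hterm (fun p => p.1 * p.2.2.1) (fun p => p.2.1 + p.2.2.2) (by fun_prop)
      (by fun_prop) (fun p hp => by obtain ⟨q1, q2, q3, q4⟩ := hpos p hp; positivity)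
    have c3 := hterm (fun p => p.1 * p.2.2.2) (fun p => p.2.1 + p.2.2.1) (by fun_prop)
      (by fun_prop) (fun p hp => by obtain ⟨q1, q2, q3, q4⟩ := hpos p hp; positivity)
    have c4 := hterm (fun p => p.2.1 * p.2.2.1) (fun p => p.1 + p.2.2.2) (by fun_prop)
      (by fun_prop) (fun p hp => by obtain ⟨q1, q2, q3, q4⟩ := hpos p hp; positivity)
    have c5 := hterm (fun p => p.2.1 * p.2.2.2) (fun p => p.1 + p.2.2.1) (by fun_prop)
      (by fun_prop) (fun p hp => by obtain ⟨q1, q2, q3, q4⟩ := hpos p hp; positivity)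
    have c6 := hterm (fun p => p.2.2.1 * p.2.2.2) (fun p => p.1 + p.2.1) (by fun_prop)
      (by fun_prop) (fun p hp => by obtain ⟨q1, q2, q3, q4⟩ := hpos p hp; positivity)
    exact ((((c1.add c2).add c3).add c4).add c5).add c6
  obtain ⟨⟨a', b', c', d'⟩, hp, hmax⟩ := hK.exists_isMaxOn hne hcont
  refine ⟨a', b', c', d', hp, ?_⟩
  intro x y z w hK'
  exact isMaxOn_iff.1 hmax (x, y, z, w) hK'

theorem ptan (p1 p2 p3 p4 : ℝ) (h1 : 0 < p1) (h2 : 0 < p2) (h3 : 0 < p3) (h4 : 0 < p4)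
    (hs : p1 + p2 + p3 + p4 = 1) :
    Real.arctan √(p1 * p2 / (p3 + p4)) + Real.arctan √(p1 * p3 / (p2 + p4)) +
    Real.arctan √(p1 * p4 / (p2 + p3)) + Real.arctan √(p2 * p3 / (p1 + p4)) +
    Real.arctan √(p2 * p4 / (p1 + p3)) + Real.arctan √(p3 * p4 / (p1 + p2)) ≤
      6 * Real.arctan √(1 / 8) := by
  have hδ : 0 < min (min p1 p2) (min p3 p4) := by positivity
  have hK : PtK (min (min p1 p2) (min p3 p4)) p1 p2 p3 p4 :=
    ⟨(min_le_left _ _).trans (min_le_left _ _), (min_le_left _ _).trans (min_le_right _ _),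
      (min_le_right _ _).trans (min_le_left _ _), (min_le_right _ _).trans (min_le_right _ _), hs⟩
  obtain ⟨a, b, c, d, hmax⟩ := pt_exists hδ hK
  have hle := hmax.2 p1 p2 p3 p4 hK
  obtain ⟨rfl, rfl, rfl, rfl⟩ := hmax.eq hδ
  have e : ptG (1 / 4) (1 / 4) (1 / 4) (1 / 4) = 6 * Real.arctan √(1 / 8) := by
    unfold ptG
    have : (1 / 4 : ℝ) * (1 / 4) / (1 / 4 + 1 / 4) = 1 / 8 := by norm_num
    rw [this]
    ring
  rw [e] at hle
  exact hle

end Pool.Agent.H62.M4
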