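import Pool.Agent.H62.M4.Links

/-!
MP_6c826d_gt (S13329), m_4 = 120.  Module R: a facet with twelve neighbours is a regular
dodecahedron.
-/

set_option autoImplicit false

namespace Pool.Agent.H62.M4

open Finset

variable {n : ℕ}

/-- all 2-faces of a facet with twelve neighbours are pentagons -/
theorem Rg.mm5 {e : Fin n → V5} (hE : EulerSpec e) (h5 : FiveSpec e) {i : Fin n}
    (hd : deg e i = 12) : ∀ j, Adj e i j → mm e i j = 5 := by
  classical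
  have h1 := hE i
  rw [hd] at h1
  have h2 : ∑ j ∈ univ.filter (fun j => Adj e i j), mm e i j = 60 := by omega
  have h3 : ∑ j ∈ univ.filter (fun j => Adj e i j), 5 = 60 := by
    rw [sum_const, smul_eq_mul]
    have : (univ.filter (fun j => Adj e i j)).card = 12 := by
      rw [← hd]; unfold deg; congr
    rw [this]
  have h4 : ∀ j ∈ univ.filter (fun j => Adj e i j), 5 ≤ mm e i j := by
    intro j hj
    exact h5 i j (by simpa using hj)
  have h5' := (sum_eq_sum_iff_of_le h4).mp (by rw [h3]; convert h2.symm)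
  intro j hj
  exact (h5' j (by simpa using hj)).symm

/-- completing a pentagon -/
theorem Rg.pent5 {e : Fin n → V5} (F : Facts e) (hP : Pent e) {i j k l x y : Fin n}
    (hm : mm e i j = 5) (h : Q4 e i j k l) (hx : Q4 e i j l x) (hxk : x ≠ k)
    (hy : Q4 e i j k y) (hyl : y ≠ l) :
    ∃ z, Q4 e i j x z ∧ Q4 e i j z y ∧ z ≠ k ∧ z ≠ l ∧ x ≠ y := by
  obtain ⟨c, hinj, h0, h1, hQ, -, -⟩ := hP i j k l h hm
  have hc2 : c 2 = x := by
    have q : Q4 e i j l (c 2) := by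
      have := hQ 1
      rw [h1] at this
      exact this
    rcases Lk.nb F (Lk.swap h) hx hxk q with h' | h'
    · exfalso
      rw [← h0] at h'
      exact absurd (hinj h') (by decide)
    · exact h'
  have hc4 : c 4 = y := by
    have q : Q4 e i j k (c 4) := by
      have : Q4 e i j (c 4) (c 0) := hQ 4
      rw [h0] at this
      exact Lk.swap this
    rcases Lk.nb F h hy hyl q with h' | h'
    · exfalso
      rw [← h1] at h'
      exact absurd (hinj h') (by decide)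
    · exact h'
  refine ⟨c 3, ?_, ?_, ?_, ?_, ?_⟩
  · have : Q4 e i j (c 2) (c 3) := hQ 2
    rwa [hc2] at this
  · have : Q4 e i j (c 3) (c 4) := hQ 3
    rwa [hc4] at this
  · rw [← h0]
    exact fun h' => absurd (hinj h') (by decide)
  · rw [← h1]
    exact fun h' => absurd (hinj h') (by decide)
  · rw [← hc2, ← hc4]
    exact fun h' => absurd (hinj h') (by decide)

theorem Rg.vert_le {e : Fin n → V5} {i a b c : Fin n} {v : V5} (hv : IsVert e i a b c v)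
    (m : Fin n) : B v (e m) ≤ 0 := by
  obtain ⟨-, -, h1, h2, h3, h4, h5⟩ := hv
  by_cases e1 : m = i
  · rw [e1, h1]
  by_cases e2 : m = a
  · rw [e2, h2]
  by_cases e3 : m = b
  · rw [e3, h3]
  by_cases e4 : m = c
  · rw [e4, h4]
  exact (h5 m e1 e2 e3 e4).le

/-- expansion of a vector orthogonal to `e i` at a vertex -/
theorem Rg.expand {e : Fin n → V5} (F : Facts e) {i a b c : Fin n} {v : V5}
    (h : Q4 e i a b c) (hv : IsVert e i a b c v) {y : V5} (hy : B y (e i) = 0) :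
    y = B y (e a) • e a + B y (e b) • e b + B y (e c) • e c - B y v • v := by
  obtain ⟨hvv, -, h1, h2, h3, h4, -⟩ := hv
  have := frame_expand (F.norm i) (F.norm a) (F.norm b) (F.norm c) hvv h.1.2 h.2.1.2 h.2.2.1.2
    h.2.2.2.1.2 h.2.2.2.2.1.2 h.2.2.2.2.2.2 h1 h2 h3 h4 y
  rw [hy, zero_smul, zero_add] at this
  exact this

/-- the flip of a facet at a corner -/
theorem Rg.flip {e : Fin n → V5} (F : Facts e) {i a b c a' : Fin n} {v : V5}
    (h : Q4 e i a b c) (hv : IsVert e i a b c v) (h' : Q4 e i b c a') (hne : a' ≠ a) :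
    ∃ β s : ℝ, 0 < β ∧ 0 < s ∧ β ^ 2 * (1 - s ^ 2) = 1 ∧
      e a' = (β * s) • v - β • e a := by
  have h1 : B (e a') (e a) < -1 := by
    rcases F.dich a' a hne with h0 | h0
    · exfalso
      exact noFive F i b c a' a h' ⟨h.1, h.2.2.2.1.symm, h.2.2.2.2.1.symm, hne, h0⟩
    · exact h0
  have h2 : B v (e a') < 0 := hv.2.2.2.2.2.2 a' h'.2.2.1.1.symm hne h'.2.2.2.2.1.1.symm
    h'.2.2.2.2.2.1.symm
  have h3 := Rg.expand F h hv (y := e a') (by rw [B_comm]; exact h'.2.2.1.2)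
  have e1 : B (e a') (e b) = 0 := by rw [B_comm]; exact h'.2.2.2.2.1.2
  have e2 : B (e a') (e c) = 0 := by rw [B_comm]; exact h'.2.2.2.2.2.2
  rw [e1, e2, zero_smul, zero_smul, add_zero, add_zero, B_comm _ v] at h3
  set β : ℝ := -B (e a') (e a) with hβ
  set α : ℝ := -B v (e a') with hα
  have hβ0 : 1 < β := by rw [hβ]; linarith
  have hα0 : 0 < α := by rw [hα]; linarith
  have hβp : 0 < β := by linarith
  have h4 : e a' = α • v - β • e a := by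
    rw [h3, hα, hβ, neg_smul, neg_smul]
    abel
  have h5 : β ^ 2 - α ^ 2 = 1 := by
    have := F.norm a'
    rw [h4] at this
    simp only [B_sub_left, B_sub_right, B_smul_left, B_smul_right] at this
    rw [hv.1, F.norm a, hv.2.2.2.1, B_comm (e a) v, hv.2.2.2.1] at this
    linarith
  refine ⟨β, α / β, hβp, div_pos hα0 hβp, ?_, ?_⟩
  · field_simp
    linarith
  · rw [mul_div_cancel₀ _ hβp.ne']
    exact h4

/-- the facet at the far vertex of the pentagon at `c` -/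
theorem Rg.wvec {e : Fin n → V5} (F : Facts e) {i a b c a' b' w : Fin n} {v : V5}
    {βa sa βb sb : ℝ} (h : Q4 e i a b c) (hv : IsVert e i a b c v) (hβa : 0 < βa) (hβb : 0 < βb)
    (ha : e a' = (βa * sa) • v - βa • e a) (hb : e b' = (βb * sb) • v - βb • e b)
    (h1 : Q4 e i c a' w) (h2 : Q4 e i c w b') :
    ∃ x : ℝ, 0 < x ∧ x ^ 2 * (sa ^ 2 + sb ^ 2 - 1) = 1 ∧
      e w = x • v - (sa * x) • e a - (sb * x) • e b := by
  have h3 := Rg.expand F h hv (y := e w) (by rw [B_comm]; exact h1.2.2.1.2)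
  have e1 : B (e w) (e c) = 0 := by rw [B_comm]; exact h1.2.2.2.2.1.2
  have e2 : B (e w) (e a') = 0 := by rw [B_comm]; exact h1.2.2.2.2.2.2
  have e3 : B (e w) (e b') = 0 := h2.2.2.2.2.2.2
  have hx0 : B v (e w) ≤ 0 := Rg.vert_le hv w
  rw [ha, B_sub_right, B_smul_right, B_smul_right] at e2
  rw [hb, B_sub_right, B_smul_right, B_smul_right] at e3
  rw [B_comm v] at hx0
  set x : ℝ := -B (e w) v with hx
  have hwv : B (e w) v = -x := by rw [hx]; ring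
  rw [hwv] at e2 e3 h3
  have e4 : B (e w) (e a) = -(sa * x) := by
    have : βa * (B (e w) (e a) + sa * x) = 0 := by linarith
    rcases mul_eq_zero.mp this with h' | h'
    · exact absurd h' hβa.ne'
    · linarith
  have e5 : B (e w) (e b) = -(sb * x) := by
    have : βb * (B (e w) (e b) + sb * x) = 0 := by linarith
    rcases mul_eq_zero.mp this with h' | h'
    · exact absurd h' hβb.ne'
    · linarith
  have h4 : e w = x • v - (sa * x) • e a - (sb * x) • e b := by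
    rw [h3, e1, e4, e5]
    module
  have hn : x ^ 2 * (sa ^ 2 + sb ^ 2 - 1) = 1 := by
    have := F.norm w
    rw [h4] at this
    obtain ⟨hvv, -, -, q1, q2, q3, -⟩ := hv
    simp only [B_sub_left, B_sub_right, B_smul_left, B_smul_right] at this
    rw [hvv, F.norm a, F.norm b, B_comm (e a) v, B_comm (e b) v, q1, q2, B_comm (e b) (e a),
      h.2.2.2.1.2] at this
    linarith
  refine ⟨x, ?_, hn, h4⟩
  rcases lt_or_eq_of_le (show 0 ≤ x by rw [hx]; linarith) with h' | h'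
  · exact h'
  · rw [← h'] at hn
    norm_num at hn

/-- the facet opposite to the corner -/
theorem Rg.gvec {e : Fin n → V5} (F : Facts e) {i a b c a' wc wb g : Fin n} {v : V5}
    {βa sa sb sc x y : ℝ} (h : Q4 e i a b c) (hv : IsVert e i a b c v) (hβa : 0 < βa)
    (hsb : 0 < sb) (hsc : 0 < sc) (hx : 0 < x) (hy : 0 < y)
    (ha : e a' = (βa * sa) • v - βa • e a)
    (hwc : e wc = x • v - (sa * x) • e a - (sb * x) • e b)
    (hwb : e wb = y • v - (sa * y) • e a - (sc * y) • e c)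
    (h1 : Q4 e i a' wc g) (h2 : Q4 e i a' g wb) :
    ∃ X : ℝ, 0 < X ∧
      X ^ 2 * (sa ^ 2 - 1 + ((1 - sa ^ 2) / sb) ^ 2 + ((1 - sa ^ 2) / sc) ^ 2) = 1 ∧
      e g = X • v - (sa * X) • e a - ((1 - sa ^ 2) / sb * X) • e b -
        ((1 - sa ^ 2) / sc * X) • e c := by
  have h3 := Rg.expand F h hv (y := e g) (by rw [B_comm]; exact h1.2.2.1.2)
  have e1 : B (e g) (e a') = 0 := by rw [B_comm]; exact h1.2.2.2.2.1.2
  have e2 : B (e g) (e wc) = 0 := by rw [B_comm]; exact h1.2.2.2.2.2.2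
  have e3 : B (e g) (e wb) = 0 := h2.2.2.2.2.2.2
  have hx0 : B v (e g) ≤ 0 := Rg.vert_le hv g
  rw [ha, B_sub_right, B_smul_right, B_smul_right] at e1
  rw [hwc, B_sub_right, B_sub_right, B_smul_right, B_smul_right, B_smul_right] at e2
  rw [hwb, B_sub_right, B_sub_right, B_smul_right, B_smul_right, B_smul_right] at e3
  rw [B_comm v] at hx0
  set X : ℝ := -B (e g) v with hX
  have hgv : B (e g) v = -X := by rw [hX]; ring
  rw [hgv] at e1 e2 e3 h3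
  have e4 : B (e g) (e a) = -(sa * X) := by
    have : βa * (B (e g) (e a) + sa * X) = 0 := by linarith
    rcases mul_eq_zero.mp this with h' | h'
    · exact absurd h' hβa.ne'
    · linarith
  rw [e4] at e2 e3
  have e5 : B (e g) (e b) = -((1 - sa ^ 2) / sb * X) := by
    have : x * (sb * B (e g) (e b) + (1 - sa ^ 2) * X) = 0 := by linarith
    rcases mul_eq_zero.mp this with h' | h'
    · exact absurd h' hx.ne'
    · field_simp
      linarith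
  have e6 : B (e g) (e c) = -((1 - sa ^ 2) / sc * X) := by
    have : y * (sc * B (e g) (e c) + (1 - sa ^ 2) * X) = 0 := by linarith
    rcases mul_eq_zero.mp this with h' | h'
    · exact absurd h' hy.ne'
    · field_simp
      linarith
  have h4 : e g = X • v - (sa * X) • e a - ((1 - sa ^ 2) / sb * X) • e b -
      ((1 - sa ^ 2) / sc * X) • e c := by
    rw [h3, e4, e5, e6]
    module
  have hn : X ^ 2 * (sa ^ 2 - 1 + ((1 - sa ^ 2) / sb) ^ 2 + ((1 - sa ^ 2) / sc) ^ 2) = 1 := by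
    have := F.norm g
    rw [h4] at this
    obtain ⟨hvv, -, -, q1, q2, q3, -⟩ := hv
    simp only [B_sub_left, B_sub_right, B_smul_left, B_smul_right] at this
    rw [hvv, F.norm a, F.norm b, F.norm c, B_comm (e a) v, B_comm (e b) v, B_comm (e c) v, q1, q2,
      q3, B_comm (e b) (e a), B_comm (e c) (e a), B_comm (e c) (e b), h.2.2.2.1.2,
      h.2.2.2.2.1.2, h.2.2.2.2.2.2] at this
    linarith
  refine ⟨X, ?_, hn, h4⟩
  rcases lt_or_eq_of_le (show 0 ≤ X by rw [hX]; linarith) with h' | h'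
  · exact h'
  · rw [← h'] at hn
    norm_num at hn

/-- the main step: the facets near a corner of a facet all of whose 2-faces are pentagons -/
theorem Rg.step {e : Fin n → V5} (F : Facts e) (hP : Pent e) {i a b c a' b' c' : Fin n} {v : V5}
    {βa sa βb sb βc sc : ℝ} (hm : ∀ j, Adj e i j → mm e i j = 5)
    (h : Q4 e i a b c) (hv : IsVert e i a b c v)
    (ha' : Q4 e i b c a') (hna : a' ≠ a) (hb' : Q4 e i a c b') (hnb : b' ≠ b)
    (hc' : Q4 e i a b c') (hnc : c' ≠ c)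
    (hβa : 0 < βa) (hβb : 0 < βb) (hβc : 0 < βc) (hsa : 0 < sa) (hsb : 0 < sb) (hsc : 0 < sc)
    (ha : e a' = (βa * sa) • v - βa • e a) (hb : e b' = (βb * sb) • v - βb • e b)
    (hc : e c' = (βc * sc) • v - βc • e c) :
    (∃ w x, Adj e i w ∧ 0 < x ∧ x ^ 2 * (sa ^ 2 + sb ^ 2 - 1) = 1 ∧
      e w = x • v - (sa * x) • e a - (sb * x) • e b) ∧
    (∃ g X, Adj e i g ∧ 0 < X ∧
      X ^ 2 * (sa ^ 2 - 1 + ((1 - sa ^ 2) / sb) ^ 2 + ((1 - sa ^ 2) / sc) ^ 2) = 1 ∧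
      e g = X • v - (sa * X) • e a - ((1 - sa ^ 2) / sb * X) • e b -
        ((1 - sa ^ 2) / sc * X) • e c) ∧
    (1 - sa ^ 2 - sb ^ 2) * sc ^ 2 + (1 - sa ^ 2) * (1 - sb ^ 2) = 0 := by
  obtain ⟨ia, ib, ic, ab, ac, bc⟩ := id h
  obtain ⟨-, -, ia', -, ba', ca'⟩ := id ha'
  obtain ⟨-, -, ib', -, ab', cb'⟩ := id hb'
  obtain ⟨-, -, ic', -, ac', bc'⟩ := id hc'
  -- the pentagons at `c`, `b`, `a`
  obtain ⟨wc, c1, c2, c3, c4, hab'⟩ := Rg.pent5 F hP (hm c ic) (k := a) (l := b)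
    ⟨ic, ia, ib, ac.symm, bc.symm, ab⟩ (x := a') ⟨ic, ib, ia', bc.symm, ca', ba'⟩ hna
    (y := b') ⟨ic, ia, ib', ac.symm, cb', ab'⟩ hnb
  obtain ⟨wb, d1, d2, d3, d4, -⟩ := Rg.pent5 F hP (hm b ib) (k := a) (l := c)
    ⟨ib, ia, ic, ab.symm, bc, ac⟩ (x := a') ⟨ib, ic, ia', bc, ba', ca'⟩ hna
    (y := c') ⟨ib, ia, ic', ab.symm, bc', ac'⟩ hnc
  obtain ⟨wa, f1, f2, f3, f4, -⟩ := Rg.pent5 F hP (hm a ia) (k := b) (l := c)
    ⟨ia, ib, ic, ab, ac, bc⟩ (x := b') ⟨ia, ic, ib', ac, ab', cb'⟩ hnb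
    (y := c') ⟨ia, ib, ic', ab, ac', bc'⟩ hnc
  obtain ⟨-, -, iwc, -, cwc, a'wc⟩ := id c1
  obtain ⟨-, -, -, -, -, wcb'⟩ := id c2
  obtain ⟨-, -, iwb, -, bwb, a'wb⟩ := id d1
  obtain ⟨-, -, -, -, -, wbc'⟩ := id d2
  obtain ⟨-, -, iwa, -, awa, b'wa⟩ := id f1
  obtain ⟨-, -, -, -, -, wac'⟩ := id f2
  obtain ⟨x, hx0, hx1, hwc⟩ := Rg.wvec F h hv hβa hβb ha hb c1 c2
  -- permuted corners
  have hvab : IsVert e i a c b v := ⟨hv.1, hv.2.1, hv.2.2.1, hv.2.2.2.1, hv.2.2.2.2.2.1,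
    hv.2.2.2.2.1, fun m m1 m2 m3 m4 => hv.2.2.2.2.2.2 m m1 m2 m4 m3⟩
  have hvbc : IsVert e i b c a v := ⟨hv.1, hv.2.1, hv.2.2.1, hv.2.2.2.2.1, hv.2.2.2.2.2.1,
    hv.2.2.2.1, fun m m1 m2 m3 m4 => hv.2.2.2.2.2.2 m m1 m4 m2 m3⟩
  have hvba : IsVert e i b a c v := ⟨hv.1, hv.2.1, hv.2.2.1, hv.2.2.2.2.1, hv.2.2.2.1,
    hv.2.2.2.2.2.1, fun m m1 m2 m3 m4 => hv.2.2.2.2.2.2 m m1 m3 m2 m4⟩
  obtain ⟨y, hy0, -, hwb⟩ := Rg.wvec F (i := i) (a := a) (b := c) (c := b) (a' := a') (b' := c')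
    (w := wb) ⟨ia, ic, ib, ac, ab, bc.symm⟩ hvab hβa hβc ha hc d1 d2
  obtain ⟨z, hz0, -, hwa⟩ := Rg.wvec F (i := i) (a := b) (b := c) (c := a) (a' := b') (b' := c')
    (w := wa) ⟨ib, ic, ia, bc, ab.symm, ac.symm⟩ hvbc hβb hβc hb hc f1 f2
  -- the pentagons at `a'`, `b'`
  obtain ⟨ga, g1, g2, g3, g4, -⟩ := Rg.pent5 F hP (hm a' ia') (k := b) (l := c)
    ⟨ia', ib, ic, ba'.symm, ca'.symm, bc⟩ (x := wc) ⟨ia', ic, iwc, ca'.symm, a'wc, cwc⟩ c4
    (y := wb) ⟨ia', ib, iwb, ba'.symm, a'wb, bwb⟩ d4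
  obtain ⟨gb, k1, k2, k3, k4, -⟩ := Rg.pent5 F hP (hm b' ib') (k := a) (l := c)
    ⟨ib', ia, ic, ab'.symm, cb'.symm, ac⟩ (x := wc) ⟨ib', ic, iwc, cb'.symm, wcb'.symm, cwc⟩ c3
    (y := wa) ⟨ib', ia, iwa, ab'.symm, b'wa, awa⟩ f4
  obtain ⟨X, hX0, hX1, hga⟩ := Rg.gvec F h hv hβa hsb hsc hx0 hy0 ha hwc hwb g1 g2
  obtain ⟨Y, hY0, -, hgb⟩ := Rg.gvec F (i := i) (a := b) (b := a) (c := c) (a' := b') (wc := wc)
    (wb := wa) (g := gb) (y := z) ⟨ib, ia, ic, ab.symm, bc, ac⟩ hvba hβb hsa hsc hx0 hz0 hb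
    (by rw [hwc]; abel) hwa k1 k2
  obtain ⟨-, -, iga, -, a'ga, wcga⟩ := id g1
  obtain ⟨-, -, igb, -, b'gb, wcgb⟩ := id k1
  -- the pentagon at `wc`
  obtain ⟨t, t1, t2, t3, t4, -⟩ := Rg.pent5 F hP (hm wc iwc) (k := a') (l := c)
    ⟨iwc, ia', ic, a'wc.symm, cwc.symm, ca'.symm⟩ (x := b')
    ⟨iwc, ic, ib', cwc.symm, wcb', cb'⟩ hab'.symm (y := ga)
    ⟨iwc, ia', iga, a'wc.symm, wcga, a'ga⟩ g4
  have ht : t = gb := by
    rcases Lk.nb F (i := i) (j := wc) (b := b') (a := c) (c := gb) (m := t)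
      ⟨iwc, ib', ic, wcb', cwc.symm, cb'.symm⟩ ⟨iwc, ib', igb, wcb', wcgb, b'gb⟩ k4 t1 with h' | h'
    · exact absurd h' t4
    · exact h'
  rw [ht] at t2
  have hort : B (e gb) (e ga) = 0 := t2.2.2.2.2.2.2
  refine ⟨⟨wc, x, iwc, hx0, hx1, hwc⟩, ⟨ga, X, iga, hX0, hX1, hga⟩, ?_⟩
  rw [hga, hgb] at hort
  obtain ⟨hvv, -, -, q1, q2, q3, -⟩ := hv
  simp only [B_sub_left, B_sub_right, B_smul_left, B_smul_right] at hort
  rw [hvv, F.norm a, F.norm b, F.norm c, B_comm (e a) v, B_comm (e b) v, B_comm (e c) v, q1, q2,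
    q3, B_comm (e b) (e a), B_comm (e c) (e a), B_comm (e c) (e b), ab.2, ac.2, bc.2] at hort
  have h7 : X * Y * ((1 - sa ^ 2 - sb ^ 2) + (1 - sa ^ 2) * (1 - sb ^ 2) / sc ^ 2) = 0 := by
    have hsa' := hsa.ne'
    have hsb' := hsb.ne'
    have hsc' := hsc.ne'
    rw [← hort]
    field_simp
    ring
  rcases mul_eq_zero.mp h7 with h8 | h8
  · rcases mul_eq_zero.mp h8 with h9 | h9
    · exact absurd h9 hX0.ne'
    · exact absurd h9 hY0.ne'
  · have hsc' := hsc.ne'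
    field_simp at h8
    linarith

/-- the numerical values -/
theorem Rg.values {p T β s x X : ℝ} (hφ : p ^ 2 = p + 1) (hφ0 : 0 < p) (hT : T ^ 2 + T = 1) (hs : 0 < s) (hsT : s ^ 2 = T)
    (hβ : 0 < β) (hβT : β ^ 2 * (1 - T) = 1) (hx : 0 < x) (hxT : x ^ 2 * (T + T - 1) = 1)
    (hX : 0 < X) (hXT : X ^ 2 * (T - 1 + ((1 - T) / s) ^ 2 + ((1 - T) / s) ^ 2) = 1) :
    β = p ∧ β * s = √p ∧ x = p * √p ∧ s * x = p ∧ X = p ^ 2 * √p ∧ s * X = p ^ 2 ∧
      (1 - T) / s * X = p := by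
  have hT0 : 0 < T := by rw [← hsT]; positivity
  have hu : T * p = 1 := by
    have h1 : (T * p - 1) * (T * p + p + 1) = 0 := by
      linear_combination (p ^ 2) * hT + hφ
    rcases mul_eq_zero.mp h1 with h2 | h2
    · linarith
    · exfalso
      have : 0 < T * p := mul_pos hT0 hφ0
      linarith
  have h1T : 1 - T = T ^ 2 := by linarith
  have hβ1 : β * T = 1 := by
    have h1 : (β * T) ^ 2 = 1 := by rw [mul_pow, ← h1T]; exact hβT
    have h2 : 0 < β * T := mul_pos hβ hT0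
    nlinarith
  have hβφ : β = p := by
    have : T * (β - p) = 0 := by linear_combination hβ1 - hu
    rcases mul_eq_zero.mp this with h2 | h2
    · exact absurd h2 hT0.ne'
    · linarith
  have hβs : β * s = √p := by
    have h1 : (β * s) ^ 2 = p := by
      rw [mul_pow, hsT, hβφ]
      linear_combination p * hu
    rw [← h1, Real.sqrt_sq (mul_pos hβ hs).le]
  have hφs : p * s = √p := by rw [← hβs, hβφ]
  have hsq : √p ^ 2 = p := Real.sq_sqrt hφ0.le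
  have hsq0 : 0 < √p := Real.sqrt_pos.mpr hφ0
  have hT3 : T ^ 3 * p ^ 3 = 1 := by rw [← mul_pow, hu, one_pow]
  have hxe : x = p * √p := by
    have h1 : x ^ 2 * T ^ 3 = 1 := by
      have : T + T - 1 = T ^ 3 := by linear_combination (1 - T) * hT
      rw [← this]; exact hxT
    have h2 : x ^ 2 = (p * √p) ^ 2 := by
      rw [mul_pow, hsq]
      calc x ^ 2 = x ^ 2 * (T ^ 3 * p ^ 3) := by rw [hT3, mul_one]
        _ = (x ^ 2 * T ^ 3) * p ^ 3 := by ring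
        _ = p ^ 2 * p := by rw [h1]; ring
    exact (sq_eq_sq₀ hx.le (by positivity)).mp h2
  have hsx : s * x = p := by
    rw [hxe]
    calc s * (p * √p) = (p * s) * √p := by ring
      _ = p := by rw [hφs, ← sq, hsq]
  have hq : ((1 - T) / s) ^ 2 = T ^ 3 := by
    rw [div_pow, hsT, h1T]
    field_simp
  have hXe : X = p ^ 2 * √p := by
    have h1 : X ^ 2 * T ^ 5 = 1 := by
      have : T - 1 + ((1 - T) / s) ^ 2 + ((1 - T) / s) ^ 2 = T ^ 5 := by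
        rw [hq]
        linear_combination (-T ^ 3 + T ^ 2 + 1) * hT
      rw [← this]; exact hXT
    have hT5 : T ^ 5 * p ^ 5 = 1 := by rw [← mul_pow, hu, one_pow]
    have h2 : X ^ 2 = (p ^ 2 * √p) ^ 2 := by
      rw [mul_pow, hsq]
      calc X ^ 2 = X ^ 2 * (T ^ 5 * p ^ 5) := by rw [hT5, mul_one]
        _ = (X ^ 2 * T ^ 5) * p ^ 5 := by ring
        _ = (p ^ 2) ^ 2 * p := by rw [h1]; ring
    exact (sq_eq_sq₀ hX.le (by positivity)).mp h2
  refine ⟨hβφ, hβs, hxe, hsx, hXe, ?_, ?_⟩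
  · rw [hXe]
    calc s * (p ^ 2 * √p) = p * ((p * s) * √p) := by ring
      _ = p ^ 2 := by rw [hφs, ← sq, hsq]; ring
  · rw [hXe, h1T, div_mul_eq_mul_div, div_eq_iff hs.ne']
    calc T ^ 2 * (p ^ 2 * √p) = (T * p) ^ 2 * √p := by ring
      _ = p * s := by rw [hu, hφs]; ring

theorem reg {e : Fin n → V5} (F : Facts e) (hE : EulerSpec e) (h5 : FiveSpec e) (hP : Pent e) :
    RegSpec e := by
  intro i a b c v hd h hv
  have hm := Rg.mm5 hE h5 hd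
  obtain ⟨ia, ib, ic, ab, ac, bc⟩ := id h
  obtain ⟨c', hnc, hc', -⟩ := F.two i a b c h
  obtain ⟨b', hnb, hb', -⟩ := F.two i a c b ⟨ia, ic, ib, ac, ab, bc.symm⟩
  obtain ⟨a', hna, ha', -⟩ := F.two i b c a ⟨ib, ic, ia, bc, ab.symm, ac.symm⟩
  obtain ⟨-, -, ia', -, ba', ca'⟩ := id ha'
  obtain ⟨-, -, ib', -, ab', cb'⟩ := id hb'
  obtain ⟨-, -, ic', -, ac', bc'⟩ := id hc'
  have hvbac : IsVert e i b a c v := ⟨hv.1, hv.2.1, hv.2.2.1, hv.2.2.2.2.1, hv.2.2.2.1,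
    hv.2.2.2.2.2.1, fun m m1 m2 m3 m4 => hv.2.2.2.2.2.2 m m1 m3 m2 m4⟩
  have hvcab : IsVert e i c a b v := ⟨hv.1, hv.2.1, hv.2.2.1, hv.2.2.2.2.2.1, hv.2.2.2.1,
    hv.2.2.2.2.1, fun m m1 m2 m3 m4 => hv.2.2.2.2.2.2 m m1 m3 m4 m2⟩
  have hvbca : IsVert e i b c a v := ⟨hv.1, hv.2.1, hv.2.2.1, hv.2.2.2.2.1, hv.2.2.2.2.2.1,
    hv.2.2.2.1, fun m m1 m2 m3 m4 => hv.2.2.2.2.2.2 m m1 m4 m2 m3⟩
  obtain ⟨βa, sa, hβa, hsa, hna', ha⟩ := Rg.flip F h hv ha' hna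
  obtain ⟨βb, sb, hβb, hsb, hnb', hb⟩ := Rg.flip F
    (show Q4 e i b a c from ⟨ib, ia, ic, ab.symm, bc, ac⟩) hvbac hb' hnb
  obtain ⟨βc, sc, hβc, hsc, hnc', hc⟩ := Rg.flip F
    (show Q4 e i c a b from ⟨ic, ia, ib, ac.symm, bc.symm, ab⟩) hvcab hc' hnc
  obtain ⟨⟨w, x, iw, hx0, hx1, hw⟩, ⟨g, X, ig, hX0, hX1, hg⟩, R1⟩ :=
    Rg.step F hP hm h hv ha' hna hb' hnb hc' hnc hβa hβb hβc hsa hsb hsc ha hb hc
  obtain ⟨-, -, R2⟩ := Rg.step F hP hm (a := b) (b := c) (c := a) (a' := b') (b' := c') (c' := a')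
    ⟨ib, ic, ia, bc, ab.symm, ac.symm⟩ hvbca ⟨ic, ia, ib', ac.symm, cb', ab'⟩ hnb
    ⟨ib, ia, ic', ab.symm, bc', ac'⟩ hnc ⟨ib, ic, ia', bc, ba', ca'⟩ hna
    hβb hβc hβa hsb hsc hsa hb hc ha
  obtain ⟨-, -, R3⟩ := Rg.step F hP hm (a := c) (b := a) (c := b) (a' := c') (b' := a') (c' := b')
    ⟨ic, ia, ib, ac.symm, bc.symm, ab⟩ hvcab ⟨ia, ib, ic', ab, ac', bc'⟩ hnc
    ⟨ic, ib, ia', bc.symm, ca', ba'⟩ hna ⟨ic, ia, ib', ac.symm, cb', ab'⟩ hnb
    hβc hβa hβb hsc hsa hsb hc ha hb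
  have hA1 : 0 < 1 - sa ^ 2 := by
    by_contra hcon
    have : βa ^ 2 * (1 - sa ^ 2) ≤ 0 :=
      mul_nonpos_of_nonneg_of_nonpos (sq_nonneg _) (not_lt.mp hcon)
    linarith
  have hB1 : 0 < 1 - sb ^ 2 := by
    by_contra hcon
    have : βb ^ 2 * (1 - sb ^ 2) ≤ 0 :=
      mul_nonpos_of_nonneg_of_nonpos (sq_nonneg _) (not_lt.mp hcon)
    linarith
  have hCA : sc ^ 2 = sa ^ 2 := by
    have : (sc ^ 2 - sa ^ 2) * (1 - sb ^ 2) = 0 := by linear_combination (R1 - R2) / 2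
    rcases mul_eq_zero.mp this with h' | h'
    · linarith
    · exact absurd h' hB1.ne'
  have hCB : sc ^ 2 = sb ^ 2 := by
    have : (sc ^ 2 - sb ^ 2) * (1 - sa ^ 2) = 0 := by linear_combination (R1 - R3) / 2
    rcases mul_eq_zero.mp this with h' | h'
    · linarith
    · exact absurd h' hA1.ne'
  have hca : sc = sa := (sq_eq_sq₀ hsc.le hsa.le).mp hCA
  have hcb : sb = sa := (sq_eq_sq₀ hsb.le hsa.le).mp (by rw [← hCB, hCA])
  have hT : (sa ^ 2) ^ 2 + sa ^ 2 = 1 := by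
    rw [hca, hcb] at R1
    linear_combination (-1 : ℝ) * R1
  rw [hcb] at hx1 hX1 hw hg
  rw [hca] at hX1 hg
  obtain ⟨v1, v2, v3, v4, v5, v6, v7⟩ := Rg.values φ_sq φ_pos hT hsa rfl hβa hna' hx0 hx1 hX0 hX1
  refine ⟨⟨a', ia', ?_⟩, ⟨w, iw, ?_⟩, ⟨g, ig, ?_⟩⟩
  · rw [ha, v2, v1]
  · rw [hw, v4, v3]
  · rw [hg, v7, v6, v5]

end Pool.Agent.H62.M4
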