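import Pool.Agent.H62.M4.Spec
import Pool.Agent.H62.M4.Lor

/-!
MP_6c826d_gt (S13329), module S0: existence of the ring around a regular facet.
-/

set_option autoImplicit false

namespace Pool.Agent.H62.M4

open Finset

variable {n : ℕ}

/-- all neighbours of a regular facet are pentagonal -/
theorem ring_mm_five {e : Fin n → V5} (hE : EulerSpec e) (h5 : FiveSpec e) {c z : Fin n}
    (hc : deg e c = 12) (hcz : Adj e c z) : mm e c z = 5 := by
  classical
  have h1 := hE c
  rw [hc] at h1
  have hcard : (univ.filter (fun j => Adj e c j)).card = 12 := by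
    have := hc
    unfold deg at this
    convert this
  have hz : z ∈ univ.filter (fun j => Adj e c j) := by simp [hcz]
  have h2 : (∑ j ∈ univ.filter (fun j => Adj e c j), mm e c j)
      = mm e c z + ∑ j ∈ (univ.filter (fun j => Adj e c j)).erase z, mm e c j :=
    (Finset.add_sum_erase _ _ hz).symm
  have h3 : (11 : ℕ) * 5 ≤ ∑ j ∈ (univ.filter (fun j => Adj e c j)).erase z, mm e c j := by
    have hc11 : ((univ.filter (fun j => Adj e c j)).erase z).card = 11 := by
      rw [Finset.card_erase_of_mem hz, hcard]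
    calc 11 * 5 = ∑ _j ∈ (univ.filter (fun j => Adj e c j)).erase z, 5 := by
          rw [Finset.sum_const, hc11, smul_eq_mul]
      _ ≤ _ := by
          apply Finset.sum_le_sum
          intro j hj
          have hj' := Finset.mem_of_mem_erase hj
          exact h5 c j (by simpa using hj')
  have h4 := h5 c z hcz
  have h5' : (∑ j ∈ univ.filter (fun j => Adj e c j), mm e c j) + 12 = 72 := by
    convert h1 using 2
  omega

/-- uniqueness of the vertex at a corner -/
theorem vert_unique {e : Fin n → V5} (F : Facts e) {i j k l : Fin n} (hQ : Q4 e i j k l)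
    {v w : V5} (hv : IsVert e i j k l v) (hww : B w w = -1) (hw0 : 0 < w 0)
    (h1 : B w (e i) = 0) (h2 : B w (e j) = 0) (h3 : B w (e k) = 0) (h4 : B w (e l) = 0) :
    w = v := by
  obtain ⟨hvv, hv0, hvi, hvj, hvk, hvl, -⟩ := hv
  obtain ⟨hij, hik, hil, hjk, hjl, hkl⟩ := hQ
  have hx := frame_expand (F.norm i) (F.norm j) (F.norm k) (F.norm l) hvv hij.2 hik.2 hil.2
    hjk.2 hjl.2 hkl.2 hvi hvj hvk hvl w
  rw [h1, h2, h3, h4] at hx
  simp only [zero_smul, add_zero, zero_sub] at hx
  set a := B w v with ha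
  have hn : a ^ 2 = 1 := by
    have : B w w = -(a ^ 2) := by
      conv_lhs => rw [hx]
      simp only [B_neg_left, B_neg_right, B_smul_left, B_smul_right, hvv]
      ring
    linarith
  have ha0 : a < 0 := by
    have h0 : w 0 = -(a * v 0) := by
      conv_lhs => rw [hx]
      simp
    rw [h0] at hw0
    nlinarith
  have ha1 : a = -1 := by nlinarith
  rw [hx, ha1]
  simp

theorem sqrtφ_sq : √φ * √φ = φ := Real.mul_self_sqrt φ_pos.le

/-- the fifth vertices of the pentagon: `q (t+1)` -/
theorem ring_step {e : Fin n → V5} (F : Facts e) {z c a b a' : Fin n}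
    (hQ : Q4 e z c a b) (hQ' : Q4 e z c b a') {v v' : V5} (hv : IsVert e z c a b v)
    (hv' : IsVert e z c b a' v') (hs : e a' = √φ • v - φ • e a) :
    v' = φ • v - √φ • e a := by
  obtain ⟨hvv, hv0, hvz, hvc, hva, hvb, -⟩ := hv
  symm
  have hs2 := sqrtφ_sq
  have hφ := φ_sq
  refine vert_unique F hQ' hv' ?_ ?_ ?_ ?_ ?_ ?_
  · simp only [B_sub_left, B_sub_right, B_smul_left, B_smul_right, hvv, hva, B_comm (e a) v,
      F.norm a]
    nlinarith
  · apply time_pos_of hvv hv0
    · simp only [B_sub_left, B_sub_right, B_smul_left, B_smul_right, hvv, hva, B_comm (e a) v,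
        F.norm a]
      nlinarith
    · simp only [B_sub_right, B_smul_right, hvv, hva]
      nlinarith [φ_pos]
  · simp only [B_sub_left, B_smul_left, hvz, B_comm (e a) (e z), hQ.2.1.2]
    ring
  · simp only [B_sub_left, B_smul_left, hvc, B_comm (e a) (e c), hQ.2.2.2.1.2]
    ring
  · simp only [B_sub_left, B_smul_left, hvb, hQ.2.2.2.2.2.2]
    ring
  · rw [hs]
    simp only [B_sub_left, B_sub_right, B_smul_left, B_smul_right, hvv, hva, B_comm (e a) v,
      F.norm a]
    nlinarith

/-- form of the facet at the other end of an edge -/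
theorem ring_kform {e : Fin n → V5} (F : Facts e) {z a b c k : Fin n}
    (hQ : Q4 e z c a b) (hQ' : Q4 e z a b k) (hkc : k ≠ c) {v : V5} (hv : IsVert e z c a b v) :
    ∃ C : ℝ, 1 < C ∧ e k = (1 / √(C ^ 2 - 1)) • v - (C / √(C ^ 2 - 1)) • e c := by
  obtain ⟨hvv, hv0, hvz, hvc, hva, hvb, hvm⟩ := hv
  obtain ⟨hzc, hza, hzb, hca, hcb, hab⟩ := hQ
  obtain ⟨-, -, hzk, -, hak, hbk⟩ := hQ'
  have hx := frame_expand (F.norm z) (F.norm c) (F.norm a) (F.norm b) hvv hzc.2 hza.2 hzb.2
    hca.2 hcb.2 hab.2 hvz hvc hva hvb (e k)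
  rw [B_comm (e k) (e z), B_comm (e k) (e a), B_comm (e k) (e b), hzk.2, hak.2, hbk.2] at hx
  simp only [zero_smul, add_zero, zero_add] at hx
  have hneg : B (e k) v < 0 := by
    rw [B_comm]
    exact hvm k hzk.1.symm hkc hak.1.symm hbk.1.symm
  set β := B (e k) (e c) with hβ
  set α := B (e k) v with hα
  have hn : β ^ 2 - α ^ 2 = 1 := by
    have h1 : B (e k) (e k) = β ^ 2 - α ^ 2 := by
      conv_lhs => rw [hx]
      simp only [B_sub_left, B_sub_right, B_smul_left, B_smul_right, hvv, hvc, B_comm (e c) v,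
        F.norm c]
      ring
    rw [← h1]
    exact F.norm k
  have hβn : β < 0 := by
    rcases F.dich k c hkc with h | h
    · exfalso
      rw [← hβ] at h
      rw [h] at hn
      nlinarith
    · rw [← hβ] at h
      linarith
  set A := -α with hA
  set b' := -β with hb'
  have hA0 : 0 < A := by simp only [hA]; linarith
  have hb0 : 0 < b' := by simp only [hb']; linarith
  have hn' : b' ^ 2 - A ^ 2 = 1 := by simp only [hA, hb']; nlinarith
  have hC : (b' / A) ^ 2 - 1 = (1 / A) ^ 2 := by
    field_simp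
    linarith
  have hsq : √((b' / A) ^ 2 - 1) = 1 / A := by
    rw [hC]
    exact Real.sqrt_sq (by positivity)
  refine ⟨b' / A, ?_, ?_⟩
  · rw [lt_div_iff₀ hA0]
    nlinarith
  · rw [hsq]
    have e1 : 1 / (1 / A) = A := by simp
    have e2 : b' / A / (1 / A) = b' := by field_simp
    rw [e1, e2]
    conv_lhs => rw [hx]
    simp only [hA, hb', neg_smul]
    abel

theorem ring_exists {e : Fin n → V5} (F : Facts e) (hE : EulerSpec e) (h5 : FiveSpec e)
    (hP : Pent e) (hR : RegSpec e) : RingSpec e := by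
  classical
  intro z c hzc hc
  obtain ⟨k0, l0, hQ0⟩ := F.ext2 z c hzc
  have hm : mm e z c = 5 := by
    rw [mm_comm]
    exact ring_mm_five hE h5 hc hzc.symm
  obtain ⟨p, pinj, -, -, pQ, pall, pnon⟩ := hP z c k0 l0 hQ0 hm
  have hv : ∀ t, ∃ v, IsVert e z c (p t) (p (t + 1)) v := fun t => F.vert _ _ _ _ (pQ t)
  choose q hq using hv
  have hkQ : ∀ t, ∃ l', l' ≠ c ∧ Q4 e z (p t) (p (t + 1)) l' ∧
      ∀ m, Q4 e z (p t) (p (t + 1)) m → m = c ∨ m = l' := by
    intro t
    obtain ⟨h1, h2, h3, h4, h5, h6⟩ := pQ t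
    exact F.two z (p t) (p (t + 1)) c ⟨h2, h3, h1, h6, h4.symm, h5.symm⟩
  choose k hk1 hk2 hk3 using hkQ
  have pstep : ∀ t, e (p (t + 2)) = √φ • q t - φ • e (p t) := by
    intro t
    obtain ⟨h1, h2, h3, h4, h5, h6⟩ := pQ t
    have hQc : Q4 e c (p t) z (p (t + 1)) := ⟨h4, h1.symm, h5, h2.symm, h6, h3⟩
    have hqt := hq t
    obtain ⟨hvv, hv0, hvz, hvc, hva, hvb, hvm⟩ := hqt
    have hV : IsVert e c (p t) z (p (t + 1)) (q t) :=
      ⟨hvv, hv0, hvc, hva, hvz, hvb, fun m m1 m2 m3 m4 => hvm m m3 m1 m2 m4⟩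
    obtain ⟨⟨m, hm1, hm2⟩, -, -⟩ := hR c (p t) z (p (t + 1)) (q t) hc hQc hV
    have hmp : m ≠ p t := by
      intro hmp
      have h7 : B (e m) (e (p t)) = -φ := by
        rw [hm2]
        simp only [B_sub_left, B_smul_left, hva, F.norm]
        ring
      rw [hmp, F.norm] at h7
      linarith [φ_pos]
    have hmz : Adj e z m := by
      refine ⟨?_, ?_⟩
      · intro hzm
        have : B (e z) (e m) = 0 := by
          rw [hm2]
          simp only [B_sub_right, B_smul_right, B_comm (e z) (q t), hvz, h2.2]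
          ring
        rw [← hzm, F.norm] at this
        exact one_ne_zero this
      · rw [hm2]
        simp only [B_sub_right, B_smul_right, B_comm (e z) (q t), hvz, h2.2]
        ring
    have hmp1 : Adj e (p (t + 1)) m := by
      have h0 : B (e (p (t + 1))) (e m) = 0 := by
        rw [hm2]
        simp only [B_sub_right, B_smul_right, B_comm (e (p (t + 1))) (q t), hvb,
          B_comm (e (p (t + 1))) (e (p t)), h6.2]
        ring
      refine ⟨?_, h0⟩
      intro hh
      rw [← hh, F.norm] at h0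
      exact one_ne_zero h0
    obtain ⟨s, hs⟩ := pall m hmz hm1
    subst hs
    have hst : s = t + 2 := by
      have a1 : s ≠ t := fun h => hmp (by rw [h])
      have a2 : s ≠ t + 1 := fun h => hmp1.1 (by rw [h])
      have a3 : s ≠ t + 1 + 2 := by
        intro h
        rw [h] at hmp1
        exact pnon (t + 1) hmp1
      have a4 : s + 2 ≠ t + 1 := by
        intro h
        rw [← h] at hmp1
        exact pnon s hmp1.symm
      revert a1 a2 a3 a4
      generalize s = s'
      clear * -
      revert s' t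
      decide
    rw [hst] at hm2
    exact hm2
  have kf : ∀ t, ∃ C : ℝ, 1 < C ∧
      e (k t) = (1 / √(C ^ 2 - 1)) • q t - (C / √(C ^ 2 - 1)) • e c :=
    fun t => ring_kform F (pQ t) (hk2 t) (hk1 t) (hq t)
  choose C hC1 hC2 using kf
  refine ⟨⟨p, q, k, C, hzc, pinj, pQ, pall, pnon, hq, ?_, pstep, hk2, hk1, ?_, hC1, hC2⟩⟩
  · intro t
    have h := pQ (t + 1)
    have e1 : t + 1 + 1 = t + 2 := by
      clear * -
      revert t
      decide
    have hq' := hq (t + 1)
    rw [e1] at h hq'
    exact ring_step F (pQ t) h (hq t) hq' (pstep t)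
  · intro t m hm
    exact hk3 t m hm

end Pool.Agent.H62.M4
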