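import Pool.Agent.H62.M4.Lor

/-!
MP_6c826d_gt (S13329): the algebraic relations of the ring around a regular facet (module S1).
-/

set_option autoImplicit false

namespace Pool.Agent.H62.M4

open Finset

variable {n : ℕ}

section RingAlemmas

variable {e : Fin n → V5} {z c : Fin n}

theorem h22_sq : √φ * √φ = φ := Real.mul_self_sqrt φ_pos.le

theorem h22_sqpos : 0 < √φ := Real.sqrt_pos.mpr φ_pos

theorem h22_add2 (t : Fin 5) : t + 1 + 1 = t + 2 := by revert t; decide

theorem h22_add3 (t : Fin 5) : t + 2 + 1 = t + 3 := by revert t; decide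

theorem h22_qz (R : RingD e z c) (t : Fin 5) : B (R.q t) (e z) = 0 := (R.qv t).2.2.1

theorem h22_qc (R : RingD e z c) (t : Fin 5) : B (R.q t) (e c) = 0 := (R.qv t).2.2.2.1

theorem h22_qp (R : RingD e z c) (t : Fin 5) : B (R.q t) (e (R.p t)) = 0 :=
  (R.qv t).2.2.2.2.1

theorem h22_qp1 (R : RingD e z c) (t : Fin 5) : B (R.q t) (e (R.p (t + 1))) = 0 :=
  (R.qv t).2.2.2.2.2.1

theorem h22_qq1 (R : RingD e z c) (t : Fin 5) : B (R.q t) (R.q (t + 1)) = -φ := by
  rw [R.qstep t, B_sub_right, B_smul_right, B_smul_right, (R.qv t).1, h22_qp R t]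
  ring

theorem h22_qq2 (R : RingD e z c) (t : Fin 5) : B (R.q t) (R.q (t + 2)) = -φ ^ 2 := by
  rw [← h22_add2, R.qstep (t + 1), B_sub_right, B_smul_right, B_smul_right, h22_qq1 R t,
    h22_qp1 R t]
  ring

theorem h22_srt (R : RingD e z c) (t : Fin 5) : 0 < √(R.C t ^ 2 - 1) := by
  have := R.C1 t
  exact Real.sqrt_pos.mpr (by nlinarith)

/-- products of the `k`'s -/
theorem h22_kkB (F : Facts e) (R : RingD e z c) (s t : Fin 5) :
    B (e (R.k s)) (e (R.k t)) * (√(R.C s ^ 2 - 1) * √(R.C t ^ 2 - 1)) =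
      B (R.q s) (R.q t) + R.C s * R.C t := by
  have hs := h22_srt R s
  have ht := h22_srt R t
  have h1 : B (e (R.k s)) (e (R.k t)) =
      (1 / √(R.C s ^ 2 - 1)) * (1 / √(R.C t ^ 2 - 1)) * (B (R.q s) (R.q t) + R.C s * R.C t) := by
    rw [R.kform s, R.kform t]
    simp only [B_sub_right, B_smul_right, B_sub_left, B_smul_left]
    rw [h22_qc R s, B_comm (e c) (R.q t), h22_qc R t, F.norm c]
    ring
  rw [h1]
  field_simp

/-- product of `k t` with an arbitrary vector -/
theorem h22_kB (R : RingD e z c) (t : Fin 5) (y : V5) :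
    B y (e (R.k t)) * √(R.C t ^ 2 - 1) = B y (R.q t) - R.C t * B y (e c) := by
  have ht := h22_srt R t
  rw [R.kform t]
  simp only [B_sub_right, B_smul_right]
  field_simp

theorem h22_kne (R : RingD e z c) (t : Fin 5) : R.k t ≠ R.k (t + 1) := by
  intro h
  have h1 : B (e (R.p (t + 2))) (e (R.k (t + 1))) = 0 := by
    rw [← h22_add2]
    exact (R.kQ (t + 1)).2.2.2.2.2.2
  rw [← h] at h1
  have h2 := h22_kB R t (e (R.p (t + 2)))
  rw [h1, zero_mul, R.pstep t] at h2
  have h3 : B (e (R.p t)) (R.q t) = 0 := by rw [B_comm]; exact h22_qp R t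
  have h4 : B (e (R.p t)) (e c) = 0 := by
    rw [B_comm]
    exact (R.pQ t).2.2.2.1.2
  simp only [B_sub_left, B_smul_left] at h2
  rw [(R.qv t).1, h22_qc R t, h3, h4] at h2
  have := h22_sqpos
  linarith

theorem h22_zp (R : RingD e z c) (t : Fin 5) : Adj e z (R.p t) := (R.pQ t).2.1

theorem h22_cp (R : RingD e z c) (t : Fin 5) : Adj e c (R.p t) := (R.pQ t).2.2.2.1

/-- `w` is none of the facets at `q t` -/
theorem h22_wq (R : RingD e z c) {w : Fin n} (hw : Adj e z w) (hwc : w ≠ c)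
    (hwc' : ¬ Adj e c w) (t : Fin 5) : B (e w) (R.q t) < 0 := by
  rw [B_comm]
  refine (R.qv t).2.2.2.2.2.2 w hw.1.symm hwc ?_ ?_
  · intro h
    exact hwc' (h ▸ h22_cp R t)
  · intro h
    exact hwc' (h ▸ h22_cp R (t + 1))

theorem h22_wc (F : Facts e) {w : Fin n} (hwc : w ≠ c) (hwc' : ¬ Adj e c w) :
    B (e w) (e c) < -1 := by
  rcases F.dich w c hwc with h | h
  · exact (hwc' ⟨hwc.symm, by rw [B_comm]; exact h⟩).elim
  · exact h

/-- neighbours in a pentagon -/
theorem h22_pent_nb {d : Fin 5 → Fin n} (hn : ∀ t, ¬ Adj e (d t) (d (t + 2))) {a s : Fin 5}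
    (h : Adj e (d a) (d s)) : s = a + 1 ∨ s = a + 4 := by
  have h0 : s ≠ a := by
    intro h0
    rw [h0] at h
    exact h.1 rfl
  have h2 : s ≠ a + 2 := by
    intro h2
    rw [h2] at h
    exact hn a h
  have h3 : a ≠ s + 2 := by
    intro h3
    rw [h3] at h
    exact hn s h.symm
  clear hn h
  revert a s
  decide

/-- two neighbours of `k` in the link of the 2-face `z ∩ p` are all its neighbours -/
theorem h22_two (F : Facts e) {i j k a b : Fin n} (ha : Q4 e i j k a) (hb : Q4 e i j k b)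
    (hab : a ≠ b) {m : Fin n} (hm : Q4 e i j k m) : m = a ∨ m = b := by
  obtain ⟨l', h1, h2, h3⟩ := F.two i j k a ha
  have hb' : b = l' := by
    rcases h3 b hb with h | h
    · exact (hab h.symm).elim
    · exact h
  rw [hb']
  exact h3 m hm

theorem h22_CC_le (R : RingD e z c) (t : Fin 5)
    (hkk : Adj e (R.k t) (R.k (t + 1)) ↔ R.C t * R.C (t + 1) = φ)
    (hlt : ¬ Adj e (R.k t) (R.k (t + 1)) →
      R.C t * R.C (t + 1) + √((R.C t ^ 2 - 1) * (R.C (t + 1) ^ 2 - 1)) < φ) :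
    R.C t * R.C (t + 1) ≤ φ := by
  by_cases h : Adj e (R.k t) (R.k (t + 1))
  · exact (hkk.mp h).le
  · have h1 := hlt h
    have h2 := Real.sqrt_nonneg ((R.C t ^ 2 - 1) * (R.C (t + 1) ^ 2 - 1))
    linarith

theorem h22_sqrt_mul (R : RingD e z c) (s t : Fin 5) :
    √((R.C s ^ 2 - 1) * (R.C t ^ 2 - 1)) = √(R.C s ^ 2 - 1) * √(R.C t ^ 2 - 1) := by
  have := R.C1 s
  exact Real.sqrt_mul (by nlinarith) _

theorem h22_pent_mp (hP : Pent e) (R : RingD e z c) (t : Fin 5) (hm : mm e z (R.p (t + 1)) = 5) :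
    Adj e (R.k t) (R.k (t + 1)) := by
  obtain ⟨a1, a2, a3, a4, a5, a6⟩ := R.kQ t
  obtain ⟨b1, b2, b3, b4, b5, b6⟩ := R.kQ (t + 1)
  rw [h22_add2] at b2 b4 b6
  have hQ : Q4 e z (R.p (t + 1)) (R.p t) (R.k t) := ⟨a2, a1, a3, a4.symm, a6, a5⟩
  obtain ⟨d, dinj, d0, d1, dQ, dall, dnon⟩ := hP z (R.p (t + 1)) (R.p t) (R.k t) hQ hm
  -- `c` is `d 4`
  obtain ⟨s, hs⟩ := dall c R.zc (h22_cp R (t + 1)).symm
  have hs1 : Adj e (d 0) (d s) := by
    rw [d0, ← hs]
    exact (h22_cp R t).symm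
  have hc4 : c = d 4 := by
    rcases h22_pent_nb dnon hs1 with h | h
    · exfalso
      have h4 : (0 + 1 : Fin 5) = 1 := by decide
      rw [h, h4] at hs
      exact R.kc t (d1.symm.trans hs.symm)
    · rw [hs, h]
      rfl
  -- `p (t + 2)` is `d 3`
  obtain ⟨s', hs'⟩ := dall (R.p (t + 2)) b2 b4
  have hs2 : Adj e (d 4) (d s') := by
    rw [← hc4, ← hs']
    exact h22_cp R (t + 2)
  have hp3 : R.p (t + 2) = d 3 := by
    rcases h22_pent_nb dnon hs2 with h | h
    · exfalso
      have h4 : (4 + 1 : Fin 5) = 0 := by decide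
      rw [h, h4, d0] at hs'
      have h5 := R.pinj hs'
      have h6 : t + 2 ≠ t := by
        clear * -
        revert t
        decide
      exact h6 h5
    · have h4 : (4 + 4 : Fin 5) = 3 := by decide
      rw [hs', h, h4]
  -- `k (t + 1)` is `d 2`
  obtain ⟨s'', hs''⟩ := dall (R.k (t + 1)) b3 b5
  have hs3 : Adj e (d 3) (d s'') := by
    rw [← hp3, ← hs'']
    exact b6
  have hk2 : R.k (t + 1) = d 2 := by
    rcases h22_pent_nb dnon hs3 with h | h
    · exfalso
      have h4 : (3 + 1 : Fin 5) = 4 := by decide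
      rw [h, h4, ← hc4] at hs''
      exact R.kc (t + 1) hs''
    · have h4 : (3 + 4 : Fin 5) = 2 := by decide
      rw [hs'', h, h4]
  have h6 := (dQ 1).2.2.2.2.2
  have h7 : (1 + 1 : Fin 5) = 2 := by decide
  rw [h7, d1, ← hk2] at h6
  exact h6

theorem h22_pent_mpr (F : Facts e) (h5 : FiveSpec e) (hc2 : Conn2Spec e) (R : RingD e z c)
    (t : Fin 5) (hk : Adj e (R.k t) (R.k (t + 1))) : mm e z (R.p (t + 1)) = 5 := by
  classical
  obtain ⟨a1, a2, a3, a4, a5, a6⟩ := R.kQ t
  obtain ⟨b1, b2, b3, b4, b5, b6⟩ := R.kQ (t + 1)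
  rw [h22_add2] at b2 b4 b6
  have c0 := h22_cp R t
  have c1 := h22_cp R (t + 1)
  have c2 := h22_cp R (t + 2)
  have hpp : R.p t ≠ R.p (t + 2) := by
    intro h
    have h5 := R.pinj h
    have h6 : t ≠ t + 2 := by
      clear * -
      revert t
      decide
    exact h6 h5
  have q1 : Q4 e z (R.p (t + 1)) c (R.p t) := ⟨a2, R.zc, a1, c1.symm, a4.symm, c0⟩
  have q2 : Q4 e z (R.p (t + 1)) c (R.p (t + 2)) := ⟨a2, R.zc, b2, c1.symm, b4, c2⟩
  have q3 : Q4 e z (R.p (t + 1)) (R.p t) c := ⟨a2, a1, R.zc, a4.symm, c1.symm, c0.symm⟩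
  have q4 : Q4 e z (R.p (t + 1)) (R.p t) (R.k t) := ⟨a2, a1, a3, a4.symm, a6, a5⟩
  have q5 : Q4 e z (R.p (t + 1)) (R.k t) (R.p t) := ⟨a2, a3, a1, a6, a4.symm, a5.symm⟩
  have q6 : Q4 e z (R.p (t + 1)) (R.k t) (R.k (t + 1)) := ⟨a2, a3, b3, a6, b5, hk⟩
  have q7 : Q4 e z (R.p (t + 1)) (R.k (t + 1)) (R.k t) := ⟨a2, b3, a3, b5, a6, hk.symm⟩
  have q8 : Q4 e z (R.p (t + 1)) (R.k (t + 1)) (R.p (t + 2)) := ⟨a2, b3, b2, b5, b4, b6.symm⟩
  have q9 : Q4 e z (R.p (t + 1)) (R.p (t + 2)) (R.k (t + 1)) := ⟨a2, b2, b3, b4, b5, b6⟩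
  have q10 : Q4 e z (R.p (t + 1)) (R.p (t + 2)) c := ⟨a2, b2, R.zc, b4, c1.symm, c2.symm⟩
  -- `p t ≠ k (t + 1)`, `k t ≠ p (t + 2)`
  have n1 : R.p t ≠ R.k (t + 1) := by
    intro h
    rw [← h] at b6
    exact R.pnon t b6.symm
  have n2 : R.k t ≠ R.p (t + 2) := by
    intro h
    rw [h] at a5
    exact R.pnon t a5
  let D : Finset (Fin n) := {c, R.p t, R.k t, R.k (t + 1), R.p (t + 2)}
  have hD : ∀ m, Adj e z m → Adj e (R.p (t + 1)) m → m ∈ (D : Set (Fin n)) := by
    refine hc2 z (R.p (t + 1)) (D : Set (Fin n)) ⟨c, R.p t, q1, by simp [D], by simp [D]⟩ ?_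
    intro k l l' _ hk' _ hl'
    have hk'' : k = c ∨ k = R.p t ∨ k = R.k t ∨ k = R.k (t + 1) ∨ k = R.p (t + 2) := by
      simpa [D] using hk'
    have goal : l' = c ∨ l' = R.p t ∨ l' = R.k t ∨ l' = R.k (t + 1) ∨ l' = R.p (t + 2) := by
      rcases hk'' with rfl | rfl | rfl | rfl | rfl
      · rcases h22_two F q1 q2 hpp hl' with h | h <;> tauto
      · rcases h22_two F q3 q4 (R.kc t).symm hl' with h | h <;> tauto
      · rcases h22_two F q5 q6 n1 hl' with h | h <;> tauto
      · rcases h22_two F q7 q8 n2 hl' with h | h <;> tauto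
      · rcases h22_two F q9 q10 (R.kc (t + 1)) hl' with h | h <;> tauto
    simpa [D] using goal
  have hcard : D.card ≤ 5 := by
    refine (card_insert_le _ _).trans ?_
    refine Nat.succ_le_succ ((card_insert_le _ _).trans ?_)
    refine Nat.succ_le_succ ((card_insert_le _ _).trans ?_)
    refine Nat.succ_le_succ ((card_insert_le _ _).trans ?_)
    simp
  have hle : mm e z (R.p (t + 1)) ≤ D.card := by
    unfold mm
    apply card_le_card
    intro m hm
    obtain ⟨-, h1, h2⟩ := mem_filter.mp hm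
    exact hD m h1 h2
  have := h5 z (R.p (t + 1)) a2
  omega

end RingAlemmas

theorem ringA {e : Fin n → V5} (F : Facts e) (h5 : FiveSpec e) (hP : Pent e) (hc2 : Conn2Spec e)
    {z c : Fin n} (R : RingD e z c) : RingA e z c R := by
  have hkk : ∀ t, Adj e (R.k t) (R.k (t + 1)) ↔ R.C t * R.C (t + 1) = φ := by
    intro t
    have h1 := h22_kkB F R t (t + 1)
    rw [h22_qq1] at h1
    have hs := h22_srt R t
    have ht := h22_srt R (t + 1)
    constructor
    · intro h
      rw [h.2, zero_mul] at h1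
      linarith
    · intro h
      rw [h] at h1
      have h2 : B (e (R.k t)) (e (R.k (t + 1))) = 0 := by
        have h3 : √(R.C t ^ 2 - 1) * √(R.C (t + 1) ^ 2 - 1) ≠ 0 := (mul_pos hs ht).ne'
        have h4 : B (e (R.k t)) (e (R.k (t + 1))) *
            (√(R.C t ^ 2 - 1) * √(R.C (t + 1) ^ 2 - 1)) = 0 := by linarith
        exact (mul_eq_zero.mp h4).resolve_right h3
      exact ⟨h22_kne R t, h2⟩
  have hkklt : ∀ t, ¬ Adj e (R.k t) (R.k (t + 1)) →
      R.C t * R.C (t + 1) + √((R.C t ^ 2 - 1) * (R.C (t + 1) ^ 2 - 1)) < φ := by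
    intro t hn
    have h1 := h22_kkB F R t (t + 1)
    rw [h22_qq1] at h1
    have hs := h22_srt R t
    have ht := h22_srt R (t + 1)
    rw [h22_sqrt_mul]
    rcases F.dich _ _ (h22_kne R t) with h | h
    · exact (hn ⟨h22_kne R t, h⟩).elim
    · have h2 := mul_pos hs ht
      nlinarith
  have hle : ∀ t, R.C t * R.C (t + 1) ≤ φ := fun t => h22_CC_le R t (hkk t) (hkklt t)
  have hlt2 : ∀ t, R.C t * R.C (t + 2) < φ ^ 2 := by
    intro t
    have h1 := hle t
    have h2 := hle (t + 1)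
    rw [h22_add2] at h2
    have c0 := R.C1 t
    have c1 := R.C1 (t + 1)
    have c2 := R.C1 (t + 2)
    have h3 : R.C t < φ := by nlinarith
    have h4 : R.C (t + 2) < φ := by nlinarith
    nlinarith [φ_pos]
  have hneg2 : ∀ t, B (e (R.k t)) (e (R.k (t + 2))) < 0 := by
    intro t
    have h1 := h22_kkB F R t (t + 2)
    rw [h22_qq2] at h1
    have h2 := mul_pos (h22_srt R t) (h22_srt R (t + 2))
    have h3 := hlt2 t
    by_contra h
    push Not at h
    have := mul_nonneg h h2.le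
    linarith
  have hkk2 : ∀ t, ¬ Adj e (R.k t) (R.k (t + 2)) := fun t h => by
    have := hneg2 t
    rw [h.2] at this
    exact lt_irrefl _ this
  have hΩ : ∀ w, Adj e z w → w ≠ c → ¬ Adj e c w → ∀ t,
      B (e w) (R.q t) = B (e w) (e c) * Om R w t := by
    intro w hw hwc hwc' t
    have hA := h22_wc F hwc hwc'
    have hA0 : B (e w) (e c) ≠ 0 := by
      intro h
      rw [h] at hA
      linarith
    unfold Om
    rw [mul_div_cancel₀ _ hA0]
  have hkΩ : ∀ w, Adj e z w → w ≠ c → ¬ Adj e c w → ∀ t,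
      B (e w) (e (R.k t)) * √(R.C t ^ 2 - 1) = B (e w) (e c) * (Om R w t - R.C t) := by
    intro w hw hwc hwc' t
    rw [h22_kB R t (e w), hΩ w hw hwc hwc' t]
    ring
  have homeq : ∀ w, Adj e z w → w ≠ c → ¬ Adj e c w → ∀ t,
      Adj e w (R.k t) ↔ Om R w t = R.C t := by
    intro w hw hwc hwc' t
    have h1 := hkΩ w hw hwc hwc' t
    have hA := h22_wc F hwc hwc'
    have hs := h22_srt R t
    constructor
    · intro h
      rw [h.2, zero_mul] at h1
      have h2 : Om R w t - R.C t = 0 := by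
        rcases mul_eq_zero.mp h1.symm with h3 | h3
        · linarith
        · exact h3
      linarith
    · intro h
      rw [h, sub_self, mul_zero] at h1
      have h2 : B (e w) (e (R.k t)) = 0 := (mul_eq_zero.mp h1).resolve_right hs.ne'
      refine ⟨?_, h2⟩
      intro h3
      rw [← h3, F.norm w] at h2
      exact one_ne_zero h2
  refine ⟨hkk, hkklt, hkk2, ?_, ?_, ?_, ?_, ?_, homeq, ?_⟩
  · intro t
    have h1 := h22_kkB F R t (t + 2)
    rw [h22_qq2] at h1
    have h2 := mul_pos (h22_srt R t) (h22_srt R (t + 2))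
    have hne : R.k t ≠ R.k (t + 2) := by
      intro h
      have h3 := hneg2 t
      rw [← h, F.norm] at h3
      linarith
    rw [h22_sqrt_mul]
    rcases F.dich _ _ hne with h | h
    · exact (hkk2 t ⟨hne, h⟩).elim
    · nlinarith
  · intro t
    exact ⟨fun h => h22_pent_mp hP R t h, fun h => h22_pent_mpr F h5 hc2 R t h⟩
  · intro w _ _ _ t
    have hq : R.q (t + 3) = R.q t + φ • (R.q (t + 2) - R.q (t + 1)) := by
      have h1 := R.qstep (t + 2)
      rw [h22_add3, R.pstep t] at h1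
      have h2 := R.qstep t
      rw [h1]
      have h3 : √φ • e (R.p t) = φ • R.q t - R.q (t + 1) := by
        rw [h2]
        simp
      have h4 : √φ • (√φ • R.q t - φ • e (R.p t)) = φ • R.q t - φ • (√φ • e (R.p t)) := by
        rw [smul_sub, smul_smul, h22_sq, smul_smul, smul_smul, mul_comm √φ φ]
      rw [h4, h3]
      have h5 : φ • (φ • R.q t - R.q (t + 1)) = R.q t + φ • R.q t - φ • R.q (t + 1) := by
        rw [smul_sub, smul_smul]
        have h6 : φ * φ = φ + 1 := by rw [← φ_sq]; ring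
        rw [h6, add_smul, one_smul]
        abel
      rw [h5, smul_sub]
      abel
    unfold Om
    rw [hq, B_add_right, B_smul_right, B_sub_right]
    ring
  · intro w hw hwc hwc' t
    have hA := h22_wc F hwc hwc'
    exact div_pos_of_neg_of_neg (h22_wq R hw hwc hwc' t) (by linarith)
  · intro w hw hwc hwc' t hwk
    have h1 := hkΩ w hw hwc hwc' t
    have hA := h22_wc F hwc hwc'
    have hs := h22_srt R t
    have h2 : B (e w) (e (R.k t)) ≤ 0 := by
      rcases F.dich _ _ hwk with h | h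
      · exact h.le
      · linarith
    have h3 : B (e w) (e (R.k t)) * √(R.C t ^ 2 - 1) ≤ 0 := mul_nonpos_of_nonpos_of_nonneg h2 hs.le
    rw [h1] at h3
    by_contra h4
    push Not at h4
    have h5 : 0 < B (e w) (e c) * (Om R w t - R.C t) :=
      mul_pos_of_neg_of_neg (by linarith) (by linarith)
    linarith
  · intro w u t hw hwc hwc' hwp hwk hwk' hu huc huc' hwu
    have hA := h22_wc F hwc hwc'
    have hU := h22_wc F huc huc'
    have e1 := (homeq w hw hwc hwc' t).mp hwk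
    have e2 := (homeq w hw hwc hwc' (t + 1)).mp hwk'
    have f1 := hΩ w hw hwc hwc' t
    have f2 := hΩ w hw hwc hwc' (t + 1)
    rw [e1] at f1
    rw [e2] at f2
    have g1 := hΩ u hu huc huc' t
    have g2 := hΩ u hu huc huc' (t + 1)
    obtain ⟨a1, a2, a3, a4, a5, a6⟩ := R.pQ t
    have hF := frame_form (F.norm z) (F.norm c) (F.norm (R.p t)) (F.norm (R.p (t + 1))) (R.qv t).1
      a1.2 a2.2 a3.2 a4.2 a5.2 a6.2 (h22_qz R t) (h22_qc R t) (h22_qp R t) (h22_qp1 R t)
      (e w) (e u)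
    rw [hwu.2, B_comm (e w) (e z), hw.2, hwp.2, f1, g1] at hF
    have hs1 : √φ * B (e w) (e (R.p t)) = B (e w) (e c) * (φ * R.C t - R.C (t + 1)) := by
      rw [R.qstep t, B_sub_right, B_smul_right, B_smul_right, f1] at f2
      linarith
    have hs2 : √φ * B (e u) (e (R.p t)) =
        B (e u) (e c) * (φ * Om R u t - Om R u (t + 1)) := by
      rw [R.qstep t, B_sub_right, B_smul_right, B_smul_right, g1] at g2
      linarith
    have hprod : φ * (B (e w) (e (R.p t)) * B (e u) (e (R.p t))) =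
        B (e w) (e c) * (φ * R.C t - R.C (t + 1)) *
          (B (e u) (e c) * (φ * Om R u t - Om R u (t + 1))) := by
      rw [← hs1, ← hs2]
      nth_rewrite 1 [← h22_sq]
      ring
    have hne : B (e w) (e c) * B (e u) (e c) ≠ 0 := by
      apply ne_of_gt
      exact mul_pos_of_neg_of_neg (by linarith) (by linarith)
    have hmain : B (e w) (e c) * B (e u) (e c) *
        (φ - ((φ * R.C (t + 1) - R.C t) * Om R u t + (φ * R.C t - R.C (t + 1)) * Om R u (t + 1)))
        = 0 := by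
      have h9 : φ ^ 2 = φ + 1 := φ_sq
      have h10 : φ * (B (e w) (e c) * B (e u) (e c) + B (e w) (e (R.p t)) * B (e u) (e (R.p t))
          - B (e w) (e c) * R.C t * (B (e u) (e c) * Om R u t)) = 0 := by
        have h11 : B (e w) (e c) * B (e u) (e c) + B (e w) (e (R.p t)) * B (e u) (e (R.p t))
          - B (e w) (e c) * R.C t * (B (e u) (e c) * Om R u t) = 0 := by linarith
        rw [h11, mul_zero]
      have h12 : φ * (B (e w) (e c) * B (e u) (e c)) +
          B (e w) (e c) * (φ * R.C t - R.C (t + 1)) *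
          (B (e u) (e c) * (φ * Om R u t - Om R u (t + 1)))
          - φ * (B (e w) (e c) * R.C t * (B (e u) (e c) * Om R u t)) = 0 := by
        rw [← hprod]
        linarith
      have h13 : φ * φ = φ + 1 := by rw [← h9]; ring
      linear_combination h12 - B (e w) (e c) * B (e u) (e c) * R.C t * Om R u t * h13
    have := (mul_eq_zero.mp hmain).resolve_left hne
    linarith

end Pool.Agent.H62.M4
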