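import Pool.Agent.H62.M4.Spec

/-!
MP_6c826d_gt (S13329), m_4 = 120.  Modules S6 (`sing`) and S7 (`f18`).
-/

set_option autoImplicit false

namespace Pool.Agent.H62.M4

open Finset

variable {n : ℕ}

/-! ### excesses -/

open Classical in
theorem sg_eps {e : Fin n → V5} (hE : EulerSpec e) (h5 : FiveSpec e) (i : Fin n) :
    (∑ j ∈ univ.filter (fun j => Adj e i j), (mm e i j - 5)) + 12 = deg e i := by
  have h := hE i
  have h2 : ∑ j ∈ univ.filter (fun j => Adj e i j), mm e i j =
      ∑ j ∈ univ.filter (fun j => Adj e i j), (mm e i j - 5) + 5 * deg e i := by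
    have h3 : 5 * deg e i = ∑ j ∈ univ.filter (fun j => Adj e i j), 5 := by
      unfold deg
      rw [Finset.sum_const, smul_eq_mul]
      ring
    rw [h3, ← Finset.sum_add_distrib]
    apply Finset.sum_congr rfl
    intro j hj
    have := h5 i j (by simpa using hj)
    omega
  omega

open Classical in
theorem sg_sum_le {e : Fin n → V5} (hE : EulerSpec e) (h5 : FiveSpec e) (i : Fin n)
    (S : Finset (Fin n)) (hS : ∀ j ∈ S, Adj e i j) :
    (∑ j ∈ S, (mm e i j - 5)) + 12 ≤ deg e i := by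
  rw [← sg_eps hE h5 i]
  have : ∑ j ∈ S, (mm e i j - 5) ≤
      ∑ j ∈ univ.filter (fun j => Adj e i j), (mm e i j - 5) := by
    apply Finset.sum_le_sum_of_subset
    intro j hj
    simpa using hS j hj
  omega

/-- `12 ≤ d_i`, `x_ij ≤ ε_i` -/
theorem sg_le {e : Fin n → V5} (hE : EulerSpec e) (h5 : FiveSpec e) {i j : Fin n}
    (h : Adj e i j) : mm e i j + 7 ≤ deg e i := by
  have h1 := sg_sum_le hE h5 i {j} (by simpa using h)
  have h2 := h5 i j h
  rw [Finset.sum_singleton] at h1
  omega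

theorem sg_reg {e : Fin n → V5} (hE : EulerSpec e) (h5 : FiveSpec e) {i j : Fin n}
    (hi : deg e i = 12) (h : Adj e i j) : mm e i j = 5 := by
  have h1 := sg_le hE h5 h
  have h2 := h5 i j h
  omega

/-- two different neighbours -/
theorem sg_two {e : Fin n → V5} (hE : EulerSpec e) (h5 : FiveSpec e) {i j k : Fin n}
    (hj : Adj e i j) (hk : Adj e i k) (hjk : j ≠ k) :
    mm e i j + mm e i k + 2 ≤ deg e i := by
  have h1 := sg_sum_le hE h5 i {j, k} (by
    intro t ht
    simp only [Finset.mem_insert, Finset.mem_singleton] at ht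
    rcases ht with rfl | rfl
    · exact hj
    · exact hk)
  have h2 := h5 i j hj
  have h3 := h5 i k hk
  rw [Finset.sum_pair hjk] at h1
  omega

/-! ### the five `k t` are distinct -/

theorem sg_kinj {e : Fin n → V5} {z c : Fin n} (R : RingD e z c) :
    Function.Injective R.k := by
  -- if `k t = k s` then `p t` and `p (t+1)` are among `p s, p (s+1)`
  have key : ∀ s t : Fin 5, R.k t = R.k s → ∀ a : Fin 5, B (R.q t) (e (R.p a)) = 0 →
      R.p a = R.p s ∨ R.p a = R.p (s + 1) := by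
    intro s t hk a ha
    have hpa : ∃ m, Q4 e z c (R.p a) m := ⟨_, R.pQ a⟩
    obtain ⟨m, hm⟩ := hpa
    have hcz : B (e c) (e (R.p a)) = 0 := hm.2.2.2.1.2
    have h1 := R.kform t
    have h2 := R.kform s
    rw [hk, h2] at h1
    have h3 := congrArg (fun y => B y (e (R.p a))) h1
    simp only [B_sub_left, B_smul_left, hcz, ha, mul_zero, sub_zero] at h3
    have hC : 0 < 1 / √(R.C s ^ 2 - 1) := by
      apply one_div_pos.mpr
      apply Real.sqrt_pos.mpr
      have := R.C1 s
      nlinarith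
    have h4 : B (R.q s) (e (R.p a)) = 0 := by
      rcases mul_eq_zero.mp h3 with h | h
      · exact absurd h hC.ne'
      · exact h
    by_contra hne
    push Not at hne
    have hv := (R.qv s).2.2.2.2.2.2 (R.p a) (fun h => hm.2.1.1 h.symm)
      (fun h => hm.2.2.2.1.1 h.symm) hne.1 hne.2
    linarith
  intro t s hk
  have h1 := key s t hk t (R.qv t).2.2.2.2.1
  have h2 := key s t hk (t + 1) (R.qv t).2.2.2.2.2.1
  rw [R.pinj.eq_iff, R.pinj.eq_iff] at h1 h2
  revert h1 h2
  clear hk key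
  revert t s
  decide

/-! ### S6 -/

theorem sing {e : Fin n → V5} (F : Facts e) (hE : EulerSpec e) (h5 : FiveSpec e)
    (hA : ∀ z c (R : RingD e z c), RingA e z c R)
    (hH1 : ∀ z c (R : RingD e z c), ¬ ∃ s, mm e z (R.p s) ≠ 5 ∧ ∀ t, t ≠ s → mm e z (R.p t) = 5)
    (hH0 : ∀ z c (R : RingD e z c), deg e z ≠ 12 → (∀ t, mm e z (R.p t) = 5) →
      ∀ t, 6 ≤ mm e z (R.k t))
    (hC : CountSpec e) (hN : NASpec e) : SingSpec e := by
  intro z c R hc hz
  refine ⟨hH1 z c R, hH0 z c R hz, ?_⟩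
  by_contra hlt
  have hle : deg e z ≤ 16 := by omega
  by_cases hall : ∀ t, mm e z (R.p t) = 5
  · have h6 := hH0 z c R hz hall
    have h7 := sg_sum_le hE h5 z (univ.image R.k) (by
      intro j hj
      simp only [Finset.mem_image, Finset.mem_univ, true_and] at hj
      obtain ⟨t, rfl⟩ := hj
      exact (R.kQ t).2.2.1)
    rw [Finset.sum_image (fun a _ b _ h => sg_kinj R h)] at h7
    have h8 : ∑ t : Fin 5, 1 ≤ ∑ t : Fin 5, (mm e z (R.k t) - 5) := by
      apply Finset.sum_le_sum
      intro t _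
      have := h6 t
      omega
    simp at h8
    omega
  · push Not at hall
    obtain ⟨s, hs⟩ := hall
    by_cases htwo : ∃ t, t ≠ s ∧ mm e z (R.p t) ≠ 5
    · obtain ⟨t, hts, ht⟩ := htwo
      obtain ⟨h1, h2⟩ := hC z c R hle ⟨t, s, hts, ht, hs⟩
      exact hN z c R h1 h2
    · push Not at htwo
      exact hH1 z c R ⟨s, hs, htwo⟩

/-! ### S7 -/

theorem f18 {e : Fin n → V5} (F : Facts e) (hE : EulerSpec e) (h5 : FiveSpec e)
    (hR : RingSpec e) (hS : SingSpec e) : F18Spec e := by
  intro z c hzc hc hz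
  obtain ⟨R⟩ := hR z c hzc hc
  have S := hS z c R hc hz
  have hz17 := S.S1
  -- singular neighbours of regular facets have degree at least 17
  have h17 : ∀ a b, Adj e a b → deg e b = 12 → deg e a ≠ 12 → 17 ≤ deg e a := by
    intro a b hab hb ha
    obtain ⟨R'⟩ := hR a b hab hb
    exact (hS a b R' hb ha).S1
  -- the corner `(z, p a, c, p (a+1))`
  have hQ : ∀ a, Q4 e z (R.p a) c (R.p (a + 1)) := by
    intro a
    obtain ⟨h1, h2, h3, h4, h5', h6⟩ := R.pQ a
    exact ⟨h2, h1, h3, h4.symm, h6, h5'⟩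
  -- lower bound for `f` at this corner, in terms of integers
  have hf : ∀ a, (2 * (deg e z : ℝ) + 2 * deg e (R.p a) - 48 - ((mm e z (R.p a) : ℝ) - 5)) ≤
      ff e z (R.p a) c (R.p (a + 1)) := by
    intro a
    obtain ⟨h1, h2, h3, h4, h5', h6⟩ := hQ a
    have e1 : mm e z c = 5 := by rw [mm_comm]; exact sg_reg hE h5 hc h2.symm
    have e2 : mm e (R.p a) c = 5 := by rw [mm_comm]; exact sg_reg hE h5 hc h4.symm
    have e3 : mm e c (R.p (a + 1)) = 5 := sg_reg hE h5 hc h6
    have e4 := sg_le hE h5 h3.symm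
    have e5 := sg_le hE h5 h5'.symm
    have e6 := h5 _ _ h3
    have e7 := h5 _ _ h5'
    rw [mm_comm] at e4 e5
    have e4' : (mm e z (R.p (a + 1)) : ℝ) + 7 ≤ deg e (R.p (a + 1)) := by exact_mod_cast e4
    have e5' : (mm e (R.p a) (R.p (a + 1)) : ℝ) + 7 ≤ deg e (R.p (a + 1)) := by
      exact_mod_cast e5
    unfold ff
    rw [e1, e2, e3, hc]
    push_cast
    linarith
  by_cases h1 : ∃ a, deg e (R.p a) ≠ 12 ∧ mm e z (R.p a) = 5
  · -- case (1)
    obtain ⟨a, ha, hm⟩ := h1
    refine ⟨z, R.p a, c, R.p (a + 1), hQ a, le_trans ?_ (hf a)⟩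
    have h2 := h17 (R.p a) c (hQ a).2.2.2.1 hc ha
    have h2' : (17 : ℝ) ≤ deg e (R.p a) := by exact_mod_cast h2
    have h3' : (17 : ℝ) ≤ deg e z := by exact_mod_cast hz17
    rw [hm]
    push_cast
    linarith
  · push Not at h1
    by_cases h2 : ∃ a, deg e (R.p a) ≠ 12
    · -- case (2)
      obtain ⟨a, ha⟩ := h2
      have hma := h1 a ha
      have hb : ∃ b, b ≠ a ∧ mm e z (R.p b) ≠ 5 := by
        by_contra hcon
        push Not at hcon
        exact S.H1 ⟨a, hma, hcon⟩
      obtain ⟨b, hba, hmb⟩ := hb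
      have hsing : ∀ t, mm e z (R.p t) ≠ 5 → 17 ≤ deg e (R.p t) := by
        intro t ht
        refine h17 (R.p t) c (hQ t).2.2.2.1 hc ?_
        intro hreg
        apply ht
        rw [mm_comm]
        exact sg_reg hE h5 hreg (hQ t).1.symm
      have hsum := sg_two hE h5 (hQ a).1 (hQ b).1 (fun h => hba (R.pinj h).symm)
      have hfin : ∀ t, mm e z (R.p t) ≠ 5 → 2 * mm e z (R.p t) + 2 ≤ deg e z →
          ∃ i j k l, Q4 e i j k l ∧ 18 ≤ ff e i j k l := by
        intro t ht hle
        refine ⟨z, R.p t, c, R.p (t + 1), hQ t, le_trans ?_ (hf t)⟩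
        have h3 := hsing t ht
        have h4 : 18 + 48 + mm e z (R.p t) ≤ 2 * deg e z + 2 * deg e (R.p t) + 5 := by omega
        have h5' : (18 : ℝ) + 48 + mm e z (R.p t) ≤ 2 * deg e z + 2 * deg e (R.p t) + 5 := by
          exact_mod_cast h4
        linarith
      rcases le_total (mm e z (R.p a)) (mm e z (R.p b)) with hab | hab
      · exact hfin a hma (by omega)
      · exact hfin b hmb (by omega)
    · -- case (3)
      push Not at h2
      have hp5 : ∀ t, mm e z (R.p t) = 5 := by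
        intro t
        rw [mm_comm]
        exact sg_reg hE h5 (h2 t) (hQ t).1.symm
      have hk6 := S.H0 hp5
      -- the smallest `x`
      obtain ⟨a, -, hmin⟩ := Finset.exists_min_image (univ : Finset (Fin 5))
        (fun t => mm e z (R.k t)) ⟨0, Finset.mem_univ _⟩
      have h7 := sg_sum_le hE h5 z (univ.image R.k) (by
        intro j hj
        simp only [Finset.mem_image, Finset.mem_univ, true_and] at hj
        obtain ⟨t, rfl⟩ := hj
        exact (R.kQ t).2.2.1)
      rw [Finset.sum_image (fun a _ b _ h => sg_kinj R h)] at h7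
      have h8 : ∑ t : Fin 5, (mm e z (R.k a) - 5) ≤ ∑ t : Fin 5, (mm e z (R.k t) - 5) := by
        apply Finset.sum_le_sum
        intro t _
        have := hmin t (Finset.mem_univ _)
        omega
      simp only [Finset.sum_const, Finset.card_univ, Fintype.card_fin, smul_eq_mul] at h8
      obtain ⟨g1, g2, g3, g4, g5, g6⟩ := R.kQ a
      -- `(z, k a, p a, p (a+1))`
      refine ⟨z, R.k a, R.p a, R.p (a + 1), ⟨g3, g1, g2, g5.symm, g6.symm, g4⟩, ?_⟩
      have hks : deg e (R.k a) ≠ 12 := by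
        intro hreg
        have := hk6 a
        rw [mm_comm, sg_reg hE h5 hreg g3.symm] at this
        omega
      have hk17 := h17 (R.k a) (R.p a) g5.symm (h2 a) hks
      have e1 : mm e z (R.p a) = 5 := hp5 a
      have e2 : mm e z (R.p (a + 1)) = 5 := hp5 (a + 1)
      have e3 : mm e (R.k a) (R.p a) = 5 := by
        rw [mm_comm]; exact sg_reg hE h5 (h2 a) g5
      have e4 : mm e (R.k a) (R.p (a + 1)) = 5 := by
        rw [mm_comm]; exact sg_reg hE h5 (h2 (a + 1)) g6
      have e5 : mm e (R.p a) (R.p (a + 1)) = 5 := sg_reg hE h5 (h2 a) g4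
      have h9 : 18 + 48 + mm e z (R.k a) ≤ 2 * deg e z + 2 * deg e (R.k a) + 5 := by
        have := hk6 a
        omega
      have h9' : (18 : ℝ) + 48 + mm e z (R.k a) ≤ 2 * deg e z + 2 * deg e (R.k a) + 5 := by
        exact_mod_cast h9
      unfold ff
      rw [e1, e2, e3, e4, e5, h2 a, h2 (a + 1)]
      push_cast
      linarith

end Pool.Agent.H62.M4
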