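import Pool.Agent.H62.M4.Spec

/-!
S2, S3: the facets `p t` of the ring.
-/

set_option autoImplicit false

namespace Pool.Agent.H62.M4

open Finset

variable {n : ℕ}

theorem h63_four (s t : Fin 5) (h : s ≠ t) : s = t + 1 ∨ s = t + 2 ∨ s = t + 3 ∨ s = t + 4 := by
  revert h; revert s t; decide

theorem h63_C_eq {e : Fin n → V5} {z c : Fin n} (R : RingD e z c) {a b d : Fin 5}
    (h1 : R.C a * R.C b = φ) (h2 : R.C b * R.C d = φ) : R.C d = R.C a := by
  have hb : 0 < R.C b := lt_trans one_pos (R.C1 b)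
  have h3 : R.C b * R.C d = R.C b * R.C a := by rw [h2, ← h1]; ring
  exact mul_left_cancel₀ hb.ne' h3

theorem singH1 {e : Fin n → V5} (F : Facts e) {z c : Fin n} (R : RingD e z c)
    (A : RingA e z c R) : ¬ ∃ s, mm e z (R.p s) ≠ 5 ∧ ∀ t, t ≠ s → mm e z (R.p t) = 5 := by
  rintro ⟨s, hs, h5⟩
  have key : ∀ t, t + 1 ≠ s → R.C t * R.C (t + 1) = φ := fun t ht =>
    (A.kk t).1 ((A.pent t).1 (h5 (t + 1) ht))
  have f1 : s + 1 ≠ s := (by decide : ∀ s : Fin 5, s + 1 ≠ s) s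
  have f2 : s + 1 + 1 ≠ s := (by decide : ∀ s : Fin 5, s + 1 + 1 ≠ s) s
  have f3 : s + 2 + 1 ≠ s := (by decide : ∀ s : Fin 5, s + 2 + 1 ≠ s) s
  have f4 : s + 3 + 1 ≠ s := (by decide : ∀ s : Fin 5, s + 3 + 1 ≠ s) s
  have k0 := key s f1
  have k1 := key (s + 1) f2
  have k2 := key (s + 2) f3
  have k3 := key (s + 3) f4
  have g1 : s + 1 + 1 = s + 2 := (by decide : ∀ s : Fin 5, s + 1 + 1 = s + 2) s
  have g2 : s + 2 + 1 = s + 3 := (by decide : ∀ s : Fin 5, s + 2 + 1 = s + 3) s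
  have g3 : s + 3 + 1 = s + 4 := (by decide : ∀ s : Fin 5, s + 3 + 1 = s + 4) s
  have g4 : s + 4 + 1 = s := (by decide : ∀ s : Fin 5, s + 4 + 1 = s) s
  have g5 : s + 1 + 2 = s + 3 := (by decide : ∀ s : Fin 5, s + 1 + 2 = s + 3) s
  rw [g1] at k1
  rw [g2] at k2
  rw [g3] at k3
  have e1 : R.C (s + 2) = R.C s := h63_C_eq R k0 k1
  have e2 : R.C (s + 3) = R.C (s + 1) := h63_C_eq R k1 k2
  have e3 : R.C (s + 4) = R.C (s + 2) := h63_C_eq R k2 k3
  have hns : ¬ Adj e (R.k (s + 4)) (R.k (s + 4 + 1)) := by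
    intro h
    apply hs
    have := (A.pent (s + 4)).2 h
    rwa [g4] at this
  have l1 := A.kk_lt (s + 4) hns
  have l2 := A.kk2_lt (s + 1)
  rw [g4, e3, e1] at l1
  rw [g5, e2] at l2
  have hC := R.C1 s
  have hD := R.C1 (s + 1)
  set C := R.C s
  set D := R.C (s + 1)
  have r1 : √((C ^ 2 - 1) * (C ^ 2 - 1)) = C ^ 2 - 1 := Real.sqrt_mul_self (by nlinarith)
  have r2 : √((D ^ 2 - 1) * (D ^ 2 - 1)) = D ^ 2 - 1 := Real.sqrt_mul_self (by nlinarith)
  rw [r1] at l1
  rw [r2] at l2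
  have hφ := φ_sq
  have hφ2 := φ_lt_two
  have hφ0 := φ_pos
  -- `2C² < 1+φ`, `2D² < 1+φ²`, `CD = φ`
  have m1 : 2 * C ^ 2 < 1 + φ := by nlinarith
  have m2 : 2 * D ^ 2 < 2 + φ := by nlinarith
  have m3 : (2 * C ^ 2) * (2 * D ^ 2) < (1 + φ) * (2 + φ) := by
    apply mul_lt_mul'' m1 m2 (by positivity) (by positivity)
  have m4 : (2 * C ^ 2) * (2 * D ^ 2) = 4 * φ ^ 2 := by rw [← k0]; ring
  rw [m4, hφ] at m3
  nlinarith

/-- two known completions of a triangle are the only ones -/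
theorem h63_two {e : Fin n → V5} (F : Facts e) {i j k a b m : Fin n} (ha : Q4 e i j k a)
    (hb : Q4 e i j k b) (hab : a ≠ b) (hm : Q4 e i j k m) : m = a ∨ m = b := by
  obtain ⟨l', _, _, h3⟩ := F.two i j k a ha
  have h4 : b = l' := by
    rcases h3 b hb with h | h
    · exact absurd h.symm hab
    · exact h
  rw [h4]
  exact h3 m hm

section ring
variable {e : Fin n → V5} {z c : Fin n}

theorem h63_kz (R : RingD e z c) (t : Fin 5) : Adj e z (R.k t) := (R.kQ t).2.2.1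
theorem h63_pz (R : RingD e z c) (t : Fin 5) : Adj e z (R.p t) := (R.kQ t).1
theorem h63_pp (R : RingD e z c) (t : Fin 5) : Adj e (R.p t) (R.p (t + 1)) := (R.kQ t).2.2.2.1
theorem h63_pk (R : RingD e z c) (t : Fin 5) : Adj e (R.p t) (R.k t) := (R.kQ t).2.2.2.2.1
theorem h63_pk1 (R : RingD e z c) (t : Fin 5) : Adj e (R.p (t + 1)) (R.k t) :=
  (R.kQ t).2.2.2.2.2
theorem h63_cp (R : RingD e z c) (t : Fin 5) : Adj e c (R.p t) := (R.pQ t).2.2.2.1

theorem h63_bpos (R : RingD e z c) (t : Fin 5) : 0 < R.C t / √(R.C t ^ 2 - 1) := by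
  have h := R.C1 t
  have : 0 < R.C t ^ 2 - 1 := by nlinarith
  exact div_pos (by linarith) (Real.sqrt_pos.2 this)

theorem h63_apos (R : RingD e z c) (t : Fin 5) : 0 < 1 / √(R.C t ^ 2 - 1) := by
  have h := R.C1 t
  have : 0 < R.C t ^ 2 - 1 := by nlinarith
  exact div_pos one_pos (Real.sqrt_pos.2 this)

theorem h63_ck (F : Facts e) (R : RingD e z c) (t : Fin 5) : ¬ Adj e c (R.k t) := by
  intro h
  have h1 := h.2
  rw [R.kform t, B_sub_right, B_smul_right, B_smul_right, F.norm, B_comm (e c) (R.q t)] at h1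
  have h2 : B (R.q t) (e c) = 0 := (R.qv t).2.2.2.1
  rw [h2] at h1
  have := h63_bpos R t
  linarith

theorem h63_pkn (F : Facts e) (R : RingD e z c) (s t : Fin 5) (h1 : s ≠ t) (h2 : s ≠ t + 1) :
    ¬ Adj e (R.p s) (R.k t) := by
  intro h
  have h3 := h.2
  have h4 : B (R.q t) (e (R.p s)) < 0 := by
    apply (R.qv t).2.2.2.2.2.2
    · exact (h63_pz R s).1.symm
    · exact (h63_cp R s).1.symm
    · exact fun h => h1 (R.pinj h)
    · exact fun h => h2 (R.pinj h)
  rw [R.kform t, B_sub_right, B_smul_right, B_smul_right, B_comm (e (R.p s)) (R.q t),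
    B_comm (e (R.p s)) (e c), (h63_cp R s).2] at h3
  have := mul_neg_of_pos_of_neg (h63_apos R t) h4
  linarith

theorem h63_kinj (F : Facts e) (R : RingD e z c) {s t : Fin 5} (h : R.k s = R.k t) : s = t := by
  by_contra hne
  by_cases h1 : s = t + 1
  · subst h1
    have h2 : t + 1 + 1 ≠ t := (by decide : ∀ t : Fin 5, t + 1 + 1 ≠ t) t
    have h3 : t + 1 + 1 ≠ t + 1 := (by decide : ∀ t : Fin 5, t + 1 + 1 ≠ t + 1) t
    have h4 := h63_pk1 R (t + 1)
    rw [h] at h4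
    exact h63_pkn F R _ _ h2 h3 h4
  · have h4 := h63_pk R s
    rw [h] at h4
    exact h63_pkn F R _ _ hne h1 h4

theorem h63_kp (F : Facts e) (R : RingD e z c) (s t : Fin 5) : R.k s ≠ R.p t := by
  intro h
  apply h63_ck F R s
  rw [h]
  exact h63_cp R t

end ring

theorem h63_fin (s t : Fin 5) : s = t ∨ t = s + 1 ∨ s = t + 1 ∨ t = s + 2 ∨ s = t + 2 := by
  revert s t; decide

theorem h63_Q4_swap {e : Fin n → V5} {z j k m : Fin n} (h : Q4 e z j k m) : Q4 e z k j m :=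
  ⟨h.2.1, h.1, h.2.2.1, h.2.2.2.1.symm, h.2.2.2.2.2, h.2.2.2.2.1⟩

open Classical in
theorem singH0 {e : Fin n → V5} (F : Facts e) (hE : EulerSpec e) (h5 : FiveSpec e) (hP : Pent e)
    (hc : ConnSpec e) {z c : Fin n} (R : RingD e z c) (A : RingA e z c R) (hz : deg e z ≠ 12) :
    (∀ t, mm e z (R.p t) = 5) → ∀ t, 6 ≤ mm e z (R.k t) := by
  intro hp b
  by_contra hb6
  have hkz := h63_kz R
  have hpz := h63_pz R
  have hcp := h63_cp R
  have hkb : mm e z (R.k b) = 5 := by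
    have := h5 z (R.k b) (hkz b)
    omega
  -- all the `C t` agree
  have key : ∀ t, R.C t * R.C (t + 1) = φ := fun t => (A.kk t).1 ((A.pent t).1 (hp (t + 1)))
  have hkk : ∀ t, Adj e (R.k t) (R.k (t + 1)) := fun t => (A.kk t).2 (key t)
  have hC2 : ∀ t, R.C (t + 2) = R.C t := by
    intro t
    have h1 := key (t + 1)
    have e1 : t + 1 + 1 = t + 2 := (by decide : ∀ t : Fin 5, t + 1 + 1 = t + 2) t
    rw [e1] at h1
    exact h63_C_eq R (key t) h1
  have hCt : ∀ s t, R.C s = R.C t := by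
    intro s t
    have g1 : ∀ t : Fin 5, R.C (t + 1) = R.C t := by
      intro t
      have h1 := hC2 t
      have h2 := hC2 (t + 2)
      have h3 := hC2 (t + 2 + 2)
      have e1 : t + 2 + 2 + 2 = t + 1 := (by decide : ∀ t : Fin 5, t + 2 + 2 + 2 = t + 1) t
      rw [e1] at h3
      rw [h3, h2, h1]
    rcases h63_fin s t with h | h | h | h | h
    · rw [h]
    · rw [h, g1]
    · rw [h, g1]
    · rw [h, hC2]
    · rw [h, hC2]
  -- the pentagon `k b`
  obtain ⟨c', hinj, hc0, hc1, hcQ, hcall, hcn⟩ := hP z (R.k b) (R.p b) (R.p (b + 1))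
    ⟨hkz b, hpz b, hpz (b + 1), (h63_pk R b).symm, (h63_pk1 R b).symm, h63_pp R b⟩ hkb
  have b1 : b + 1 ≠ b := (by decide : ∀ b : Fin 5, b + 1 ≠ b) b
  have b4 : b + 4 + 1 = b := (by decide : ∀ b : Fin 5, b + 4 + 1 = b) b
  -- the neighbours `c' 2`, `c' 4`
  have hQ1 : Q4 e z (R.k b) (R.p (b + 1)) (R.p b) :=
    ⟨hkz b, hpz (b + 1), hpz b, (h63_pk1 R b).symm, (h63_pk R b).symm, (h63_pp R b).symm⟩
  have hQ2 : Q4 e z (R.k b) (R.p (b + 1)) (R.k (b + 1)) :=
    ⟨hkz b, hpz (b + 1), hkz (b + 1), (h63_pk1 R b).symm, hkk b, h63_pk R (b + 1)⟩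
  have hQ3 : Q4 e z (R.k b) (R.p b) (R.p (b + 1)) := ⟨hkz b, hpz b, hpz (b + 1),
    (h63_pk R b).symm, (h63_pk1 R b).symm, h63_pp R b⟩
  have hkk4 : Adj e (R.k (b + 4)) (R.k b) := by have := hkk (b + 4); rwa [b4] at this
  have hpk4 : Adj e (R.p b) (R.k (b + 4)) := by have := h63_pk1 R (b + 4); rwa [b4] at this
  have hQ4' : Q4 e z (R.k b) (R.p b) (R.k (b + 4)) :=
    ⟨hkz b, hpz b, hkz (b + 4), (h63_pk R b).symm, hkk4.symm, hpk4⟩
  have hc2 : c' 2 = R.k (b + 1) := by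
    have h1 := hcQ 1
    have e1 : (1 : Fin 5) + 1 = 2 := rfl
    rw [hc1, e1] at h1
    rcases h63_two F hQ1 hQ2 (h63_kp F R _ _).symm h1 with h | h
    · exfalso
      rw [← hc0] at h
      exact absurd (hinj h) (by decide)
    · exact h
  have hc4 : c' 4 = R.k (b + 4) := by
    have h1 := hcQ 4
    have e1 : (4 : Fin 5) + 1 = 0 := rfl
    rw [e1, hc0] at h1
    have h2 : Q4 e z (R.k b) (R.p b) (c' 4) :=
      ⟨h1.1, h1.2.2.1, h1.2.1, h1.2.2.2.2.1, h1.2.2.2.1, h1.2.2.2.2.2.symm⟩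
    rcases h63_two F hQ3 hQ4' (h63_kp F R _ _).symm h2 with h | h
    · exfalso
      rw [← hc1] at h
      exact absurd (hinj h) (by decide)
    · exact h
  set u := c' 3 with hu
  have h23 := hcQ 2
  have h34 := hcQ 3
  have e1 : (2 : Fin 5) + 1 = 3 := rfl
  have e2 : (3 : Fin 5) + 1 = 4 := rfl
  rw [e1, hc2, ← hu] at h23
  rw [e2, hc4, ← hu] at h34
  have huz : Adj e z u := h23.2.2.1
  have hub : Adj e u (R.k b) := h23.2.2.2.2.1.symm
  have hub1 : Adj e u (R.k (b + 1)) := h23.2.2.2.2.2.symm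
  have hub4 : Adj e u (R.k (b + 4)) := h34.2.2.2.2.2
  have huc : u ≠ c := by
    intro h
    rw [h] at hub
    exact h63_ck F R b hub
  have hucn : ¬ Adj e c u := by
    intro h
    obtain ⟨t, ht⟩ := R.pall u huz h
    have h1 : t ≠ b := by
      rintro rfl
      rw [← hc0] at ht
      exact absurd (hinj (hu ▸ ht)) (by decide)
    have h2 : t ≠ b + 1 := by
      rintro rfl
      rw [← hc1] at ht
      exact absurd (hinj (hu ▸ ht)) (by decide)
    rw [ht] at hub
    exact h63_pkn F R t b h1 h2 hub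
  -- `u` is adjacent to all the `k t`
  have o0 := (A.om_eq u huz huc hucn b).1 hub
  have o1 := (A.om_eq u huz huc hucn (b + 1)).1 hub1
  have o4 := (A.om_eq u huz huc hucn (b + 4)).1 hub4
  have r1 := A.om_rel u huz huc hucn (b + 4)
  have r2 := A.om_rel u huz huc hucn b
  have b43 : b + 4 + 3 = b + 2 := (by decide : ∀ b : Fin 5, b + 4 + 3 = b + 2) b
  have b42 : b + 4 + 2 = b + 1 := (by decide : ∀ b : Fin 5, b + 4 + 2 = b + 1) b
  rw [b43, b42, b4, o0, o1, o4, hCt (b + 1) b, hCt (b + 4) b] at r1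
  have o2 : Om R u (b + 2) = R.C b := by linarith
  rw [o2, o1, o0, hCt (b + 1) b] at r2
  have o3 : Om R u (b + 3) = R.C b := by linarith
  have huk : ∀ t, Adj e u (R.k t) := by
    intro t
    rw [A.om_eq u huz huc hucn t]
    by_cases h : t = b
    · rw [h]; exact o0
    · rcases h63_four t b h with h | h | h | h
      · rw [h]; exact o1
      · rw [h, hCt (b + 2) b]; exact o2
      · rw [h, hCt (b + 3) b]; exact o3
      · rw [h]; exact o4
  -- `u` is not adjacent to any `p t`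
  have hup : ∀ t, ¬ Adj e u (R.p t) := by
    intro t h
    have e4 : t + 4 + 1 = t := (by decide : ∀ t : Fin 5, t + 4 + 1 = t) t
    have hk1 : Q4 e z (R.p t) (R.k t) (R.p (t + 1)) :=
      ⟨hpz t, hkz t, hpz (t + 1), h63_pk R t, h63_pp R t, (h63_pk1 R t).symm⟩
    have hk4 : Adj e (R.k (t + 4)) (R.k t) := by have := hkk (t + 4); rwa [e4] at this
    have hk5 : Adj e (R.p t) (R.k (t + 4)) := by have := h63_pk1 R (t + 4); rwa [e4] at this
    have hk2 : Q4 e z (R.p t) (R.k t) (R.k (t + 4)) :=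
      ⟨hpz t, hkz t, hkz (t + 4), h63_pk R t, hk5, hk4.symm⟩
    have hk3 : Q4 e z (R.p t) (R.k t) u := ⟨hpz t, hkz t, huz, h63_pk R t, h.symm, (huk t).symm⟩
    rcases h63_two F hk1 hk2 (h63_kp F R _ _).symm hk3 with h6 | h6
    · apply hucn
      rw [h6]
      exact hcp _
    · exact (huk (t + 4)).1 h6
  have hucp : ∀ t, u ≠ R.p t := fun t h => hucn (by rw [h]; exact hcp t)
  have huck : ∀ t, u ≠ R.k t := fun t => (huk t).1
  -- the set `D`
  set D : Set (Fin n) := {x | x = c ∨ x = u ∨ (∃ t, x = R.p t) ∨ ∃ t, x = R.k t} with hD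
  have Dc : c ∈ D := Or.inl rfl
  have Du : u ∈ D := Or.inr (Or.inl rfl)
  have Dp : ∀ t, R.p t ∈ D := fun t => Or.inr (Or.inr (Or.inl ⟨t, rfl⟩))
  have Dk : ∀ t, R.k t ∈ D := fun t => Or.inr (Or.inr (Or.inr ⟨t, rfl⟩))
  have fin2 : ∀ {j k a a' m : Fin n}, Q4 e z j k a → Q4 e z j k a' → a ≠ a' → a ∈ D → a' ∈ D →
      Q4 e z j k m → m ∈ D := by
    intro j k a a' m h1 h2 h3 h4 h5' h6
    rcases h63_two F h1 h2 h3 h6 with h | h <;> rw [h] <;> assumption
  -- closedness for each pair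
  have cC : ∀ k m, Q4 e z c k m → m ∈ D := by
    intro k m h
    obtain ⟨t, ht⟩ := R.pall m h.2.2.1 h.2.2.2.2.1
    rw [ht]; exact Dp t
  have e41 : ∀ t : Fin 5, t + 4 + 1 = t := by decide
  have hkk4' : ∀ t, Adj e (R.k (t + 4)) (R.k t) := by
    intro t
    have := hkk (t + 4); rwa [e41] at this
  have hpk4' : ∀ t, Adj e (R.p t) (R.k (t + 4)) := by
    intro t
    have := h63_pk1 R (t + 4); rwa [e41] at this
  have t14 : ∀ t : Fin 5, t + 1 ≠ t + 4 := by decide
  have cU : ∀ k ∈ D, ∀ m, Q4 e z u k m → m ∈ D := by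
    rintro k (rfl | rfl | ⟨t, rfl⟩ | ⟨t, rfl⟩) m h
    · exact absurd h.2.2.2.1.symm hucn
    · exact absurd rfl h.2.2.2.1.1
    · exact absurd h.2.2.2.1 (hup t)
    · exact fin2 (a := R.k (t + 1)) (a' := R.k (t + 4))
        ⟨huz, hkz t, hkz (t + 1), huk t, huk (t + 1), hkk t⟩
        ⟨huz, hkz t, hkz (t + 4), huk t, huk (t + 4), (hkk4' t).symm⟩
        (fun h => t14 t (h63_kinj F R h)) (Dk _) (Dk _) h
  have cPP : ∀ s t m, Q4 e z (R.p s) (R.p t) m → m ∈ D := by
    have base : ∀ t m, Q4 e z (R.p t) (R.p (t + 1)) m → m ∈ D := by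
      intro t m h
      rcases R.kuniq t m h with h1 | h1
      · rw [h1]; exact Dc
      · rw [h1]; exact Dk t
    intro s t m h
    rcases h63_fin s t with h1 | h1 | h1 | h1 | h1
    · exact absurd (by rw [h1]) h.2.2.2.1.1
    · rw [h1] at h; exact base s m h
    · rw [h1] at h; exact base t m (h63_Q4_swap h)
    · exfalso
      rw [h1] at h
      exact R.pnon s h.2.2.2.1
    · exfalso
      rw [h1] at h
      exact R.pnon t h.2.2.2.1.symm
  have cPK : ∀ s t m, Q4 e z (R.p s) (R.k t) m → m ∈ D := by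
    intro s t m h
    by_cases h1 : s = t
    · subst h1
      exact fin2 (a := R.p (s + 1)) (a' := R.k (s + 4))
        ⟨hpz s, hkz s, hpz (s + 1), h63_pk R s, h63_pp R s, (h63_pk1 R s).symm⟩
        ⟨hpz s, hkz s, hkz (s + 4), h63_pk R s, hpk4' s, (hkk4' s).symm⟩
        (h63_kp F R _ _).symm (Dp _) (Dk _) h
    · by_cases h2 : s = t + 1
      · subst h2
        exact fin2 (a := R.p t) (a' := R.k (t + 1))
          ⟨hpz (t + 1), hkz t, hpz t, h63_pk1 R t, (h63_pp R t).symm, (h63_pk R t).symm⟩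
          ⟨hpz (t + 1), hkz t, hkz (t + 1), h63_pk1 R t, h63_pk R (t + 1), hkk t⟩
          (h63_kp F R _ _).symm (Dp _) (Dk _) h
      · exact absurd h.2.2.2.1 (h63_pkn F R s t h1 h2)
  have cKK : ∀ s t m, Q4 e z (R.k s) (R.k t) m → m ∈ D := by
    have base : ∀ t m, Q4 e z (R.k t) (R.k (t + 1)) m → m ∈ D := by
      intro t m h
      exact fin2 (a := R.p (t + 1)) (a' := u)
        ⟨hkz t, hkz (t + 1), hpz (t + 1), hkk t, (h63_pk1 R t).symm, (h63_pk R (t + 1)).symm⟩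
        ⟨hkz t, hkz (t + 1), huz, hkk t, (huk t).symm, (huk (t + 1)).symm⟩
        (hucp _).symm (Dp _) Du h
    intro s t m h
    rcases h63_fin s t with h1 | h1 | h1 | h1 | h1
    · exact absurd (by rw [h1]) h.2.2.2.1.1
    · rw [h1] at h; exact base s m h
    · rw [h1] at h; exact base t m (h63_Q4_swap h)
    · exfalso
      rw [h1] at h
      exact A.kk2 s h.2.2.2.1
    · exfalso
      rw [h1] at h
      exact A.kk2 t h.2.2.2.1.symm
  have closed : ∀ j k l l', Q4 e z j k l → j ∈ D → k ∈ D → l ∈ D → Q4 e z j k l' → l' ∈ D := by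
    intro j k l l' _ hj hk _ h
    rcases hj with rfl | rfl | ⟨s, rfl⟩ | ⟨s, rfl⟩
    · exact cC k l' h
    · exact cU k hk l' h
    · rcases hk with rfl | rfl | ⟨t, rfl⟩ | ⟨t, rfl⟩
      · exact cC _ l' (h63_Q4_swap h)
      · exact cU _ (Dp s) l' (h63_Q4_swap h)
      · exact cPP s t l' h
      · exact cPK s t l' h
    · rcases hk with rfl | rfl | ⟨t, rfl⟩ | ⟨t, rfl⟩
      · exact cC _ l' (h63_Q4_swap h)
      · exact cU _ (Dk s) l' (h63_Q4_swap h)
      · exact cPK t s l' (h63_Q4_swap h)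
      · exact cKK s t l' h
  have hall := hc z D ⟨c, R.p 0, R.p (0 + 1), R.pQ 0, Dc, Dp _, Dp _⟩ closed
  -- counting
  have hsub : univ.filter (fun j => Adj e z j) ⊆
      insert c (insert u (univ.image R.p ∪ univ.image R.k)) := by
    intro j hj
    rw [Finset.mem_filter] at hj
    simp only [Finset.mem_insert, Finset.mem_union, Finset.mem_image, Finset.mem_univ, true_and]
    rcases hall j hj.2 with h | h | ⟨t, h⟩ | ⟨t, h⟩
    · exact Or.inl h
    · exact Or.inr (Or.inl h)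
    · exact Or.inr (Or.inr (Or.inl ⟨t, h.symm⟩))
    · exact Or.inr (Or.inr (Or.inr ⟨t, h.symm⟩))
  have hcard : deg e z ≤ 12 := by
    unfold deg
    refine (Finset.card_le_card hsub).trans ?_
    refine (Finset.card_insert_le _ _).trans ?_
    have h1 := Finset.card_insert_le u (univ.image R.p ∪ univ.image R.k)
    have h2 := Finset.card_union_le (univ.image R.p) (univ.image R.k)
    have h3 : (univ.image R.p).card ≤ 5 := Finset.card_image_le.trans (by simp)
    have h4 : (univ.image R.k).card ≤ 5 := Finset.card_image_le.trans (by simp)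
    omega
  -- Euler: at least twelve
  have hE1 := hE z
  have hsum : 5 * deg e z ≤ ∑ j ∈ univ.filter (fun j => Adj e z j), mm e z j := by
    unfold deg
    rw [mul_comm, ← smul_eq_mul, ← Finset.sum_const]
    apply Finset.sum_le_sum
    intro j hj
    exact h5 z j (Finset.mem_filter.1 hj).2
  apply hz
  omega

end Pool.Agent.H62.M4
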