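import Pool.Agent.H62.M4.Defs

/-!
MP_6c826d_gt (S13329), m_4 = 120.  Statements (as `Prop`s) exchanged between modules.
-/

set_option autoImplicit false

namespace Pool.Agent.H62.M4

open Finset

variable {n : ℕ}

open Classical in
/-- Euler's relation for the facet `i`:  `∑_{j ~ i} m_{ij} = 6 d_i - 12`. -/
def EulerSpec (e : Fin n → V5) : Prop :=
  ∀ i, (∑ j ∈ univ.filter (fun j => Adj e i j), mm e i j) + 12 = 6 * deg e i

/-- 2-faces have at least five sides -/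
def FiveSpec (e : Fin n → V5) : Prop := ∀ i j, Adj e i j → 5 ≤ mm e i j

/-- no five pairwise adjacent facets -/
def NoFive (e : Fin n → V5) : Prop := ∀ i j k l m, Q4 e i j k l →
  ¬ (Adj e i m ∧ Adj e j m ∧ Adj e k m ∧ Adj e l m)

/-- no square -/
def NoSq (e : Fin n → V5) : Prop := ∀ a b c d, a ≠ c → b ≠ d →
  Adj e a b → Adj e b c → Adj e c d → Adj e d a → Adj e a c ∨ Adj e b d

/-- structure of a pentagonal 2-face -/
def Pent (e : Fin n → V5) : Prop := ∀ i j k l, Q4 e i j k l → mm e i j = 5 →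
  ∃ c : Fin 5 → Fin n, Function.Injective c ∧ c 0 = k ∧ c 1 = l ∧
    (∀ t, Q4 e i j (c t) (c (t + 1))) ∧ (∀ m, Adj e i m → Adj e j m → ∃ t, m = c t) ∧
    ∀ t, ¬ Adj e (c t) (c (t + 2))

/-- structure of a hexagonal 2-face -/
def Hex (e : Fin n → V5) : Prop := ∀ i j k l, Q4 e i j k l → mm e i j = 6 →
  ∃ c : Fin 6 → Fin n, Function.Injective c ∧ c 0 = k ∧ c 1 = l ∧
    (∀ t, Q4 e i j (c t) (c (t + 1))) ∧ (∀ m, Adj e i m → Adj e j m → ∃ t, m = c t) ∧
    (∀ t, ¬ Adj e (c t) (c (t + 2))) ∧ ∀ t, ¬ Adj e (c t) (c (t + 3))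

/-- connectedness of the boundary of the facet `z`: a set of neighbours of `z` containing a corner
and closed under flips contains all neighbours -/
def ConnSpec (e : Fin n → V5) : Prop := ∀ (z : Fin n) (D : Set (Fin n)),
  (∃ j k l, Q4 e z j k l ∧ j ∈ D ∧ k ∈ D ∧ l ∈ D) →
  (∀ j k l l', Q4 e z j k l → j ∈ D → k ∈ D → l ∈ D → Q4 e z j k l' → l' ∈ D) →
  ∀ j, Adj e z j → j ∈ D

/-- connectedness of the boundary of the 2-face `i ∩ j` -/
def Conn2Spec (e : Fin n → V5) : Prop := ∀ (i j : Fin n) (D : Set (Fin n)),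
  (∃ k l, Q4 e i j k l ∧ k ∈ D ∧ l ∈ D) →
  (∀ k l l', Q4 e i j k l → k ∈ D → l ∈ D → Q4 e i j k l' → l' ∈ D) →
  ∀ m, Adj e i m → Adj e j m → m ∈ D

open Classical in
/-- the angles around a 2-face sum up to at most `2π` (each corner is counted twice) -/
def AngleSpec (e : Fin n → V5) : Prop :=
  ∀ x : V5, B x x = -1 → 0 < x 0 → (∀ k, B x (e k) ≤ 0) → ∀ i j, Adj e i j →
    (∑ k, ∑ l, if Q4 e i j k l then angf (uu e x i) (uu e x j) (uu e x k) (uu e x l) else 0)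
      ≤ 4 * Real.pi

/-- the six dihedral angles, with the numerical bound `6 arccos (1/3) ≥ 1.17547 * 2π` -/
def P1Spec : Prop := ∀ a b c d : ℝ, 0 < a → 0 < b → 0 < c → 0 < d →
  1.17547 * (2 * Real.pi) ≤
    angf a b c d + angf a c b d + angf a d b c + angf b c a d + angf b d a c + angf c d a b

/-- `E = (1/2) ∑ (d_i - 12)` -/
noncomputable def EE (e : Fin n → V5) : ℝ := (∑ i, ((deg e i : ℝ) - 12)) / 2

/-- `f(T) = 2 ∑_{i∈T} ε_i - ∑_{edges of T} x_{ij}` -/
noncomputable def ff (e : Fin n → V5) (a b c d : Fin n) : ℝ :=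
  2 * (((deg e a : ℝ) - 12) + ((deg e b : ℝ) - 12) + ((deg e c : ℝ) - 12) + ((deg e d : ℝ) - 12))
  - (((mm e a b : ℝ) - 5) + ((mm e a c : ℝ) - 5) + ((mm e a d : ℝ) - 5) + ((mm e b c : ℝ) - 5)
     + ((mm e b d : ℝ) - 5) + ((mm e c d : ℝ) - 5))

/-- the main inequality -/
def P2Spec (e : Fin n → V5) : Prop := ∀ a b c d, Q4 e a b c d →
  18 + ff e a b c d / 4 + 0.17547 * (5 * n + EE e - 57 - ff e a b c d) ≤ n

/-- a facet with twelve neighbours is a regular dodecahedron: position of the neighbours relative to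
a corner `(i,j,k,l)` with vertex `v`; with `V = √φ v` -/
def RegSpec (e : Fin n → V5) : Prop := ∀ i j k l v, deg e i = 12 → Q4 e i j k l →
  IsVert e i j k l v →
    (∃ m, Adj e i m ∧ e m = √φ • v - φ • e j) ∧
    (∃ m, Adj e i m ∧ e m = (φ * √φ) • v - φ • e j - φ • e k) ∧
    (∃ m, Adj e i m ∧ e m = (φ ^ 2 * √φ) • v - φ ^ 2 • e j - φ • e k - φ • e l)

/-- The neighbourhood in the facet `z` of the face `z ∩ c`, where `c` is a regular facet.
`p t` : the five neighbours of `c` in `z`; `q t` : the vertex at `(z,c,p t,p (t+1))`;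
`k t` : the facet at the other end of the edge of `(z, p t, p (t+1))`;
`C t > 1` : `coth` of the length of this edge. -/
structure RingD (e : Fin n → V5) (z c : Fin n) where
  p : Fin 5 → Fin n
  q : Fin 5 → V5
  k : Fin 5 → Fin n
  C : Fin 5 → ℝ
  zc : Adj e z c
  pinj : Function.Injective p
  pQ : ∀ t, Q4 e z c (p t) (p (t + 1))
  pall : ∀ m, Adj e z m → Adj e c m → ∃ t, m = p t
  pnon : ∀ t, ¬ Adj e (p t) (p (t + 2))
  qv : ∀ t, IsVert e z c (p t) (p (t + 1)) (q t)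
  qstep : ∀ t, q (t + 1) = φ • q t - √φ • e (p t)
  pstep : ∀ t, e (p (t + 2)) = √φ • q t - φ • e (p t)
  kQ : ∀ t, Q4 e z (p t) (p (t + 1)) (k t)
  kc : ∀ t, k t ≠ c
  kuniq : ∀ t m, Q4 e z (p t) (p (t + 1)) m → m = c ∨ m = k t
  C1 : ∀ t, 1 < C t
  kform : ∀ t, e (k t) = (1 / √(C t ^ 2 - 1)) • q t - (C t / √(C t ^ 2 - 1)) • e c

/-- existence of the ring around a regular facet -/
def RingSpec (e : Fin n → V5) : Prop := ∀ z c, Adj e z c → deg e c = 12 → Nonempty (RingD e z c)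

/-- For a facet `w` of `z` not adjacent to `c`: the coordinates `Ω_t(w)` -/
noncomputable def Om {e : Fin n → V5} {z c : Fin n} (R : RingD e z c) (w : Fin n) (t : Fin 5) : ℝ :=
  B (e w) (R.q t) / B (e w) (e c)

/-- algebraic relations of the ring -/
structure RingA (e : Fin n → V5) (z c : Fin n) (R : RingD e z c) : Prop where
  /-- `k t` and `k (t+1)` are adjacent iff `C_t C_{t+1} = φ` -/
  kk : ∀ t, Adj e (R.k t) (R.k (t + 1)) ↔ R.C t * R.C (t + 1) = φ
  kk_lt : ∀ t, ¬ Adj e (R.k t) (R.k (t + 1)) →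
    R.C t * R.C (t + 1) + √((R.C t ^ 2 - 1) * (R.C (t + 1) ^ 2 - 1)) < φ
  /-- `k t` and `k (t+2)` are not adjacent -/
  kk2 : ∀ t, ¬ Adj e (R.k t) (R.k (t + 2))
  kk2_lt : ∀ t, R.C t * R.C (t + 2) + √((R.C t ^ 2 - 1) * (R.C (t + 2) ^ 2 - 1)) < φ ^ 2
  /-- `p (t+1)` is a pentagon of `z` iff `k t ~ k (t+1)` -/
  pent : ∀ t, mm e z (R.p (t + 1)) = 5 ↔ Adj e (R.k t) (R.k (t + 1))
  /-- linear relation -/
  om_rel : ∀ w, Adj e z w → w ≠ c → ¬ Adj e c w → ∀ t,
    Om R w (t + 3) - Om R w t = φ * (Om R w (t + 2) - Om R w (t + 1))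
  om_pos : ∀ w, Adj e z w → w ≠ c → ¬ Adj e c w → ∀ t, 0 < Om R w t
  om_le : ∀ w, Adj e z w → w ≠ c → ¬ Adj e c w → ∀ t, w ≠ R.k t → R.C t ≤ Om R w t
  om_eq : ∀ w, Adj e z w → w ≠ c → ¬ Adj e c w → ∀ t, Adj e w (R.k t) ↔ Om R w t = R.C t
  /-- relation for a facet `w` adjacent to `p (t+1)`, `k t`, `k (t+1)` -/
  e_rel : ∀ w u t, Adj e z w → w ≠ c → ¬ Adj e c w → Adj e w (R.p (t + 1)) → Adj e w (R.k t) →
    Adj e w (R.k (t + 1)) → Adj e z u → u ≠ c → ¬ Adj e c u → Adj e w u →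
    (φ * R.C (t + 1) - R.C t) * Om R u t + (φ * R.C t - R.C (t + 1)) * Om R u (t + 1) = φ

/-- counting in a small facet `z`: if `d_z ≤ 16` and at least two of the `p t` are not pentagons, then
exactly two are not pentagons, they are hexagons, and at most one of the `k t` is not a pentagon -/
def CountSpec (e : Fin n → V5) : Prop := ∀ z c (R : RingD e z c), deg e z ≤ 16 →
  (∃ s t, s ≠ t ∧ mm e z (R.p s) ≠ 5 ∧ mm e z (R.p t) ≠ 5) →
  (∃ s t, s ≠ t ∧ mm e z (R.p s) = 6 ∧ mm e z (R.p t) = 6 ∧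
    ∀ a, a ≠ s → a ≠ t → mm e z (R.p a) = 5) ∧
  ∃ b, ∀ a, a ≠ b → mm e z (R.k a) = 5

/-- the geometric contradiction for the configurations left by `CountSpec` -/
def NASpec (e : Fin n → V5) : Prop := ∀ z c (R : RingD e z c),
  (∃ s t, s ≠ t ∧ mm e z (R.p s) = 6 ∧ mm e z (R.p t) = 6 ∧
    ∀ a, a ≠ s → a ≠ t → mm e z (R.p a) = 5) →
  (∃ b, ∀ a, a ≠ b → mm e z (R.k a) = 5) → False

/-- results of the analysis of a singular facet `z` adjacent to a regular facet `c` -/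
structure SingA (e : Fin n → V5) (z c : Fin n) (R : RingD e z c) : Prop where
  /-- not exactly one non-pentagon among the `p t` -/
  H1 : ¬ ∃ s, mm e z (R.p s) ≠ 5 ∧ ∀ t, t ≠ s → mm e z (R.p t) = 5
  /-- if all the `p t` are pentagons of `z`, then no `k t` is -/
  H0 : (∀ t, mm e z (R.p t) = 5) → ∀ t, 6 ≤ mm e z (R.k t)
  /-- `ε_z ≥ 5` -/
  S1 : 17 ≤ deg e z

/-- the analysis of singular facets adjacent to regular ones -/
def SingSpec (e : Fin n → V5) : Prop := ∀ z c (R : RingD e z c),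
  deg e c = 12 → deg e z ≠ 12 → SingA e z c R

/-- a corner with large `f` near a singular facet adjacent to a regular one -/
def F18Spec (e : Fin n → V5) : Prop := ∀ z c, Adj e z c → deg e c = 12 → deg e z ≠ 12 →
  ∃ i j k l, Q4 e i j k l ∧ 18 ≤ ff e i j k l

open Classical in
/-- if there are fewer than 120 facets and a regular one, then at least 12 singular facets are
adjacent to regular ones -/
def ManySpec (e : Fin n → V5) : Prop := n < 120 → ∀ c, deg e c = 12 →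
  12 ≤ (univ.filter (fun z => deg e z ≠ 12 ∧ ∃ c', Adj e z c' ∧ deg e c' = 12)).card

end Pool.Agent.H62.M4
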